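import Pool.Agent.FbT.Tr

/-!
# FbT, part Ky: the complex of homomorphisms between two short or long complexes

`(N, V, D)` and `(N', V', D')` are short or long complexes of representations of `Z ⋊ E` over the field
`k` of characteristic `p`, `N`, `N'` relatively projective, `2 h ≤ q = |Z|`.
-/

set_option autoImplicit false

namespace Pool.Agent.FbT

open Pool.Agent.Sig Pool.Agent.DD

variable {k Z E : Type} [Field k] [CommGroup Z] [Fintype Z] [CommGroup E] [Fintype E]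
  {θ : E →* MulAut Z} {p r : ℕ} {z₀ : Z} {h : ℕ} {N V N' V' : Type}
  [AddCommGroup N] [Module k N] [AddCommGroup V] [Module k V]
  [AddCommGroup N'] [Module k N'] [AddCommGroup V'] [Module k V']
  {ν : Representation k (Z ⋊[θ] E) N} {σ : Representation k (Z ⋊[θ] E) V}
  {ν' : Representation k (Z ⋊[θ] E) N'} {σ' : Representation k (Z ⋊[θ] E) V'}
  {D : N →ₗ[k] V} {D' : N' →ₗ[k] V'}

private theorem KA1_yo {G V₁ V₂ : Type} [Group G] [AddCommGroup V₁] [Module k V₁] [AddCommGroup V₂]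
    [Module k V₂] {σ₁ : Representation k G V₁} {σ₂ : Representation k G V₂} {y : G}
    {f : V₁ →ₗ[k] V₂} (hf : Eqv σ₁ σ₂ f) (n : ℕ) (v : V₁) :
    f (((yo σ₁ y) ^ n) v) = ((yo σ₂ y) ^ n) (f v) := by
  induction n generalizing v with
  | zero => rw [pow_zero, pow_zero, Module.End.one_apply, Module.End.one_apply]
  | succ n ih =>
    have h1 : f ((yo σ₁ y) v) = (yo σ₂ y) (f v) := by
      show f (σ₁ y v - v) = σ₂ y (f v) - f v
      rw [map_sub, hf]
    rw [pow_succ, pow_succ, Module.End.mul_apply, Module.End.mul_apply, ih, h1]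

/-- MODULE KA1. The splitting of a short complex. PROOF. `r` from `prj_retract`, `e = id - D r`;
`e (y-1)^h v = e (D x) = D x - D (r (D x)) = 0`; `(y-1)^h (e v) = e ((y-1)^h v)` as `e` is
equivariant. -/
theorem short_split (hN : Prj ν) (hD : Eqv ν σ D) (hi : Function.Injective D) {y : Z ⋊[θ] E}
    (hs : ∀ v : V, ((yo σ y) ^ h) v ∈ LinearMap.range D) :
    ∃ (r : V →ₗ[k] N) (e : V →ₗ[k] V), Eqv σ ν r ∧ Eqv σ σ e ∧ (∀ x, r (D x) = x) ∧
      (∀ v, v = D (r v) + e v) ∧ (∀ x, e (D x) = 0) ∧ (∀ v, e (e v) = e v) ∧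
      (∀ v, e (((yo σ y) ^ h) v) = 0) ∧ ∀ v, ((yo σ y) ^ h) (e v) = 0 := by
  obtain ⟨r, hr, hrD⟩ := prj_retract hN hD hi
  have he : Eqv σ σ (LinearMap.id - D ∘ₗ r) := fun g v => by
    simp only [LinearMap.sub_apply, LinearMap.id_apply, LinearMap.comp_apply, map_sub]
    rw [hr, hD]
  have heD : ∀ x, (LinearMap.id - D ∘ₗ r : V →ₗ[k] V) (D x) = 0 := fun x => by
    rw [LinearMap.sub_apply, LinearMap.id_apply, LinearMap.comp_apply, hrD, sub_self]
  refine ⟨r, LinearMap.id - D ∘ₗ r, hr, he, hrD, fun v => ?_, heD, fun v => ?_, fun v => ?_,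
    fun v => ?_⟩
  · rw [LinearMap.sub_apply, LinearMap.id_apply, LinearMap.comp_apply, add_sub_cancel]
  · conv_lhs =>
      rw [LinearMap.sub_apply (LinearMap.id : V →ₗ[k] V) (D ∘ₗ r) v, map_sub,
        LinearMap.id_apply, LinearMap.comp_apply, heD, sub_zero]
  · obtain ⟨x, hx⟩ := hs v
    rw [← hx]
    exact heD x
  · rw [← KA1_yo he]
    obtain ⟨x, hx⟩ := hs v
    rw [← hx]
    exact heD x

/-- MODULE KA1. Factoring an equivariant map through a surjective one. PROOF. `w = f s₀`, `s₀` a linear right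
inverse of `D`; `w (D x) = f x` as `x - s₀ (D x) ∈ ker D`; equivariant because `D` is onto. -/
theorem factor_surj (hD : Eqv ν σ D) (hs : Function.Surjective D) {f : N →ₗ[k] N'}
    (hf : Eqv ν ν' f) (hk : ∀ x, D x = 0 → f x = 0) :
    ∃ w : V →ₗ[k] N', Eqv σ ν' w ∧ ∀ x, w (D x) = f x := by
  obtain ⟨s₀, hs₀⟩ := LinearMap.exists_rightInverse_of_surjective D (LinearMap.range_eq_top.2 hs)
  have hD₀ : ∀ v, D (s₀ v) = v := fun v => DFunLike.congr_fun hs₀ v
  have hw : ∀ x, (f ∘ₗ s₀) (D x) = f x := fun x => by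
    have h := hk (s₀ (D x) - x) (by rw [map_sub, hD₀, sub_self])
    rw [map_sub, sub_eq_zero] at h
    exact h
  refine ⟨f ∘ₗ s₀, fun g v => ?_, hw⟩
  obtain ⟨x, rfl⟩ := hs v
  rw [← hD, hw, hw, hf]

/-- MODULE KA2. A trace kills the short part on both sides: `f : V → V'` a trace, `(y-1)^h v = 0`, and `e'` an
equivariant map of `V'` with `e' (y-1)^h = 0` and `e' f v = f v`: then `f v = 0`. PROOF. `threshold` (`U = ⊤`,
`a = h ≤ q`): `f v = (y-1)^(q-h) w = (y-1)^h ((y-1)^(q-2h) w)`, apply `e'`. -/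
theorem thr_kill (hp : p.Prime) (hch : CharP k p) (hcard : Fintype.card Z = p ^ (r + 1))
    (hgen : ∀ z : Z, z ∈ Subgroup.zpowers z₀) (hh : 2 * h ≤ Fintype.card Z) (φ : V →ₗ[k] V')
    {v : V} (hv : ((yo σ (.inl z₀)) ^ h) v = 0) {e' : V' →ₗ[k] V'}
    (he : ∀ v', e' (((yo σ' (.inl z₀)) ^ h) v') = 0)
    (hev : e' (Trc σ σ' φ v) = Trc σ σ' φ v) : Trc σ σ' φ v = 0 := by
  obtain ⟨w, -, hw⟩ := threshold hp hch hcard hgen σ σ' φ (U := ⊤)
    (fun _ _ _ => Submodule.mem_top) (fun _ => Submodule.mem_top) (a := h) (by omega) hv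
  have e1 : Fintype.card Z - h = h + (Fintype.card Z - 2 * h) := by omega
  rw [← hev, hw, e1, pow_add, Module.End.mul_apply, he]

/-- MODULE KA2. An equivariant map `α' : N → N'` with values in the long kernel `K' = ker D'` kills the long
kernel `ker D`. PROOF. `α' = α' Trc θ = Trc (α' θ)` (`trc_comp`/`comp_trc`), `α' θ` has its values in `K'`, a stable
subspace; `threshold` with `U = K'`, `a = h`: `α' x = (y-1)^(q-h) w`, `w ∈ K'`, and `(y-1)^h w = 0`, `q - h ≥ h`. -/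
theorem long_kill (hp : p.Prime) (hch : CharP k p) (hcard : Fintype.card Z = p ^ (r + 1))
    (hgen : ∀ z : Z, z ∈ Subgroup.zpowers z₀) (hh : 2 * h ≤ Fintype.card Z) (hN : Prj ν)
    (hD' : Eqv ν' σ' D') (hk' : ∀ x, D' x = 0 → ((yo ν' (.inl z₀)) ^ h) x = 0)
    {α : N →ₗ[k] N'} (hα : Eqv ν ν' α) (hv : ∀ x, D' (α x) = 0)
    {x : N} (hx : ((yo ν (.inl z₀)) ^ h) x = 0) : α x = 0 := by
  obtain ⟨t, ht⟩ := hN
  have h1 : Trc ν ν' (α ∘ₗ t) = α := by
    rw [← comp_trc hα, ht, LinearMap.comp_id]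
  obtain ⟨w, hw, hw'⟩ := threshold hp hch hcard hgen ν ν' (α ∘ₗ t) (U := LinearMap.ker D')
    (fun g w hw => by
      rw [LinearMap.mem_ker] at hw ⊢
      rw [hD', hw, map_zero])
    (fun v => LinearMap.mem_ker.2 (hv _)) (a := h) (by omega) hx
  have e1 : Fintype.card Z - h = (Fintype.card Z - 2 * h) + h := by omega
  rw [← h1, hw', e1, pow_add, Module.End.mul_apply, hk' w (LinearMap.mem_ker.1 hw), map_zero]

/-- MODULE KC. A chain map whose component `V → V'` is a trace is null homotopic. PROOF.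
(1) `D` surjective. Then `α` kills `ker D`: if `D'` is injective, `D' (α x) = β (D x) = 0`. If `D'` is
surjective (long), lift the trace `β` to `γ : V → N'`, `D' γ = β` (`trc_lift`), `α' = α - γ D` has `D' α' = 0`,
so `α x = α' x = 0` for `D x = 0` by `long_kill`. `u` with `u D = α` by `factor_surj`, `D' u D = β D`.
(2) `D` injective (short): `r, e` of `short_split`. Look for `u = α r + u₁`, `u₁ D = 0`, `D' u₁ = β e`
(`β = β D r + β e = D' α r + β e`); `β e = Trc (φ e)`. If `D'` is surjective: lift `Trc (φ e)` to `γ`, `u₁ = γ e`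
(`e e = e`). If `D'` is injective (short), `r', e'`: `e' β e = Trc (e' φ e)` is `0` by `thr_kill` (at the vector `e v`,
`(y-1)^h e v = 0`, `e e = e`), so `β e = D' (r' β e)`, `u₁ = r' β e`. -/
theorem ky_mid (hp : p.Prime) (hch : CharP k p) (hcard : Fintype.card Z = p ^ (r + 1))
    (hgen : ∀ z : Z, z ∈ Subgroup.zpowers z₀) (hh : 2 * h ≤ Fintype.card Z) (hN : Prj ν)
    (hN' : Prj ν') (hD : Eqv ν σ D) (hD' : Eqv ν' σ' D') (hS : SL ν σ (.inl z₀) h D)
    (hS' : SL ν' σ' (.inl z₀) h D') {α : N →ₗ[k] N'} {β : V →ₗ[k] V'} (hα : Eqv ν ν' α)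
    (hβ : ∃ φ : V →ₗ[k] V', Trc σ σ' φ = β) (hc : ∀ x, D' (α x) = β (D x)) :
    ∃ u : V →ₗ[k] N', Eqv σ ν' u ∧ (∀ v, β v = D' (u v)) ∧ ∀ x, α x = u (D x) := by
  obtain ⟨φ, hφ⟩ := hβ
  have hβe : Eqv σ σ' β := hφ ▸ trc_eqv σ σ' φ
  rcases hS with ⟨hi, hs⟩ | ⟨hs, hk⟩
  · obtain ⟨r, e, hr, he, hrD, hdec, heD, hee, -, hye⟩ := short_split hN hD hi hs
    have key : ∃ u₁ : V →ₗ[k] N', Eqv σ ν' u₁ ∧ (∀ x, u₁ (D x) = 0) ∧
        ∀ v, D' (u₁ v) = β (e v) := by
      rcases hS' with ⟨hi', hs'⟩ | ⟨hs', -⟩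
      · obtain ⟨r', e', hr', he', -, hdec', -, hee', hey', -⟩ := short_split hN' hD' hi' hs'
        refine ⟨r' ∘ₗ β ∘ₗ e, fun g v => ?_, fun x => ?_, fun v => ?_⟩
        · rw [LinearMap.comp_apply, LinearMap.comp_apply, he, hβe, hr']
          rfl
        · rw [LinearMap.comp_apply, LinearMap.comp_apply, heD, map_zero, map_zero]
        · have h1 : ∀ v, Trc σ σ' (e' ∘ₗ φ) v = e' (β v) := fun v => by
            rw [← comp_trc he', hφ]
            rfl
          have h2 : Trc σ σ' (e' ∘ₗ φ) (e v) = 0 :=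
            thr_kill hp hch hcard hgen hh (e' ∘ₗ φ) (hye v) hey' (by rw [h1, hee'])
          rw [h1] at h2
          have h3 := hdec' (β (e v))
          rw [h2, add_zero] at h3
          exact h3.symm
      · obtain ⟨γ, hγ, hγ'⟩ := trc_lift (σ' := σ) hD' hs' φ
        refine ⟨γ ∘ₗ e, fun g v => ?_, fun x => ?_, fun v => ?_⟩
        · rw [LinearMap.comp_apply, he, hγ]
          rfl
        · rw [LinearMap.comp_apply, heD, map_zero]
        · rw [LinearMap.comp_apply, hγ', hφ]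
    obtain ⟨u₁, hu₁, hu₁D, hu₁'⟩ := key
    refine ⟨α ∘ₗ r + u₁, fun g v => ?_, fun v => ?_, fun x => ?_⟩
    · rw [LinearMap.add_apply, LinearMap.add_apply, LinearMap.comp_apply, LinearMap.comp_apply,
        hr, hα, hu₁, map_add]
    · rw [LinearMap.add_apply, LinearMap.comp_apply, map_add, hc, hu₁', ← map_add, ← hdec]
    · rw [LinearMap.add_apply, LinearMap.comp_apply, hrD, hu₁D, add_zero]
  · have hkα : ∀ x, D x = 0 → α x = 0 := by
      intro x hx
      rcases hS' with ⟨hi', -⟩ | ⟨hs', hk'⟩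
      · refine hi' ?_
        rw [hc, hx, map_zero, map_zero]
      · obtain ⟨γ, hγ, hγ'⟩ := trc_lift (σ' := σ) hD' hs' φ
        have hα' : Eqv ν ν' (α - γ ∘ₗ D) := fun g v => by
          rw [LinearMap.sub_apply, LinearMap.sub_apply, LinearMap.comp_apply,
            LinearMap.comp_apply, hα, hD, hγ, map_sub]
        have h1 := long_kill hp hch hcard hgen hh hN hD' hk' hα' (fun x => by
          rw [LinearMap.sub_apply, LinearMap.comp_apply, map_sub, hγ', hc, hφ, sub_self])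
          (hk x hx)
        rw [LinearMap.sub_apply, LinearMap.comp_apply, hx, map_zero, sub_zero] at h1
        exact h1
    obtain ⟨u, hu, huD⟩ := factor_surj hD hs hα hkα
    refine ⟨u, hu, fun v => ?_, fun x => (huD x).symm⟩
    obtain ⟨x, rfl⟩ := hs v
    rw [huD, hc]

/-- MODULE KD1. Homotopy classes of degree minus one vanish, if every equivariant map `V' → V` is a trace. PROOF.
`D` surjective: `u D = 0` gives `u = 0`. `D'` injective: `D' u = 0` gives `u = 0`. Otherwise `D` is short and `D'` is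
long. It is enough to show `tr(u φ) = 0` for all linear `φ : N' → V` (`tr_nondeg`). `tr(u φ) = tr(u w t)`,
`w = Trc φ`, `Trc t = id` (`tr_pair`). `r, e` of `short_split` for `D`: `u = u e` (`u D = 0`). `e w = Trc (e φ)` kills
`ker D'` (`thr_kill` with source `N'`, target `V`, `e' = e`), so `e w = g D'` with an equivariant `g : V' → V`
(`factor_surj` with the roles `N', V', D'` and target `V`); `g = Trc φ_g` by hypothesis. So
`tr(u w t) = tr(u e w t) = tr(u g D' t) = tr(u Trc(φ_g) D' t) = tr(u Trc(φ_g D') t)` (`trc_comp`)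
`= tr(u (φ_g D'))` (`tr_pair`) `= tr(D' u φ_g) = 0` (`LinearMap.trace_comp_comm'`). -/
theorem ky_inj (hp : p.Prime) (hch : CharP k p) (hcard : Fintype.card Z = p ^ (r + 1))
    (hgen : ∀ z : Z, z ∈ Subgroup.zpowers z₀) (hh : 2 * h ≤ Fintype.card Z) (hN : Prj ν)
    (hN' : Prj ν') (hD : Eqv ν σ D) (hD' : Eqv ν' σ' D') (hS : SL ν σ (.inl z₀) h D)
    (hS' : SL ν' σ' (.inl z₀) h D') [FiniteDimensional k N'] [FiniteDimensional k V]
    [FiniteDimensional k V']
    (hoff : ∀ g : V' →ₗ[k] V, Eqv σ' σ g → ∃ φ : V' →ₗ[k] V, Trc σ' σ φ = g)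
    {u : V →ₗ[k] N'} (hu : Eqv σ ν' u) (h1 : ∀ v, D' (u v) = 0) (h2 : ∀ x, u (D x) = 0) :
    ∀ v, u v = 0 := by
  rcases hS with ⟨hi, hs⟩ | ⟨hs, -⟩
  · rcases hS' with ⟨hi', -⟩ | ⟨hs', hk'⟩
    · intro v
      refine hi' ?_
      rw [h1, map_zero]
    · obtain ⟨r, e, hr, he, hrD, hdec, heD, hee, hey, hye⟩ := short_split hN hD hi hs
      have hue : ∀ v, u (e v) = u v := fun v => by
        conv_rhs => rw [hdec v, map_add, h2, zero_add]
      obtain ⟨t, ht⟩ := hN'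
      have hz : u = 0 := by
        refine tr_nondeg fun φ => ?_
        rw [tr_pair hu ht φ]
        have hw : ∀ x, Trc ν' σ (e ∘ₗ φ) x = e (Trc ν' σ φ x) := fun x => by
          rw [← comp_trc he]
          rfl
        have hkw : ∀ x, D' x = 0 → Trc ν' σ (e ∘ₗ φ) x = 0 := fun x hx =>
          thr_kill hp hch hcard hgen hh (e ∘ₗ φ) (hk' x hx) hey (by rw [hw, hee])
        obtain ⟨g, hg, hgD⟩ := factor_surj hD' hs' (trc_eqv ν' σ (e ∘ₗ φ)) hkw
        obtain ⟨φg, hφg⟩ := hoff g hg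
        have e1 : u ∘ₗ Trc ν' σ φ ∘ₗ t = u ∘ₗ Trc ν' σ (φg ∘ₗ D') ∘ₗ t := by
          refine LinearMap.ext fun x => ?_
          rw [LinearMap.comp_apply, LinearMap.comp_apply, LinearMap.comp_apply,
            LinearMap.comp_apply, ← hue, ← hw, ← hgD, ← trc_comp hD' φg, hφg]
          rfl
        rw [e1, ← tr_pair hu ht]
        have e2 : u ∘ₗ φg ∘ₗ D' = (u ∘ₗ φg) ∘ₗ D' := rfl
        rw [e2, LinearMap.trace_comp_comm']
        have e3 : D' ∘ₗ u ∘ₗ φg = 0 := LinearMap.ext fun x => h1 _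
        rw [e3, map_zero]
      intro v
      rw [hz]
      rfl
  · intro v
    obtain ⟨x, rfl⟩ := hs v
    exact h2 x

/-- MODULE KD2. Degree minus one, the same complex. PROOF. `D` injective: `D (u v) = 0`. `D` surjective: `u (D x) = 0`. -/
theorem ky_inj_same (hS : SL ν σ (.inl z₀) h D) {u : V →ₗ[k] N} (h1 : ∀ v, D (u v) = 0)
    (h2 : ∀ x, u (D x) = 0) : ∀ v, u v = 0 := by
  intro v
  rcases hS with ⟨hi, -⟩ | ⟨hs, -⟩
  · refine hi ?_
    rw [h1, map_zero]
  · obtain ⟨x, rfl⟩ := hs v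
    exact h2 x

/-- MODULE KD2. Uniqueness. PROOF. If `c ≠ 0`, `id = -c⁻¹ D u = -c⁻¹ D (Trc t) u = Trc (-c⁻¹ D t u)`, so
`σ` would be relatively projective. -/
theorem ky_unq (hN : Prj ν) (hD : Eqv ν σ D) (hnt : ¬ Prj σ) {u : V →ₗ[k] N} (hu : Eqv σ ν u)
    {c : k} (hc : ∀ v, c • v + D (u v) = 0) : c = 0 := by
  by_contra hc0
  obtain ⟨t, ht⟩ := hN
  refine hnt ⟨(-c⁻¹) • (D ∘ₗ t ∘ₗ u), ?_⟩
  rw [trc_smul, ← comp_trc hD, ← trc_comp hu, ht]
  refine LinearMap.ext fun v => ?_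
  have h := hc v
  rw [add_comm, add_eq_zero_iff_eq_neg] at h
  rw [LinearMap.smul_apply, LinearMap.comp_apply, LinearMap.id_comp, h, smul_neg, neg_smul,
    neg_neg, smul_smul, inv_mul_cancel₀ hc0, one_smul, LinearMap.id_apply]

end Pool.Agent.FbT
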