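import Pool.Agent.FbT.Tr

/-!
# FbT, part Sp: the relative trace `Ta` and the simple modules
-/

set_option autoImplicit false

namespace Pool.Agent.FbT

open Pool.Agent.Sig Pool.Agent.DD TensorProduct

open scoped Matrix

section A

variable {k Z E H : Type} [Field k] [CommGroup Z] [Fintype Z] [CommGroup E] [Fintype E]
  {θ : E →* MulAut Z} [Ring H] [Algebra k H]

/-- MODULE SA1. `|E|` is a unit of `k`. PROOF. `E` acts freely on `Z - 1` (`K.free`), so `|E|`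
divides `|Z| - 1 = p^(r+1) - 1` (all orbits of `E` on `{z // z ≠ 1}` have `|E|` elements:
`MulAction.card_eq_sum_card_group_div_card_stabilizer` or `card_modEq...`; or a bijection of
`{z ≠ 1}` with (orbits) × `E`), so `p` does not divide `|E|` (`p ∣ |E| ∣ p^(r+1) - 1` would give
`p ∣ 1`); `CharP.cast_eq_zero_iff`. -/
theorem cardE_ne (K : KD k θ H) : (Fintype.card E : k) ≠ 0 := by
  intro h0
  have := K.ch
  have : Fact K.p.Prime := ⟨K.hp⟩
  have hd : K.p ∣ Fintype.card E := (CharP.cast_eq_zero_iff k K.p _).mp h0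
  obtain ⟨y, hy⟩ := exists_prime_orderOf_dvd_card K.p hd
  have hG : IsPGroup K.p (Subgroup.zpowers y) :=
    IsPGroup.of_card (n := 1) (by rw [Nat.card_zpowers, hy, pow_one])
  let _ : MulAction (Subgroup.zpowers y) Z :=
    MulAction.compHom Z (θ.comp (Subgroup.zpowers y).subtype)
  have hZ : K.p ∣ Nat.card Z := by
    rw [Nat.card_eq_fintype_card, K.card]
    exact dvd_pow_self _ (Nat.succ_ne_zero _)
  have h1 : (1 : Z) ∈ MulAction.fixedPoints (Subgroup.zpowers y) Z := by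
    intro g
    show θ (g : E) 1 = 1
    exact map_one _
  obtain ⟨z, hz, hz1⟩ := hG.exists_fixed_point_of_prime_dvd_card_of_fixed_point Z hZ h1
  refine hz1 (K.free y ?_ z (hz ⟨y, Subgroup.mem_zpowers y⟩)).symm
  intro e
  rw [e, orderOf_one] at hy
  exact K.hp.one_lt.ne hy

/-- MODULE SA1. `|Z| = 0` in `k`. -/
theorem cardZ_zero (K : KD k θ H) : (Fintype.card Z : k) = 0 := by
  have := K.ch
  rw [K.card, Nat.cast_pow, CharP.cast_eq_zero k K.p, zero_pow (Nat.succ_ne_zero _)]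

/-- MODULE SA2. `H` is projective as a left `k[Z]`-module, in trace form. PROOF. Write
`x = io (π x) + (x - io (π x))` (`io = S.io`, Sig/A1Theta.lean). For the second summand `StEq.proj`
reads `∑_u ρ(u) * (∑_w h (ρ(u⁻¹) * x * ρ(w)) * ρ(w⁻¹))`: take
`l₂ x = ∑_w S.h (x * ρ(inl w)) * ρ(inl w⁻¹)`. For the first: `π x = ∑_g c_g g`, `g = inl g.left * inr g.right`,
`l₁ x = ∑_{y : E} (π x).coeff (inr y) • ρ (inr y)`; as `π (ρ(inl u⁻¹) * x) = inl u⁻¹ * π x`
(`S.left`), `(π (ρ(inl u⁻¹) x)).coeff (inr y) = (π x).coeff (inl u * inr y)`, so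
`∑_u ρ(inl u) l₁(ρ(inl u⁻¹) x) = ∑_{u,y} c_{inl u * inr y} ρ(inl u * inr y) = io (π x)`.
`l = l₁ + l₂`. No condition on `|E|`. -/
theorem exists_ltr (S : StEq k Z E θ H) : ∃ l : H →ₗ[k] H, ∀ x : H,
    ∑ u : Z, S.ρ (.inl u) * l (S.ρ (.inl u⁻¹) * x) = x := by
  let l₂ : H →ₗ[k] H := ∑ w : Z, (LinearMap.mulRight k (S.ρ (.inl w⁻¹))) ∘ₗ S.h ∘ₗ
    (LinearMap.mulRight k (S.ρ (.inl w)))
  let l₁ : H →ₗ[k] H :=
    { toFun := fun x => ∑ y : E, (S.π x).coeff (.inr y) • S.ρ (.inr y)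
      map_add' := fun x x' => by
        simp only [map_add, MonoidAlgebra.coeff_add, Finsupp.add_apply, add_smul,
          Finset.sum_add_distrib]
      map_smul' := fun r x => by
        simp only [map_smul, RingHom.id_apply, MonoidAlgebra.coeff_smul, Finsupp.smul_apply,
          smul_eq_mul, mul_smul, Finset.smul_sum] }
  have h₂ : ∀ x, l₂ x = ∑ w : Z, S.h (x * S.ρ (.inl w)) * S.ρ (.inl w⁻¹) := by
    intro x
    simp only [l₂, LinearMap.sum_apply, LinearMap.comp_apply, LinearMap.mulRight_apply]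
  have h₁ : ∀ x, l₁ x = ∑ y : E, (S.π x).coeff (.inr y) • S.ρ (.inr y) := fun x => rfl
  refine ⟨l₁ + l₂, fun x => ?_⟩
  have h3 : ∑ u : Z, S.ρ (.inl u) * l₂ (S.ρ (.inl u⁻¹) * x) = x - S.io (S.π x) := by
    rw [S.proj x]
    refine Finset.sum_congr rfl fun u _ => ?_
    rw [h₂, Finset.mul_sum]
    refine Finset.sum_congr rfl fun w _ => ?_
    exact (mul_assoc _ _ _).symm
  have h4 : ∑ u : Z, S.ρ (.inl u) * l₁ (S.ρ (.inl u⁻¹) * x) = S.io (S.π x) := by
    have h5 : S.io (S.π x) = ∑ g : Z ⋊[θ] E, (S.π x).coeff g • S.ρ g := by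
      rw [StEq.io, MonoidAlgebra.lift_apply, Finsupp.sum_fintype _ _ (by simp)]
    rw [h5, ← SemidirectProduct.equivProd.symm.sum_comp, Fintype.sum_prod_type]
    refine Finset.sum_congr rfl fun u _ => ?_
    rw [h₁, Finset.mul_sum]
    refine Finset.sum_congr rfl fun y _ => ?_
    have h6 : (SemidirectProduct.equivProd.symm (u, y) : Z ⋊[θ] E) = .inl u * .inr y :=
      (SemidirectProduct.inl_left_mul_inr_right
        (SemidirectProduct.equivProd.symm (u, y) : Z ⋊[θ] E)).symm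
    rw [h6, S.left, MonoidAlgebra.of_apply, MonoidAlgebra.coeff_single_mul_apply, one_mul,
      mul_smul_comm, ← map_mul, ← map_inv, inv_inv]
  simp only [LinearMap.add_apply, mul_add, Finset.sum_add_distrib]
  rw [h3, h4, add_sub_cancel]

/-- MODULE SA3. The Casimir element of `S` is central for balanced bilinear maps. PROOF. Take `l` of
`exists_ltr`. Apply to both sides of `S.cas2 z` the linear map `H ⊗ H → M`,
`x ⊗ y ↦ β x (l y)` (`TensorProduct.lift (β.compl₂ l)`):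
`∑_i ∑_u β (z a_i ρ(u)) (l (ρ(u⁻¹) b_i)) = ∑_i ∑_u β (z a_i) (ρ(u) l (ρ(u⁻¹) b_i)) = ∑_i β (z a_i) b_i`
by `hβ` and linearity; in the same way the right hand side is
`∑_i ∑_u β (a_i ρ(u)) (l (ρ(u⁻¹) (b_i z))) = ∑_i β a_i (b_i z)` (`mul_assoc`). -/
theorem cas_bal (S : StEq k Z E θ H) {M : Type} [AddCommGroup M] [Module k M]
    (β : H →ₗ[k] H →ₗ[k] M) (hβ : ∀ (x y : H) (u : Z), β (x * S.ρ (.inl u)) y =
      β x (S.ρ (.inl u) * y)) (z : H) :
    ∑ i, β (z * S.a i) (S.b i) = ∑ i, β (S.a i) (S.b i * z) := by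
  obtain ⟨l, hl⟩ := exists_ltr S
  let Ψ : H ⊗[k] H →ₗ[k] M := TensorProduct.lift (β.compl₂ l)
  have hΨ : ∀ p q, Ψ (p ⊗ₜ q) = β p (l q) := fun p q => rfl
  have h1 := congrArg Ψ (S.cas2 z)
  simp only [map_sum, hΨ, hβ] at h1
  simp only [← map_sum, mul_assoc (S.ρ _) (S.b _) z, hl] at h1
  exact h1

variable {V W : Type} [AddCommGroup V] [Module k V] [Module H V] [IsScalarTower k H V]
  [AddCommGroup W] [Module k W] [Module H W] [IsScalarTower k H W]

/-- MODULE SA3. `Ta f` is `H`-linear for a `Z`-equivariant `f`. PROOF. `cas_bal` for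
`β x y = x • f (y • v)` (`M = W`), which is balanced. -/
theorem Ta_lin (S : StEq k Z E θ H) {f : V →ₗ[k] W}
    (hf : ∀ (u : Z) (v : V), f (S.ρ (.inl u) • v) = S.ρ (.inl u) • f v) (x : H) (v : V) :
    Ta S f (x • v) = x • Ta S f v := by
  rw [Ta_apply, Ta_apply]
  have h1 := cas_bal S (LinearMap.mk₂ k (fun x y : H => x • f (y • v))
    (fun a b y => add_smul a b _) (fun c a y => smul_assoc c a _)
    (fun a y z => by rw [add_smul, map_add, smul_add])
    (fun c a y => by rw [smul_assoc, map_smul, smul_comm]))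
    (fun a y u => by
      show (a * S.ρ (.inl u)) • f (y • v) = a • f ((S.ρ (.inl u) * y) • v)
      rw [mul_smul, mul_smul, hf]) x
  simp only [LinearMap.mk₂_apply, mul_smul] at h1
  rw [← h1, Finset.smul_sum]

/-- MODULE SA3. PROOF. `∑ a_i b_i = 1`. -/
theorem Ta_id (S : StEq k Z E θ H) (f : V →ₗ[H] W) (v : V) :
    Ta S (f.restrictScalars k) v = f v := by
  rw [Ta_apply]
  have h1 : ∀ i, S.a i • (f.restrictScalars k) (S.b i • v) = f ((S.a i * S.b i) • v) := fun i => by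
    show S.a i • f (S.b i • v) = f ((S.a i * S.b i) • v)
    simp only [mul_smul, map_smul]
  rw [Finset.sum_congr rfl fun i _ => h1 i, ← map_sum, ← Finset.sum_smul, S.cas1, one_smul]

private theorem SA4_io (S : StEq k Z E θ H) {f : V →ₗ[k] W}
    (hf : ∀ (g : Z ⋊[θ] E) (v : V), f (S.ρ g • v) = S.ρ g • f v) (y : cAlg k θ) (v : V) :
    f (S.io y • v) = S.io y • f v := by
  induction y using MonoidAlgebra.induction_on with
  | of g => rw [MonoidAlgebra.lift_of]; exact hf g v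
  | add a b ha hb => rw [map_add, add_smul, map_add, ha, hb, add_smul]
  | smul r a ha =>
    have e : S.io (r • a) = r • S.io a := map_smul _ _ _
    rw [e, smul_assoc, map_smul, ha, smul_assoc]

private theorem SA4_main (S : StEq k Z E θ H) {f : V →ₗ[k] W}
    (hf : ∀ (g : Z ⋊[θ] E) (v : V), f (S.ρ g • v) = S.ρ g • f v) (v : V) :
    Ta S f v = (∑ i, S.a i * S.io (S.π (S.b i))) • f v + ∑ w : Z, S.ρ (.inl w) •
      ∑ i, ∑ u : Z, (S.a i * S.ρ (.inl u)) • f (S.h (S.ρ (.inl u⁻¹) * S.b i) •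
        S.ρ (.inl w⁻¹) • v) := by
  have hb : ∀ i, f (S.b i • v) = S.io (S.π (S.b i)) • f v + ∑ w : Z, ∑ u : Z,
      S.ρ (.inl u) • f (S.h (S.ρ (.inl u⁻¹) * (S.b i * S.ρ (.inl w))) • S.ρ (.inl w⁻¹) • v) := by
    intro i
    have h1 : S.b i = S.io (S.π (S.b i)) + (S.b i - S.io (S.π (S.b i))) := by
      rw [add_sub_cancel]
    conv_lhs => rw [h1]
    rw [add_smul, map_add, SA4_io S hf, S.proj, Finset.sum_comm]
    congr 1
    simp only [Finset.sum_smul, map_sum, mul_smul, hf, mul_assoc]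
  have hbal : ∀ (w : Z), ∑ i, ∑ u : Z, (S.a i * S.ρ (.inl u)) •
      f (S.h (S.ρ (.inl u⁻¹) * (S.b i * S.ρ (.inl w))) • S.ρ (.inl w⁻¹) • v) =
      S.ρ (.inl w) • ∑ i, ∑ u : Z, (S.a i * S.ρ (.inl u)) •
        f (S.h (S.ρ (.inl u⁻¹) * S.b i) • S.ρ (.inl w⁻¹) • v) := by
    intro w
    have h1 := cas_bal S (LinearMap.mk₂ k (fun x y : H => ∑ u : Z, (x * S.ρ (.inl u)) •
        f (S.h (S.ρ (.inl u⁻¹) * y) • S.ρ (.inl w⁻¹) • v))
      (fun a b y => by simp only [add_mul, add_smul, Finset.sum_add_distrib])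
      (fun c a y => by simp only [smul_mul_assoc, smul_assoc, Finset.smul_sum])
      (fun a y z => by
        simp only [mul_add, map_add, add_smul, smul_add, Finset.sum_add_distrib])
      (fun c a y => by
        simp only [mul_smul_comm, map_smul, smul_assoc, Finset.smul_sum]
        refine Finset.sum_congr rfl fun u _ => ?_
        rw [smul_comm]))
      (fun a y u₀ => by
        simp only [LinearMap.mk₂_apply]
        rw [← Equiv.sum_comp (Equiv.mulLeft u₀) (fun u => (a * S.ρ (.inl u)) •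
          f (S.h (S.ρ (.inl u⁻¹) * (S.ρ (.inl u₀) * y)) • S.ρ (.inl w⁻¹) • v))]
        refine Finset.sum_congr rfl fun u _ => ?_
        have h2 : S.ρ (.inl (u₀ * u)⁻¹) * (S.ρ (.inl u₀) * y) = S.ρ (.inl u⁻¹) * y := by
          rw [← mul_assoc, ← map_mul, ← map_mul, mul_inv_rev, inv_mul_cancel_right]
        rw [Equiv.coe_mulLeft, h2, mul_assoc, ← map_mul, ← map_mul]) (S.ρ (.inl w))
    simp only [LinearMap.mk₂_apply] at h1
    rw [← h1]
    simp only [Finset.smul_sum, mul_smul]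
  rw [Ta_apply]
  simp only [hb, smul_add, Finset.sum_add_distrib, Finset.sum_smul, mul_smul]
  congr 1
  simp only [Finset.smul_sum]
  rw [Finset.sum_comm]
  refine Finset.sum_congr rfl fun w _ => ?_
  have h3 := hbal w
  simp only [mul_smul, Finset.smul_sum] at h3
  exact h3

private theorem SA4_one (S : StEq k Z E θ H) :
    (∑ i, S.a i * S.io (S.π (S.b i))) + ∑ w : Z, S.ρ (.inl w) *
      (∑ i, ∑ u : Z, S.a i * S.ρ (.inl u) * S.h (S.ρ (.inl u⁻¹) * S.b i)) * S.ρ (.inl w⁻¹) =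
        1 := by
  have h1 := SA4_main S (V := H) (W := H) (f := LinearMap.id) (fun g v => rfl) 1
  rw [Ta_apply] at h1
  simp only [LinearMap.id_apply, smul_eq_mul, mul_one, S.cas1] at h1
  rw [h1]
  congr 1
  refine Finset.sum_congr rfl fun w _ => ?_
  simp only [Finset.mul_sum, Finset.sum_mul, mul_assoc]

private theorem SA4_eq (S : StEq k Z E θ H) {f : V →ₗ[k] W}
    (hf : ∀ (g : Z ⋊[θ] E) (v : V), f (S.ρ g • v) = S.ρ g • f v) (v : V) :
    f v = Ta S f v + ∑ w : Z, S.ρ (.inl w) •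
      ((∑ i, ∑ u : Z, S.a i * S.ρ (.inl u) * S.h (S.ρ (.inl u⁻¹) * S.b i)) •
        f (S.ρ (.inl w⁻¹) • v) -
      ∑ i, ∑ u : Z, (S.a i * S.ρ (.inl u)) • f (S.h (S.ρ (.inl u⁻¹) * S.b i) •
        S.ρ (.inl w⁻¹) • v)) := by
  have h1 : f v = (1 : H) • f v := (one_smul _ _).symm
  conv_lhs => rw [h1]
  rw [← SA4_one S, SA4_main S hf v, add_smul, add_assoc]
  congr 1
  simp only [smul_sub, Finset.sum_sub_distrib]
  rw [add_sub_cancel, Finset.sum_smul]
  refine Finset.sum_congr rfl fun w _ => ?_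
  rw [mul_smul, mul_smul, hf]

/-- MODULE SA4. THE COMPARISON OF `f` AND `Ta f`. PROOF. Notation: `ρ(u)` for `S.ρ (inl u)`, sums over
`u, w ∈ Z`. By `S.proj`, `b_i = io (π b_i) + ∑_{u,w} ρ(u) h(ρ(u⁻¹) b_i ρ(w)) ρ(w⁻¹)`. As `f` is
equivariant for the whole group, `f (io(π b_i) v) = io(π b_i) f v`. So
`Ta f v = c f v + ∑_i ∑_{u,w} a_i ρ(u) f (h(ρ(u⁻¹) b_i ρ(w)) ρ(w⁻¹) v)`, `c = ∑_i a_i io(π b_i)`.
For fixed `w` and `v` the map `β(x, y) = ∑_u x ρ(u) f (h(ρ(u⁻¹) y) ρ(w⁻¹) v)` is balanced (shift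
`u`), so by `cas_bal` with `z = ρ(w)`: `∑_i β(a_i, b_i ρ(w)) = ∑_i β(ρ(w) a_i, b_i) = ρ(w) ψ(ρ(w⁻¹) v)` with
`ψ(v) = ∑_i ∑_u a_i ρ(u) f (h(ρ(u⁻¹) b_i) v)`. Hence
`Ta f v = c f v + ∑_w ρ(w) ψ(ρ(w⁻¹) v)`. In the same way (with `f = id` on `V = H`, `v = 1`),
`1 = ∑ a_i b_i = c + ∑_w ρ(w) y ρ(w⁻¹)`, `y = ∑_i ∑_u a_i ρ(u) h(ρ(u⁻¹) b_i)`. So
`f v - Ta f v = ∑_w ρ(w) (y f(ρ(w⁻¹) v) - ψ(ρ(w⁻¹) v))` (`f` is equivariant). -/
theorem sub_Ta (S : StEq k Z E θ H) {f : V →ₗ[k] W}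
    (hf : ∀ (g : Z ⋊[θ] E) (v : V), f (S.ρ g • v) = S.ρ g • f v) : ∃ ψ : V →ₗ[k] W, ∀ v : V,
    f v = Ta S f v + ∑ w : Z, S.ρ (.inl w) • ψ (S.ρ (.inl w⁻¹) • v) := by
  refine ⟨(Algebra.lsmul k k W
      (∑ i, ∑ u : Z, S.a i * S.ρ (.inl u) * S.h (S.ρ (.inl u⁻¹) * S.b i))) ∘ₗ f -
    ∑ i, ∑ u : Z, (Algebra.lsmul k k W (S.a i * S.ρ (.inl u))) ∘ₗ f ∘ₗ
      (Algebra.lsmul k k V (S.h (S.ρ (.inl u⁻¹) * S.b i))), fun v => ?_⟩
  conv_lhs => rw [SA4_eq S hf v]
  simp only [LinearMap.sub_apply, LinearMap.sum_apply, LinearMap.comp_apply,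
    Algebra.lsmul_coe]

/-- MODULE SA4. The same for elements: `t` commutes with `ρ(G)`. PROOF. The computation of `sub_Ta`
for `V = W = H`, `f(v) = t v`, `v = 1`; `ψ` and `y f` are left multiplications by elements:
`x = y t - ∑_i ∑_u a_i ρ(u) t h(ρ(u⁻¹) b_i)`. -/
theorem sub_Ta_elt (S : StEq k Z E θ H) {t : H} (ht : ∀ g : Z ⋊[θ] E, t * S.ρ g = S.ρ g * t) :
    ∃ x : H, t = ∑ i, S.a i * t * S.b i + ∑ w : Z, S.ρ (.inl w) * x * S.ρ (.inl w⁻¹) := by
  refine ⟨(∑ i, ∑ u : Z, S.a i * S.ρ (.inl u) * S.h (S.ρ (.inl u⁻¹) * S.b i)) * t -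
    ∑ i, ∑ u : Z, S.a i * S.ρ (.inl u) * t * S.h (S.ρ (.inl u⁻¹) * S.b i), ?_⟩
  have h1 := SA4_eq S (V := H) (W := H) (f := LinearMap.mulLeft k t) (fun g v => by
    rw [LinearMap.mulLeft_apply, LinearMap.mulLeft_apply, smul_eq_mul, smul_eq_mul, ← mul_assoc,
      ht, mul_assoc]) 1
  rw [Ta_apply] at h1
  simp only [LinearMap.mulLeft_apply, smul_eq_mul, mul_one] at h1
  refine h1.trans ?_
  congr 1
  · refine Finset.sum_congr rfl fun i _ => ?_
    rw [mul_assoc]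
  · refine Finset.sum_congr rfl fun w _ => ?_
    simp only [mul_sub, sub_mul, Finset.sum_mul, Finset.mul_sum, mul_assoc]

/-- MODULE SA5. For `|E| ≠ 0` an equivariant `f` is congruent to `Ta f` modulo traces. PROOF.
`F = f - Ta f` is equivariant for `G` (`Ta_lin`), and `F = ∑_w ρ(w) ψ ρ(w⁻¹)` by `sub_Ta`. So
`|E| F = ∑_y ρ(y) F ρ(y⁻¹) = ∑_{y,w} ρ(y w) ψ ρ(w⁻¹ y⁻¹) = Trc ψ` (`eqvYW` reindexes `Z ⋊ E` by
`E × Z`), `φ = |E|⁻¹ ψ`. -/
theorem eqv_mod (S : StEq k Z E θ H) (hE : (Fintype.card E : k) ≠ 0) {f : V →ₗ[k] W}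
    (hf : Eqv (rp S.ρ V) (rp S.ρ W) f) : ∃ φ : V →ₗ[k] W, ∀ v : V,
    f v = Ta S f v + Trc (rp S.ρ V) (rp S.ρ W) φ v := by
  obtain ⟨ψ, hψ⟩ := sub_Ta S hf
  refine ⟨(Fintype.card E : k)⁻¹ • ψ, fun v => ?_⟩
  have hF : ∀ (g : Z ⋊[θ] E), S.ρ g • (f (S.ρ g⁻¹ • v) - Ta S f (S.ρ g⁻¹ • v)) =
      f v - Ta S f v := by
    intro g
    have h1 : f (S.ρ g⁻¹ • v) = S.ρ g⁻¹ • f v := hf g⁻¹ v
    rw [h1, Ta_lin S (fun u v => hf (.inl u) v), ← smul_sub, ← mul_smul, ← map_mul,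
      mul_inv_cancel, map_one, one_smul]
  have h2 : (Fintype.card E : k) • (f v - Ta S f v) = Trc (rp S.ρ V) (rp S.ρ W) ψ v := by
    have h3 : ∀ y : E, f v - Ta S f v = ∑ w : Z, S.ρ (eqvYW θ (y, w)) •
        ψ (S.ρ (eqvYW θ (y, w))⁻¹ • v) := by
      intro y
      rw [← hF (.inr y), hψ, add_sub_cancel_left, Finset.smul_sum]
      refine Finset.sum_congr rfl fun w _ => ?_
      have h4 : (eqvYW θ (y, w)) = .inr y * .inl w := rfl
      rw [h4, map_mul, mul_smul, mul_inv_rev, map_mul, mul_smul, map_inv]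
    rw [Nat.cast_smul_eq_nsmul, ← Finset.card_univ, ← Finset.sum_const,
      Finset.sum_congr rfl fun y _ => h3 y, ← Fintype.sum_prod_type', (eqvYW θ).sum_comp
        (fun g => S.ρ g • ψ (S.ρ g⁻¹ • v))]
    simp only [Trc, LinearMap.sum_apply, LinearMap.comp_apply, rp_apply]
  have h5 : Trc (rp S.ρ V) (rp S.ρ W) ((Fintype.card E : k)⁻¹ • ψ) v = f v - Ta S f v := by
    rw [trc_smul, LinearMap.smul_apply, ← h2, smul_smul, inv_mul_cancel₀ hE, one_smul]
  rw [h5, add_sub_cancel]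

end A

section B

variable {k Z E H : Type} [Field k] [CommGroup Z] [Fintype Z] [CommGroup E] [Fintype E]
  {θ : E →* MulAut Z} [Ring H] [Algebra k H]

/-- MODULE SB1. `1` is not a `Z`-trace of an element. PROOF. If `1 = ∑_w ρ(w) x ρ(w⁻¹)` put
`N = ∑_z ρ(z)`; `N ρ(w) = ρ(w) N` and `s` is symmetric, so
`s(N) = ∑_w s(N ρ(w) x ρ(w⁻¹)) = ∑_w s(ρ(w⁻¹) N ρ(w) x) = |Z| s(N x) = 0`, against `K.sN`. -/
theorem one_not_tr (K : KD k θ H) (x : H) :
    ∑ w : Z, K.ρ (.inl w) * x * K.ρ (.inl w⁻¹) ≠ 1 := by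
  intro h1
  have hN : ∀ w : Z, K.ρ (.inl w⁻¹) * ∑ z : Z, K.ρ (.inl z) = ∑ z : Z, K.ρ (.inl z) := by
    intro w
    rw [Finset.mul_sum, ← Equiv.sum_comp (Equiv.mulLeft w)]
    refine Finset.sum_congr rfl fun z _ => ?_
    rw [← map_mul, ← map_mul, Equiv.coe_mulLeft, inv_mul_cancel_left]
  have hN' : ∀ w : Z, (∑ z : Z, K.ρ (.inl z)) * K.ρ (.inl w) = ∑ z : Z, K.ρ (.inl z) := by
    intro w
    rw [Finset.sum_mul]
    conv_rhs => rw [← Equiv.sum_comp (Equiv.mulRight w)]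
    refine Finset.sum_congr rfl fun z _ => ?_
    rw [← map_mul, ← map_mul, Equiv.coe_mulRight]
  apply K.sN
  rw [← mul_one (∑ z : Z, K.ρ (.inl z)), ← h1, Finset.mul_sum, map_sum]
  have h2 : ∀ w : Z, K.s ((∑ z : Z, K.ρ (.inl z)) * (K.ρ (.inl w) * x * K.ρ (.inl w⁻¹))) =
      K.s ((∑ z : Z, K.ρ (.inl z)) * x) := by
    intro w
    rw [← mul_assoc, ← mul_assoc, hN', K.sym, ← mul_assoc, hN]
  rw [Finset.sum_congr rfl fun w _ => h2 w, Finset.sum_const, Finset.card_univ,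
    ← Nat.cast_smul_eq_nsmul k, cardZ_zero K, zero_smul]

/-- MODULE SB2. The simple modules are not relatively projective. PROOF. Suppose
`Trc φ = id` on `T = Vm D i`. By `D.surj` there is `y ∈ H` acting on `T` as `φ` (matrix of `φ`).
`t = ∑_{g ∈ G} ρ(g) y ρ(g⁻¹)` commutes with `ρ(G)` and acts on `T` as the identity.
`z = ∑_i a_i t b_i` is central (`cas_bal` with `β(x, y) = x * t * y`) and acts on `T` as `∑ a_i b_i = 1`, so
it is not nilpotent (`D.n i > 0`) and by `K.loc` there is `w` with `z w = 1`. By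
`sub_Ta_elt`: `z = t - ∑_v ρ(v) x ρ(v⁻¹)`, and `t = ∑_{v ∈ Z} ρ(v) y' ρ(v⁻¹)` with
`y' = ∑_{e ∈ E} ρ(e) y ρ(e⁻¹)`, so `z = ∑_v ρ(v) (y' - x) ρ(v⁻¹)` and (`z` central, `w` central as
the inverse of a central element) `1 = ∑_v ρ(v) (w (y' - x)) ρ(v⁻¹)`, against `one_not_tr`. -/
theorem vm_not_prj (K : KD k θ H) (D : WD k H) (i : D.I) : ¬ Prj (rp (R := k) K.ρ (Vm D i)) := by
  rintro ⟨φ, hφ⟩
  classical
  obtain ⟨y, hy⟩ := D.surj (Function.update 0 i (LinearMap.toMatrix' (show (Fin (D.n i) → k) →ₗ[k]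
    (Fin (D.n i) → k) from φ)))
  have hyv : ∀ v : Vm D i, y • v = φ v := by
    intro v
    rw [Vm.smul_def, hy, Function.update_self, LinearMap.toMatrix'_mulVec]
    rfl
  set t : H := ∑ g : Z ⋊[θ] E, K.ρ g * y * K.ρ g⁻¹ with htdef
  have ht : ∀ g : Z ⋊[θ] E, t * K.ρ g = K.ρ g * t := by
    intro g
    rw [htdef, Finset.sum_mul, Finset.mul_sum, ← Equiv.sum_comp (Equiv.mulLeft g)]
    refine Finset.sum_congr rfl fun x _ => ?_
    rw [Equiv.coe_mulLeft, mul_inv_rev, map_mul, map_mul K.ρ x⁻¹]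
    simp only [mul_assoc]
    rw [← map_mul K.ρ g⁻¹, inv_mul_cancel, map_one, mul_one]
  have htv : ∀ v : Vm D i, t • v = v := by
    intro v
    have h1 := DFunLike.congr_fun hφ v
    simp only [Trc, LinearMap.sum_apply, LinearMap.comp_apply, rp_apply, LinearMap.id_apply] at h1
    rw [htdef, Finset.sum_smul]
    refine Eq.trans ?_ h1
    refine Finset.sum_congr rfl fun g _ => ?_
    rw [mul_smul, mul_smul, hyv]
  set z : H := ∑ j, K.a j * t * K.b j with hzdef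
  have hzc : ∀ h : H, z * h = h * z := by
    intro h
    have h1 := cas_bal K.toStEq (LinearMap.mk₂ k (fun a b : H => a * t * b)
      (fun a b y => by simp only [add_mul]) (fun c a y => by simp only [smul_mul_assoc])
      (fun a y z => by simp only [mul_add]) (fun c a y => by simp only [mul_smul_comm]))
      (fun a b u => by
        simp only [LinearMap.mk₂_apply]
        rw [mul_assoc a, ← ht]
        simp only [mul_assoc]) h
    simp only [LinearMap.mk₂_apply] at h1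
    rw [hzdef, Finset.sum_mul, Finset.mul_sum]
    simp only [mul_assoc] at h1 ⊢
    exact h1.symm
  have hzv : ∀ v : Vm D i, z • v = v := by
    intro v
    rw [hzdef, Finset.sum_smul]
    have h1 : ∀ j, (K.a j * t * K.b j) • v = (K.a j * K.b j) • v := fun j => by
      rw [mul_smul, mul_smul, htv, mul_smul]
    rw [Finset.sum_congr rfl fun j _ => h1 j, ← Finset.sum_smul, K.cas1, one_smul]
  rcases K.loc z hzc with ⟨N, hN⟩ | ⟨w, hw⟩
  · have h1 : ∀ n : ℕ, z ^ n • Vm.e0 D i = Vm.e0 D i := by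
      intro n
      induction n with
      | zero => rw [pow_zero, one_smul]
      | succ n ih => rw [pow_succ, mul_smul, hzv, ih]
    have h2 := h1 N
    rw [hN, zero_smul] at h2
    have h3 := congrFun h2 (⟨0, D.pos i⟩ : Fin (D.n i))
    rw [Vm.e0, Pi.single_eq_same] at h3
    exact zero_ne_one h3
  · have hwz : w * z = 1 := by rw [← hzc, hw]
    have hwc : ∀ h : H, w * h = h * w := by
      intro h
      calc w * h = w * h * (z * w) := by rw [hw, mul_one]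
        _ = w * (h * z) * w := by simp only [mul_assoc]
        _ = w * (z * h) * w := by rw [hzc]
        _ = (w * z) * h * w := by simp only [mul_assoc]
        _ = h * w := by rw [hwz, one_mul]
    obtain ⟨x, hx⟩ := sub_Ta_elt K.toStEq ht
    have ht2 : t = ∑ v : Z, K.ρ (.inl v) * (∑ e : E, K.ρ (.inr e) * y * K.ρ (.inr e⁻¹)) *
        K.ρ (.inl v⁻¹) := by
      rw [htdef, ← SemidirectProduct.equivProd.symm.sum_comp, Fintype.sum_prod_type]
      refine Finset.sum_congr rfl fun v _ => ?_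
      rw [Finset.mul_sum, Finset.sum_mul]
      refine Finset.sum_congr rfl fun e _ => ?_
      have h6 : (SemidirectProduct.equivProd.symm (v, e) : Z ⋊[θ] E) = .inl v * .inr e :=
        (SemidirectProduct.inl_left_mul_inr_right
          (SemidirectProduct.equivProd.symm (v, e) : Z ⋊[θ] E)).symm
      rw [h6, mul_inv_rev, map_mul, map_mul K.ρ (SemidirectProduct.inr e)⁻¹, ← map_inv, ← map_inv]
      simp only [mul_assoc]
    refine one_not_tr K (((∑ e : E, K.ρ (.inr e) * y * K.ρ (.inr e⁻¹)) - x) * w) ?_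
    have h7 : z = ∑ v : Z, K.ρ (.inl v) * ((∑ e : E, K.ρ (.inr e) * y * K.ρ (.inr e⁻¹)) - x) *
        K.ρ (.inl v⁻¹) := by
      simp only [mul_sub, sub_mul, Finset.sum_sub_distrib]
      rw [← ht2, eq_sub_iff_add_eq]
      exact hx.symm
    have h8 : ∀ v : Z, K.ρ (.inl v) *
        (((∑ e : E, K.ρ (.inr e) * y * K.ρ (.inr e⁻¹)) - x) * w) * K.ρ (.inl v⁻¹) =
        K.ρ (.inl v) * ((∑ e : E, K.ρ (.inr e) * y * K.ρ (.inr e⁻¹)) - x) * K.ρ (.inl v⁻¹) * w := by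
      intro v
      simp only [mul_assoc]
      rw [hwc]
    rw [Finset.sum_congr rfl fun v _ => h8 v, ← Finset.sum_mul, ← h7, hw]

/-- MODULE SB3. Schur. PROOF. By `D.surj` choose `h ∈ H` with `φ_i h = 1`, `φ_j h = 0` for `j ≠ i`; an
`H`-linear `f : V_i → V_i'`, `i ≠ i'`: `f v = f (h v) = h f v = 0`. -/
theorem vm_hom_zero (D : WD k H) {i i' : D.I} (h : i ≠ i') (f : Vm D i →ₗ[H] Vm D i')
    (v : Vm D i) : f v = 0 := by
  classical
  obtain ⟨c, hc⟩ := D.surj (fun j => if j = i then 1 else 0)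
  have h1 : c • v = v := by
    rw [Vm.smul_def, hc, if_pos rfl, Matrix.one_mulVec]
  have h2 : c • f v = 0 := by
    rw [Vm.smul_def, hc, if_neg h.symm, Matrix.zero_mulVec]
    rfl
  rw [← h1, map_smul, h2]

/-- MODULE SB3. Schur. PROOF. `f` commutes with all matrices (`D.surj`), in particular with
the matrix units: `f e_0 = E_00 f e_0 = c e_0`, `f e_r = f (E_r0 e_0) = E_r0 (c e_0) = c e_r`. -/
theorem vm_hom_scalar (D : WD k H) (i : D.I) (f : Vm D i →ₗ[H] Vm D i) :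
    ∃ c : k, ∀ v, f v = c • v := by
  classical
  refine ⟨(show Fin (D.n i) → k from f (Vm.e0 D i)) ⟨0, D.pos i⟩, fun v => ?_⟩
  obtain ⟨c, hc⟩ := D.surj (Function.update 0 i (Matrix.vecMulVec (show Fin (D.n i) → k from v)
    (Pi.single (⟨0, D.pos i⟩ : Fin (D.n i)) 1)))
  have h1 : ∀ x : Vm D i, c • x = (show Fin (D.n i) → k from x) ⟨0, D.pos i⟩ • v := by
    intro x
    rw [Vm.smul_def, hc, Function.update_self]
    funext j
    simp only [Matrix.vecMulVec, Matrix.mulVec, dotProduct, Matrix.of_apply, mul_assoc,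
      ← Finset.mul_sum, Pi.single_apply, ite_mul, one_mul, zero_mul, Finset.sum_ite_eq',
      Finset.mem_univ, if_true]
    exact mul_comm _ _
  have h2 : c • Vm.e0 D i = v := by
    rw [h1]
    show (Pi.single (⟨0, D.pos i⟩ : Fin (D.n i)) (1 : k) : Fin (D.n i) → k) ⟨0, D.pos i⟩ • v = v
    rw [Pi.single_eq_same, one_smul]
  conv_lhs => rw [← h2]
  rw [map_smul, h1]

/-- MODULE SB4. PROOF. `eqv_mod` + `Ta_lin` + `vm_hom_zero` (`cardE_ne`). -/
theorem vm_off (K : KD k θ H) (D : WD k H) {i i' : D.I} (h : i ≠ i')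
    {f : Vm D i →ₗ[k] Vm D i'} (hf : Eqv (rp K.ρ (Vm D i)) (rp K.ρ (Vm D i')) f) :
    ∃ φ : Vm D i →ₗ[k] Vm D i', Trc (rp K.ρ (Vm D i)) (rp K.ρ (Vm D i')) φ = f := by
  obtain ⟨φ, hφ⟩ := eqv_mod K.toStEq (cardE_ne K) hf
  refine ⟨φ, LinearMap.ext fun v => ?_⟩
  have h1 := vm_hom_zero D h
    { toFun := Ta K.toStEq f
      map_add' := fun a b => map_add _ a b
      map_smul' := fun c a => Ta_lin K.toStEq (fun u v => hf (.inl u) v) c a } v
  have h2 : Ta K.toStEq f v = 0 := h1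
  rw [hφ, h2, zero_add]

/-- MODULE SB4. PROOF. `eqv_mod` + `Ta_lin` + `vm_hom_scalar`. -/
theorem vm_diag (K : KD k θ H) (D : WD k H) {i : D.I}
    {f : Vm D i →ₗ[k] Vm D i} (hf : Eqv (rp K.ρ (Vm D i)) (rp K.ρ (Vm D i)) f) :
    ∃ (c : k) (φ : Vm D i →ₗ[k] Vm D i), f = c • LinearMap.id +
      Trc (rp K.ρ (Vm D i)) (rp K.ρ (Vm D i)) φ := by
  obtain ⟨φ, hφ⟩ := eqv_mod K.toStEq (cardE_ne K) hf
  obtain ⟨c, hc⟩ := vm_hom_scalar D i
    { toFun := Ta K.toStEq f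
      map_add' := fun a b => map_add _ a b
      map_smul' := fun c a => Ta_lin K.toStEq (fun u v => hf (.inl u) v) c a }
  refine ⟨c, φ, LinearMap.ext fun v => ?_⟩
  have h2 : Ta K.toStEq f v = c • v := hc v
  rw [hφ, h2]
  rfl

end B

end Pool.Agent.FbT
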