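import Pool.Agent.FbT.St
import Pool.Agent.FbT.Sp
import Pool.Agent.FbT.Ky

/-!
# FbT, part Nn: block N of Theorem D
-/

set_option autoImplicit false

namespace Pool.Agent.FbT

open Pool.Agent.Sig Pool.Agent.DD

open scoped Matrix

variable {k Z E H : Type} [Field k] [CommGroup Z] [Fintype Z] [CommGroup E] [Fintype E]
  {θ : E →* MulAut Z} [Ring H] [Algebra k H]

/-- MODULE NA. The short / long presentation of a simple module. PROOF. `IsCyclic Z` gives `z₀`, `hgen`.
`exists_short_long` for `σ = rp K.ρ (Vm D i)` with `exists_eig`, `cardE_ne`, `vm_diag`, `vm_not_prj`. -/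
theorem sl_simple [IsAlgClosed k] (K : KD k θ H) {z₀ : Z}
    (hgen : ∀ z : Z, z ∈ Subgroup.zpowers z₀) (D : WD k H) (i : D.I) :
    ∃ (m : ℕ) (χ : Fin m → E →* kˣ) (w : Fin m → Vm D i),
      (∀ a y, rp (R := k) K.ρ (Vm D i) (.inr y) (w a) = ((χ a y : kˣ) : k) • w a) ∧
      SL (tw θ χ k) (rp K.ρ (Vm D i)) (.inl z₀) (Fintype.card Z / 2)
        (fd (rp K.ρ (Vm D i)) w) := by
  have hE := cardE_ne K
  obtain ⟨c, om, hc⟩ := exists_eig K.hp K.ch K.card hgen hE θ
  exact exists_short_long K.hp K.ch K.card hgen hE hc (rp K.ρ (Vm D i))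
    (fun f hf => vm_diag K D hf) (vm_not_prj K D i)

/-- MODULE NB. BLOCK N. PROOF. `J i = Fin (m i)`, `χ`, `w` from `sl_simple`. `nu D K.ρ i (w i)` is `fd (rp K.ρ (Vm D i)) (w i)`
and `sr D K.ρ i` is `rp K.ρ (Vm D i)` (`rfl`, or `ext` and `Vm.smul_def`). `h = |Z| / 2`, `prj_tw` (`cardE_ne`), `fd_eqv`.
(om) `i ≠ i'`: `ky_inj` with `vm_off` for `i' → i`; `i = i'`: `ky_inj_same`. (oa) `ky_mid`, `β` is a trace by `vm_off`.
(ob) `β = c + Trc φ` by `vm_diag`; `ky_mid` for `α - c`, `β - c`. (oc) `nu σ = id`: `ky_unq` with `c = -1`, i.e.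
`(-1) v + nu (σ v) = 0`, gives `-1 = 0`, a contradiction (`vm_not_prj`). -/
theorem exists_orth [IsAlgClosed k] [FiniteDimensional k H] (K : KD k θ H) (hc : IsCyclic Z)
    (D : WD k H) : Nonempty (Orth D K.ρ) := by
  obtain ⟨z₀, hgen⟩ := hc.exists_generator
  choose m χ w hw hSL using sl_simple K hgen D
  have hE := cardE_ne K
  have hh : 2 * (Fintype.card Z / 2) ≤ Fintype.card Z := Nat.mul_div_le _ _
  have hN : ∀ i, Prj (tw θ (χ i) k) := fun i => prj_tw hE.isUnit _ _
  have hD : ∀ i, Eqv (tw θ (χ i) k) (rp K.ρ (Vm D i)) (fd (rp K.ρ (Vm D i)) (w i)) :=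
    fun i => fd_eqv _ (hw i)
  refine ⟨{ J := fun i => Fin (m i)
            χ := χ
            w := w
            ev := fun i a y => hw i a y
            om := ?_
            oa := ?_
            ob := ?_
            oc := ?_ }⟩
  · intro i i' u hu h1 h2
    have h1' : ∀ x, u (fd (rp K.ρ (Vm D i)) (w i) x) = 0 := fun x => LinearMap.congr_fun h1 x
    have h2' : ∀ v : Vm D i, fd (rp K.ρ (Vm D i')) (w i') (u v) = 0 :=
      fun v => LinearMap.congr_fun h2 v
    by_cases h : i = i'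
    · subst h
      exact LinearMap.ext fun v => ky_inj_same (V := Vm D i) (hSL i) h2' h1' v
    · exact LinearMap.ext fun v => ky_inj (V := Vm D i) (V' := Vm D i') K.hp K.ch K.card hgen hh
        (hN i) (hN i') (hD i) (hD i') (hSL i) (hSL i')
        (fun g hg => vm_off K D (Ne.symm h) hg) hu h2' h1' v
  · intro i i' hne α β hα hβ hcomm
    obtain ⟨u, hu, h1, h2⟩ := ky_mid (V := Vm D i) (V' := Vm D i') (α := α) (β := β) K.hp K.ch
      K.card hgen hh (hN i) (hN i') (hD i) (hD i') (hSL i) (hSL i') hα (vm_off K D hne hβ)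
      (fun x => LinearMap.congr_fun hcomm x)
    exact ⟨u, hu, LinearMap.ext h2, LinearMap.ext h1⟩
  · intro i α β hα hβ hcomm
    obtain ⟨c, φ, hφ⟩ := vm_diag K D (i := i) (f := β) hβ
    let β' : Vm D i →ₗ[k] Vm D i := β
    have hφ' : ∀ v : Vm D i, β' v = c • v +
        Trc (rp (R := k) K.ρ (Vm D i)) (rp K.ρ (Vm D i)) φ v :=
      fun v => LinearMap.congr_fun hφ v
    have hcm : ∀ x, fd (rp K.ρ (Vm D i)) (w i) (α x) = β' (fd (rp K.ρ (Vm D i)) (w i) x) :=
      fun x => LinearMap.congr_fun hcomm x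
    obtain ⟨u, hu, h1, h2⟩ := ky_mid (V := Vm D i) (V' := Vm D i) (α := α - c • LinearMap.id)
      (β := Trc (rp (R := k) K.ρ (Vm D i)) (rp K.ρ (Vm D i)) φ) K.hp K.ch
      K.card hgen hh (hN i) (hN i) (hD i) (hD i) (hSL i) (hSL i)
      (fun g v => by
        rw [LinearMap.sub_apply, LinearMap.sub_apply, LinearMap.smul_apply, LinearMap.smul_apply,
          LinearMap.id_apply, LinearMap.id_apply, hα g v, map_sub, map_smul])
      ⟨φ, rfl⟩
      (fun x => by
        rw [LinearMap.sub_apply, LinearMap.smul_apply, LinearMap.id_apply, map_sub, map_smul,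
          hcm x, hφ', add_sub_cancel_left])
    refine ⟨c, u, hu, LinearMap.ext fun x => ?_, LinearMap.ext fun v => ?_⟩
    · have h := h2 x
      rw [LinearMap.sub_apply, LinearMap.smul_apply, LinearMap.id_apply] at h
      exact (sub_eq_iff_eq_add'.mp h)
    · exact (hφ' v).trans (congrArg (fun t : Vm D i => c • (show Vm D i from v) + t) (h1 v))
  · intro i σ hσ hid
    let σ' : Vm D i →ₗ[k] (Fin (m i) × Z → k) := σ
    have hid' : ∀ v : Vm D i, fd (rp K.ρ (Vm D i)) (w i) (σ' v) = v :=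
      fun v => LinearMap.congr_fun hid v
    have h := ky_unq (V := Vm D i) (u := σ') (hN i) (hD i) (vm_not_prj K D i) hσ
      (c := -1) fun v => by rw [hid' v, neg_one_smul, neg_add_cancel]
    exact one_ne_zero (neg_eq_zero.mp h)

end Pool.Agent.FbT
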