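import Pool.Agent.FbT.Fx
import Pool.Agent.FbT.Sp

/-!
# FbT, part Bs: the family `Φ` over the field `k` and the exactness statement for simple modules
-/

set_option autoImplicit false

namespace Pool.Agent.FbT

open Pool.Agent.Sig Pool.Agent.DD

open scoped Matrix

section Prim

variable {k H : Type} [Field k] [Ring H] [Algebra k H]

private theorem BB1_e0 (D : WD k H) (i : D.I) :
    (Matrix.single (⟨0, D.pos i⟩ : Fin (D.n i)) ⟨0, D.pos i⟩ (1 : k)) *ᵥ
      (Pi.single (⟨0, D.pos i⟩ : Fin (D.n i)) (1 : k)) = Pi.single ⟨0, D.pos i⟩ 1 := by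
  classical
  rw [Matrix.mulVec_single_one]
  ext r
  by_cases hr : r = ⟨0, D.pos i⟩
  · subst hr; simp
  · rw [Pi.single_eq_of_ne hr]
    simp [Ne.symm hr]

private theorem BB2_e0 (D : WD k H) (i : D.I) (v : Fin (D.n i) → k) :
    (Matrix.single (⟨0, D.pos i⟩ : Fin (D.n i)) ⟨0, D.pos i⟩ (1 : k)) *ᵥ v =
      v ⟨0, D.pos i⟩ • Pi.single (⟨0, D.pos i⟩ : Fin (D.n i)) (1 : k) := by
  classical
  ext r
  by_cases hr : r = ⟨0, D.pos i⟩
  · subst hr; simp [Matrix.mulVec, dotProduct, Matrix.single_apply]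
  · rw [Pi.smul_apply, Pi.single_eq_of_ne hr]
    simp [Matrix.mulVec, dotProduct, Ne.symm hr]

/-- MODULE BA1. Representatives of the primitive idempotents. PROOF. `F : H → ∏_i M_(n i)(k)`,
`h ↦ (φ_i h)_i` is a surjective ring homomorphism (`D.surj`) and the elements of its kernel are nilpotent
(`D.nil` for the constant list: `x^N = 0`). Lift the idempotents `(0, .., E_00, .., 0)`:
`exists_isIdempotentElem_eq_of_ker_isNilpotent` (see Sig/BBSimple.lean, `exists_reps`, for its use). -/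
theorem exists_prim (D : WD k H) : ∃ f : D.I → H, (∀ i, f i * f i = f i) ∧
    (∀ i, D.φ i (f i) = Matrix.single (⟨0, D.pos i⟩ : Fin (D.n i)) ⟨0, D.pos i⟩ 1) ∧
    ∀ i j, i ≠ j → D.φ j (f i) = 0 := by
  classical
  let F : H →+* (∀ i, Matrix (Fin (D.n i)) (Fin (D.n i)) k) := RingHom.pi fun i => (D.φ i : H →+* _)
  have hF : ∀ h i, F h i = D.φ i h := fun h i => rfl
  have hs : Function.Surjective F := fun t => by
    obtain ⟨c, hc⟩ := D.surj t
    exact ⟨c, funext fun i => by rw [hF, hc]⟩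
  have hf : ∀ i : D.I, ∃ f : H, IsIdempotentElem f ∧
      F f = Pi.single i (Matrix.single (⟨0, D.pos i⟩ : Fin (D.n i)) ⟨0, D.pos i⟩ 1) := by
    intro i
    refine exists_isIdempotentElem_eq_of_ker_isNilpotent F ?_ _ ?_ ?_
    · intro x hx
      rw [RingHom.mem_ker] at hx
      obtain ⟨N, hN⟩ := D.nil
      refine ⟨N, ?_⟩
      have h1 := hN (List.replicate N x) List.length_replicate (fun y hy j => by
        rw [List.eq_of_mem_replicate hy, ← hF, hx]
        rfl)
      rwa [List.prod_replicate] at h1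
    · exact hs _
    · show Pi.single i _ * Pi.single i _ = Pi.single i _
      rw [← Pi.single_mul]
      simp
  choose f hf hfE using hf
  refine ⟨f, hf, fun i => ?_, fun i j hij => ?_⟩
  · rw [← hF, hfE, Pi.single_eq_same]
  · rw [← hF, hfE, Pi.single_eq_of_ne hij.symm]

/-- MODULE BA2. Every nonzero finite dimensional `H`-module has some `Vm D i` as a quotient. PROOF. Let `N` be a maximal
proper submodule of `M` (`M` is a finite length / finitely generated module: `IsCoatomic`,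
`IsSimpleModule (M ⧸ N)`), `T = M ⧸ N`. `I = {x | ∀ i, φ_i x = 0}` is a two-sided ideal, products of `N₀`
elements of `I` are `0` (`D.nil`); the submodule `I T` (span of the `x t`) is `0` or `T`; it is not `T`
(iterate `N₀` times), so `I T = 0`. With `f` of `exists_prim`: `1 = ∑_{i, r} a_{i,r} f_i b_{i,r} + x`, `x ∈ I`
(`a`, `b` lifts of the matrix units `E_r0`, `E_0r`), so `f_i t ≠ 0` for some `i, t`; replace `t` by `f_i t`. The map
`Vm D i → T`, `φ_i(h) e_0 ↦ h t` is well defined: if `φ_i(h) e_0 = 0` then `h f_i ∈ I` (its `i`-component is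
`φ_i(h) E_00 = 0`), so `h t = h f_i t = 0`. It is `H`-linear and not `0`, so it is onto (`T` simple), and
injective (`Vm D i` is simple: from a nonzero vector one gets every vector by `D.surj`). `π` is the composition of
`M → T` with its inverse. -/
theorem exists_vm_quot [FiniteDimensional k H] (D : WD k H) {M : Type} [AddCommGroup M]
    [Module k M] [Module H M] [IsScalarTower k H M] [FiniteDimensional k M] [Nontrivial M] :
    ∃ (i : D.I) (π : M →ₗ[H] Vm D i), Function.Surjective π := by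
  classical
  obtain ⟨f, hff, hf1, hf2⟩ := exists_prim D
  have hfin : Module.Finite H M := Module.Finite.of_restrictScalars_finite k H M
  obtain h0 | ⟨N, hN, -⟩ := eq_top_or_exists_le_coatom (⊥ : Submodule H M)
  · exact absurd h0 bot_ne_top
  have hsim : IsSimpleModule H (M ⧸ N) := isSimpleModule_iff_isCoatom.2 hN
  obtain ⟨N₀, hN₀⟩ := D.nil
  -- elements of the radical are nilpotent
  have hnil : ∀ x : H, (∀ i, D.φ i x = 0) → x ^ N₀ = 0 := fun x hx => by
    have h1 := hN₀ (List.replicate N₀ x) List.length_replicate (fun y hy j => by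
      rw [List.eq_of_mem_replicate hy, hx])
    rwa [List.prod_replicate] at h1
  have hfix : ∀ (x : H) (t : M ⧸ N), x • t = t → ∀ m : ℕ, x ^ m • t = t := fun x t h m => by
    induction m with
    | zero => rw [pow_zero, one_smul]
    | succ m ih => rw [pow_succ, mul_smul, h, ih]
  have hspan : ∀ t : M ⧸ N, t ≠ 0 → ∀ t' : M ⧸ N, ∃ h : H, h • t = t' := fun t ht t' => by
    have h1 := IsSimpleModule.span_singleton_eq_top H ht
    have h2 : t' ∈ Submodule.span H {t} := by rw [h1]; exact Submodule.mem_top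
    exact Submodule.mem_span_singleton.1 h2
  have hI : ∀ x : H, (∀ i, D.φ i x = 0) → ∀ t : M ⧸ N, x • t = 0 := fun x hx t => by
    by_contra h
    obtain ⟨h', hh⟩ := hspan _ h t
    have h1 : (h' * x) ^ N₀ = 0 := hnil _ fun i => by rw [map_mul, hx, mul_zero]
    have h2 := hfix (h' * x) t (by rw [mul_smul, hh]) N₀
    rw [h1, zero_smul] at h2
    exact h (by rw [← h2, smul_zero])
  -- some `f i` does not kill the quotient
  have hex : ∃ (i : D.I) (t : M ⧸ N), f i • t ≠ 0 := by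
    by_contra hcon
    simp only [not_exists, not_not] at hcon
    choose a ha using fun (i : D.I) (r : Fin (D.n i)) => D.surj (Pi.single i
      (Matrix.single r (⟨0, D.pos i⟩ : Fin (D.n i)) 1))
    choose b hb using fun (i : D.I) (r : Fin (D.n i)) => D.surj (Pi.single i
      (Matrix.single (⟨0, D.pos i⟩ : Fin (D.n i)) r 1))
    have h1 : ∀ j, D.φ j (1 - ∑ i, ∑ r, a i r * f i * b i r) = 0 := fun j => by
      rw [map_sub, map_one, sub_eq_zero, map_sum, Finset.sum_eq_single j]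
      · rw [map_sum]
        ext r s
        simp only [map_mul, ha, hb, hf1, Pi.single_eq_same]
        simp [Matrix.sum_apply, Matrix.single_apply, Matrix.one_apply, ite_and]
      · intro i _ hij
        rw [map_sum]
        refine Finset.sum_eq_zero fun r _ => ?_
        rw [map_mul, map_mul, ha, Pi.single_eq_of_ne hij.symm, zero_mul, zero_mul]
      · intro h
        exact absurd (Finset.mem_univ j) h
    have hnt : Nontrivial (M ⧸ N) := IsSimpleModule.nontrivial H (M ⧸ N)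
    obtain ⟨t, ht⟩ := exists_ne (0 : M ⧸ N)
    have h2 := hI _ h1 t
    rw [sub_smul, one_smul, Finset.sum_smul, sub_eq_zero] at h2
    apply ht
    rw [h2]
    refine Finset.sum_eq_zero fun i _ => ?_
    rw [Finset.sum_smul]
    refine Finset.sum_eq_zero fun r _ => ?_
    rw [mul_smul, mul_smul, hcon, smul_zero]
  obtain ⟨i, t, hit⟩ := hex
  have hfe : f i • Vm.e0 D i = Vm.e0 D i := by
    rw [Vm.smul_def, hf1]
    exact BB1_e0 D i
  -- the two maps from `H`
  let Ψ : H →ₗ[H] M ⧸ N := LinearMap.toSpanSingleton H (M ⧸ N) (f i • t)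
  let Θ : H →ₗ[H] Vm D i := LinearMap.toSpanSingleton H (Vm D i) (Vm.e0 D i)
  have hΨ : Function.Surjective Ψ := fun t' => hspan _ hit t'
  have hΘ : Function.Surjective Θ := fun v => by
    obtain ⟨c, hc⟩ := D.surj (Pi.single i (Matrix.of fun r _ => (v : Fin (D.n i) → k) r))
    refine ⟨c, ?_⟩
    show c • Vm.e0 D i = v
    rw [Vm.smul_def, hc, Pi.single_eq_same]
    exact (Matrix.mulVec_single_one _ _).trans rfl
  have h10 : ∀ h : H, h • Vm.e0 D i = 0 → h • (f i • t) = 0 := fun h h0 => by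
    rw [← mul_smul]
    refine hI _ (fun j => ?_) t
    by_cases hj : i = j
    · subst hj
      rw [Vm.smul_def] at h0
      have h2 : (D.φ i h).col ⟨0, D.pos i⟩ = 0 := (Matrix.mulVec_single_one _ _).symm.trans h0
      rw [map_mul, hf1]
      ext r s
      have h3 := congrFun h2 r
      rw [Matrix.col_apply] at h3
      by_cases hs : s = ⟨0, D.pos i⟩
      · subst hs
        simpa [Matrix.mul_apply, Matrix.single_apply] using h3
      · simp [Matrix.mul_apply, Ne.symm hs]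
    · rw [map_mul, hf2 i j hj, mul_zero]
  have hker : LinearMap.ker Ψ ≤ LinearMap.ker Θ := fun h hh => by
    rw [LinearMap.mem_ker] at hh ⊢
    by_contra hne
    change ¬ (h • Vm.e0 D i = 0) at hne
    change h • (f i • t) = 0 at hh
    obtain ⟨r, hr⟩ : ∃ r, (h • Vm.e0 D i : Fin (D.n i) → k) r ≠ 0 := by
      by_contra hcon
      simp only [not_exists, not_not] at hcon
      exact hne (funext hcon)
    obtain ⟨c, hc⟩ := D.surj (Pi.single i (Matrix.single (⟨0, D.pos i⟩ : Fin (D.n i)) r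
      ((h • Vm.e0 D i : Fin (D.n i) → k) r)⁻¹))
    have h3 : c • (h • Vm.e0 D i) = Vm.e0 D i := by
      rw [Vm.smul_def, hc, Pi.single_eq_same]
      funext s
      show ((Matrix.single (⟨0, D.pos i⟩ : Fin (D.n i)) r
        ((h • Vm.e0 D i : Fin (D.n i) → k) r)⁻¹) *ᵥ (h • Vm.e0 D i : Fin (D.n i) → k)) s =
        (Pi.single (⟨0, D.pos i⟩ : Fin (D.n i)) (1 : k) : Fin (D.n i) → k) s
      by_cases hs : s = ⟨0, D.pos i⟩
      · subst hs
        simp [Matrix.mulVec, dotProduct, Matrix.single_apply, inv_mul_cancel₀ hr]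
      · rw [Pi.single_eq_of_ne hs]
        simp [Matrix.mulVec, dotProduct, Ne.symm hs]
    have h4 := h10 (c * h - 1) (by rw [sub_smul, one_smul, mul_smul, h3, sub_self])
    rw [sub_smul, one_smul, mul_smul, hh, smul_zero, zero_sub, neg_eq_zero] at h4
    exact hit h4
  refine ⟨i, ((LinearMap.ker Ψ).liftQ Θ hker ∘ₗ
    (Ψ.quotKerEquivOfSurjective hΨ).symm.toLinearMap) ∘ₗ N.mkQ, ?_⟩
  intro v
  obtain ⟨h, hh⟩ := hΘ v
  obtain ⟨m, hm⟩ := N.mkQ_surjective (Ψ h)
  refine ⟨m, ?_⟩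
  rw [LinearMap.comp_apply, LinearMap.comp_apply, hm]
  have h5 : (Ψ.quotKerEquivOfSurjective hΨ).symm (Ψ h) = (LinearMap.ker Ψ).mkQ h := by
    rw [LinearEquiv.symm_apply_eq]
    rfl
  rw [LinearEquiv.coe_coe, h5]
  exact hh

end Prim

section Fam

variable {k Z E H : Type} [Field k] [CommGroup Z] [Fintype Z] [CommGroup E] [Fintype E]
  {θ : E →* MulAut Z} [Ring H] [Algebra k H]

/-- MODULE BB1. PROOF. By `D.surj` there is `x ∈ H` with `φ_i(x) e_0 = w` (first column `w`). Put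
`n = |E|⁻¹ ∑_y χ(y)⁻¹ ρ(inr y) x f_i`: `n f_i = n`, `ρ(inr y) n = χ(y) n` (substitute in the sum),
`n e_0 = |E|⁻¹ ∑_y χ(y)⁻¹ ρ(y) w = w` (`f_i e_0 = E_00 e_0 = e_0`); `cardE_ne`. -/
theorem exists_gen (K : KD k θ H) (D : WD k H) {f : D.I → H} (hf : ∀ i, f i * f i = f i)
    (hf1 : ∀ i, D.φ i (f i) = Matrix.single (⟨0, D.pos i⟩ : Fin (D.n i)) ⟨0, D.pos i⟩ 1)
    (i : D.I) {χ : E →* kˣ} {w : Fin (D.n i) → k}
    (hw : ∀ y, D.φ i (K.ρ (.inr y)) *ᵥ w = ((χ y : kˣ) : k) • w) :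
    ∃ n : H, n * f i = n ∧ (∀ y, K.ρ (.inr y) * n = ((χ y : kˣ) : k) • n) ∧
      n • Vm.e0 D i = w := by
  classical
  have hE := cardE_ne K
  obtain ⟨x, hx⟩ := D.surj (Pi.single i (Matrix.of fun r _ => w r))
  have hxi : D.φ i x = Matrix.of fun r _ => w r := by rw [hx, Pi.single_eq_same]
  refine ⟨(Fintype.card E : k)⁻¹ • ∑ y : E, ((χ y⁻¹ : kˣ) : k) • (K.ρ (.inr y) * x * f i),
    ?_, fun y => ?_, ?_⟩
  · rw [smul_mul_assoc, Finset.sum_mul]
    congr 1
    refine Finset.sum_congr rfl fun y _ => ?_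
    rw [smul_mul_assoc, mul_assoc _ (f i), hf]
  · rw [mul_smul_comm, smul_comm ((χ y : kˣ) : k)]
    congr 1
    rw [Finset.mul_sum, Finset.smul_sum]
    rw [← Equiv.sum_comp (Equiv.mulLeft y)
      (fun z => ((χ y : kˣ) : k) • ((χ z⁻¹ : kˣ) : k) • (K.ρ (.inr z) * x * f i))]
    refine Finset.sum_congr rfl fun z _ => ?_
    rw [Equiv.coe_mulLeft, map_mul SemidirectProduct.inr, map_mul K.ρ, smul_smul, mul_inv_rev,
      map_mul χ, mul_smul_comm, Units.val_mul]
    have h1 : ((χ y : kˣ) : k) * (((χ z⁻¹ : kˣ) : k) * ((χ y⁻¹ : kˣ) : k)) =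
        ((χ z⁻¹ : kˣ) : k) := by
      rw [map_inv χ y, mul_left_comm, Units.mul_inv, mul_one]
    rw [h1]
    simp only [mul_assoc]
  · rw [Vm.smul_def, map_smul, map_sum, Matrix.smul_mulVec]
    have h2 : (∑ y : E, D.φ i (((χ y⁻¹ : kˣ) : k) • (K.ρ (.inr y) * x * f i))) *ᵥ
        (Vm.e0 D i : Fin (D.n i) → k) = (Fintype.card E : k) • w := by
      rw [Matrix.sum_mulVec, Nat.cast_smul_eq_nsmul, Fintype.card, ← Finset.sum_const]
      refine Finset.sum_congr rfl fun y _ => ?_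
      have h3 : (D.φ i x) *ᵥ (Pi.single (⟨0, D.pos i⟩ : Fin (D.n i)) (1 : k)) = w := by
        rw [Matrix.mulVec_single_one, hxi]
        rfl
      rw [map_smul, map_mul, map_mul, hf1, Matrix.smul_mulVec, ← Matrix.mulVec_mulVec,
        ← Matrix.mulVec_mulVec]
      show ((χ y⁻¹ : kˣ) : k) • (D.φ i (K.ρ (.inr y)) *ᵥ (D.φ i x *ᵥ
        ((Matrix.single (⟨0, D.pos i⟩ : Fin (D.n i)) ⟨0, D.pos i⟩ (1 : k)) *ᵥ
        (Pi.single (⟨0, D.pos i⟩ : Fin (D.n i)) (1 : k))))) = w
      rw [BB1_e0, h3, hw, smul_smul, map_inv χ y, Units.inv_mul, one_smul]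
    have h6 : (Fintype.card E : k)⁻¹ • ((Fintype.card E : k) • w) = w := by
      rw [smul_smul, inv_mul_cancel₀ hE, one_smul]
    exact (congrArg (fun v => (Fintype.card E : k)⁻¹ • v) h2).trans h6

/-- The family of `Orth` data, primitive idempotents `f` and elements `n`. -/
def OFam {K : KD k θ H} {D : WD k H} (O : Orth D K.ρ) {f : D.I → H} (hf : ∀ i, f i * f i = f i)
    (n : ∀ i, O.J i → H) (hn : ∀ i a, n i a * f i = n i a)
    (he : ∀ i a y, K.ρ (.inr y) * n i a = ((O.χ i a y : kˣ) : k) • n i a) : Fam k K.ρ where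
  J := Σ i, O.J i
  χ a := O.χ a.1 a.2
  f a := f a.1
  v a := n a.1 a.2
  ff a := hf a.1
  vf a := hn a.1 a.2
  ev a y := he a.1 a.2 y

/-- MODULE BB2. The complex `F1 V_i → V_i` of this family is the complex `nu`. PROOF. An element
`x ∈ F1 V_i` has `x((j, a), z) = f_j x((j, a), z)`, which is `0` if `j ≠ i` (`hf2`) and a multiple of `e_0` if `j = i`
(`φ_i(f_i) = E_00`): `e x (a, z) = ` the coordinate of `x((i, a), z)` at `0`; inverse: `y ↦ ((j, a), z) ↦ y (a, z) • e_0` if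
`j = i`, `0` otherwise. It is equivariant for `Φ.act` and `tw`, and `d x = ∑ ρ(z) n_(i,a) x((i,a),z) =
∑ y(a,z) ρ(z) w_a` (`hw`). -/
theorem F1_equiv {K : KD k θ H} {D : WD k H} (O : Orth D K.ρ) {f : D.I → H}
    (hf : ∀ i, f i * f i = f i)
    (hf1 : ∀ i, D.φ i (f i) = Matrix.single (⟨0, D.pos i⟩ : Fin (D.n i)) ⟨0, D.pos i⟩ 1)
    (hf2 : ∀ i j, i ≠ j → D.φ j (f i) = 0) (n : ∀ i, O.J i → H)
    (hn : ∀ i a, n i a * f i = n i a)
    (he : ∀ i a y, K.ρ (.inr y) * n i a = ((O.χ i a y : kˣ) : k) • n i a)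
    (hw : ∀ i a, n i a • Vm.e0 D i = O.w i a) (i : D.I) :
    ∃ e : (OFam O hf n hn he).F1 (Vm D i) ≃ₗ[k] (O.J i × Z → k),
      Eqv ((OFam O hf n hn he).act (Vm D i)) (tw θ (O.χ i) k) e.toLinearMap ∧
      ∀ x, (OFam O hf n hn he).d (Vm D i) x = nu D K.ρ i (O.w i) (e x) := by
  classical
  have hfe : ∀ v : Vm D i, f i • v = (v : Fin (D.n i) → k) ⟨0, D.pos i⟩ • Vm.e0 D i := fun v => by
    rw [Vm.smul_def, hf1]
    exact BB2_e0 D i _
  have hfe0 : f i • Vm.e0 D i = Vm.e0 D i := by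
    rw [Vm.smul_def, hf1]
    exact BB1_e0 D i
  have hval : ∀ (x : (OFam O hf n hn he).F1 (Vm D i)) (a : O.J i) (z : Z),
      x.1 ((⟨i, a⟩ : Σ i, O.J i), z) =
        (x.1 ((⟨i, a⟩ : Σ i, O.J i), z) : Fin (D.n i) → k) ⟨0, D.pos i⟩ • Vm.e0 D i := by
    intro x a z
    have h1 : f i • x.1 ((⟨i, a⟩ : Σ i, O.J i), z) = x.1 ((⟨i, a⟩ : Σ i, O.J i), z) :=
      x.2 ((⟨i, a⟩ : Σ i, O.J i), z)
    exact h1.symm.trans (hfe _)
  have hzero : ∀ (x : (OFam O hf n hn he).F1 (Vm D i)) (j : D.I) (a : O.J j) (z : Z), j ≠ i →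
      x.1 ((⟨j, a⟩ : Σ i, O.J i), z) = 0 := by
    intro x j a z hj
    have h1 : f j • x.1 ((⟨j, a⟩ : Σ i, O.J i), z) = x.1 ((⟨j, a⟩ : Σ i, O.J i), z) :=
      x.2 ((⟨j, a⟩ : Σ i, O.J i), z)
    rw [← h1, Vm.smul_def, hf2 j i hj]
    exact Matrix.zero_mulVec _
  let L : (OFam O hf n hn he).F1 (Vm D i) →ₗ[k] (O.J i × Z → k) :=
    { toFun := fun x q => (x.1 ((⟨i, q.1⟩ : Σ i, O.J i), q.2) : Fin (D.n i) → k) ⟨0, D.pos i⟩
      map_add' := fun x y => rfl
      map_smul' := fun c x => rfl }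
  have hL : ∀ x q, L x q =
    (x.1 ((⟨i, q.1⟩ : Σ i, O.J i), q.2) : Fin (D.n i) → k) ⟨0, D.pos i⟩ := fun x q => rfl
  have hinj : Function.Injective L := by
    rw [← LinearMap.ker_eq_bot, LinearMap.ker_eq_bot']
    intro x hx
    ext p
    obtain ⟨⟨j, a⟩, z⟩ := p
    by_cases hj : j = i
    · subst hj
      have h1 := congrFun hx (a, z)
      rw [hL] at h1
      rw [hval x a z]
      change (x.1 ((⟨j, a⟩ : Σ i, O.J i), z) : Fin (D.n j) → k) ⟨0, D.pos j⟩ = 0 at h1
      rw [h1, zero_smul]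
      rfl
    · rw [hzero x j a z hj]
      rfl
  have hsur : Function.Surjective L := by
    intro y
    refine ⟨⟨fun p => ∑ a : O.J i, if (⟨i, a⟩ : Σ i, O.J i) = p.1 then
      y (a, p.2) • Vm.e0 D i else 0, fun p => ?_⟩, ?_⟩
    · show f p.1.1 • _ = _
      rw [Finset.smul_sum]
      refine Finset.sum_congr rfl fun a _ => ?_
      split_ifs with h
      · rw [← h]
        show f i • (y (a, p.2) • Vm.e0 D i) = _
        rw [smul_comm, hfe0]
      · rw [smul_zero]
    · funext q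
      rw [hL]
      show (∑ a : O.J i, if (⟨i, a⟩ : Σ i, O.J i) = ⟨i, q.1⟩ then
        y (a, q.2) • Vm.e0 D i else 0 : Vm D i) ⟨0, D.pos i⟩ = y q
      rw [Finset.sum_eq_single q.1]
      · rw [if_pos rfl]
        show y (q.1, q.2) * (Pi.single (⟨0, D.pos i⟩ : Fin (D.n i)) (1 : k) : Fin (D.n i) → k)
          ⟨0, D.pos i⟩ = y q
        rw [Pi.single_eq_same, mul_one]
      · intro b _ hb
        refine if_neg fun h => hb ?_
        exact eq_of_heq (Sigma.mk.inj h).2
      · intro h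
        exact absurd (Finset.mem_univ _) h
  refine ⟨LinearEquiv.ofBijective L ⟨hinj, hsur⟩, fun g x => ?_, fun x => ?_⟩
  · funext q
    rfl
  · rw [Fam.d_apply, nu_apply]
    show ∑ p : (Σ i, O.J i) × Z, (K.ρ (.inl p.2) * n p.1.1 p.1.2) • x.1 p =
      ∑ p : O.J i × Z, L x p • (D.φ i (K.ρ (.inl p.2)) *ᵥ O.w i p.1)
    rw [Fintype.sum_prod_type, Fintype.sum_sigma, Fintype.sum_prod_type, Finset.sum_eq_single i]
    · refine Finset.sum_congr rfl fun a _ => Finset.sum_congr rfl fun z _ => ?_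
      refine (congrArg (fun v => (K.ρ (.inl z) * n i a) • v) (hval x a z)).trans ?_
      show (K.ρ (.inl z) * n i a) • (L x (a, z) • Vm.e0 D i) = _
      rw [smul_comm, mul_smul, hw]
      rfl
    · intro j _ hj
      exact Finset.sum_eq_zero fun a _ => Finset.sum_eq_zero fun z _ =>
        (congrArg (fun v => (K.ρ (.inl z) * n j a) • v) (hzero x j a z hj)).trans (smul_zero _)
    · intro h
      exact absurd (Finset.mem_univ _) h

/-- MODULE BB3. PROOF. `exists_prim`, `exists_gen` (for `O.ev`), `F1_equiv`. -/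
theorem exists_fam (K : KD k θ H) (D : WD k H) (O : Orth D K.ρ) :
    ∃ Φ : Fam k K.ρ, ∀ i : D.I, ∃ e : Φ.F1 (Vm D i) ≃ₗ[k] (O.J i × Z → k),
      Eqv (Φ.act (Vm D i)) (tw θ (O.χ i) k) e.toLinearMap ∧
      ∀ x, Φ.d (Vm D i) x = nu D K.ρ i (O.w i) (e x) := by
  obtain ⟨f, hf, hf1, hf2⟩ := exists_prim D
  choose n hn he hw using fun (i : D.I) (a : O.J i) => exists_gen K D hf hf1 i (O.ev i a)
  exact ⟨OFam O hf n hn he, fun i => F1_equiv O hf hf1 hf2 n hn he hw i⟩

omit [CommGroup Z] [CommGroup E] [Fintype Z] [Fintype E] [Ring H] [Algebra k H] in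
private theorem BC1_symm {G V W : Type} [Group G] [AddCommGroup V] [Module k V]
    [AddCommGroup W] [Module k W] {σ : Representation k G V} {τ : Representation k G W}
    {e : V ≃ₗ[k] W} (he : Eqv σ τ e.toLinearMap) : Eqv τ σ e.symm.toLinearMap := fun g v => by
  apply e.injective
  have h1 := he g (e.symm v)
  rw [LinearEquiv.coe_coe, LinearEquiv.apply_symm_apply] at h1
  rw [LinearEquiv.coe_coe, LinearEquiv.apply_symm_apply, h1]

omit [CommGroup Z] [CommGroup E] [Fintype Z] [Fintype E] [Ring H] [Algebra k H] in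
private theorem BC1_comp {G V W X : Type} [Group G] [AddCommGroup V] [Module k V]
    [AddCommGroup W] [Module k W] [AddCommGroup X] [Module k X] {σ : Representation k G V}
    {τ : Representation k G W} {υ : Representation k G X} {f : V →ₗ[k] W} {f' : W →ₗ[k] X}
    (h : Eqv σ τ f) (h' : Eqv τ υ f') : Eqv σ υ (f' ∘ₗ f) := fun g v => by
  rw [LinearMap.comp_apply, h, h', LinearMap.comp_apply]

/-- MODULE BC1. PROOF. Transport by `e_i`, `e_i'` (`rp K.ρ (Vm D i)` is `sr D K.ρ i`: `rfl`). inj: `O.om`. mid: `O.oa`, `g = 0`.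
unq: `vm_hom_zero`. -/
theorem ex3_off (K : KD k θ H) (D : WD k H) (O : Orth D K.ρ) (Φ : Fam k K.ρ)
    (hΦ : ∀ i : D.I, ∃ e : Φ.F1 (Vm D i) ≃ₗ[k] (O.J i × Z → k),
      Eqv (Φ.act (Vm D i)) (tw θ (O.χ i) k) e.toLinearMap ∧
      ∀ x, Φ.d (Vm D i) x = nu D K.ρ i (O.w i) (e x)) {i i' : D.I} (hi : i ≠ i') :
    Ex3 Φ (Vm D i) (Vm D i') := by
  obtain ⟨e, he, hd⟩ := hΦ i
  obtain ⟨e', he', hd'⟩ := hΦ i'
  have hds : ∀ x, nu D K.ρ i (O.w i) x = Φ.d (Vm D i) (e.symm x) := fun x => by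
    rw [hd, LinearEquiv.apply_symm_apply]
  have hes := BC1_symm he
  refine ⟨fun u hu h1 h2 v => ?_, fun α β hα hβ hc => ?_, fun g u _ _ _ v => vm_hom_zero D hi g v⟩
  · have h3 := O.om i i' (e'.toLinearMap ∘ₗ u) (BC1_comp hu he')
      (LinearMap.ext fun x => (congrArg (fun v => e' (u v)) (hds x)).trans
        ((congrArg e' (h2 _)).trans (map_zero _)))
      (LinearMap.ext fun x => (hd' (u x)).symm.trans (h1 x))
    apply e'.injective
    rw [map_zero]
    exact LinearMap.congr_fun h3 v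
  · obtain ⟨σ, hσ, h1, h2⟩ := O.oa i i' hi (e'.toLinearMap ∘ₗ α ∘ₗ e.symm.toLinearMap) β
      (BC1_comp (BC1_comp hes hα) he') hβ (LinearMap.ext fun x =>
        ((hd' _).symm.trans (hc _)).trans (congrArg β (hds x).symm))
    refine ⟨0, e'.symm.toLinearMap ∘ₗ σ, BC1_comp hσ (BC1_symm he'), fun v => ?_, fun t => ?_⟩
    · have h6 : Φ.d (Vm D i') (e'.symm (σ v)) = nu D K.ρ i' (O.w i') (σ v) := by
        rw [hd', LinearEquiv.apply_symm_apply]
      exact ((LinearMap.congr_fun h2 v).trans h6.symm).trans (zero_add _).symm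
    · have h4 : Φ.map (0 : Vm D i →ₗ[H] Vm D i') t = 0 := map_zero' Φ t
      rw [h4, zero_add]
      apply e'.injective
      have h7 : e' ((e'.symm.toLinearMap ∘ₗ σ) (Φ.d (Vm D i) t)) = σ (Φ.d (Vm D i) t) :=
        LinearEquiv.apply_symm_apply _ _
      exact (((congrArg (fun s => e' (α s)) (e.symm_apply_apply t)).symm.trans
        (LinearMap.congr_fun h1 (e t))).trans (congrArg σ (hd t).symm)).trans h7.symm

/-- MODULE BC2. PROOF. inj: `O.om`. mid: `O.ob`, `g = c • id` (`H`-linear; `Φ.map g x = c • x`). unq: `g = c` by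
`vm_hom_scalar`; if `c ≠ 0` then `nu (-c⁻¹ u) = id`, against `O.oc`. -/
theorem ex3_diag (K : KD k θ H) (D : WD k H) (O : Orth D K.ρ) (Φ : Fam k K.ρ)
    (hΦ : ∀ i : D.I, ∃ e : Φ.F1 (Vm D i) ≃ₗ[k] (O.J i × Z → k),
      Eqv (Φ.act (Vm D i)) (tw θ (O.χ i) k) e.toLinearMap ∧
      ∀ x, Φ.d (Vm D i) x = nu D K.ρ i (O.w i) (e x)) (i : D.I) :
    Ex3 Φ (Vm D i) (Vm D i) := by
  obtain ⟨e, he, hd⟩ := hΦ i
  have hds : ∀ x, nu D K.ρ i (O.w i) x = Φ.d (Vm D i) (e.symm x) := fun x => by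
    rw [hd, LinearEquiv.apply_symm_apply]
  have hes := BC1_symm he
  have hmap : ∀ (g : Vm D i →ₗ[H] Vm D i) (c : k), (∀ v, g v = c • v) →
      ∀ t, Φ.map g t = c • t := fun g c hg t => by
    ext p
    rw [map_apply', hg]
    rfl
  refine ⟨fun u hu h1 h2 v => ?_, fun α β hα hβ hc => ?_, fun g u hu h1 h2 v => ?_⟩
  · have h3 := O.om i i (e.toLinearMap ∘ₗ u) (BC1_comp hu he)
      (LinearMap.ext fun x => (congrArg (fun v => e (u v)) (hds x)).trans
        ((congrArg e (h2 _)).trans (map_zero _)))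
      (LinearMap.ext fun x => (hd (u x)).symm.trans (h1 x))
    apply e.injective
    rw [map_zero]
    exact LinearMap.congr_fun h3 v
  · obtain ⟨c, σ, hσ, h1, h2⟩ := O.ob i (e.toLinearMap ∘ₗ α ∘ₗ e.symm.toLinearMap) β
      (BC1_comp (BC1_comp hes hα) he) hβ (LinearMap.ext fun x =>
        ((hd _).symm.trans (hc _)).trans (congrArg β (hds x).symm))
    let g : Vm D i →ₗ[H] Vm D i :=
      { toFun := fun v => c • v
        map_add' := fun v w => smul_add c v w
        map_smul' := fun h v => by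
          rw [RingHom.id_apply, ← algebraMap_smul H c v, ← algebraMap_smul H c (h • v),
            ← mul_smul, ← mul_smul, Algebra.commutes] }
    refine ⟨g, e.symm.toLinearMap ∘ₗ σ, BC1_comp hσ hes, fun v => ?_, fun t => ?_⟩
    · have h6 : Φ.d (Vm D i) (e.symm (σ v)) = nu D K.ρ i (O.w i) (σ v) := by
        rw [hd, LinearEquiv.apply_symm_apply]
      exact (LinearMap.congr_fun h2 v).trans (congrArg (fun w => c • v + w) h6.symm)
    · rw [hmap g c fun _ => rfl]
      apply e.injective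
      rw [map_add, map_smul]
      have h7 : e ((e.symm.toLinearMap ∘ₗ σ) (Φ.d (Vm D i) t)) = σ (Φ.d (Vm D i) t) :=
        LinearEquiv.apply_symm_apply _ _
      exact (((congrArg (fun s => e (α s)) (e.symm_apply_apply t)).symm.trans
        (LinearMap.congr_fun h1 (e t))).trans
        (congrArg (fun w => c • e t + w) (congrArg σ (hd t).symm))).trans
        (congrArg (fun w => c • e t + w) h7.symm)
  · obtain ⟨c, hc⟩ := vm_hom_scalar D i g
    by_cases h0 : c = 0
    · rw [hc, h0, zero_smul]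
    exfalso
    have hσ : Eqv (sr D K.ρ i) (tw θ (O.χ i) k) ((-c⁻¹) • (e.toLinearMap ∘ₗ u)) := fun x v =>
      (congrArg (fun w => (-c⁻¹) • w) (BC1_comp hu he x v)).trans
        (map_smul (tw θ (O.χ i) k x) _ _).symm
    have key : ∀ v : Vm D i, nu D K.ρ i (O.w i) ((-c⁻¹) • e (u v)) = v := ?_
    · exact O.oc i _ hσ (LinearMap.ext fun v => key v)
    intro v
    have h3 : c • v + Φ.d (Vm D i) (u v) = 0 := by rw [← hc]; exact h1 v
    have h4 : Φ.d (Vm D i) (u v) = -(c • v) := eq_neg_of_add_eq_zero_right h3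
    have h5 : nu D K.ρ i (O.w i) ((-c⁻¹) • e (u v)) =
        (-c⁻¹) • nu D K.ρ i (O.w i) (e (u v)) := map_smul _ _ _
    have h8 : (-c⁻¹) • (-(c • v)) = v := by
      rw [neg_smul, smul_neg, neg_neg, smul_smul, inv_mul_cancel₀ h0, one_smul]
    exact h5.trans ((congrArg (fun w => (-c⁻¹) • w) ((hd (u v)).symm.trans h4)).trans h8)

end Fam

end Pool.Agent.FbT
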