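import Pool.Agent.FbT.Fx
import Pool.Agent.FbT.Sp

/-!
# FbT, part Dv: dévissage for `Ex3` over the field `k`

`Φ` is a family over `H` (`StEq` data `S`), `E` of order prime to `p`.
-/

set_option autoImplicit false

namespace Pool.Agent.FbT

open Pool.Agent.Sig Pool.Agent.DD

variable {k Z E H : Type} [Field k] [CommGroup Z] [Fintype Z] [CommGroup E] [Fintype E]
  {θ : E →* MulAut Z} [Ring H] [Algebra k H]

section Ext

variable {V W V' W' : Type} [AddCommGroup V] [Module k V] [Module H V] [IsScalarTower k H V]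
  [AddCommGroup W] [Module k W] [Module H W] [IsScalarTower k H W]
  [AddCommGroup V'] [Module k V'] [Module H V'] [IsScalarTower k H V']
  [AddCommGroup W'] [Module k W'] [Module H W'] [IsScalarTower k H W']

/-- MODULE DA1. Naturality of `Ta`. PROOF. `g (b • v) = b • g v`. -/
theorem Ta_comp (S : StEq k Z E θ H) (f : V →ₗ[k] W) (g : V' →ₗ[H] V) (v : V') :
    Ta S (f ∘ₗ g.restrictScalars k) v = Ta S f (g v) := by
  rw [Ta_apply, Ta_apply]
  refine Finset.sum_congr rfl fun i _ => ?_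
  rw [LinearMap.comp_apply, LinearMap.restrictScalars_apply, map_smul]

/-- MODULE DA1. -/
theorem comp_Ta (S : StEq k Z E θ H) (f : V →ₗ[k] W) (g : W →ₗ[H] W') (v : V) :
    Ta S (g.restrictScalars k ∘ₗ f) v = g (Ta S f v) := by
  rw [Ta_apply, Ta_apply, map_sum]
  exact Finset.sum_congr rfl fun i _ => (map_smul g _ _).symm

/-- MODULE DA1. -/
theorem Ta_sub (S : StEq k Z E θ H) (f g : V →ₗ[k] W) (v : V) :
    Ta S (f - g) v = Ta S f v - Ta S g v := by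
  rw [Ta_apply, Ta_apply, Ta_apply, ← Finset.sum_sub_distrib]
  refine Finset.sum_congr rfl fun i _ => ?_
  rw [LinearMap.sub_apply, smul_sub]

/-- MODULE DA1. `Ta f` as an `H`-linear map. PROOF. `Ta_lin`. -/
theorem exists_TaH (S : StEq k Z E θ H) {f : V →ₗ[k] W}
    (hf : Eqv (rp S.ρ V) (rp S.ρ W) f) : ∃ g : V →ₗ[H] W, ∀ v, g v = Ta S f v := by
  exact ⟨{ toFun := fun v => Ta S f v
           map_add' := fun x y => map_add _ _ _
           map_smul' := fun x v => Ta_lin S (fun u v => hf (.inl u) v) x v }, fun v => rfl⟩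

section DA2aux

variable {R G V W N : Type} [CommRing R] [Group G] [AddCommGroup V] [Module R V]
  [AddCommGroup W] [Module R W] [AddCommGroup N] [Module R N] {σ : Representation R G V}
  {τ : Representation R G W} {ν : Representation R G N}

private theorem DA2_sub {f g : V →ₗ[R] W} (hf : Eqv σ τ f) (hg : Eqv σ τ g) :
    Eqv σ τ (f - g) := fun x v => by
  rw [LinearMap.sub_apply, LinearMap.sub_apply, hf x v, hg x v, map_sub]

private theorem DA2_add {f g : V →ₗ[R] W} (hf : Eqv σ τ f) (hg : Eqv σ τ g) :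
    Eqv σ τ (f + g) := fun x v => by
  rw [LinearMap.add_apply, LinearMap.add_apply, hf x v, hg x v, map_add]

private theorem DA2_comp {f : V →ₗ[R] W} {g : W →ₗ[R] N} (hf : Eqv σ τ f) (hg : Eqv τ ν g) :
    Eqv σ ν (g ∘ₗ f) := fun x v => by
  rw [LinearMap.comp_apply, LinearMap.comp_apply, hf x v, hg x _]

end DA2aux

/-- MODULE DA2. EXTENSION. PROOF. `f = Trc φ` by `eqv_mod` (`Ta f = 0`); `trc_extend` gives an equivariant `F₀`
with `F₀ ι = f`; `F = F₀ - Ta F₀` (`Ta F₀` is `H`-linear, so equivariant): `F ι = f - Ta (F₀ ι) = f - Ta f = f`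
and `Ta F = Ta F₀ - Ta F₀ = 0` (`Ta_id`). -/
theorem ext_Ta (S : StEq k Z E θ H) (hE : (Fintype.card E : k) ≠ 0) {ι : V' →ₗ[H] V}
    (hι : Function.Injective ι) {f : V' →ₗ[k] W} (hf : Eqv (rp S.ρ V') (rp S.ρ W) f)
    (h0 : ∀ v, Ta S f v = 0) : ∃ F : V →ₗ[k] W, Eqv (rp S.ρ V) (rp S.ρ W) F ∧
      (∀ v, F (ι v) = f v) ∧ ∀ v, Ta S F v = 0 := by
  obtain ⟨φ, hφ⟩ := eqv_mod S hE hf
  have hιe : Eqv (rp (R := k) S.ρ V') (rp S.ρ V) (ι.restrictScalars k) := lin_eqv ι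
  obtain ⟨F₀, hF₀, hF₀ι⟩ := trc_extend (τ := rp (R := k) S.ρ W) hιe hι φ
  obtain ⟨g, hg⟩ := exists_TaH S hF₀
  have hgF : g.restrictScalars k = Ta S F₀ := LinearMap.ext fun v => hg v
  have hFι : F₀ ∘ₗ ι.restrictScalars k = f := LinearMap.ext fun v => by
    have h := hφ v
    rw [h0 v, zero_add] at h
    rw [h]
    exact hF₀ι v
  refine ⟨F₀ - g.restrictScalars k, DA2_sub hF₀ (lin_eqv g), fun v => ?_, fun v => ?_⟩
  · have h1 : g (ι v) = 0 := by
      rw [hg, ← Ta_comp, hFι, h0]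
    have h2 : F₀ (ι v) = f v := LinearMap.congr_fun hFι v
    rw [LinearMap.sub_apply, LinearMap.restrictScalars_apply, h1, h2, sub_zero]
  · rw [Ta_sub, Ta_id, hg, sub_self]

/-- MODULE DA2. LIFTING. PROOF. As `ext_Ta` with `trc_lift`. -/
theorem lift_Ta (S : StEq k Z E θ H) (hE : (Fintype.card E : k) ≠ 0) {π : W →ₗ[H] W'}
    (hπ : Function.Surjective π) {f : V →ₗ[k] W'} (hf : Eqv (rp S.ρ V) (rp S.ρ W') f)
    (h0 : ∀ v, Ta S f v = 0) : ∃ F : V →ₗ[k] W, Eqv (rp S.ρ V) (rp S.ρ W) F ∧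
      (∀ v, π (F v) = f v) ∧ ∀ v, Ta S F v = 0 := by
  obtain ⟨φ, hφ⟩ := eqv_mod S hE hf
  have hπe : Eqv (rp (R := k) S.ρ W) (rp S.ρ W') (π.restrictScalars k) := lin_eqv π
  obtain ⟨F₀, hF₀, hF₀π⟩ := trc_lift (σ' := rp (R := k) S.ρ V) hπe hπ φ
  obtain ⟨g, hg⟩ := exists_TaH S hF₀
  have hFπ : π.restrictScalars k ∘ₗ F₀ = f := LinearMap.ext fun v => by
    have h := hφ v
    rw [h0 v, zero_add] at h
    rw [h]
    exact hF₀π v
  refine ⟨F₀ - g.restrictScalars k, DA2_sub hF₀ (lin_eqv g), fun v => ?_, fun v => ?_⟩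
  · have h1 : π (g v) = 0 := by
      rw [hg, ← comp_Ta, hFπ, h0]
    have h2 : π (F₀ v) = f v := LinearMap.congr_fun hFπ v
    rw [LinearMap.sub_apply, LinearMap.restrictScalars_apply, map_sub, h1, h2, sub_zero]
  · rw [Ta_sub, Ta_id, hg, sub_self]

end Ext

section Dev

variable (S : StEq k Z E θ H) (Φ : Fam k S.ρ) {V V' V'' W W' W'' : Type}
  [AddCommGroup V] [Module k V] [Module H V] [IsScalarTower k H V]
  [AddCommGroup V'] [Module k V'] [Module H V'] [IsScalarTower k H V']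
  [AddCommGroup V''] [Module k V''] [Module H V''] [IsScalarTower k H V'']
  [AddCommGroup W] [Module k W] [Module H W] [IsScalarTower k H W]
  [AddCommGroup W'] [Module k W'] [Module H W'] [IsScalarTower k H W']
  [AddCommGroup W''] [Module k W''] [Module H W''] [IsScalarTower k H W'']

/-- MODULE DB1. FIRST VARIABLE, degree -1. PROOF. `u ι : V' → F1 W` satisfies the hypotheses for `V'`
(`d_map`: `d_V (map ι t) = ι (d_V' t)`), so `u ι = 0`, `u = u'' π` (`desc_surj`), `d u'' = 0` and `u'' d_V'' = 0`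
(`map_surj`: every element of `F1 V''` is `map π t`, `d_V'' (map π t) = π (d_V t)`), so `u'' = 0`. -/
theorem dev1_inj {ι : V' →ₗ[H] V} {π : V →ₗ[H] V''} (hπ : Function.Surjective π)
    (hex : ∀ v, π v = 0 → ∃ v', ι v' = v) (h' : Ex3 Φ V' W) (h'' : Ex3 Φ V'' W)
    {u : V →ₗ[k] Φ.F1 W} (hu : Eqv (rp S.ρ V) (Φ.act W) u) (h1 : ∀ v, Φ.d W (u v) = 0)
    (h2 : ∀ t, u (Φ.d V t) = 0) (v : V) : u v = 0 := by
  have hιe : Eqv (rp (R := k) S.ρ V') (rp S.ρ V) (ι.restrictScalars k) := lin_eqv ι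
  have h0 : ∀ v', u (ι v') = 0 := fun v' =>
    h'.inj (u ∘ₗ ι.restrictScalars k) (DA2_comp hιe hu) (fun v => h1 (ι v)) (fun t => by
      show u (ι (Φ.d V' t)) = 0
      rw [← d_map Φ ι t]
      exact h2 _) v'
  have hπe : Eqv (rp (R := k) S.ρ V) (rp S.ρ V'') (π.restrictScalars k) := lin_eqv π
  obtain ⟨u'', hu'', huv⟩ := desc_surj hπe hπ hu (fun v hv => by
    obtain ⟨v', rfl⟩ := hex v hv
    exact h0 v')
  have huv' : ∀ v, u'' (π v) = u v := huv
  rw [← huv' v]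
  refine h''.inj u'' hu'' (fun w => ?_) (fun t => ?_) _
  · obtain ⟨v, rfl⟩ := hπ w
    rw [huv']
    exact h1 v
  · obtain ⟨s, rfl⟩ := map_surj Φ hπ t
    rw [d_map, huv']
    exact h2 s

/-- MODULE DB2. FIRST VARIABLE, degree 0. PROOF. `(α (map ι), β ι)` is a chain map for `V'`:
`β ι = g' + d u'`, `α (map ι) = map g' + u' d_V'`. Extend `u'` along `ι` to `u : V → F1 W` (`prj_extend`). The
map `g₀ = Ta (β - d u)` is `H`-linear and `g₀ ι = Ta ((β - d u) ι) = Ta g' = g'` (`Ta_comp`, `Ta_id`). The chain map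
`α₁ = α - map g₀ - u d_V`, `β₁ = β - g₀ - d u` vanishes on `map ι (F1 V')` and on `ι V'`, so it is
`(α'' (map π), β'' π)` (`desc_surj`), a chain map for `V''`: `β'' = g'' + d u''`, .. ; `g = g₀ + g'' π`,
`u + u'' π`. -/
theorem dev1_mid (hE : (Fintype.card E : k) ≠ 0) {ι : V' →ₗ[H] V} {π : V →ₗ[H] V''}
    (hι : Function.Injective ι) (hπ : Function.Surjective π) (hπι : ∀ v, π (ι v) = 0)
    (hex : ∀ v, π v = 0 → ∃ v', ι v' = v) (h' : Ex3 Φ V' W) (h'' : Ex3 Φ V'' W)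
    {α : Φ.F1 V →ₗ[k] Φ.F1 W} {β : V →ₗ[k] W} (hα : Eqv (Φ.act V) (Φ.act W) α)
    (hβ : Eqv (rp S.ρ V) (rp S.ρ W) β) (hc : ∀ t, Φ.d W (α t) = β (Φ.d V t)) :
    ∃ (g : V →ₗ[H] W) (u : V →ₗ[k] Φ.F1 W), Eqv (rp S.ρ V) (Φ.act W) u ∧
      (∀ v, β v = g v + Φ.d W (u v)) ∧ ∀ t, α t = Φ.map g t + u (Φ.d V t) := by
  have hιe : Eqv (rp (R := k) S.ρ V') (rp S.ρ V) (ι.restrictScalars k) := lin_eqv ι
  have hπe : Eqv (rp (R := k) S.ρ V) (rp S.ρ V'') (π.restrictScalars k) := lin_eqv π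
  obtain ⟨g', u', hu', hβ', hα'⟩ := h'.mid (α ∘ₗ Φ.map ι) (β ∘ₗ ι.restrictScalars k)
    (DA2_comp (map_eqv Φ ι) hα) (DA2_comp hιe hβ) (fun t => by
      show Φ.d W (α (Φ.map ι t)) = β (ι (Φ.d V' t))
      rw [hc, d_map])
  obtain ⟨u, hu, huι⟩ := prj_extend (prj_act Φ (M := W) (IsUnit.mk0 _ hE)) hιe hι hu'
  have huι' : ∀ v, u (ι v) = u' v := huι
  have hdu : Eqv (rp S.ρ V) (rp S.ρ W) (β - Φ.d W ∘ₗ u) :=
    DA2_sub hβ (DA2_comp hu (d_eqv Φ))
  obtain ⟨g₀, hg₀⟩ := exists_TaH S hdu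
  have hg' : g₀ ∘ₗ ι = g' := LinearMap.ext fun v => by
    have e : (β - Φ.d W ∘ₗ u) ∘ₗ ι.restrictScalars k = g'.restrictScalars k :=
      LinearMap.ext fun v => by
        have h1 : β (ι v) = g' v + Φ.d W (u' v) := hβ' v
        show β (ι v) - Φ.d W (u (ι v)) = g' v
        rw [h1, huι', add_sub_cancel_right]
    rw [LinearMap.comp_apply, hg₀, ← Ta_comp, e, Ta_id]
  have hg'v : ∀ v, g₀ (ι v) = g' v := fun v => LinearMap.congr_fun hg' v
  set β₁ : V →ₗ[k] W := β - g₀.restrictScalars k - Φ.d W ∘ₗ u with hβ₁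
  set α₁ : Φ.F1 V →ₗ[k] Φ.F1 W := α - Φ.map g₀ - u ∘ₗ Φ.d V with hα₁
  have eβ₁ : ∀ v, β₁ v = β v - g₀ v - Φ.d W (u v) := fun v => rfl
  have eα₁ : ∀ t, α₁ t = α t - Φ.map g₀ t - u (Φ.d V t) := fun t => rfl
  have hβ₁e : Eqv (rp S.ρ V) (rp S.ρ W) β₁ :=
    DA2_sub (DA2_sub hβ (lin_eqv g₀)) (DA2_comp hu (d_eqv Φ))
  have hα₁e : Eqv (Φ.act V) (Φ.act W) α₁ :=
    DA2_sub (DA2_sub hα (map_eqv Φ g₀)) (DA2_comp (d_eqv Φ) hu)
  have hβ0 : ∀ v, π v = 0 → β₁ v = 0 := fun v hv => by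
    obtain ⟨v', rfl⟩ := hex v hv
    have h1 : β (ι v') = g' v' + Φ.d W (u' v') := hβ' v'
    rw [eβ₁, h1, hg'v, huι', add_sub_cancel_left, sub_self]
  have hα0 : ∀ t, Φ.map π t = 0 → α₁ t = 0 := fun t ht => by
    obtain ⟨t', rfl⟩ := map_exact Φ hι hex t ht
    have h1 : α (Φ.map ι t') = Φ.map g' t' + u' (Φ.d V' t') := hα' t'
    rw [eα₁, h1, ← map_comp', hg', d_map, huι', add_sub_cancel_left, sub_self]
  obtain ⟨α'', hα'', hαπ⟩ := desc_surj (map_eqv Φ π) (map_surj Φ hπ) hα₁e hα0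
  obtain ⟨β'', hβ'', hβπ⟩ := desc_surj hπe hπ hβ₁e hβ0
  have hβπ' : ∀ v, β'' (π v) = β₁ v := hβπ
  obtain ⟨g'', u'', hu'', hβg, hαg⟩ := h''.mid α'' β'' hα'' hβ'' (fun t => by
    obtain ⟨s, rfl⟩ := map_surj Φ hπ t
    rw [hαπ, d_map, hβπ', eα₁, eβ₁, map_sub, map_sub, hc, d_map])
  refine ⟨g₀ + g'' ∘ₗ π, u + u'' ∘ₗ π.restrictScalars k, DA2_add hu (DA2_comp hπe hu''),
    fun v => ?_, fun t => ?_⟩
  · have h1 := hβg (π v)
    rw [hβπ', eβ₁, sub_sub, sub_eq_iff_eq_add] at h1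
    rw [h1]
    simp only [LinearMap.add_apply, LinearMap.comp_apply, LinearMap.restrictScalars_apply,
      map_add]
    abel
  · have h1 := hαg (Φ.map π t)
    rw [hαπ, eα₁, sub_sub, sub_eq_iff_eq_add] at h1
    rw [h1, map_add', map_comp', d_map]
    simp only [LinearMap.add_apply, LinearMap.comp_apply, LinearMap.restrictScalars_apply]
    abel

/-- MODULE DB3. FIRST VARIABLE, uniqueness. PROOF. `(g ι, u ι)` satisfies the hypotheses for `V'`, so `g ι = 0`;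
then `d (u ι) = 0`, `(u ι) d_V' = 0`, so `u ι = 0` by `h'.inj`. So `g = g'' π` (`desc_surj_lin`), `u = u'' π`,
and `g'' = 0` by `h''.unq`. -/
theorem dev1_unq {ι : V' →ₗ[H] V} {π : V →ₗ[H] V''} (hπ : Function.Surjective π)
    (hex : ∀ v, π v = 0 → ∃ v', ι v' = v) (h' : Ex3 Φ V' W) (h'' : Ex3 Φ V'' W)
    (g : V →ₗ[H] W) (u : V →ₗ[k] Φ.F1 W) (hu : Eqv (rp S.ρ V) (Φ.act W) u)
    (h1 : ∀ v, g v + Φ.d W (u v) = 0) (h2 : ∀ t, Φ.map g t + u (Φ.d V t) = 0) (v : V) :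
    g v = 0 := by
  have hιe : Eqv (rp (R := k) S.ρ V') (rp S.ρ V) (ι.restrictScalars k) := lin_eqv ι
  have hπe : Eqv (rp (R := k) S.ρ V) (rp S.ρ V'') (π.restrictScalars k) := lin_eqv π
  have hg0 : ∀ v', g (ι v') = 0 := fun v' =>
    h'.unq (g ∘ₗ ι) (u ∘ₗ ι.restrictScalars k) (DA2_comp hιe hu) (fun v => h1 (ι v)) (fun t => by
      show Φ.map (g ∘ₗ ι) t + u (ι (Φ.d V' t)) = 0
      rw [map_comp', ← d_map Φ ι t]
      exact h2 _) v'
  have hgι : g ∘ₗ ι = 0 := LinearMap.ext hg0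
  have hu0 : ∀ v', u (ι v') = 0 := fun v' =>
    h'.inj (u ∘ₗ ι.restrictScalars k) (DA2_comp hιe hu) (fun v => by
      have h := h1 (ι v)
      rw [hg0, zero_add] at h
      exact h) (fun t => by
      show u (ι (Φ.d V' t)) = 0
      have h := h2 (Φ.map ι t)
      rw [← map_comp', hgι, map_zero', zero_add, d_map] at h
      exact h) v'
  obtain ⟨g'', hg''⟩ := desc_surj_lin hπ (g := g) (fun v hv => by
    obtain ⟨v', rfl⟩ := hex v hv
    exact hg0 v')
  obtain ⟨u'', hu'', huv⟩ := desc_surj hπe hπ hu (fun v hv => by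
    obtain ⟨v', rfl⟩ := hex v hv
    exact hu0 v')
  have huv' : ∀ v, u'' (π v) = u v := huv
  have hgg : g'' ∘ₗ π = g := LinearMap.ext hg''
  rw [← hg'' v]
  refine h''.unq g'' u'' hu'' (fun w => ?_) (fun t => ?_) _
  · obtain ⟨v, rfl⟩ := hπ w
    rw [hg'', huv']
    exact h1 v
  · obtain ⟨s, rfl⟩ := map_surj Φ hπ t
    rw [d_map, huv', ← map_comp', hgg]
    exact h2 s

/-- MODULE DC1. SECOND VARIABLE, degree -1. PROOF. `(map π) u : V → F1 W''` is `0` by `h''.inj`, so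
`u = (map ι) u'` (`map_exact`, `lift_inj`, `map_inj`), and `u' = 0` by `h'.inj` (`ι` injective). -/
theorem dev2_inj {ι : W' →ₗ[H] W} {π : W →ₗ[H] W''} (hι : Function.Injective ι)
    (hex : ∀ v, π v = 0 → ∃ v', ι v' = v) (h' : Ex3 Φ V W') (h'' : Ex3 Φ V W'')
    {u : V →ₗ[k] Φ.F1 W} (hu : Eqv (rp S.ρ V) (Φ.act W) u) (h1 : ∀ v, Φ.d W (u v) = 0)
    (h2 : ∀ t, u (Φ.d V t) = 0) (v : V) : u v = 0 := by
  have hπ0 : ∀ v, Φ.map π (u v) = 0 := fun v =>
    h''.inj (Φ.map π ∘ₗ u) (DA2_comp hu (map_eqv Φ π)) (fun v => by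
      show Φ.d W'' (Φ.map π (u v)) = 0
      rw [d_map, h1, map_zero]) (fun t => by
      show Φ.map π (u (Φ.d V t)) = 0
      rw [h2, map_zero]) v
  obtain ⟨u', hu', huv⟩ := lift_inj (map_eqv Φ ι) (map_inj Φ hι) hu
    (fun v => map_exact Φ hι hex (u v) (hπ0 v))
  rw [← huv v]
  have h0 := h'.inj u' hu' (fun v => hι (by rw [← d_map, huv, h1, map_zero]))
    (fun t => map_inj Φ hι (by rw [huv, h2, map_zero])) v
  rw [h0, map_zero]

/-- MODULE DC2. SECOND VARIABLE, degree 0. PROOF. `((map π) α, π β)` is a chain map for `W''`: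
`π β = g'' + d u''`, `(map π) α = map g'' + u'' d_V`. `F1 W''` is relatively projective, so `map π` has an equivariant
section (`prj_lift` with `f = id`) and `u''` lifts to `u : V → F1 W`. `g₀ = Ta (β - d u)` is `H`-linear and
`π g₀ = Ta (π β - d u'') = Ta g'' = g''`. `β₁ = β - g₀ - d u`, `α₁ = α - map g₀ - u d_V` have their values in `ι W'`,
`(map ι)(F1 W')` (`lift_inj`, `map_exact`); apply `h'.mid`. -/
theorem dev2_mid (hE : (Fintype.card E : k) ≠ 0) {ι : W' →ₗ[H] W} {π : W →ₗ[H] W''}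
    (hι : Function.Injective ι) (hπ : Function.Surjective π) (hπι : ∀ v, π (ι v) = 0)
    (hex : ∀ v, π v = 0 → ∃ v', ι v' = v) (h' : Ex3 Φ V W') (h'' : Ex3 Φ V W'')
    {α : Φ.F1 V →ₗ[k] Φ.F1 W} {β : V →ₗ[k] W} (hα : Eqv (Φ.act V) (Φ.act W) α)
    (hβ : Eqv (rp S.ρ V) (rp S.ρ W) β) (hc : ∀ t, Φ.d W (α t) = β (Φ.d V t)) :
    ∃ (g : V →ₗ[H] W) (u : V →ₗ[k] Φ.F1 W), Eqv (rp S.ρ V) (Φ.act W) u ∧
      (∀ v, β v = g v + Φ.d W (u v)) ∧ ∀ t, α t = Φ.map g t + u (Φ.d V t) := by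
  have hιe : Eqv (rp (R := k) S.ρ W') (rp S.ρ W) (ι.restrictScalars k) := lin_eqv ι
  have hπe : Eqv (rp (R := k) S.ρ W) (rp S.ρ W'') (π.restrictScalars k) := lin_eqv π
  obtain ⟨g'', u'', hu'', hβ'', hα''⟩ := h''.mid (Φ.map π ∘ₗ α) (π.restrictScalars k ∘ₗ β)
    (DA2_comp hα (map_eqv Φ π)) (DA2_comp hβ hπe) (fun t => by
      show Φ.d W'' (Φ.map π (α t)) = π (β (Φ.d V t))
      rw [d_map, hc])
  have hβ2 : ∀ v, π (β v) = g'' v + Φ.d W'' (u'' v) := hβ''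
  have hα2 : ∀ t, Φ.map π (α t) = Φ.map g'' t + u'' (Φ.d V t) := hα''
  obtain ⟨s, hs, hsπ⟩ := prj_lift (prj_act Φ (M := W'') (IsUnit.mk0 _ hE)) (map_eqv Φ π)
    (map_surj Φ hπ) (f := LinearMap.id) (fun g v => rfl)
  have hsπ' : ∀ x, Φ.map π (s x) = x := hsπ
  set u : V →ₗ[k] Φ.F1 W := s ∘ₗ u'' with hudef
  have hu : Eqv (rp S.ρ V) (Φ.act W) u := DA2_comp hu'' hs
  have huπ : ∀ v, Φ.map π (u v) = u'' v := fun v => hsπ' (u'' v)
  have hdu : Eqv (rp S.ρ V) (rp S.ρ W) (β - Φ.d W ∘ₗ u) :=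
    DA2_sub hβ (DA2_comp hu (d_eqv Φ))
  obtain ⟨g₀, hg₀⟩ := exists_TaH S hdu
  have hg' : π ∘ₗ g₀ = g'' := LinearMap.ext fun v => by
    have e : π.restrictScalars k ∘ₗ (β - Φ.d W ∘ₗ u) = g''.restrictScalars k :=
      LinearMap.ext fun v => by
        show π (β v - Φ.d W (u v)) = g'' v
        rw [map_sub, hβ2, ← d_map, huπ, add_sub_cancel_right]
    rw [LinearMap.comp_apply, hg₀, ← comp_Ta, e, Ta_id]
  have hg'v : ∀ v, π (g₀ v) = g'' v := fun v => LinearMap.congr_fun hg' v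
  set β₁ : V →ₗ[k] W := β - g₀.restrictScalars k - Φ.d W ∘ₗ u with hβ₁
  set α₁ : Φ.F1 V →ₗ[k] Φ.F1 W := α - Φ.map g₀ - u ∘ₗ Φ.d V with hα₁
  have eβ₁ : ∀ v, β₁ v = β v - g₀ v - Φ.d W (u v) := fun v => rfl
  have eα₁ : ∀ t, α₁ t = α t - Φ.map g₀ t - u (Φ.d V t) := fun t => rfl
  have hβ₁e : Eqv (rp S.ρ V) (rp S.ρ W) β₁ :=
    DA2_sub (DA2_sub hβ (lin_eqv g₀)) (DA2_comp hu (d_eqv Φ))
  have hα₁e : Eqv (Φ.act V) (Φ.act W) α₁ :=
    DA2_sub (DA2_sub hα (map_eqv Φ g₀)) (DA2_comp (d_eqv Φ) hu)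
  have hβ0 : ∀ v, π (β₁ v) = 0 := fun v => by
    rw [eβ₁, map_sub, map_sub, hβ2, hg'v, ← d_map, huπ, add_sub_cancel_left, sub_self]
  have hα0 : ∀ t, Φ.map π (α₁ t) = 0 := fun t => by
    rw [eα₁, map_sub, map_sub, hα2, ← map_comp', hg', huπ, add_sub_cancel_left, sub_self]
  obtain ⟨α', hα', hαι⟩ := lift_inj (map_eqv Φ ι) (map_inj Φ hι) hα₁e
    (fun t => map_exact Φ hι hex (α₁ t) (hα0 t))
  obtain ⟨β', hβ', hβι⟩ := lift_inj hιe hι hβ₁e (fun v => hex (β₁ v) (hβ0 v))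
  have hβι' : ∀ v, ι (β' v) = β₁ v := hβι
  obtain ⟨g', u', hu', hβg, hαg⟩ := h'.mid α' β' hα' hβ' (fun t => hι (by
    rw [← d_map, hαι, hβι', eα₁, eβ₁, map_sub, map_sub, hc, d_map]))
  refine ⟨g₀ + ι ∘ₗ g', u + Φ.map ι ∘ₗ u', DA2_add hu (DA2_comp hu' (map_eqv Φ ι)),
    fun v => ?_, fun t => ?_⟩
  · have h1 := hβι' v
    rw [hβg, eβ₁, sub_sub, eq_comm, sub_eq_iff_eq_add] at h1
    rw [h1]
    simp only [LinearMap.add_apply, LinearMap.comp_apply, map_add, d_map]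
    abel
  · have h1 := hαι t
    rw [hαg, eα₁, sub_sub, eq_comm, sub_eq_iff_eq_add] at h1
    rw [h1, map_add', map_comp']
    simp only [LinearMap.add_apply, LinearMap.comp_apply, map_add]
    abel

/-- MODULE DC3. SECOND VARIABLE, uniqueness. PROOF. `(π g, (map π) u)` satisfies the hypotheses for `W''`, so
`π g = 0`, then `(map π) u = 0` by `h''.inj`. So `g = ι g'` (`lift_inj_lin`), `u = (map ι) u'`, `g' = 0` by
`h'.unq`. -/
theorem dev2_unq {ι : W' →ₗ[H] W} {π : W →ₗ[H] W''} (hι : Function.Injective ι)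
    (hex : ∀ v, π v = 0 → ∃ v', ι v' = v) (h' : Ex3 Φ V W') (h'' : Ex3 Φ V W'')
    (g : V →ₗ[H] W) (u : V →ₗ[k] Φ.F1 W) (hu : Eqv (rp S.ρ V) (Φ.act W) u)
    (h1 : ∀ v, g v + Φ.d W (u v) = 0) (h2 : ∀ t, Φ.map g t + u (Φ.d V t) = 0) (v : V) :
    g v = 0 := by
  have hιe : Eqv (rp (R := k) S.ρ W') (rp S.ρ W) (ι.restrictScalars k) := lin_eqv ι
  have hg0 : ∀ v, π (g v) = 0 := fun v =>
    h''.unq (π ∘ₗ g) (Φ.map π ∘ₗ u) (DA2_comp hu (map_eqv Φ π)) (fun v => by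
      show π (g v) + Φ.d W'' (Φ.map π (u v)) = 0
      rw [d_map, ← map_add, h1, map_zero]) (fun t => by
      show Φ.map (π ∘ₗ g) t + Φ.map π (u (Φ.d V t)) = 0
      rw [map_comp', ← map_add, h2, map_zero]) v
  have hπg : π ∘ₗ g = 0 := LinearMap.ext hg0
  have hu0 : ∀ v, Φ.map π (u v) = 0 := fun v =>
    h''.inj (Φ.map π ∘ₗ u) (DA2_comp hu (map_eqv Φ π)) (fun v => by
      show Φ.d W'' (Φ.map π (u v)) = 0
      have h := congrArg π (h1 v)
      rw [map_add, hg0, zero_add, map_zero] at h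
      rw [d_map, h]) (fun t => by
      show Φ.map π (u (Φ.d V t)) = 0
      have h := congrArg (Φ.map π) (h2 t)
      rw [map_add, ← map_comp', hπg, map_zero', zero_add, map_zero] at h
      exact h) v
  obtain ⟨g', hg'⟩ := lift_inj_lin hι (g := g) (fun v => hex (g v) (hg0 v))
  obtain ⟨u', hu', huv⟩ := lift_inj (map_eqv Φ ι) (map_inj Φ hι) hu
    (fun v => map_exact Φ hι hex (u v) (hu0 v))
  have hgg : ι ∘ₗ g' = g := LinearMap.ext hg'
  have h0 := h'.unq g' u' hu' (fun v => hι (by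
    rw [map_add, hg', ← d_map, huv, h1, map_zero])) (fun t => map_inj Φ hι (by
    rw [map_add, ← map_comp', hgg, huv, h2, map_zero])) v
  rw [← hg' v, h0, map_zero]

/-- MODULE DD1. Zero modules. PROOF. All maps are zero (`F1` of a zero module is zero). -/
theorem ex3_zero_left [Subsingleton V] : Ex3 Φ V W := by
  have hF : ∀ t : Φ.F1 V, t = 0 := fun t => Subtype.ext (funext fun _ => Subsingleton.elim _ _)
  have hV : ∀ v : V, v = 0 := fun v => Subsingleton.elim _ _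
  refine ⟨fun u _ _ _ v => ?_, fun α β _ _ _ => ⟨0, 0, fun g v => ?_, fun v => ?_, fun t => ?_⟩,
    fun g u _ _ _ v => ?_⟩
  · rw [hV v, map_zero]
  · simp
  · rw [hV v]
    simp
  · rw [hF t]
    simp
  · rw [hV v, map_zero]

/-- MODULE DD1. -/
theorem ex3_zero_right [Subsingleton W] : Ex3 Φ V W := by
  have hF : ∀ t : Φ.F1 W, t = 0 := fun t => Subtype.ext (funext fun _ => Subsingleton.elim _ _)
  have hW : ∀ w : W, w = 0 := fun w => Subsingleton.elim _ _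
  refine ⟨fun u _ _ _ v => hF _, fun α β _ _ _ => ⟨0, 0, fun g v => ?_, fun v => ?_, fun t => ?_⟩,
    fun g u _ _ _ v => hW _⟩
  · simp
  · exact (hW _).trans (hW _).symm
  · exact (hF _).trans (hF _).symm

end Dev

private theorem DD2_ker (D : WD k H) {V : Type} [AddCommGroup V] [Module k V] [Module H V]
    [IsScalarTower k H V] [FiniteDimensional k V] {j : D.I} (π : V →ₗ[H] Vm D j)
    (hπ : Function.Surjective π) : FiniteDimensional k (LinearMap.ker π) ∧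
      Module.finrank k (LinearMap.ker π) < Module.finrank k V := by
  have hj : Nontrivial (Vm D j) := by
    have : Nonempty (Fin (D.n j)) := ⟨⟨0, D.pos j⟩⟩
    exact inferInstanceAs (Nontrivial (Fin (D.n j) → k))
  have hker : (LinearMap.ker π).restrictScalars k ≠ ⊤ := by
    intro h
    obtain ⟨w, hw⟩ := exists_ne (0 : Vm D j)
    obtain ⟨v, hv⟩ := hπ w
    have : v ∈ (LinearMap.ker π).restrictScalars k := by
      rw [h]
      trivial
    have h0 : π v = 0 := this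
    exact hw (hv ▸ h0)
  have hfd : FiniteDimensional k ((LinearMap.ker π).restrictScalars k) :=
    FiniteDimensional.finiteDimensional_submodule _
  exact ⟨hfd, Submodule.finrank_lt hker⟩

/-- MODULE DD2. THE THEOREM OVER THE FIELD. PROOF. First for `W = Vm D i` and all `V`, by strong induction on
`finrank k V`: if `V` is trivial `ex3_zero_left`; otherwise `exists_vm_quot` gives a surjective
`π : V → Vm D j`, `V' = ker π` (a submodule over `H`, finite dimensional, of smaller dimension as `Vm D j ≠ 0`), `Ex3 Φ V'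
(Vm D i)` by induction, `Ex3 Φ (Vm D j) (Vm D i)` by hypothesis, and `dev1_*`. Then all `W` by induction on
`finrank k W`, with `dev2_*`. The hypothesis `hq` is `exists_vm_quot` (part Bs). -/
theorem ex3_all [FiniteDimensional k H] (S : StEq k Z E θ H) (hE : (Fintype.card E : k) ≠ 0)
    (Φ : Fam k S.ρ) (D : WD k H)
    (hq : ∀ (M : Type) [AddCommGroup M] [Module k M] [Module H M] [IsScalarTower k H M]
      [FiniteDimensional k M] [Nontrivial M], ∃ (i : D.I) (π : M →ₗ[H] Vm D i),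
        Function.Surjective π)
    (hΦ : ∀ i j, Ex3 Φ (Vm D i) (Vm D j))
    (V W : Type) [AddCommGroup V] [Module k V] [Module H V] [IsScalarTower k H V]
    [FiniteDimensional k V] [AddCommGroup W] [Module k W] [Module H W] [IsScalarTower k H W]
    [FiniteDimensional k W] : Ex3 Φ V W := by
  have key : ∀ (n : ℕ) (V : Type) [AddCommGroup V] [Module k V] [Module H V]
      [IsScalarTower k H V] [FiniteDimensional k V], Module.finrank k V = n →
      ∀ i, Ex3 Φ V (Vm D i) := by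
    intro n
    induction n using Nat.strong_induction_on with
    | _ n ih =>
      intro V _ _ _ _ _ hn i
      by_cases hV : Nontrivial V
      · obtain ⟨j, π, hπ⟩ := hq V
        obtain ⟨hfd, hlt⟩ := DD2_ker D π hπ
        have h' := ih _ (hn ▸ hlt) (LinearMap.ker π) rfl i
        have hex : ∀ v, π v = 0 → ∃ v', (LinearMap.ker π).subtype v' = v :=
          fun v hv => ⟨⟨v, hv⟩, rfl⟩
        exact ⟨fun u hu h1 h2 => dev1_inj S Φ hπ hex h' (hΦ j i) hu h1 h2,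
          fun α β hα hβ hc => dev1_mid S Φ hE (Submodule.subtype_injective _) hπ
            (fun v => v.2) hex h' (hΦ j i) hα hβ hc,
          fun g u hu h1 h2 => dev1_unq S Φ hπ hex h' (hΦ j i) g u hu h1 h2⟩
      · have := not_nontrivial_iff_subsingleton.mp hV
        exact ex3_zero_left S Φ
  have key2 : ∀ (n : ℕ) (W : Type) [AddCommGroup W] [Module k W] [Module H W]
      [IsScalarTower k H W] [FiniteDimensional k W], Module.finrank k W = n → Ex3 Φ V W := by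
    intro n
    induction n using Nat.strong_induction_on with
    | _ n ih =>
      intro W _ _ _ _ _ hn
      by_cases hW : Nontrivial W
      · obtain ⟨j, π, hπ⟩ := hq W
        obtain ⟨hfd, hlt⟩ := DD2_ker D π hπ
        have h' := ih _ (hn ▸ hlt) (LinearMap.ker π) rfl
        have h'' := key _ V rfl j
        have hex : ∀ v, π v = 0 → ∃ v', (LinearMap.ker π).subtype v' = v :=
          fun v hv => ⟨⟨v, hv⟩, rfl⟩
        have hι := Submodule.subtype_injective (LinearMap.ker π)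
        exact ⟨fun u hu h1 h2 => dev2_inj S Φ hι hex h' h'' hu h1 h2,
          fun α β hα hβ hc => dev2_mid S Φ hE hι hπ
            (fun v => v.2) hex h' h'' hα hβ hc,
          fun g u hu h1 h2 => dev2_unq S Φ hι hex h' h'' g u hu h1 h2⟩
      · have := not_nontrivial_iff_subsingleton.mp hW
        exact ex3_zero_right S Φ
  exact key2 _ W rfl

end Pool.Agent.FbT
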