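import Pool.Agent.FbT.Gn
import Pool.Agent.FbT.Dv
import Pool.Agent.FbT.Bs

/-!
# FbT, part Tt: the tilting complex
-/

set_option autoImplicit false

namespace Pool.Agent.FbT

open Pool.Agent.Sig Pool.Agent.DD

section Am

variable {R G V W : Type} [CommRing R] [Group G] [AddCommGroup V] [Module R V]
  [AddCommGroup W] [Module R W]

/-- The module over the group algebra of a representation. -/
def Am (_ : Representation R G V) : Type := V

instance (σ : Representation R G V) : AddCommGroup (Am σ) := inferInstanceAs (AddCommGroup V)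

instance (σ : Representation R G V) : Module R (Am σ) := inferInstanceAs (Module R V)

noncomputable instance (σ : Representation R G V) : Module (MonoidAlgebra R G) (Am σ) :=
  Module.compHom V (Representation.asAlgebraHom σ).toRingHom

theorem Am.smul_def (σ : Representation R G V) (c : MonoidAlgebra R G) (v : Am σ) :
    c • v = (Representation.asAlgebraHom σ c (show V from v) : V) := rfl

/-- MODULE UA. PROOF. `MonoidAlgebra.of g` acts as `σ g`. -/
theorem Am.of_smul (σ : Representation R G V) (g : G) (v : Am σ) :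
    MonoidAlgebra.of R G g • v = (σ g (show V from v) : V) := by
  rw [Am.smul_def, Representation.asAlgebraHom_of]

/-- MODULE UA. An equivariant map is linear over the group algebra. PROOF. `MonoidAlgebra.induction_on` for the scalar. -/
theorem exists_lin {σ : Representation R G V} {τ : Representation R G W} {f : V →ₗ[R] W}
    (hf : Eqv σ τ f) : ∃ F : Am σ →ₗ[MonoidAlgebra R G] Am τ, ∀ v : V, F v = (f v : W) := by
  have key : ∀ (c : MonoidAlgebra R G) (v : V), f (Representation.asAlgebraHom σ c v) =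
      Representation.asAlgebraHom τ c (f v) := by
    intro c v
    induction c using MonoidAlgebra.induction_on with
    | of g => rw [Representation.asAlgebraHom_of, Representation.asAlgebraHom_of]; exact hf g v
    | add a b ha hb =>
      rw [map_add, map_add, LinearMap.add_apply, LinearMap.add_apply, map_add, ha, hb]
    | smul r a ha =>
      rw [map_smul, map_smul, LinearMap.smul_apply, LinearMap.smul_apply, map_smul, ha]
  exact ⟨{ toFun := fun v => f (show V from v)
           map_add' := fun v w => map_add f _ _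
           map_smul' := fun c v => key c v }, fun v => rfl⟩

private theorem UA_smul (σ : Representation R G V) (r : R) (v : V) :
    (algebraMap R (MonoidAlgebra R G) r • (show Am σ from v) : Am σ) = (r • v : V) := by
  rw [Am.smul_def, AlgHom.commutes, Module.algebraMap_end_apply]

/-- MODULE UA. A map which is linear over the group algebra is `R`-linear and equivariant. -/
theorem exists_eqv {σ : Representation R G V} {τ : Representation R G W}
    (F : Am σ →ₗ[MonoidAlgebra R G] Am τ) : ∃ f : V →ₗ[R] W, Eqv σ τ f ∧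
      ∀ v : V, F v = (f v : W) := by
  refine ⟨{ toFun := fun v => F (show Am σ from v)
            map_add' := fun v w => map_add F _ _
            map_smul' := fun r v => ?_ }, fun g v => ?_, fun v => rfl⟩
  · have h := map_smul F (algebraMap R (MonoidAlgebra R G) r) (show Am σ from v)
    rw [UA_smul σ r v] at h
    exact h.trans (UA_smul τ r _)
  · have h := map_smul F (MonoidAlgebra.of R G g) (show Am σ from v)
    rw [Am.of_smul, Am.of_smul] at h
    exact h

private theorem UB_tower (σ : Representation R G V) :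
    IsScalarTower R (MonoidAlgebra R G) (Am σ) :=
  ⟨fun r c v => by
    rw [Am.smul_def, Am.smul_def, map_smul]
    rfl⟩

/-- MODULE UB. PROOF. Generators over `R` are generators over `R[G]` (the scalars of `R` act through
`algebraMap`). -/
theorem am_fin [Module.Finite R V] (σ : Representation R G V) :
    Module.Finite (MonoidAlgebra R G) (Am σ) := by
  have := UB_tower σ
  have : Module.Finite R (Am σ) := inferInstanceAs (Module.Finite R V)
  exact Module.Finite.of_restrictScalars_finite R (MonoidAlgebra R G) (Am σ)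

/-- MODULE UB. A relatively projective representation on a projective `R`-module is projective over `R[G]`. PROOF. Lifting
property (`Module.Projective.of_lifting_property''` or similar): `π : M → N` onto, `f : V → N`, both
`R[G]`-linear; an `R`-linear lift `l` of `f` exists as `V` is projective over `R`; with `Trc φ = id`,
`v ↦ ∑_g g • l (φ (g⁻¹ v))` is `R[G]`-linear and lifts `f`. (Or: `V` is a direct summand of
`R[G] ⊗_R V`.) -/
theorem am_proj [Fintype G] [Module.Projective R V] {σ : Representation R G V} (hP : Prj σ) :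
    Module.Projective (MonoidAlgebra R G) (Am σ) := by
  classical
  have := UB_tower σ
  have : Module.Projective R (Am σ) := inferInstanceAs (Module.Projective R V)
  obtain ⟨φ, hφ⟩ := hP
  refine Module.Projective.of_lifting_property'' fun f hf => ?_
  obtain ⟨s, hs⟩ := Module.projective_lifting_property (f.restrictScalars R)
    (LinearMap.id : Am σ →ₗ[R] Am σ) hf
  have hs' : ∀ v, f (s v) = v := fun v => LinearMap.congr_fun hs v
  have key : ∀ (x : G) (v : Am σ), ∑ g : G, MonoidAlgebra.of R G g •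
      s (φ (σ g⁻¹ (σ x (show V from v)))) = MonoidAlgebra.of R G x •
        ∑ g : G, MonoidAlgebra.of R G g • s (φ (σ g⁻¹ (show V from v))) := by
    intro x v
    rw [Finset.smul_sum, ← Equiv.sum_comp (Equiv.mulLeft x)]
    refine Finset.sum_congr rfl fun g _ => ?_
    rw [Equiv.coe_mulLeft, map_mul, mul_smul, mul_inv_rev, map_mul, Module.End.mul_apply,
      ← Module.End.mul_apply (σ x⁻¹), ← map_mul, inv_mul_cancel, map_one, Module.End.one_apply]
  have hadd : ∀ v w : Am σ, ∑ g : G, MonoidAlgebra.of R G g •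
      s (φ (σ g⁻¹ (show V from v + w))) = ∑ g : G, MonoidAlgebra.of R G g •
      s (φ (σ g⁻¹ (show V from v))) + ∑ g : G, MonoidAlgebra.of R G g •
      s (φ (σ g⁻¹ (show V from w))) := by
    intro v w
    rw [← Finset.sum_add_distrib]
    refine Finset.sum_congr rfl fun g _ => ?_
    rw [← smul_add]
    refine congrArg _ ?_
    refine (congrArg s ((congrArg φ (map_add (σ g⁻¹) v w)).trans (map_add φ _ _))).trans ?_
    exact map_add s _ _
  have hsm : ∀ (r : R) (v : Am σ), ∑ g : G, MonoidAlgebra.of R G g •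
      s (φ (σ g⁻¹ (show V from r • v))) = r • ∑ g : G, MonoidAlgebra.of R G g •
      s (φ (σ g⁻¹ (show V from v))) := by
    intro r v
    rw [Finset.smul_sum]
    refine Finset.sum_congr rfl fun g _ => ?_
    rw [smul_comm r]
    refine congrArg _ ?_
    refine (congrArg s ((congrArg φ (map_smul (σ g⁻¹) r v)).trans (map_smul φ _ _))).trans ?_
    exact map_smul s _ _
  refine ⟨{ toFun := fun v => ∑ g : G, MonoidAlgebra.of R G g • s (φ (σ g⁻¹ (show V from v)))
            map_add' := hadd
            map_smul' := fun c v => ?_ }, ?_⟩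
  · dsimp only [RingHom.id_apply]
    induction c using MonoidAlgebra.induction_on with
    | of g => exact (congrArg (fun w => ∑ g : G, MonoidAlgebra.of R G g •
        s (φ (σ g⁻¹ (show V from w)))) (Am.of_smul σ g v)).trans (key g v)
    | add a b ha hb =>
      rw [add_smul, add_smul, ← ha, ← hb]
      exact hadd _ _
    | smul r a ha =>
      rw [smul_assoc, smul_assoc, ← ha]
      exact hsm _ _
  · refine LinearMap.ext fun v => ?_
    show f (∑ g : G, MonoidAlgebra.of R G g • s (φ (σ g⁻¹ (show V from v)))) = v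
    rw [map_sum]
    have h1 : ∀ g : G, f (MonoidAlgebra.of R G g • s (φ (σ g⁻¹ (show V from v)))) =
        (σ g (φ (σ g⁻¹ (show V from v))) : V) := fun g =>
      (map_smul f _ _).trans ((congrArg (fun w => MonoidAlgebra.of R G g • w) (hs' _)).trans
        (Am.of_smul σ g _))
    rw [Finset.sum_congr rfl fun g _ => h1 g]
    have h2 := LinearMap.congr_fun hφ (show V from v)
    rw [Trc, LinearMap.sum_apply] at h2
    exact h2

end Am

section Bim

variable {R Z E A : Type} [CommRing R] [CommGroup Z] [CommGroup E]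
  {θ : E →* MulAut Z} [Ring A] [Algebra R A] {ρ : (Z ⋊[θ] E) →* A}

/-- The right action of `A` on `A`. -/
instance am_r0 : Module Aᵐᵒᵖ (Am (rp (R := R) ρ A)) := inferInstanceAs (Module Aᵐᵒᵖ A)

/-- The right action of `A` on `F1 A`. -/
instance am_r1 (Φ : Fam R ρ) : Module Aᵐᵒᵖ (Am (Φ.act A)) where
  smul b x := Φ.rm b.unop x
  one_smul x := Subtype.ext (funext fun p => mul_one (x.1 p))
  mul_smul a b x := Subtype.ext (funext fun p => (mul_assoc (x.1 p) b.unop a.unop).symm)
  smul_zero a := map_zero (Φ.rm a.unop)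
  smul_add a x y := map_add (Φ.rm a.unop) x y
  add_smul a b x := Subtype.ext (funext fun p => mul_add (x.1 p) a.unop b.unop)
  zero_smul x := Subtype.ext (funext fun p => mul_zero (x.1 p))

theorem am_r0_def (b : A) (x : Am (rp (R := R) ρ A)) :
    MulOpposite.op b • x = ((show A from x) * b : A) := rfl

theorem am_r1_def (Φ : Fam R ρ) (b : A) (x : Am (Φ.act A)) :
    MulOpposite.op b • x = (Φ.rm b (show Φ.F1 A from x) : Φ.F1 A) := rfl

/-- MODULE UC. PROOF. Induction on the scalar: `ρ(g) (x b) = (ρ(g) x) b`. -/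
theorem am_c0 : SMulCommClass (MonoidAlgebra R (Z ⋊[θ] E)) Aᵐᵒᵖ (Am (rp (R := R) ρ A)) := by
  refine ⟨fun c b x => ?_⟩
  obtain ⟨F, hF⟩ := exists_lin (σ := rp (R := R) ρ A) (τ := rp (R := R) ρ A)
    (f := LinearMap.mulRight R b.unop) fun g v => mul_assoc _ _ _
  have h := map_smul F c x
  exact ((hF (c • x)).symm.trans (h.trans (congrArg (fun w => c • w) (hF x)))).symm

/-- MODULE UC. -/
theorem am_c1 (Φ : Fam R ρ) :
    SMulCommClass (MonoidAlgebra R (Z ⋊[θ] E)) Aᵐᵒᵖ (Am (Φ.act A)) := by
  refine ⟨fun c b x => ?_⟩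
  obtain ⟨F, hF⟩ := exists_lin (σ := Φ.act A) (τ := Φ.act A)
    (f := Φ.rm b.unop) fun g v => Subtype.ext (funext fun p => by
      rw [Fam.rm_apply, Fam.act_apply, Fam.act_apply, Fam.rm_apply, smul_mul_assoc])
  have h := map_smul F c x
  exact ((hF (c • x)).symm.trans (h.trans (congrArg (fun w => c • w) (hF x)))).symm

private def UC_e (A : Type) [Ring A] : Aᵐᵒᵖ ≃ₗ[Aᵐᵒᵖ] A :=
  { toFun := fun a => a.unop
    invFun := fun a => MulOpposite.op a
    left_inv := fun _ => rfl
    right_inv := fun _ => rfl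
    map_add' := fun _ _ => rfl
    map_smul' := fun _ _ => rfl }

private theorem UC_fin (A : Type) [Ring A] : Module.Finite Aᵐᵒᵖ A :=
  Module.Finite.equiv (UC_e A)

private theorem UC_free (A : Type) [Ring A] : Module.Free Aᵐᵒᵖ A :=
  Module.Free.of_equiv (UC_e A)

/-- MODULE UC. `A` is free of rank one over `Aᵐᵒᵖ`. -/
theorem am_f0 : Module.Finite Aᵐᵒᵖ (Am (rp (R := R) ρ A)) ∧
    Module.Projective Aᵐᵒᵖ (Am (rp (R := R) ρ A)) := by
  have h1 : Module.Finite Aᵐᵒᵖ A := UC_fin A
  have h2 : Module.Projective Aᵐᵒᵖ A := by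
    have := UC_free A
    exact Module.Projective.of_free
  exact ⟨h1, h2⟩

/-- MODULE UC. `F1 A` is a direct summand of the free right module `J × Z → A`: the image of `x ↦ (f_a x(a, z))`. -/
theorem am_f1 [Fintype Z] (Φ : Fam R ρ) : Module.Finite Aᵐᵒᵖ (Am (Φ.act A)) ∧
    Module.Projective Aᵐᵒᵖ (Am (Φ.act A)) := by
  have := UC_fin A
  have := UC_free A
  let i : Am (Φ.act A) →ₗ[Aᵐᵒᵖ] (Φ.J × Z → A) :=
    { toFun := fun x => (show Φ.F1 A from x).1
      map_add' := fun _ _ => rfl
      map_smul' := fun _ _ => rfl }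
  let s : (Φ.J × Z → A) →ₗ[Aᵐᵒᵖ] Am (Φ.act A) :=
    { toFun := fun x => (⟨fun p => Φ.f p.1 * x p, fun p => by
        rw [smul_eq_mul, ← mul_assoc, Φ.ff]⟩ : Φ.F1 A)
      map_add' := fun x y => Subtype.ext (funext fun p => mul_add _ _ _)
      map_smul' := fun b x => Subtype.ext (funext fun p => (mul_assoc _ _ _).symm) }
  have hsi : s ∘ₗ i = LinearMap.id := LinearMap.ext fun x =>
    Subtype.ext (funext fun p => (show Φ.F1 A from x).2 p)
  exact ⟨Module.Finite.of_surjective s fun x => ⟨i x, LinearMap.congr_fun hsi x⟩,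
    Module.Projective.of_split i s hsi⟩

end Bim

section Main

variable {k : Type} [Field k] {Z E : Type} [CommGroup Z] [Fintype Z] [CommGroup E] [Fintype E]
  {θ : E →* MulAut Z} {R A H : Type} [CommRing R] [Ring A] [Algebra R A] [Ring H] [Algebra k H]

private theorem UD1_prj (K : KD k θ H) : Prj (rp (R := k) K.ρ H) := by
  obtain ⟨l, hl⟩ := exists_ltr K.toStEq
  have hE := cardE_ne K
  refine ⟨(Fintype.card E : k)⁻¹ • l, LinearMap.ext fun x => ?_⟩
  rw [Trc, LinearMap.sum_apply, ← (eqvYW θ).sum_comp, Fintype.sum_prod_type]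
  have h1 : ∀ y : E, ∑ u : Z, ((rp (R := k) K.ρ H) (eqvYW θ (y, u)) ∘ₗ
      ((Fintype.card E : k)⁻¹ • l) ∘ₗ (rp (R := k) K.ρ H) (eqvYW θ (y, u))⁻¹) x =
      (Fintype.card E : k)⁻¹ • x := by
    intro y
    have h2 : ∀ u : Z, ((rp (R := k) K.ρ H) (eqvYW θ (y, u)) ∘ₗ
      ((Fintype.card E : k)⁻¹ • l) ∘ₗ (rp (R := k) K.ρ H) (eqvYW θ (y, u))⁻¹) x =
        (Fintype.card E : k)⁻¹ • (K.ρ (.inr y) * (K.ρ (.inl u) *
          l (K.ρ (.inl u⁻¹) * (K.ρ (.inr y⁻¹) * x)))) := by
      intro u
      rw [LinearMap.comp_apply, LinearMap.comp_apply, rp_apply, rp_apply, LinearMap.smul_apply,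
        smul_eq_mul, smul_eq_mul, mul_smul_comm]
      simp only [eqvYW, Equiv.coe_fn_mk, mul_inv_rev, map_mul, ← map_inv, mul_assoc]
    rw [Finset.sum_congr rfl fun u _ => h2 u, ← Finset.smul_sum, ← Finset.mul_sum,
      hl (K.ρ (.inr y⁻¹) * x), ← mul_assoc, ← map_mul, ← map_mul, mul_inv_cancel, map_one,
      map_one, one_mul]
  rw [Finset.sum_congr rfl fun y _ => h1 y, Finset.sum_const, Finset.card_univ,
    ← Nat.cast_smul_eq_nsmul k, smul_smul, mul_inv_cancel₀ hE, one_smul, LinearMap.id_apply]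

/-- MODULE UD1. THE THEOREM OVER `k`. PROOF. `ex3_all` for `V = W = H` with `ex3_off`, `ex3_diag` (`exists_fam`),
`exists_vm_quot`, `cardE_ne`; the surjectivity in degree one is `sur_of_inj` for `N = F1 H`, `V = H` (`prj_act`, `d_eqv`,
`Ex3.inj`; `H` is relatively projective over `Z ⋊ E`: `exists_ltr` gives `l` with `∑_u ρ(u) l(ρ(u)⁻¹ x) = x` over `Z`, so
`|E|⁻¹ l` has trace `id` over `Z ⋊ E`: `∑_y ρ(y) id ρ(y)⁻¹ = |E| id`). -/
theorem exists_k [FiniteDimensional k H] (K : KD k θ H) (D : WD k H) (O : Orth D K.ρ) :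
    ∃ Φ : Fam k K.ρ, Ex3 Φ H H ∧ ∀ f : Φ.F1 H →ₗ[k] H, Eqv (Φ.act H) (rp K.ρ H) f →
      ∃ (α : Φ.F1 H →ₗ[k] Φ.F1 H) (β : H →ₗ[k] H), Eqv (Φ.act H) (Φ.act H) α ∧
        Eqv (rp (R := k) K.ρ H) (rp K.ρ H) β ∧ ∀ t, f t = Φ.d H (α t) + β (Φ.d H t) := by
  obtain ⟨Φ, hΦ⟩ := exists_fam K D O
  have hE := cardE_ne K
  have h3 : Ex3 Φ H H := ex3_all K.toStEq hE Φ D (fun M _ _ _ _ _ _ => exists_vm_quot D)
    (fun i j => by
      by_cases h : i = j
      · subst h
        exact ex3_diag K D O Φ hΦ i
      · exact ex3_off K D O Φ hΦ h) H H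
  refine ⟨Φ, h3, fun f hf => ?_⟩
  have : FiniteDimensional k (Φ.F1 H) := inferInstance
  exact sur_of_inj (prj_act Φ hE.isUnit) (UD1_prj K) (d_eqv Φ)
    (fun u hu h1 h2 => LinearMap.ext (h3.inj u hu h1 h2)) hf

/-- MODULE UD2. THE COMPLEX. PROOF. `exists_wd` (Sig/BWed.lean): `D`; `exists_k`; `exists_lfam`, `lift_ex`. -/
theorem exists_ex0 [IsAlgClosed k] [FiniteDimensional k H] (Q : Pkg k θ R A H)
    (hO : ∀ D : WD k H, Nonempty (Orth D Q.K.ρ)) : ∃ Φ : Fam R Q.ρ, Ex0 Φ := by
  obtain ⟨D⟩ := exists_wd (k := k) (C := H)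
  obtain ⟨O⟩ := hO D
  obtain ⟨Φ₀, h3, hs⟩ := exists_k Q.K D O
  obtain ⟨L⟩ := exists_lfam (Q := Q) Φ₀
  exact ⟨L.Φ, lift_ex L h3 hs⟩

private theorem UD3_lin {R G V M : Type} [CommRing R] [Group G] [AddCommGroup V] [Module R V]
    [AddCommGroup M] [Module R M] [Module (MonoidAlgebra R G) M]
    (hR : ∀ (r : R) (m : M), r • m = (algebraMap R (MonoidAlgebra R G) r) • m)
    {σ : Representation R G V} {μ : Representation R G M}
    (hμ : ∀ g m, μ g m = MonoidAlgebra.of R G g • m) {f : V →ₗ[R] M} (hf : Eqv σ μ f) :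
    ∃ F : Am σ →ₗ[MonoidAlgebra R G] M, ∀ v : V, F v = f v := by
  refine ⟨{ toFun := fun v => f (show V from v)
            map_add' := fun v w => map_add f _ _
            map_smul' := fun c v => ?_ }, fun v => rfl⟩
  show f (Representation.asAlgebraHom σ c (show V from v)) = c • f (show V from v)
  induction c using MonoidAlgebra.induction_on with
  | of g =>
    rw [Representation.asAlgebraHom_of, hf g, hμ]
  | add a b ha hb =>
    rw [map_add, LinearMap.add_apply, map_add, ha, hb, add_smul]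
  | smul r a ha =>
    rw [map_smul, LinearMap.smul_apply, map_smul, ha, hR, ← mul_smul, Algebra.smul_def]

private theorem UD3_eqv {R G V M : Type} [CommRing R] [Group G] [AddCommGroup V] [Module R V]
    [AddCommGroup M] [Module R M] [Module (MonoidAlgebra R G) M]
    (hR : ∀ (r : R) (m : M), r • m = (algebraMap R (MonoidAlgebra R G) r) • m)
    {σ : Representation R G V} {μ : Representation R G M}
    (hμ : ∀ g m, μ g m = MonoidAlgebra.of R G g • m) (F : Am σ →ₗ[MonoidAlgebra R G] M) :
    ∃ f : V →ₗ[R] M, Eqv σ μ f ∧ ∀ v : V, F v = f v := by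
  refine ⟨{ toFun := fun v => F v
            map_add' := fun v w => map_add F _ _
            map_smul' := fun r v => ?_ }, fun g v => ?_, fun v => rfl⟩
  · have h1 : (r • v : V) = (algebraMap R (MonoidAlgebra R G) r • (show Am σ from v) : Am σ) := by
      show r • v = Representation.asAlgebraHom σ (algebraMap R (MonoidAlgebra R G) r) v
      rw [AlgHom.commutes, Module.algebraMap_end_apply]
    show F (r • v : V) = r • F v
    rw [hR, ← map_smul]
    exact congrArg F h1
  · show F (σ g v : V) = μ g (F v)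
    rw [hμ, ← map_smul]
    exact congrArg F (Am.of_smul σ g v).symm

/-- MODULE UD3. FROM `Ex0` TO `TT`. PROOF. `X₁ = Am (Φ.act A)`, `X₀ = Am (rp Q.ρ A)`, `d` from `exists_lin` (`d_eqv`).
Finite and projective: `am_fin`, `am_proj` (`prj_act`, `prj_A`, `F1_fin`, `Q.fin`, `Q.free`, `cardE_unit`), `am_f0`, `am_f1`.
`dr`: `d_rm`. `sur`, `inj`, `mid`: translate with `exists_lin`, `exists_eqv`; uniqueness of `a` in `mid`: the difference of
two solutions satisfies `Ex0.uni`. `gen`: a module `M` over `R[G]` is an `R`-module (`Module.compHom M (algebraMap R _)`)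
with the representation `μ g = of g • ·`; `gen_main`; `hinj`, `hsur` from the bijectivity (linear maps
`Am σ →ₗ M` are the equivariant maps, as in `exists_lin`, `exists_eqv`). -/
theorem tt_of_ex0 (Q : Pkg k θ R A H) (Φ : Fam R Q.ρ) (h : Ex0 Φ) :
    Nonempty (TT (MonoidAlgebra R (Z ⋊[θ] E)) A) := by
  classical
  obtain ⟨fF, gF⟩ := F1_fin (Q := Q) Φ
  have fA := Q.fin
  have gA' := Q.free
  have gA : Module.Projective R A := inferInstance
  have hE := cardE_unit Q
  have pF : Prj (Φ.act A) := prj_act Φ hE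
  have pA : Prj (rp (R := R) Q.ρ A) := prj_A
  obtain ⟨D, hD⟩ := exists_lin (d_eqv Φ (M := A))
  have c0 := am_c0 (R := R) (ρ := Q.ρ)
  have c1 := am_c1 Φ
  obtain ⟨a1, a2⟩ := am_f0 (R := R) (ρ := Q.ρ)
  obtain ⟨b1, b2⟩ := am_f1 Φ
  have e1 : Module.Finite (MonoidAlgebra R (Z ⋊[θ] E)) (Am (Φ.act A)) := am_fin _
  have e2 : Module.Projective (MonoidAlgebra R (Z ⋊[θ] E)) (Am (Φ.act A)) := am_proj pF
  have e3 : Module.Finite (MonoidAlgebra R (Z ⋊[θ] E)) (Am (rp (R := R) Q.ρ A)) := am_fin _
  have e4 : Module.Projective (MonoidAlgebra R (Z ⋊[θ] E)) (Am (rp (R := R) Q.ρ A)) := am_proj pA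
  refine ⟨{ X₁ := Am (Φ.act A), X₀ := Am (rp (R := R) Q.ρ A), c₁ := c1, c₀ := c0, lf₁ := e1,
            lp₁ := e2, lf₀ := e3, lp₀ := e4, rf₁ := b1, rp₁ := b2, rf₀ := a1, rp₀ := a2,
            d := D, dr := ?_, sur := ?_, inj := ?_, mid := ?_, gen := ?_ }⟩
  · intro a x
    exact (hD _).trans ((d_rm Φ a x).trans (congrArg (· * a) (hD x).symm))
  · intro f
    obtain ⟨f', hf', hff⟩ := exists_eqv f
    obtain ⟨α, β, hα, hβ, hh⟩ := h.sur f' hf'
    obtain ⟨α', hα'⟩ := exists_lin hα
    obtain ⟨β', hβ'⟩ := exists_lin hβ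
    refine ⟨α', β', LinearMap.ext fun x => ?_⟩
    refine (hff x).trans ((DFunLike.congr_fun hh x).trans ?_)
    show Φ.d A (α x) + β (Φ.d A x) = (D (α' x) : A) + (β' (D x) : A)
    have h1 : (D (α' x) : A) = Φ.d A (α x) := (hD _).trans (congrArg _ (hα' x))
    have h2 : (β' (D x) : A) = β (Φ.d A x) := (hβ' _).trans (congrArg _ (hD x))
    exact (congrArg₂ (fun a b : A => a + b) h1 h2).symm
  · intro u hu1 hu2
    obtain ⟨u', hu', huu⟩ := exists_eqv u
    have h1 : u' = 0 := by
      refine h.inj u' hu' (LinearMap.ext fun x => ?_) (LinearMap.ext fun x => ?_)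
      · have h2 : (u (D x) : Φ.F1 A) = u' (Φ.d A x) := (huu _).trans (congrArg _ (hD x))
        exact h2.symm.trans (DFunLike.congr_fun hu1 x)
      · have h2 : (D (u x) : A) = Φ.d A (u' x) := (hD _).trans (congrArg _ (huu x))
        exact h2.symm.trans (DFunLike.congr_fun hu2 x)
    refine LinearMap.ext fun x => (huu x).trans ?_
    rw [h1]
    rfl
  · intro α β hc
    obtain ⟨α', hα', hαα⟩ := exists_eqv α
    obtain ⟨β', hβ', hββ⟩ := exists_eqv β
    obtain ⟨b, u, hu, h1, h2⟩ := h.mid α' β' hα' hβ' (LinearMap.ext fun x => by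
      have h3 : (D (α x) : A) = Φ.d A (α' x) := (hD _).trans (congrArg _ (hαα x))
      have h4 : (β (D x) : A) = β' (Φ.d A x) := (hββ _).trans (congrArg _ (hD x))
      exact h3.symm.trans ((DFunLike.congr_fun hc x).trans h4))
    obtain ⟨U, hU⟩ := exists_lin hu
    refine ⟨b, ⟨U, fun x => ?_, fun x => ?_⟩, ?_⟩
    · refine (hαα x).trans ((DFunLike.congr_fun h1 x).trans ?_)
      have h3 : (U (D x) : Φ.F1 A) = u (Φ.d A x) := (hU _).trans (congrArg _ (hD x))
      exact congrArg (fun t : Φ.F1 A => Φ.rm b x + t) h3.symm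
    · refine (hββ x).trans ((DFunLike.congr_fun h2 x).trans ?_)
      have h3 : (D (U x) : A) = Φ.d A (u x) := (hD _).trans (congrArg _ (hU x))
      exact congrArg (fun t : A => (show A from x) * b + t) h3.symm
    · rintro b' ⟨U', k1, k2⟩
      obtain ⟨u', hu', huu⟩ := exists_eqv U'
      have h5 := h.uni (b' - b) (u' - u) (fun g v => by
        rw [LinearMap.sub_apply, LinearMap.sub_apply, hu' g v, hu g v, map_sub]) ?_ ?_
      · exact sub_eq_zero.1 h5
      · refine LinearMap.ext fun x => ?_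
        have h6 : (α' x : Φ.F1 A) = Φ.rm b' x + u' (Φ.d A x) := by
          have h7 : (U' (D x) : Φ.F1 A) = u' (Φ.d A x) := (huu _).trans (congrArg _ (hD x))
          exact (hαα x).symm.trans ((k1 x).trans (congrArg (fun t : Φ.F1 A => Φ.rm b' x + t) h7))
        have h8 : α' x = Φ.rm b x + u (Φ.d A x) := DFunLike.congr_fun h1 x
        have h9 : Φ.rm (b' - b) x = Φ.rm b' x - Φ.rm b x :=
          Subtype.ext (funext fun p => mul_sub (x.1 p) b' b)
        show Φ.rm (b' - b) x + (u' (Φ.d A x) - u (Φ.d A x)) = 0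
        rw [h9]
        have h10 := h6.symm.trans h8
        rw [sub_add_sub_comm, h10, sub_self]
      · refine LinearMap.ext fun x => ?_
        have h6 : (β' x : A) = x * b' + Φ.d A (u' x) := by
          have h7 : (D (U' x) : A) = Φ.d A (u' x) := (hD _).trans (congrArg _ (huu x))
          exact (hββ x).symm.trans ((k2 x).trans (congrArg (fun t : A => x * b' + t) h7))
        have h8 : β' x = x * b + Φ.d A (u x) := DFunLike.congr_fun h2 x
        show x * (b' - b) + Φ.d A (u' x - u x) = 0
        have h10 := h6.symm.trans h8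
        rw [mul_sub, map_sub, sub_add_sub_comm, h10, sub_self]
  · intro M _ _ hbij
    letI : Module R M := Module.compHom M (algebraMap R (MonoidAlgebra R (Z ⋊[θ] E)))
    have hR : ∀ (r : R) (m : M), r • m =
      (algebraMap R (MonoidAlgebra R (Z ⋊[θ] E)) r) • m := fun r m => rfl
    let μ : Representation R (Z ⋊[θ] E) M :=
      { toFun := fun g =>
          { toFun := fun m => MonoidAlgebra.of R (Z ⋊[θ] E) g • m
            map_add' := fun m n => smul_add _ _ _
            map_smul' := fun r m => by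
              rw [RingHom.id_apply, hR, hR, ← mul_smul, ← mul_smul, Algebra.commutes] }
        map_one' := LinearMap.ext fun m => by
          show MonoidAlgebra.of R (Z ⋊[θ] E) 1 • m = m
          rw [map_one, one_smul]
        map_mul' := fun g h => LinearMap.ext fun m => by
          show MonoidAlgebra.of R (Z ⋊[θ] E) (g * h) • m =
            MonoidAlgebra.of R (Z ⋊[θ] E) g • MonoidAlgebra.of R (Z ⋊[θ] E) h • m
          rw [map_mul, mul_smul] }
    have hμ : ∀ g m, μ g m = MonoidAlgebra.of R (Z ⋊[θ] E) g • m := fun g m => rfl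
    refine ⟨fun m n => ?_⟩
    have key : ∀ m : M, m = 0 := fun m => gen_main Q Φ μ
      (fun F hF hd a => by
        obtain ⟨F', hF'⟩ := UD3_lin hR hμ hF
        have h1 : F' = 0 := hbij.1 (by
          refine LinearMap.ext fun x => ?_
          show F' (D x) = 0
          exact (congrArg F' (hD x)).trans ((hF' _).trans (hd x)))
        rw [← hF' a, h1]
        rfl)
      (fun G hG => by
        obtain ⟨G', hG'⟩ := UD3_lin hR hμ hG
        obtain ⟨F', hF'⟩ := hbij.2 G'
        obtain ⟨F, hF, hFF⟩ := UD3_eqv hR hμ F'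
        refine ⟨F, hF, fun x => ?_⟩
        rw [← hFF, ← hG', ← hF']
        exact congrArg F' (hD x).symm) m
    rw [key m, key n]

/-- MODULE UD2. BLOCKS X, L: the tilting complex. PROOF. `exists_ex0`, `tt_of_ex0`. -/
theorem exists_tt [IsAlgClosed k] [FiniteDimensional k H] (Q : Pkg k θ R A H)
    (hO : ∀ D : WD k H, Nonempty (Orth D Q.K.ρ)) :
    Nonempty (TT (MonoidAlgebra R (Z ⋊[θ] E)) A) := by
  obtain ⟨Φ, h⟩ := exists_ex0 Q hO
  exact tt_of_ex0 Q Φ h

end Main

end Pool.Agent.FbT
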