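import Pool.Agent.FbT.Tr

/-!
# FbT, part St: representations of `Z ⋊ E`, `Z` a cyclic `p`-group, over a field of
characteristic `p`: the eigen generator, Jordan blocks with weights, and the presentation of a
representation with stable endomorphism ring `k` by a short or long two-term complex
-/

set_option autoImplicit false

namespace Pool.Agent.FbT

open Pool.Agent.Sig Pool.Agent.DD

section Eigen

variable {k Z E : Type} [Field k] [CommGroup Z] [Fintype Z] [CommGroup E] [Fintype E]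

/-- The augmentation. -/
private noncomputable def SC1_eps (k Z : Type) [Field k] [CommGroup Z] : MonoidAlgebra k Z →ₐ[k] k :=
  MonoidAlgebra.lift k k Z (1 : Z →* k)

private theorem SC1_eps_of (z : Z) : SC1_eps k Z (MonoidAlgebra.of k Z z) = 1 := by
  rw [SC1_eps, MonoidAlgebra.lift_of]; rfl

private theorem SC1_pow {z₀ : Z} (hgen : ∀ z : Z, z ∈ Subgroup.zpowers z₀) (z : Z) :
    ∃ n : ℕ, z₀ ^ n = z := by
  have h := hgen z
  rw [← mem_powers_iff_mem_zpowers] at h
  exact h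

private theorem SC1_dvd {z₀ : Z} (hgen : ∀ z : Z, z ∈ Subgroup.zpowers z₀)
    (b : MonoidAlgebra k Z) :
    (MonoidAlgebra.of k Z z₀ - 1) ∣ b - algebraMap k _ (SC1_eps k Z b) := by
  induction b using MonoidAlgebra.induction_on with
  | of m =>
    obtain ⟨n, rfl⟩ := SC1_pow hgen m
    rw [SC1_eps_of, map_one, map_pow]
    have h := sub_dvd_pow_sub_pow (MonoidAlgebra.of k Z z₀) 1 n
    rwa [one_pow] at h
  | add x y hx hy =>
    rw [map_add, map_add, add_sub_add_comm]
    exact dvd_add hx hy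
  | smul r x hx =>
    rw [map_smul, smul_eq_mul, map_mul, ← Algebra.smul_def, ← smul_sub]
    exact dvd_smul_of_dvd r hx

private theorem SC1_nil {p r : ℕ} (hp : p.Prime) (hch : CharP k p)
    (hcard : Fintype.card Z = p ^ (r + 1)) (z : Z) :
    (MonoidAlgebra.of k Z z - 1) ^ (p ^ (r + 1)) = 0 := by
  have := Fact.mk hp
  have : CharP (MonoidAlgebra k Z) p :=
    charP_of_injective_algebraMap (FaithfulSMul.algebraMap_injective k (MonoidAlgebra k Z)) p
  rw [sub_pow_char_pow, one_pow, ← map_pow, ← hcard, pow_card_eq_one, map_one, sub_self]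

private theorem SC1_unit {p r : ℕ} (hp : p.Prime) (hch : CharP k p)
    (hcard : Fintype.card Z = p ^ (r + 1)) {z₀ : Z} (hgen : ∀ z : Z, z ∈ Subgroup.zpowers z₀)
    {b : MonoidAlgebra k Z} (hb : SC1_eps k Z b ≠ 0) : IsUnit b := by
  obtain ⟨c, hc⟩ := SC1_dvd hgen b
  have h1 : b = algebraMap k _ (SC1_eps k Z b) + (MonoidAlgebra.of k Z z₀ - 1) * c := by
    rw [← hc]; ring
  rw [h1]
  refine IsNilpotent.isUnit_add_left_of_commute ?_ ?_ (Commute.all _ _)
  · refine ⟨p ^ (r + 1), ?_⟩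
    rw [mul_pow, SC1_nil hp hch hcard, zero_mul]
  · exact (IsUnit.mk0 _ hb).map (algebraMap k (MonoidAlgebra k Z))

private theorem SC1_poly {p r : ℕ} (hp : p.Prime) (hch : CharP k p)
    (hcard : Fintype.card Z = p ^ (r + 1)) {z₀ : Z} (hgen : ∀ z : Z, z ∈ Subgroup.zpowers z₀)
    {x : MonoidAlgebra k Z} (h1 : ∃ u, x = (MonoidAlgebra.of k Z z₀ - 1) * u)
    (h2 : ∃ u, MonoidAlgebra.of k Z z₀ - 1 = x * u) (b : MonoidAlgebra k Z) :
    ∃ P : Polynomial k, b = Polynomial.aeval x P := by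
  have key : ∀ n : ℕ, ∀ b : MonoidAlgebra k Z, ∃ (P : Polynomial k) (c : MonoidAlgebra k Z),
      b = Polynomial.aeval x P + x ^ n * c := by
    intro n
    induction n with
    | zero => intro b; exact ⟨0, b, by rw [map_zero, pow_zero, one_mul, zero_add]⟩
    | succ n ih =>
      intro b
      obtain ⟨P, c, hPc⟩ := ih b
      obtain ⟨d, hd⟩ := SC1_dvd hgen c
      obtain ⟨u, hu⟩ := h2
      refine ⟨P + Polynomial.C (SC1_eps k Z c) * Polynomial.X ^ n, u * d, ?_⟩
      rw [map_add, map_mul, Polynomial.aeval_C, map_pow, Polynomial.aeval_X]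
      have h3 : c = algebraMap k _ (SC1_eps k Z c) + x * u * d := by
        rw [← hu, ← hd]; ring
      calc b = Polynomial.aeval x P + x ^ n * c := hPc
        _ = Polynomial.aeval x P + x ^ n * (algebraMap k _ (SC1_eps k Z c) + x * u * d) := by
            rw [← h3]
        _ = _ := by ring
  obtain ⟨P, c, hPc⟩ := key (p ^ (r + 1)) b
  refine ⟨P, ?_⟩
  obtain ⟨u, hu⟩ := h1
  rw [hPc]
  conv_rhs => rw [← add_zero (Polynomial.aeval x P)]
  congr 1
  rw [hu, mul_pow, SC1_nil hp hch hcard, zero_mul, zero_mul]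

omit [Fintype E] in
private theorem SC1_om {p r : ℕ} (hp : p.Prime) (hch : CharP k p)
    (hcard : Fintype.card Z = p ^ (r + 1)) {z₀ : Z} (hgen : ∀ z : Z, z ∈ Subgroup.zpowers z₀)
    (θ : E →* MulAut Z) :
    ∃ (n : E → ℕ) (om : E →* kˣ), (∀ y, z₀ ^ n y = θ y z₀) ∧ ∀ y, ((om y : kˣ) : k) = n y := by
  choose n hn using fun y : E => SC1_pow hgen (θ y z₀)
  have hord : orderOf z₀ = p ^ (r + 1) := by
    rw [orderOf_eq_card_of_forall_mem_zpowers hgen, Nat.card_eq_fintype_card, hcard]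
  have hcast : ∀ a b : ℕ, z₀ ^ a = z₀ ^ b → (a : k) = b := by
    intro a b hab
    rw [pow_eq_pow_iff_modEq, hord] at hab
    rw [CharP.natCast_eq_natCast k p]
    exact hab.of_dvd (dvd_pow_self p (Nat.succ_ne_zero r))
  let f : E →* k :=
    { toFun := fun y => (n y : k)
      map_one' := by
        have := hcast (n 1) 1 (by rw [hn, map_one, pow_one]; rfl)
        rw [this, Nat.cast_one]
      map_mul' := fun y y' => by
        have := hcast (n (y * y')) (n y * n y') (by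
          rw [hn, map_mul, MulAut.mul_apply, ← hn y', map_pow, ← hn y, pow_mul])
        rw [this, Nat.cast_mul] }
  exact ⟨n, f.toHomUnits, hn, fun y => rfl⟩

/-- MODULE SC1. A generator of the augmentation ideal of `k[Z]` which is an eigenvector of `E`.
PROOF. `B = k[Z]`, `g = of z₀`, `q = p^(r+1)`. For `y ∈ E` write `θ_y(z₀) = z₀^(n y)`
(`hgen`; `z₀` has order `q`); `n(y y') ≡ n(y) n(y') mod q`, so `om y = (n y : k)` is a
homomorphism into `kˣ` (`n y` is prime to `p`). `θ_y(g) - 1 = g^(n y) - 1 = (g - 1) s_y`,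
`s_y = 1 + g + .. + g^(n y - 1)`. Put `x = ∑_y (om y)⁻¹ • (θ_y(g) - 1) = (g - 1) u`,
`u = ∑_y (om y)⁻¹ • s_y`. Then `θ_y x = ∑_y' (om y')⁻¹ (θ_(y y')(g) - 1) = om y • x`
(substitute). The augmentation of `u` is `∑_y (om y)⁻¹ (n y) = |E| ≠ 0`, and an element of `B` with
augmentation `c ≠ 0` is a unit: `b - c` has augmentation `0`, so `(b - c)^q = 0`
(`b^q = ∑ b(z)^q z^q = (∑ b(z))^q`, Frobenius, `add_pow_char_pow`). So `g - 1 = x u⁻¹`. Polynomials:
`z = g^i`, and `g = 1 + (g - 1)`, every `b ∈ B` is `ε(b) + x b'` (`b - ε(b)` is a sum of `b(z) (z - 1)`,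
`z - 1 = g^i - 1 ∈ (g - 1) B = x B`); iterate `q` times: `b = c_0 + c_1 x + .. + c_(q-1) x^(q-1) + x^q b''`
and `x^q = (g^q - 1) u^q = 0`. -/
theorem exists_eig_alg {p r : ℕ} (hp : p.Prime) (hch : CharP k p)
    (hcard : Fintype.card Z = p ^ (r + 1)) {z₀ : Z} (hgen : ∀ z : Z, z ∈ Subgroup.zpowers z₀)
    (hE : (Fintype.card E : k) ≠ 0) (θ : E →* MulAut Z) :
    ∃ (x : MonoidAlgebra k Z) (om : E →* kˣ),
      (∀ y, MonoidAlgebra.domCongr k k (θ y) x = ((om y : kˣ) : k) • x) ∧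
      (∃ u, x = (MonoidAlgebra.of k Z z₀ - 1) * u) ∧
      (∃ u, MonoidAlgebra.of k Z z₀ - 1 = x * u) ∧
      ∀ b : MonoidAlgebra k Z, ∃ P : Polynomial k, b = Polynomial.aeval x P := by
  obtain ⟨n, om, hn, hom⟩ := SC1_om (k := k) hp hch hcard hgen θ
  let g : MonoidAlgebra k Z := MonoidAlgebra.of k Z z₀
  let s : E → MonoidAlgebra k Z := fun y => ∑ i ∈ Finset.range (n y), g ^ i
  have hD : ∀ (y : E) (z : Z), MonoidAlgebra.domCongr k k (θ y) (MonoidAlgebra.of k Z z) =
      MonoidAlgebra.of k Z (θ y z) := by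
    intro y z
    rw [MonoidAlgebra.of_apply, MonoidAlgebra.domCongr_single, MonoidAlgebra.of_apply]
  let u : MonoidAlgebra k Z := ∑ y : E, (((om y)⁻¹ : kˣ) : k) • s y
  let x : MonoidAlgebra k Z :=
    ∑ y : E, (((om y)⁻¹ : kˣ) : k) • (MonoidAlgebra.of k Z (θ y z₀) - 1)
  have hxu : x = (g - 1) * u := by
    show ∑ y : E, _ = (g - 1) * ∑ y : E, _
    rw [Finset.mul_sum]
    refine Finset.sum_congr rfl fun y _ => ?_
    rw [mul_smul_comm]
    congr 1
    show _ = (g - 1) * ∑ i ∈ Finset.range (n y), g ^ i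
    rw [mul_geom_sum, ← map_pow, hn]
  have hepsu : SC1_eps k Z u = (Fintype.card E : k) := by
    show SC1_eps k Z (∑ y : E, _) = _
    rw [map_sum]
    have h1 : ∀ y : E, SC1_eps k Z ((((om y)⁻¹ : kˣ) : k) • s y) = 1 := by
      intro y
      rw [map_smul]
      show _ • SC1_eps k Z (∑ i ∈ Finset.range (n y), g ^ i) = 1
      have h2 : ∀ i : ℕ, SC1_eps k Z (g ^ i) = 1 := by
        intro i
        rw [map_pow, SC1_eps_of, one_pow]
      rw [map_sum, Finset.sum_congr rfl fun i _ => h2 i, Finset.sum_const, Finset.card_range,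
        nsmul_eq_mul, mul_one, ← hom, smul_eq_mul, Units.inv_mul]
    rw [Finset.sum_congr rfl fun y _ => h1 y, Finset.sum_const, nsmul_eq_mul, mul_one,
      Finset.card_univ]
  have hu : IsUnit u := SC1_unit hp hch hcard hgen (by rw [hepsu]; exact hE)
  have h1 : ∃ u, x = (g - 1) * u := ⟨u, hxu⟩
  have h2 : ∃ u, g - 1 = x * u := by
    refine ⟨((hu.unit⁻¹ : (MonoidAlgebra k Z)ˣ) : MonoidAlgebra k Z), ?_⟩
    rw [hxu, mul_assoc, IsUnit.mul_val_inv, mul_one]
  refine ⟨x, om, ?_, h1, h2, SC1_poly hp hch hcard hgen h1 h2⟩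
  intro y
  show MonoidAlgebra.domCongr k k (θ y) (∑ y' : E, _) = _ • ∑ y' : E, _
  rw [map_sum, Finset.smul_sum]
  refine Fintype.sum_equiv (Equiv.mulLeft y) _ _ fun y' => ?_
  rw [map_smul, map_sub, map_one, hD, Equiv.coe_mulLeft, map_mul θ, MulAut.mul_apply, smul_smul]
  congr 1
  rw [map_mul, mul_inv, Units.val_mul, ← mul_assoc, Units.mul_inv, one_mul]

/-- The element `∑ c(z) z` is an eigen generator of the augmentation ideal. -/
structure Eig (θ : E →* MulAut Z) (z₀ : Z) (c : Z → k) (om : E →* kˣ) : Prop where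
  twi : ∀ (V : Type) [AddCommGroup V] [Module k V] (σ : Representation k (Z ⋊[θ] E) V) (y : E)
    (v : V), σ (.inr y) (zo σ c v) = ((om y : kˣ) : k) • zo σ c (σ (.inr y) v)
  rng : ∀ (V : Type) [AddCommGroup V] [Module k V] (σ : Representation k (Z ⋊[θ] E) V) (j : ℕ)
    (v : V), v ∈ LinearMap.range ((zo σ c) ^ j) ↔ v ∈ LinearMap.range ((yo σ (.inl z₀)) ^ j)
  ker : ∀ (V : Type) [AddCommGroup V] [Module k V] (σ : Representation k (Z ⋊[θ] E) V) (j : ℕ)
    (v : V), ((zo σ c) ^ j) v = 0 ↔ ((yo σ (.inl z₀)) ^ j) v = 0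
  pol : ∀ z : Z, ∃ P : Polynomial k, ∀ (V : Type) [AddCommGroup V] [Module k V]
    (σ : Representation k (Z ⋊[θ] E) V), σ (.inl z) = Polynomial.aeval (zo σ c) P

/-- The extension of a representation to the group algebra of `Z`. -/
private noncomputable def SC2_S {θ : E →* MulAut Z} {V : Type} [AddCommGroup V] [Module k V]
    (σ : Representation k (Z ⋊[θ] E) V) : MonoidAlgebra k Z →ₐ[k] Module.End k V :=
  MonoidAlgebra.lift k (Module.End k V) Z (σ.comp SemidirectProduct.inl)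

omit [Fintype Z] [Fintype E] in
private theorem SC2_S_of {θ : E →* MulAut Z} {V : Type} [AddCommGroup V] [Module k V]
    (σ : Representation k (Z ⋊[θ] E) V) (z : Z) :
    SC2_S σ (MonoidAlgebra.of k Z z) = σ (.inl z) := by
  rw [SC2_S, MonoidAlgebra.lift_of]; rfl

omit [Fintype E] in
private theorem SC2_S_zo {θ : E →* MulAut Z} {V : Type} [AddCommGroup V] [Module k V]
    (σ : Representation k (Z ⋊[θ] E) V) (x : MonoidAlgebra k Z) :
    SC2_S σ x = zo σ (fun z => x.coeff z) := by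
  rw [SC2_S, MonoidAlgebra.lift_apply, Finsupp.sum_fintype]
  · rfl
  · intro z
    rw [zero_smul]

omit [Fintype Z] [Fintype E] in
private theorem SC2_S_yo {θ : E →* MulAut Z} {V : Type} [AddCommGroup V] [Module k V]
    (σ : Representation k (Z ⋊[θ] E) V) (z : Z) :
    SC2_S σ (MonoidAlgebra.of k Z z - 1) = yo σ (.inl z) := by
  rw [map_sub, map_one, SC2_S_of, yo]

omit [Fintype Z] [Fintype E] in
private theorem SC2_twi {θ : E →* MulAut Z} {V : Type} [AddCommGroup V] [Module k V]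
    (σ : Representation k (Z ⋊[θ] E) V) (y : E) (b : MonoidAlgebra k Z) (v : V) :
    σ (.inr y) (SC2_S σ b v) =
      SC2_S σ (MonoidAlgebra.domCongr k k (θ y) b) (σ (.inr y) v) := by
  induction b using MonoidAlgebra.induction_on with
  | of m =>
    rw [MonoidAlgebra.of_apply, MonoidAlgebra.domCongr_single, ← MonoidAlgebra.of_apply,
      ← MonoidAlgebra.of_apply, SC2_S_of, SC2_S_of, ← Module.End.mul_apply, ← map_mul,
      ← Module.End.mul_apply, ← map_mul, SemidirectProduct.inl_aut]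
    congr 2
    rw [mul_assoc, map_inv, inv_mul_cancel, mul_one]
  | add x y hx hy =>
    rw [map_add, LinearMap.add_apply, map_add, hx, hy, map_add, map_add, LinearMap.add_apply]
  | smul r x hx =>
    rw [map_smul, LinearMap.smul_apply, map_smul, hx, map_smul, map_smul, LinearMap.smul_apply]

/-- MODULE SC2. PROOF. Take `x` of `exists_eig_alg`, `c = x.coeff`. `σ` restricted to `Z` extends to an
algebra homomorphism `S : k[Z] → End V` (`MonoidAlgebra.lift`), `S x = zo σ c`,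
`S (of z₀ - 1) = yo σ (inl z₀)`. (twi) `σ(y) σ(z) = σ(θ_y z) σ(y)`, so `σ(y) S(b) = S(θ_y b) σ(y)`. (rng), (ker)
`x^j = (z₀ - 1)^j u^j` and conversely, `k[Z]` is commutative. (pol) apply `S` to
`of z = aeval x P` (`Polynomial.aeval_algHom_apply`). -/
theorem exists_eig {p r : ℕ} (hp : p.Prime) (hch : CharP k p)
    (hcard : Fintype.card Z = p ^ (r + 1)) {z₀ : Z} (hgen : ∀ z : Z, z ∈ Subgroup.zpowers z₀)
    (hE : (Fintype.card E : k) ≠ 0) (θ : E →* MulAut Z) :
    ∃ (c : Z → k) (om : E →* kˣ), Eig θ z₀ c om := by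
  obtain ⟨x, om, h1, ⟨u, hu⟩, ⟨w, hw⟩, h4⟩ := exists_eig_alg hp hch hcard hgen hE θ
  refine ⟨fun z => x.coeff z, om, ?_, ?_, ?_, ?_⟩
  · intro V _ _ σ y v
    rw [← SC2_S_zo, SC2_twi, h1, map_smul, LinearMap.smul_apply]
  · intro V _ _ σ j v
    rw [← SC2_S_zo, ← SC2_S_yo]
    constructor
    · rintro ⟨v', rfl⟩
      refine ⟨SC2_S σ (u ^ j) v', ?_⟩
      rw [← map_pow, ← map_pow, ← Module.End.mul_apply, ← map_mul, ← mul_pow, ← hu]
    · rintro ⟨v', rfl⟩
      refine ⟨SC2_S σ (w ^ j) v', ?_⟩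
      rw [← map_pow, ← map_pow, ← Module.End.mul_apply, ← map_mul, ← mul_pow, ← hw]
  · intro V _ _ σ j v
    rw [← SC2_S_zo, ← SC2_S_yo]
    constructor
    · intro h
      have e1 : (MonoidAlgebra.of k Z z₀ - 1) ^ j = w ^ j * x ^ j := by
        rw [hw, mul_comm x w, mul_pow]
      rw [← map_pow, e1, map_mul, Module.End.mul_apply, map_pow (SC2_S σ) x, h, map_zero]
    · intro h
      have e1 : x ^ j = u ^ j * (MonoidAlgebra.of k Z z₀ - 1) ^ j := by
        rw [← mul_pow, mul_comm u, ← hu]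
      rw [← map_pow, e1, map_mul, Module.End.mul_apply,
        map_pow (SC2_S σ) (MonoidAlgebra.of k Z z₀ - 1), h, map_zero]
  · intro z
    obtain ⟨P, hP⟩ := h4 (MonoidAlgebra.of k Z z)
    refine ⟨P, fun V _ _ σ => ?_⟩
    rw [← SC2_S_zo, Polynomial.aeval_algHom_apply, ← hP, SC2_S_of]

/-- MODULE SC2. `(z₀ - 1)^q = z₀^q - 1 = 0`. -/
theorem yo_pow_card {θ : E →* MulAut Z} {p r : ℕ} (hp : p.Prime) (hch : CharP k p)
    (hcard : Fintype.card Z = p ^ (r + 1)) {V : Type} [AddCommGroup V] [Module k V]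
    (σ : Representation k (Z ⋊[θ] E) V) (z : Z) : (yo σ (.inl z)) ^ Fintype.card Z = 0 := by
  rw [← SC2_S_yo, ← map_pow, hcard, SC1_nil hp hch hcard, map_zero]

end Eigen

section Weights

variable {k E : Type} [Field k] [CommGroup E] [Fintype E] {V : Type} [AddCommGroup V] [Module k V]

/-- MODULE SC3. Orthogonality of the characters of a finite commutative group of order prime to the
characteristic. PROOF. `E →* kˣ` is finite of order `|E|` (Mathlib, GroupTheory/FiniteAbelian/Duality: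
`CommGroup.card_monoidHom_of_hasEnoughRootsOfUnity` or similar; an algebraically closed field has enough roots of
unity of every order invertible in `k`: NumberTheory/..../RootsOfUnity/AlgebraicallyClosed), `s` = all
characters: `∑ χ(1)⁻¹ = |E|`. For `y ≠ 1` there is `χ₀` with `χ₀(y) ≠ 1`
(`CommGroup.exists_apply_ne_one_of_hasEnoughRootsOfUnity`); multiplication by `χ₀` permutes `s`, so
`χ₀(y)⁻¹ ∑ = ∑` and the sum is `0`. -/
theorem char_orth [IsAlgClosed k] (hE : (Fintype.card E : k) ≠ 0) :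
    ∃ s : Finset (E →* kˣ), (∑ χ ∈ s, (((χ 1)⁻¹ : kˣ) : k) = (Fintype.card E : k)) ∧
      ∀ y : E, y ≠ 1 → ∑ χ ∈ s, (((χ y)⁻¹ : kˣ) : k) = 0 := by
  classical
  have hN : NeZero ((Fintype.card E : ℕ) : k) := ⟨hE⟩
  have h1 : HasEnoughRootsOfUnity k (Fintype.card E) := inferInstance
  have hN' : NeZero (Fintype.card E) := ⟨Fintype.card_ne_zero⟩
  have h2 : HasEnoughRootsOfUnity k (Monoid.exponent E) :=
    HasEnoughRootsOfUnity.of_dvd k Group.exponent_dvd_card
  have h3 : Finite (E →* kˣ) := inferInstance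
  obtain ⟨h4⟩ := nonempty_fintype (E →* kˣ)
  refine ⟨Finset.univ, ?_, ?_⟩
  · have h5 := CommGroup.card_monoidHom_of_hasEnoughRootsOfUnity E k
    rw [Nat.card_eq_fintype_card, Nat.card_eq_fintype_card] at h5
    simp only [map_one, inv_one, Units.val_one, Finset.sum_const, nsmul_eq_mul, mul_one,
      Finset.card_univ, h5]
  · intro y hy
    obtain ⟨χ₀, h0⟩ := CommGroup.exists_apply_ne_one_of_hasEnoughRootsOfUnity E k hy
    have h6 : (((χ₀ y)⁻¹ : kˣ) : k) * ∑ χ : E →* kˣ, (((χ y)⁻¹ : kˣ) : k) =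
        ∑ χ : E →* kˣ, (((χ y)⁻¹ : kˣ) : k) := by
      rw [Finset.mul_sum]
      refine Fintype.sum_equiv (Equiv.mulLeft χ₀) _ _ fun χ => ?_
      rw [Equiv.coe_mulLeft, MonoidHom.mul_apply, mul_inv, Units.val_mul]
    have h7 : ((((χ₀ y)⁻¹ : kˣ) : k) - 1) * ∑ χ : E →* kˣ, (((χ y)⁻¹ : kˣ) : k) = 0 := by
      rw [sub_mul, one_mul, h6, sub_self]
    rcases mul_eq_zero.1 h7 with h8 | h8
    · exfalso
      apply h0
      have h9 : (((χ₀ y)⁻¹ : kˣ) : k) = ((1 : kˣ) : k) := by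
        rw [Units.val_one]; exact sub_eq_zero.1 h8
      exact inv_eq_one.1 (Units.ext h9)
    · exact h8

omit [Fintype E] in
private theorem SC4_avg [Fintype E] (τ : Representation k E V) (χ : E →* kˣ) (v : V) (y' : E) :
    τ y' (∑ y : E, (((χ y)⁻¹ : kˣ) : k) • τ y v) =
      ((χ y' : kˣ) : k) • ∑ y : E, (((χ y)⁻¹ : kˣ) : k) • τ y v := by
  rw [map_sum, Finset.smul_sum]
  refine Fintype.sum_equiv (Equiv.mulLeft y') _ _ fun y => ?_
  rw [map_smul, Equiv.coe_mulLeft, map_mul χ, map_mul τ, Module.End.mul_apply, smul_smul]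
  congr 1
  rw [mul_inv, Units.val_mul, ← mul_assoc, Units.mul_inv, one_mul]

/-- MODULE SC4. A weight vector outside a proper subspace. PROOF. Let `v ∈ U`, `v ∉ K`. By
`char_orth` `v = ∑_{χ ∈ s} v_χ` with `v_χ = |E|⁻¹ ∑_y χ(y)⁻¹ τ(y) v ∈ U`, and `τ(y) v_χ = χ(y) v_χ`; if all
weight vectors of `U` were in `K` then `v ∈ K`. -/
theorem weight_outside [IsAlgClosed k] (hE : (Fintype.card E : k) ≠ 0)
    (τ : Representation k E V) {U K : Submodule k V} (hU : ∀ y, ∀ v ∈ U, τ y v ∈ U)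
    (hUK : ¬ U ≤ K) : ∃ w ∈ U, w ∉ K ∧ ∃ χ : E →* kˣ, ∀ y, τ y w = ((χ y : kˣ) : k) • w := by
  by_contra hcon
  push_neg at hcon
  obtain ⟨v, hv, hvK⟩ := SetLike.not_le_iff_exists.1 hUK
  obtain ⟨s, hs1, hs2⟩ := char_orth (k := k) (E := E) hE
  apply hvK
  have h1 : ∀ χ : E →* kˣ, (∑ y : E, (((χ y)⁻¹ : kˣ) : k) • τ y v) ∈ K := by
    intro χ
    by_contra h2
    obtain ⟨y, hy⟩ := hcon _ (Submodule.sum_mem _ fun y _ =>
      Submodule.smul_mem _ _ (hU y v hv)) h2 χ
    exact hy (SC4_avg τ χ v y)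
  have h3 : ∑ χ ∈ s, (∑ y : E, (((χ y)⁻¹ : kˣ) : k) • τ y v) = (Fintype.card E : k) • v := by
    rw [Finset.sum_comm]
    have h4 : ∀ y : E, ∑ χ ∈ s, (((χ y)⁻¹ : kˣ) : k) • τ y v =
        (∑ χ ∈ s, (((χ y)⁻¹ : kˣ) : k)) • τ y v := fun y => (Finset.sum_smul).symm
    rw [Finset.sum_congr rfl fun y _ => h4 y, Finset.sum_eq_single 1]
    · rw [hs1, map_one, Module.End.one_apply]
    · intro y _ hy
      rw [hs2 y hy, zero_smul]
    · intro h; exact absurd (Finset.mem_univ _) h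
  have h5 : v = (Fintype.card E : k)⁻¹ • ∑ χ ∈ s, (∑ y : E, (((χ y)⁻¹ : kˣ) : k) • τ y v) := by
    rw [h3, smul_smul, inv_mul_cancel₀ hE, one_smul]
  rw [h5]
  exact Submodule.smul_mem _ _ (Submodule.sum_mem _ fun χ _ => h1 χ)

omit [Fintype E] in
private theorem SC4_pow (τ : Representation k E V) (X : Module.End k V) (om : E →* kˣ)
    (hX : ∀ y v, τ y (X v) = ((om y : kˣ) : k) • X (τ y v)) (y : E) (n : ℕ) (v : V) :
    τ y ((X ^ n) v) = (((om y) ^ n : kˣ) : k) • (X ^ n) (τ y v) := by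
  induction n generalizing v with
  | zero => rw [pow_zero, pow_zero, Module.End.one_apply, Module.End.one_apply, Units.val_one,
      one_smul]
  | succ n ih =>
    rw [pow_succ, Module.End.mul_apply, ih, hX, map_smul, smul_smul, ← Units.val_mul, ← pow_succ,
      Module.End.mul_apply]

private theorem SC4_form (hE : (Fintype.card E : k) ≠ 0) (τ : Representation k E V)
    (χ : E →* kˣ) {w : V} (hw : w ≠ 0) (hχ : ∀ y, τ y w = ((χ y : kˣ) : k) • w) :
    ∃ f : V →ₗ[k] k, f w = 1 ∧ ∀ y v, f (τ y v) = ((χ y : kˣ) : k) * f v := by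
  obtain ⟨f₀, hf₀⟩ := Module.Projective.exists_dual_eq_one k hw
  have hf : ∀ v, ((Fintype.card E : k)⁻¹ • ∑ y : E, (((χ y)⁻¹ : kˣ) : k) • f₀ ∘ₗ τ y) v =
      (Fintype.card E : k)⁻¹ * ∑ y : E, (((χ y)⁻¹ : kˣ) : k) * f₀ (τ y v) := by
    intro v
    rw [LinearMap.smul_apply, LinearMap.sum_apply, smul_eq_mul]
    rfl
  refine ⟨(Fintype.card E : k)⁻¹ • ∑ y : E, (((χ y)⁻¹ : kˣ) : k) • f₀ ∘ₗ τ y, ?_, ?_⟩
  · have h1 : ∀ y : E, (((χ y)⁻¹ : kˣ) : k) * f₀ (τ y w) = 1 := by
      intro y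
      rw [hχ, map_smul, hf₀, smul_eq_mul, mul_one, Units.inv_mul]
    rw [hf, Finset.sum_congr rfl fun y _ => h1 y, Finset.sum_const, nsmul_eq_mul, mul_one,
      Finset.card_univ, inv_mul_cancel₀ hE]
  · intro y' v
    rw [hf, hf, mul_left_comm]
    congr 1
    rw [Finset.mul_sum]
    refine Fintype.sum_equiv (Equiv.mulRight y') _ _ fun y => ?_
    rw [Equiv.coe_mulRight, map_mul χ, map_mul τ, Module.End.mul_apply, ← mul_assoc]
    congr 1
    rw [mul_inv, Units.val_mul, mul_left_comm, Units.mul_inv, mul_one]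

private theorem SC4_step (X : Module.End k V) (w : V) :
    ∀ b ∈ Submodule.span k (Set.range fun i : ℕ => (X ^ i) w), ∃ (a : k) (b' : V),
      b' ∈ Submodule.span k (Set.range fun i : ℕ => (X ^ i) w) ∧ b = a • w + X b' := by
  intro b hb
  induction hb using Submodule.span_induction with
  | mem x hx =>
    obtain ⟨i, rfl⟩ := hx
    cases i with
    | zero => exact ⟨1, 0, Submodule.zero_mem _, by
        rw [map_zero, add_zero, one_smul]; rfl⟩
    | succ i => exact ⟨0, (X ^ i) w, Submodule.subset_span ⟨i, rfl⟩, by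
        rw [zero_smul, zero_add]
        show (X ^ (i + 1)) w = _
        rw [pow_succ', Module.End.mul_apply]⟩
  | zero => exact ⟨0, 0, Submodule.zero_mem _, by rw [map_zero, zero_smul, add_zero]⟩
  | add x y _ _ hx hy =>
    obtain ⟨a, b', h1, h2⟩ := hx
    obtain ⟨a', b'', h3, h4⟩ := hy
    exact ⟨a + a', b' + b'', Submodule.add_mem _ h1 h3, by rw [h2, h4, add_smul, map_add]; abel⟩
  | smul c x _ hx =>
    obtain ⟨a, b', h1, h2⟩ := hx
    exact ⟨c * a, c • b', Submodule.smul_mem _ _ h1, by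
      rw [h2, smul_add, smul_smul, map_smul]⟩

/-- MODULE SC4. THE SPLITTING LEMMA. `X` is an operator with `τ(y) X = om(y) X τ(y)`, `U` is stable under
`X` and `τ`, `X^(n+1) U = 0`, `X^n U ≠ 0`. Then a block `⟨w, X w, .., X^n w⟩` with a weight vector `w` is a stable
direct summand of `U`. PROOF. `w` from `weight_outside` with `K = ker X^n`. `w' = X^n w ≠ 0` is a
weight vector of weight `χ' = om^n χ`. Let `f₀ : V → k` be linear with `f₀ w' = 1`, and
`f = |E|⁻¹ ∑_y χ'(y)⁻¹ f₀ τ(y)`; `f w' = 1`, `f (τ(y) v) = χ'(y) f v`.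
`U₁ = {v ∈ U | ∀ i ≤ n, f (X^i v) = 0}`: stable under `X` (`X^(n+1) v = 0`) and `τ`
(`X^i τ(y) v` is a multiple of `τ(y) X^i v`). `⟨w, ..⟩ ∩ U₁ = 0`: `v = ∑ a_i X^i w`, `a_i₀` the first
nonzero coefficient, `X^(n-i₀) v = a_i₀ w'`, `f ≠ 0`. Sum: given `v ∈ U` find `a_0, a_1, ..`
successively with `f (X^i (v - ∑ a_j X^j w)) = 0` for `i = n, n-1, ..` (triangular; induction), or
count dimensions: `U₁` is the kernel of `U → k^(n+1)`. (`U` finite dimensional is not needed.) -/
theorem split_block [IsAlgClosed k] (hE : (Fintype.card E : k) ≠ 0) (τ : Representation k E V)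
    (X : Module.End k V) (om : E →* kˣ) (hX : ∀ y v, τ y (X v) = ((om y : kˣ) : k) • X (τ y v))
    {U : Submodule k V} (hU : ∀ y, ∀ v ∈ U, τ y v ∈ U) (hUX : ∀ v ∈ U, X v ∈ U) {n : ℕ}
    (hn : ∀ v ∈ U, (X ^ (n + 1)) v = 0) (hn' : ∃ v ∈ U, (X ^ n) v ≠ 0) :
    ∃ (w : V) (χ : E →* kˣ) (U₁ : Submodule k V), w ∈ U ∧
      (∀ y, τ y w = ((χ y : kˣ) : k) • w) ∧ (X ^ n) w ≠ 0 ∧ U₁ ≤ U ∧
      (∀ y, ∀ v ∈ U₁, τ y v ∈ U₁) ∧ (∀ v ∈ U₁, X v ∈ U₁) ∧
      Disjoint (Submodule.span k (Set.range fun i : ℕ => (X ^ i) w)) U₁ ∧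
      Submodule.span k (Set.range fun i : ℕ => (X ^ i) w) ⊔ U₁ = U := by
  have hUX' : ∀ (i : ℕ), ∀ v ∈ U, (X ^ i) v ∈ U := by
    intro i
    induction i with
    | zero => intro v hv; exact hv
    | succ i ih => intro v hv; rw [pow_succ', Module.End.mul_apply]; exact hUX _ (ih v hv)
  have hkill : ∀ (i : ℕ), n < i → ∀ v ∈ U, (X ^ i) v = 0 := by
    intro i hi v hv
    obtain ⟨j, rfl⟩ := Nat.exists_eq_add_of_lt hi
    rw [show n + j + 1 = (n + 1) + j by ring, pow_add, Module.End.mul_apply]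
    exact hn _ (hUX' j v hv)
  obtain ⟨w, hw, hwK, χ, hχ⟩ := weight_outside hE τ (K := LinearMap.ker (X ^ n)) hU (by
    obtain ⟨v, hv, hv'⟩ := hn'
    intro hle
    exact hv' (LinearMap.mem_ker.1 (hle hv)))
  have hw' : (X ^ n) w ≠ 0 := fun h => hwK (LinearMap.mem_ker.2 h)
  let χ' : E →* kˣ := om ^ n * χ
  obtain ⟨f, hf1, hf2⟩ := SC4_form hE τ χ' hw' (by
    intro y
    rw [SC4_pow τ X om hX, hχ, map_smul, smul_smul, ← Units.val_mul]
    rfl)
  let U₁ : Submodule k V :=
    { carrier := {v | v ∈ U ∧ ∀ i : ℕ, f ((X ^ i) v) = 0}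
      zero_mem' := ⟨Submodule.zero_mem _, fun i => by rw [map_zero, map_zero]⟩
      add_mem' := fun {a b} ha hb => ⟨Submodule.add_mem _ ha.1 hb.1, fun i => by
        rw [map_add, map_add, ha.2, hb.2, add_zero]⟩
      smul_mem' := fun c a ha => ⟨Submodule.smul_mem _ _ ha.1, fun i => by
        rw [map_smul, map_smul, ha.2, smul_zero]⟩ }
  have hB : Submodule.span k (Set.range fun i : ℕ => (X ^ i) w) ≤ U := by
    rw [Submodule.span_le]
    rintro _ ⟨i, rfl⟩
    exact hUX' i w hw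
  refine ⟨w, χ, U₁, hw, hχ, hw', fun v hv => hv.1, ?_, ?_, ?_, ?_⟩
  · intro y v hv
    refine ⟨hU y v hv.1, fun i => ?_⟩
    have h1 := SC4_pow τ X om hX y i v
    have h2 : (X ^ i) (τ y v) = ((((om y) ^ i)⁻¹ : kˣ) : k) • τ y ((X ^ i) v) := by
      rw [h1, smul_smul, Units.inv_mul, one_smul]
    rw [h2, map_smul, hf2, hv.2, mul_zero, smul_zero]
  · intro v hv
    refine ⟨hUX v hv.1, fun i => ?_⟩
    rw [← Module.End.mul_apply, ← pow_succ]
    exact hv.2 (i + 1)
  · rw [Submodule.disjoint_def]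
    intro v hvB hvU
    have key : ∀ m : ℕ, m ≤ n + 1 → ∃ b ∈ Submodule.span k (Set.range fun i : ℕ => (X ^ i) w),
        v = (X ^ m) b := by
      intro m
      induction m with
      | zero => intro _; exact ⟨v, hvB, rfl⟩
      | succ m ih =>
        intro hm
        obtain ⟨b, hb, hvb⟩ := ih (by omega)
        obtain ⟨a, b', hb', hbb⟩ := SC4_step X w b hb
        have h1 : f ((X ^ (n - m)) v) = a := by
          rw [hvb, ← Module.End.mul_apply, ← pow_add, show n - m + m = n by omega, hbb, map_add,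
            map_add, map_smul, map_smul, hf1, smul_eq_mul, mul_one, ← Module.End.mul_apply,
            ← pow_succ, hn _ (hB hb'), map_zero, add_zero]
        rw [hvU.2] at h1
        refine ⟨b', hb', ?_⟩
        rw [hvb, hbb, ← h1, zero_smul, zero_add, pow_succ, Module.End.mul_apply]
    obtain ⟨b, hb, hvb⟩ := key (n + 1) le_rfl
    rw [hvb]
    exact hn _ (hB hb)
  · refine le_antisymm (sup_le hB fun v hv => hv.1) ?_
    intro v hv
    have key : ∀ m : ℕ, m ≤ n + 1 → ∃ b ∈ Submodule.span k (Set.range fun i : ℕ => (X ^ i) w),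
        ∀ i : ℕ, n + 1 - m ≤ i → f ((X ^ i) (v - b)) = 0 := by
      intro m
      induction m with
      | zero =>
        intro _
        refine ⟨0, Submodule.zero_mem _, fun i hi => ?_⟩
        rw [sub_zero, hkill i (by omega) v hv, map_zero]
      | succ m ih =>
        intro hm
        obtain ⟨b, hb, hvb⟩ := ih (by omega)
        refine ⟨b + f ((X ^ (n - m)) (v - b)) • (X ^ m) w, Submodule.add_mem _ hb
          (Submodule.smul_mem _ _ (Submodule.subset_span ⟨m, rfl⟩)), fun i hi => ?_⟩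
        rw [← sub_sub, map_sub, map_sub, map_smul, map_smul, ← Module.End.mul_apply, ← pow_add]
        rcases Nat.lt_or_ge i (n + 1 - m) with h | h
        · have h1 : i = n - m := by omega
          rw [h1, show n - m + m = n by omega, hf1, smul_eq_mul, mul_one, sub_self]
        · rw [hvb i h, hkill (i + m) (by omega) w hw, map_zero, smul_zero, sub_zero]
    obtain ⟨b, hb, hvb⟩ := key (n + 1) le_rfl
    rw [← sub_add_cancel v b, add_comm]
    exact Submodule.add_mem_sup hb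
      ⟨Submodule.sub_mem _ hv (hB hb), fun i => hvb i (by omega)⟩

end Weights

section Free

variable {k Z E : Type} [Field k] [CommGroup Z] [Fintype Z] [CommGroup E] [Fintype E]
  {θ : E →* MulAut Z} {V : Type} [AddCommGroup V] [Module k V]

omit [Fintype Z] [Fintype E] in
private theorem SC5_aeval (X : Module.End k V) {U : Submodule k V} (hX : ∀ v ∈ U, X v ∈ U)
    (P : Polynomial k) : ∀ v ∈ U, Polynomial.aeval X P v ∈ U := by
  intro v hv
  have h : ∀ i : ℕ, (X ^ i) v ∈ U := by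
    intro i
    induction i with
    | zero => exact hv
    | succ i ih => rw [pow_succ', Module.End.mul_apply]; exact hX _ ih
  rw [Polynomial.aeval_eq_sum_range, LinearMap.sum_apply]
  exact Submodule.sum_mem _ fun i _ => Submodule.smul_mem _ _ (h i)

/-- MODULE SC5. The span of the `X^i w` is the span of the `z w`, `z ∈ Z`. PROOF. `Eig.pol` for one
inclusion; `X = ∑ c(z) σ(z)` maps the span of the `z w` into itself. -/
theorem span_zo {z₀ : Z} {c : Z → k} {om : E →* kˣ} (hc : Eig θ z₀ c om)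
    (σ : Representation k (Z ⋊[θ] E) V) (w : V) :
    Submodule.span k (Set.range fun i : ℕ => ((zo σ c) ^ i) w) =
      Submodule.span k (Set.range fun z : Z => σ (.inl z) w) := by
  apply le_antisymm
  · rw [Submodule.span_le]
    rintro _ ⟨i, rfl⟩
    have hst : ∀ z : Z, ∀ v ∈ Submodule.span k (Set.range fun z : Z => σ (.inl z) w),
        σ (.inl z) v ∈ Submodule.span k (Set.range fun z : Z => σ (.inl z) w) := by
      intro z v hv
      induction hv using Submodule.span_induction with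
      | mem x hx =>
        obtain ⟨z', rfl⟩ := hx
        refine Submodule.subset_span ⟨z * z', ?_⟩
        show σ (.inl (z * z')) w = σ (.inl z) (σ (.inl z') w)
        rw [map_mul SemidirectProduct.inl, map_mul σ, Module.End.mul_apply]
      | zero => rw [map_zero]; exact Submodule.zero_mem _
      | add x y _ _ hx hy => rw [map_add]; exact Submodule.add_mem _ hx hy
      | smul a x _ hx => rw [map_smul]; exact Submodule.smul_mem _ _ hx
    show ((zo σ c) ^ i) w ∈ Submodule.span k (Set.range fun z : Z => σ (.inl z) w)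
    induction i with
    | zero =>
      refine Submodule.subset_span ⟨1, ?_⟩
      show σ (.inl 1) w = (zo σ c ^ 0) w
      rw [map_one SemidirectProduct.inl, map_one, pow_zero]
    | succ i ih =>
      rw [pow_succ', Module.End.mul_apply]
      show (∑ z : Z, c z • σ (.inl z)) _ ∈ _
      rw [LinearMap.sum_apply]
      exact Submodule.sum_mem _ fun z _ => Submodule.smul_mem _ _ (hst z _ ih)
  · rw [Submodule.span_le]
    rintro _ ⟨z, rfl⟩
    obtain ⟨P, hP⟩ := hc.pol z
    show σ (.inl z) w ∈ Submodule.span k (Set.range fun i : ℕ => ((zo σ c) ^ i) w)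
    rw [hP V σ]
    refine SC5_aeval _ ?_ P w (Submodule.subset_span ⟨0, rfl⟩)
    intro v hv
    induction hv using Submodule.span_induction with
    | mem x hx =>
      obtain ⟨i, rfl⟩ := hx
      refine Submodule.subset_span ⟨i + 1, ?_⟩
      show ((zo σ c) ^ (i + 1)) w = _
      rw [pow_succ', Module.End.mul_apply]
    | zero => rw [map_zero]; exact Submodule.zero_mem _
    | add x y _ _ hx hy => rw [map_add]; exact Submodule.add_mem _ hx hy
    | smul a x _ hx => rw [map_smul]; exact Submodule.smul_mem _ _ hx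

/-- The function `x` as an element of the group algebra. -/
private noncomputable def SC5_T (k Z : Type) [Field k] [CommGroup Z] [Fintype Z]
    (x : Unit × Z → k) : MonoidAlgebra k Z := ∑ z : Z, x ((), z) • MonoidAlgebra.of k Z z

private theorem SC5_T_inj {x : Unit × Z → k} (hx : SC5_T k Z x = 0) : x = 0 := by
  classical
  funext p
  obtain ⟨⟨⟩, z⟩ := p
  have h1 : (SC5_T k Z x).coeff z = x ((), z) := by
    rw [SC5_T, MonoidAlgebra.coeff_sum, Finsupp.finset_sum_apply, Finset.sum_eq_single z]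
    · rw [MonoidAlgebra.coeff_smul, Finsupp.smul_apply, MonoidAlgebra.of_apply,
        MonoidAlgebra.coeff_single, Finsupp.single_eq_same, smul_eq_mul, mul_one]
    · intro z' _ hz'
      rw [MonoidAlgebra.coeff_smul, Finsupp.smul_apply, MonoidAlgebra.of_apply,
        MonoidAlgebra.coeff_single, Finsupp.single_eq_of_ne (Ne.symm hz'), smul_zero]
    · intro h; exact absurd (Finset.mem_univ _) h
  rw [← h1, hx]; rfl

omit [Fintype E] in
private theorem SC5_T_eqv (χ : Unit → E →* kˣ) (z₁ : Z) (x : Unit × Z → k) :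
    SC5_T k Z (tw θ χ k (.inl z₁) x) = MonoidAlgebra.of k Z z₁ * SC5_T k Z x := by
  rw [SC5_T, SC5_T, Finset.mul_sum]
  refine Fintype.sum_equiv (Equiv.mulLeft z₁⁻¹) _ _ fun z => ?_
  rw [mul_smul_comm, ← map_mul, Equiv.coe_mulLeft, mul_inv_cancel_left, tw_apply]
  congr 1
  rw [SemidirectProduct.right_inl, SemidirectProduct.left_inl, map_one, Units.val_one, one_smul,
    inv_one, map_one]
  rfl

omit [Fintype E] in
private theorem SC5_T_yo (χ : Unit → E →* kˣ) (z₁ : Z) (h : ℕ) (x : Unit × Z → k) :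
    SC5_T k Z (((yo (tw θ χ k) (.inl z₁)) ^ h) x) =
      (MonoidAlgebra.of k Z z₁ - 1) ^ h * SC5_T k Z x := by
  induction h generalizing x with
  | zero => rw [pow_zero, pow_zero, one_mul]; rfl
  | succ h ih =>
    rw [pow_succ, Module.End.mul_apply, ih, pow_succ, mul_assoc]
    congr 1
    rw [sub_mul, one_mul, ← SC5_T_eqv (θ := θ) χ]
    rw [SC5_T, SC5_T, SC5_T, ← Finset.sum_sub_distrib]
    refine Finset.sum_congr rfl fun z _ => ?_
    rw [← sub_smul]
    rfl

omit [Fintype E] in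
private theorem SC5_T_fd (σ : Representation k (Z ⋊[θ] E) V) (w : V) (x : Unit × Z → k) :
    fd σ (fun _ : Unit => w) x = SC2_S σ (SC5_T k Z x) w := by
  rw [fd_apply, SC5_T, map_sum, LinearMap.sum_apply, Fintype.sum_prod_type, Fintype.sum_unique]
  refine Finset.sum_congr rfl fun z _ => ?_
  rw [map_smul, SC2_S_of, LinearMap.smul_apply]

/-- MODULE SC5. The annihilator of `w` in `k[Z]`: if `(z₀ - 1)^n w ≠ 0` and `∑ t(z) z w = 0`
then `t` is killed by `(z₀ - 1)^h` as soon as `h + n + 1 ≥ q`. PROOF. In `B = k[Z]` let `T = ∑ t(z) z`,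
`g = z₀`. Every `b ∈ B` is `(g - 1)^i b'` with a unit `b'`, or `0`: `B` is spanned by the `(g - 1)^i`, `i < q`
(binomial formula for `z₀^i = (1 + (g - 1))^i`), take the first nonzero coefficient;
`1 + nilpotent` is a unit. If `T = (g - 1)^i b'` with `i ≤ n` then `T w = 0` gives `(g - 1)^i w = 0`, so
`(g - 1)^n w = 0`, a contradiction. So `i ≥ n + 1` (or `T = 0`) and `(g - 1)^h T = 0` by
`(g - 1)^q = 0`. On `{*} × Z → k` (`tw θ χ k`) the element `z₀` acts by translation, as on `B`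
(`x ↦ ∑ x(*, z) z` is injective and equivariant). -/
theorem annih {p r : ℕ} (hp : p.Prime) (hch : CharP k p)
    (hcard : Fintype.card Z = p ^ (r + 1)) {z₀ : Z} (hgen : ∀ z : Z, z ∈ Subgroup.zpowers z₀)
    (σ : Representation k (Z ⋊[θ] E) V) (w : V) {n h : ℕ}
    (hw : ((yo σ (.inl z₀)) ^ n) w ≠ 0) (hh : Fintype.card Z ≤ h + n + 1)
    (χ : Unit → E →* kˣ) (x : Unit × Z → k) (hx : fd σ (fun _ : Unit => w) x = 0) :
    ((yo (tw θ χ k) (.inl z₀)) ^ h) x = 0 := by
  apply SC5_T_inj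
  rw [SC5_T_yo]
  have hS : SC2_S σ (SC5_T k Z x) w = 0 := by rw [← SC5_T_fd, hx]
  have key : ∀ m : ℕ, m ≤ n + 1 → (MonoidAlgebra.of k Z z₀ - 1) ^ m ∣ SC5_T k Z x := by
    intro m
    induction m with
    | zero => intro _; rw [pow_zero]; exact one_dvd _
    | succ m ih =>
      intro hm
      obtain ⟨b, hb⟩ := ih (by omega)
      by_cases he : SC1_eps k Z b = 0
      · obtain ⟨c, hc⟩ := SC1_dvd hgen b
        rw [he, map_zero, sub_zero] at hc
        refine ⟨c, ?_⟩
        rw [hb, hc, pow_succ, mul_assoc]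
      · exfalso
        have hu : IsUnit b := SC1_unit hp hch hcard hgen he
        have h1 : (MonoidAlgebra.of k Z z₀ - 1) ^ m =
            ((hu.unit⁻¹ : (MonoidAlgebra k Z)ˣ) : MonoidAlgebra k Z) * SC5_T k Z x := by
          rw [hb, mul_comm _ b, ← mul_assoc, IsUnit.val_inv_mul, one_mul]
        have h2 : ((yo σ (.inl z₀)) ^ m) w = 0 := by
          rw [← SC2_S_yo, ← map_pow, h1, map_mul, Module.End.mul_apply, hS, map_zero]
        apply hw
        rw [show n = (n - m) + m by omega, pow_add, Module.End.mul_apply, h2, map_zero]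
  obtain ⟨c, hc⟩ := key (n + 1) le_rfl
  rw [hc, ← mul_assoc, ← pow_add]
  have h3 : h + (n + 1) = (h + n + 1 - p ^ (r + 1)) + p ^ (r + 1) := by omega
  rw [h3, pow_add, SC1_nil hp hch hcard, mul_zero, zero_mul]

/-- MODULE SC5. In particular (`n = q - 1`, `h = 0`) `fd σ w` is injective if `(z₀ - 1)^(q-1) w ≠ 0`. -/
theorem fd_inj {p r : ℕ} (hp : p.Prime) (hch : CharP k p)
    (hcard : Fintype.card Z = p ^ (r + 1)) {z₀ : Z} (hgen : ∀ z : Z, z ∈ Subgroup.zpowers z₀)
    (σ : Representation k (Z ⋊[θ] E) V) (w : V)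
    (hw : ((yo σ (.inl z₀)) ^ (Fintype.card Z - 1)) w ≠ 0) :
    Function.Injective (fd σ (fun _ : Unit => w)) := by
  rw [← LinearMap.ker_eq_bot, LinearMap.ker_eq_bot']
  intro x hx
  have h1 : 0 < Fintype.card Z := Fintype.card_pos
  exact annih hp hch hcard hgen σ w hw (h := 0) (by omega) (fun _ => 1) x hx

/-- MODULE SC6. `fd σ w` is equivariant from `tw θ χ k` if the `w_a` are weight vectors. PROOF.
`σ(g) σ(z) w_a = σ(z₁ θ_y(z)) σ(y) w_a` for `g = z₁ y`; reindex the sum. -/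
theorem fd_eqv {J : Type} [Fintype J] (σ : Representation k (Z ⋊[θ] E) V) {χ : J → E →* kˣ}
    {w : J → V} (hw : ∀ a y, σ (.inr y) (w a) = ((χ a y : kˣ) : k) • w a) :
    Eqv (tw θ χ k) σ (fd σ w) := by
  intro g x
  rw [fd_apply, fd_apply, map_sum]
  refine Fintype.sum_equiv
    (Equiv.prodCongr (Equiv.refl J) ((Equiv.mulLeft g.left⁻¹).trans (θ g.right⁻¹).toEquiv))
    _ _ fun p => ?_
  have h1 : (Equiv.prodCongr (Equiv.refl J)
      ((Equiv.mulLeft g.left⁻¹).trans (θ g.right⁻¹).toEquiv)) p =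
      (p.1, θ g.right⁻¹ (g.left⁻¹ * p.2)) := rfl
  rw [h1, tw_apply, map_smul, smul_eq_mul, mul_comm, mul_smul]
  congr 1
  have h2 : g * SemidirectProduct.inl (θ g.right⁻¹ (g.left⁻¹ * p.2)) =
      SemidirectProduct.inl p.2 * SemidirectProduct.inr g.right := by
    refine SemidirectProduct.ext ?_ ?_
    · rw [SemidirectProduct.mul_left, SemidirectProduct.mul_left, SemidirectProduct.left_inl,
        SemidirectProduct.left_inl, SemidirectProduct.left_inr, SemidirectProduct.right_inl,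
        map_one, map_inv, MulAut.apply_inv_self, mul_inv_cancel_left]
      exact (mul_one _).symm
    · rw [SemidirectProduct.mul_right, SemidirectProduct.mul_right, SemidirectProduct.right_inl,
        SemidirectProduct.right_inl, SemidirectProduct.right_inr, mul_one, one_mul]
  show _ = σ g (σ (.inl (θ g.right⁻¹ (g.left⁻¹ * p.2))) (w p.1))
  rw [← Module.End.mul_apply, ← map_mul, h2, map_mul, Module.End.mul_apply, hw, map_smul]

omit [Fintype E] in
private theorem SC6_range (σ : Representation k (Z ⋊[θ] E) V) (w : V) :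
    LinearMap.range (fd σ (fun _ : Unit => w)) =
      Submodule.span k (Set.range fun z : Z => σ (.inl z) w) := by
  classical
  apply le_antisymm
  · rintro _ ⟨x, rfl⟩
    rw [fd_apply]
    exact Submodule.sum_mem _ fun p _ => Submodule.smul_mem _ _ (Submodule.subset_span ⟨p.2, rfl⟩)
  · rw [Submodule.span_le]
    rintro _ ⟨z, rfl⟩
    refine ⟨Pi.single ((), z) 1, ?_⟩
    rw [fd_apply, Finset.sum_eq_single ((), z)]
    · rw [Pi.single_eq_same, one_smul]
    · intro p _ hp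
      rw [Pi.single_eq_of_ne hp, zero_smul]
    · intro h; exact absurd (Finset.mem_univ _) h

omit [Fintype E] in
private theorem SC6_cons (σ : Representation k (Z ⋊[θ] E) V) {m : ℕ} (w : V) (w' : Fin m → V)
    (x : Fin (m + 1) × Z → k) :
    fd σ (Fin.cons w w' : Fin (m + 1) → V) x = fd σ (fun _ : Unit => w) (fun p => x (0, p.2)) +
      fd σ w' (fun p => x (p.1.succ, p.2)) := by
  rw [fd_apply, fd_apply, fd_apply, Fintype.sum_prod_type, Fintype.sum_prod_type,
    Fintype.sum_prod_type, Fin.sum_univ_succ, Finset.univ_unique (α := Unit),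
    Finset.sum_singleton]
  rfl

omit [Fintype E] in
private theorem SC6_range_cons (σ : Representation k (Z ⋊[θ] E) V) {m : ℕ} (w : V)
    (w' : Fin m → V) :
    LinearMap.range (fd σ (Fin.cons w w' : Fin (m + 1) → V)) =
      LinearMap.range (fd σ (fun _ : Unit => w)) ⊔ LinearMap.range (fd σ w') := by
  apply le_antisymm
  · rintro _ ⟨x, rfl⟩
    rw [SC6_cons]
    exact Submodule.add_mem_sup ⟨_, rfl⟩ ⟨_, rfl⟩
  · refine sup_le ?_ ?_
    · rintro _ ⟨x, rfl⟩
      refine ⟨fun p => (Fin.cons (x ((), p.2)) (fun _ => 0) : Fin (m + 1) → k) p.1, ?_⟩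
      rw [SC6_cons]
      have h1 : (fun p : Fin m × Z =>
          (Fin.cons (x ((), p.2)) (fun _ => 0) : Fin (m + 1) → k) p.1.succ) = 0 := by
        funext p
        rw [Fin.cons_succ]; rfl
      simp only [Fin.cons_zero]
      rw [h1, map_zero, add_zero]
    · rintro _ ⟨x, rfl⟩
      refine ⟨fun p => (Fin.cons 0 (fun i => x (i, p.2)) : Fin (m + 1) → k) p.1, ?_⟩
      rw [SC6_cons]
      have h1 : (fun p : Unit × Z =>
          (Fin.cons 0 (fun i => x (i, p.2)) : Fin (m + 1) → k) 0) = 0 := by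
        funext p
        rw [Fin.cons_zero]; rfl
      simp only [Fin.cons_succ]
      rw [h1, map_zero, zero_add]

omit [Fintype E] in
private theorem SC6_inj_cons (σ : Representation k (Z ⋊[θ] E) V) {m : ℕ} (w : V)
    (w' : Fin m → V) (h1 : Function.Injective (fd σ (fun _ : Unit => w)))
    (h2 : Function.Injective (fd σ w'))
    (h3 : Disjoint (LinearMap.range (fd σ (fun _ : Unit => w))) (LinearMap.range (fd σ w'))) :
    Function.Injective (fd σ (Fin.cons w w' : Fin (m + 1) → V)) := by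
  rw [← LinearMap.ker_eq_bot, LinearMap.ker_eq_bot']
  intro x hx
  rw [SC6_cons] at hx
  have h4 : fd σ (fun _ : Unit => w) (fun p => x (0, p.2)) = 0 := by
    refine Submodule.disjoint_def.1 h3 _ ⟨_, rfl⟩ ?_
    rw [eq_neg_of_add_eq_zero_left hx]
    exact Submodule.neg_mem _ ⟨_, rfl⟩
  rw [h4, zero_add] at hx
  have h5 := h1 (h4.trans (map_zero _).symm)
  have h6 := h2 (hx.trans (map_zero _).symm)
  funext p
  obtain ⟨i, z⟩ := p
  refine Fin.cases ?_ (fun i => ?_) i
  · exact congrFun h5 ((), z)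
  · exact congrFun h6 (i, z)

omit [Fintype Z] [Fintype E] in
private theorem SC6_stab (σ : Representation k (Z ⋊[θ] E) V) {U : Submodule k V}
    (h1 : ∀ z : Z, ∀ v ∈ U, σ (.inl z) v ∈ U) (h2 : ∀ y : E, ∀ v ∈ U, σ (.inr y) v ∈ U)
    (g : Z ⋊[θ] E) : ∀ v ∈ U, σ g v ∈ U := by
  intro v hv
  rw [← SemidirectProduct.inl_left_mul_inr_right g, map_mul, Module.End.mul_apply]
  exact h1 _ _ (h2 _ _ hv)

/-- The splitting step for a stable subspace. -/
private theorem SC6_step [IsAlgClosed k] {z₀ : Z}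
    (hE : (Fintype.card E : k) ≠ 0) {c : Z → k} {om : E →* kˣ} (hc : Eig θ z₀ c om)
    (σ : Representation k (Z ⋊[θ] E) V) (U : Submodule k V)
    (hU : ∀ g, ∀ v ∈ U, σ g v ∈ U) {n : ℕ}
    (hn : ∀ v ∈ U, ((yo σ (.inl z₀)) ^ (n + 1)) v = 0)
    (hn' : ∃ v ∈ U, ((yo σ (.inl z₀)) ^ n) v ≠ 0) :
    ∃ (w : V) (χ : E →* kˣ) (U₁ : Submodule k V), w ∈ U ∧
      (∀ y, σ (.inr y) w = ((χ y : kˣ) : k) • w) ∧ ((yo σ (.inl z₀)) ^ n) w ≠ 0 ∧ U₁ ≤ U ∧
      (∀ g, ∀ v ∈ U₁, σ g v ∈ U₁) ∧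
      Disjoint (Submodule.span k (Set.range fun z : Z => σ (.inl z) w)) U₁ ∧
      Submodule.span k (Set.range fun z : Z => σ (.inl z) w) ⊔ U₁ = U := by
  obtain ⟨w, χ, U₁, h1, h2, h3, h4, h5, h6, h7, h8⟩ := split_block hE
    (σ.comp SemidirectProduct.inr : Representation k E V) (zo σ c) om (hc.twi V σ)
    (U := U) (fun y v hv => hU _ v hv) (fun v hv => by
      show (∑ z : Z, c z • σ (.inl z)) v ∈ U
      rw [LinearMap.sum_apply]
      exact Submodule.sum_mem _ fun z _ => Submodule.smul_mem _ _ (hU _ v hv))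
    (n := n) (fun v hv => (hc.ker V σ _ v).2 (hn v hv)) (by
      obtain ⟨v, hv, hv'⟩ := hn'
      exact ⟨v, hv, fun h => hv' ((hc.ker V σ _ v).1 h)⟩)
  rw [span_zo hc] at h7 h8
  refine ⟨w, χ, U₁, h1, h2, fun h => h3 ((hc.ker V σ _ w).2 h), h4, ?_, h7, h8⟩
  refine SC6_stab σ (fun z v hv => ?_) h5
  obtain ⟨P, hP⟩ := hc.pol z
  rw [hP V σ]
  exact SC5_aeval _ h6 P v hv

/-- MODULE SC6. THE FREE PART. PROOF. Strong induction on `finrank U`. If `(z₀ - 1)^(q-1) U = 0` take
`m = 0`, `U₀ = U`. Otherwise `split_block` with `X = zo σ c`, `n = q - 1` (`Eig.ker`, `yo_pow_card`;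
`τ = σ ∘ inr`) gives `w`, `U₁`, with `U₁` stable under `σ` (`Eig.pol`, and `g = inl g.left * inr g.right`);
the block is the range of `fd σ w` (`span_zo`), it is not `0`, so `finrank U₁ < finrank U`; apply the
induction hypothesis to `U₁`, add `w` as the first generator (`Fin.cons`): `fd` of the family is
`fd σ w x_0 + fd σ w' x'`, injective by `fd_inj` and disjointness. -/
theorem free_part [IsAlgClosed k] {p r : ℕ} (hp : p.Prime) (hch : CharP k p)
    (hcard : Fintype.card Z = p ^ (r + 1)) {z₀ : Z} (hgen : ∀ z : Z, z ∈ Subgroup.zpowers z₀)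
    (hE : (Fintype.card E : k) ≠ 0) {c : Z → k} {om : E →* kˣ} (hc : Eig θ z₀ c om)
    [FiniteDimensional k V] (σ : Representation k (Z ⋊[θ] E) V) (U : Submodule k V)
    (hU : ∀ g, ∀ v ∈ U, σ g v ∈ U) :
    ∃ (m : ℕ) (χ : Fin m → E →* kˣ) (w : Fin m → V) (U₀ : Submodule k V),
      (∀ a y, σ (.inr y) (w a) = ((χ a y : kˣ) : k) • w a) ∧ Function.Injective (fd σ w) ∧
      (∀ g, ∀ v ∈ U₀, σ g v ∈ U₀) ∧ U₀ ≤ U ∧ Disjoint (LinearMap.range (fd σ w)) U₀ ∧
      LinearMap.range (fd σ w) ⊔ U₀ = U ∧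
      ∀ v ∈ U₀, ((yo σ (.inl z₀)) ^ (Fintype.card Z - 1)) v = 0 := by
  have key : ∀ (d : ℕ) (U : Submodule k V), Module.finrank k U = d →
      (∀ g, ∀ v ∈ U, σ g v ∈ U) →
      ∃ (m : ℕ) (χ : Fin m → E →* kˣ) (w : Fin m → V) (U₀ : Submodule k V),
      (∀ a y, σ (.inr y) (w a) = ((χ a y : kˣ) : k) • w a) ∧ Function.Injective (fd σ w) ∧
      (∀ g, ∀ v ∈ U₀, σ g v ∈ U₀) ∧ U₀ ≤ U ∧ Disjoint (LinearMap.range (fd σ w)) U₀ ∧
      LinearMap.range (fd σ w) ⊔ U₀ = U ∧
      ∀ v ∈ U₀, ((yo σ (.inl z₀)) ^ (Fintype.card Z - 1)) v = 0 := by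
    intro d
    induction d using Nat.strong_induction_on with
    | _ d ih =>
    intro U hd hU
    by_cases hz : ∀ v ∈ U, ((yo σ (.inl z₀)) ^ (Fintype.card Z - 1)) v = 0
    · refine ⟨0, fun i => 1, fun i => 0, U, fun a => a.elim0, ?_, hU, le_rfl, ?_, ?_, hz⟩
      · intro x y _
        funext p
        exact p.1.elim0
      · have h1 : fd σ (fun _ : Fin 0 => (0 : V)) = 0 := by
          apply LinearMap.ext
          intro x
          rw [fd_apply]
          exact Finset.sum_eq_zero fun p _ => p.1.elim0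
        rw [h1, LinearMap.range_zero]
        exact disjoint_bot_left
      · have h1 : fd σ (fun _ : Fin 0 => (0 : V)) = 0 := by
          apply LinearMap.ext
          intro x
          rw [fd_apply]
          exact Finset.sum_eq_zero fun p _ => p.1.elim0
        rw [h1, LinearMap.range_zero, bot_sup_eq]
    · push_neg at hz
      have hq : 0 < Fintype.card Z := Fintype.card_pos
      obtain ⟨w, χ, U₁, h1, h2, h3, h4, h5, h6, h7⟩ := SC6_step hE hc σ U hU
        (n := Fintype.card Z - 1) (fun v _ => by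
          rw [Nat.sub_add_cancel hq, yo_pow_card hp hch hcard, LinearMap.zero_apply]) hz
      have hwne : w ≠ 0 := by
        rintro rfl
        exact h3 (map_zero _)
      have hwB : w ∈ Submodule.span k (Set.range fun z : Z => σ (.inl z) w) := by
        refine Submodule.subset_span ⟨1, ?_⟩
        show σ (.inl 1) w = w
        rw [map_one SemidirectProduct.inl, map_one, Module.End.one_apply]
      have hlt : U₁ < U := by
        refine lt_of_le_of_ne h4 fun he => ?_
        rw [he] at h6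
        exact hwne (Submodule.disjoint_def.1 h6 w hwB h1)
      have hfr := Submodule.finrank_lt_finrank_of_lt hlt
      rw [hd] at hfr
      obtain ⟨m, χ', w', U₀, a1, a2, a3, a4, a5, a6, a7⟩ := ih _ hfr U₁ rfl h5
      have hr := SC6_range σ w
      rw [← hr] at h6 h7
      have hdis : Disjoint (LinearMap.range (fd σ (fun _ : Unit => w)))
          (LinearMap.range (fd σ w') ⊔ U₀) := by rw [a6]; exact h6
      refine ⟨m + 1, Fin.cons χ χ', Fin.cons w w', U₀, ?_, ?_, a3, a4.trans h4, ?_, ?_, a7⟩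
      · intro a y
        refine Fin.cases ?_ (fun i => ?_) a
        · rw [Fin.cons_zero, Fin.cons_zero]; exact h2 y
        · rw [Fin.cons_succ, Fin.cons_succ]; exact a1 i y
      · exact SC6_inj_cons σ w w' (fd_inj hp hch hcard hgen σ w h3) a2
          (hdis.mono_right le_sup_left)
      · rw [SC6_range_cons]
        exact a5.disjoint_sup_left_of_disjoint_sup_right hdis
      · rw [SC6_range_cons, sup_assoc, a6, h7]
  exact key _ U rfl hU

/-- The averaging operator. -/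
private noncomputable def SC7_phi {R Z J : Type} [CommRing R] [CommGroup Z] (c : R) (M : Type)
    [AddCommGroup M] [Module R M] : (J × Z → M) →ₗ[R] (J × Z → M) :=
  letI := Classical.decEq Z
  { toFun := fun x p => if p.2 = 1 then c • x (p.1, 1) else 0
    map_add' := fun x y => by
      funext p
      by_cases h : p.2 = 1
      · simp only [Pi.add_apply, if_pos h, smul_add]
      · simp only [Pi.add_apply, if_neg h, add_zero]
    map_smul' := fun a x => by
      funext p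
      by_cases h : p.2 = 1
      · simp only [Pi.smul_apply, if_pos h, RingHom.id_apply]
        rw [smul_comm]
      · simp only [Pi.smul_apply, if_neg h, RingHom.id_apply, smul_zero] }

omit [Fintype Z] [Fintype E] in
private theorem SC7_claim {R : Type} [CommRing R] {J : Type} (χ : J → E →* Rˣ) (M : Type)
    [AddCommGroup M] [Module R M] (c : R) (g : Z ⋊[θ] E) (x : J × Z → M) (p : J × Z) :
    (tw θ χ M g (SC7_phi c M (tw θ χ M g⁻¹ x))) p =
      letI := Classical.decEq Z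
      if g.left = p.2 then c • x p else 0 := by
  classical
  rw [tw_apply]
  show ((χ p.1 g.right : Rˣ) : R) • (if θ g.right⁻¹ (g.left⁻¹ * p.2) = 1 then
    c • (tw θ χ M g⁻¹ x) (p.1, 1) else 0) = _
  by_cases h : g.left = p.2
  · rw [if_pos (by rw [h, inv_mul_cancel, map_one]), tw_apply]
    simp only [if_pos h]
    rw [smul_comm c, smul_smul, SemidirectProduct.inv_right,
      SemidirectProduct.inv_left, map_inv (χ p.1), Units.mul_inv, one_smul, inv_inv, mul_one,
      map_inv (θ g.right⁻¹), inv_inv, map_inv θ, MulAut.apply_inv_self, h]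
  · rw [if_neg, smul_zero]
    · simp only [if_neg h]
    · intro h1
      apply h
      have h2 : g.left⁻¹ * p.2 = 1 := by
        apply (θ g.right⁻¹).injective
        rw [h1, map_one]
      exact inv_mul_eq_one.1 h2

/-- MODULE SC7. The function space `tw` is relatively projective. PROOF.
`(φ x)(a, z) = |E|⁻¹ x(a, 1)` if `z = 1`, `0` otherwise. For `g = (z₁, y)`:
`(tw g φ tw g⁻¹ x)(a, z) = χ_a(y) |E|⁻¹ [θ_y⁻¹(z₁⁻¹ z) = 1] (tw g⁻¹ x)(a, 1)` and
`(tw g⁻¹ x)(a, 1) = χ_a(y)⁻¹ x(a, z₁)`; the sum over `g` is `∑_y |E|⁻¹ x(a, z) = x(a, z)`. Here `R` is any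
commutative ring in which `|E|` is invertible. -/
theorem prj_tw {R : Type} [CommRing R] (hE : IsUnit (Fintype.card E : R)) {J : Type}
    (χ : J → E →* Rˣ) (M : Type) [AddCommGroup M] [Module R M] : Prj (tw θ χ M) := by
  classical
  refine ⟨SC7_phi ((hE.unit⁻¹ : Rˣ) : R) M, ?_⟩
  apply LinearMap.ext
  intro x
  funext p
  have h1 : Trc (tw θ χ M) (tw θ χ M) (SC7_phi ((hE.unit⁻¹ : Rˣ) : R) M) x p =
      ∑ g : Z ⋊[θ] E, (tw θ χ M g (SC7_phi ((hE.unit⁻¹ : Rˣ) : R) M (tw θ χ M g⁻¹ x))) p := by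
    rw [Trc, LinearMap.sum_apply, Finset.sum_apply]
    rfl
  rw [h1, Finset.sum_congr rfl fun g _ => SC7_claim χ M _ g x p]
  have h2 : ∑ g : Z ⋊[θ] E, (if g.left = p.2 then ((hE.unit⁻¹ : Rˣ) : R) • x p else 0) =
      ∑ q : Z × E, (if q.1 = p.2 then ((hE.unit⁻¹ : Rˣ) : R) • x p else 0) :=
    Fintype.sum_equiv SemidirectProduct.equivProd _ _ fun g => rfl
  have h3 : ∀ g : Z ⋊[θ] E, (letI := Classical.decEq Z
      if g.left = p.2 then ((hE.unit⁻¹ : Rˣ) : R) • x p else 0) =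
      (if g.left = p.2 then ((hE.unit⁻¹ : Rˣ) : R) • x p else 0) := by
    intro g
    split_ifs <;> rfl
  rw [Finset.sum_congr rfl fun g _ => h3 g, h2, Fintype.sum_prod_type, Finset.sum_eq_single p.2]
  · simp only [if_true]
    rw [Finset.sum_const, Finset.card_univ, ← Nat.cast_smul_eq_nsmul R, smul_smul,
      IsUnit.mul_val_inv, one_smul]
    rfl
  · intro z _ hz
    simp only [if_neg hz]
    exact Finset.sum_const_zero
  · intro h; exact absurd (Finset.mem_univ _) h

omit [Fintype Z] [Fintype E] in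
private theorem SC8_proj (σ : Representation k (Z ⋊[θ] E) V) {A C : Submodule k V}
    (hA : ∀ g, ∀ v ∈ A, σ g v ∈ A) (hC : ∀ g, ∀ v ∈ C, σ g v ∈ C) (h : IsCompl A C) :
    ∃ f : V →ₗ[k] V, Eqv σ σ f ∧ (∀ v, f v ∈ A) ∧ (∀ v ∈ A, f v = v) ∧ ∀ v ∈ C, f v = 0 := by
  refine ⟨A.projection C h, ?_, fun v => Submodule.projection_apply_mem h v,
    fun v hv => Submodule.projection_apply_of_mem_left h hv,
    fun v hv => (Submodule.projection_apply_eq_zero_iff h).2 hv⟩
  intro g v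
  have hv : v ∈ A ⊔ C := by rw [h.sup_eq_top]; trivial
  obtain ⟨a, ha, c, hc, rfl⟩ := Submodule.mem_sup.1 hv
  rw [map_add, map_add, map_add, map_add,
    Submodule.projection_apply_of_mem_left h ha,
    Submodule.projection_apply_of_mem_left h (hA g a ha),
    (Submodule.projection_apply_eq_zero_iff h).2 hc,
    (Submodule.projection_apply_eq_zero_iff h).2 (hC g c hc), map_zero]

omit [Fintype Z] [Fintype E] in
private theorem SC8_yo {σ τ : Representation k (Z ⋊[θ] E) V} {f : V →ₗ[k] V} (hf : Eqv σ τ f)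
    (g : Z ⋊[θ] E) (v : V) : f (yo σ g v) = yo τ g (f v) := by
  rw [yo, yo, LinearMap.sub_apply, LinearMap.sub_apply, map_sub, hf]
  rfl

omit [Fintype Z] [Fintype E] in
private theorem SC8_yo_mem {σ : Representation k (Z ⋊[θ] E) V} {U : Submodule k V}
    (hU : ∀ g, ∀ v ∈ U, σ g v ∈ U) (g : Z ⋊[θ] E) : ∀ v ∈ U, yo σ g v ∈ U := by
  intro v hv
  rw [yo, LinearMap.sub_apply]
  exact Submodule.sub_mem _ (hU g v hv) hv

omit [Fintype Z] [Fintype E] in
private theorem SC8_yo_pow_mem {σ : Representation k (Z ⋊[θ] E) V} {U : Submodule k V}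
    (hU : ∀ g, ∀ v ∈ U, σ g v ∈ U) (g : Z ⋊[θ] E) (m : ℕ) :
    ∀ v ∈ U, ((yo σ g) ^ m) v ∈ U := by
  induction m with
  | zero => intro v hv; exact hv
  | succ m ih => intro v hv; rw [pow_succ', Module.End.mul_apply]; exact SC8_yo_mem hU g _ (ih v hv)

/-- A subspace contained in its image under a nilpotent operator vanishes. -/
private theorem SC8_nak (Y : Module.End k V) {q : ℕ} (hY : Y ^ q = 0) {U : Submodule k V}
    (h : ∀ v ∈ U, ∃ u ∈ U, v = Y u) : ∀ v ∈ U, v = 0 := by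
  have key : ∀ m : ℕ, ∀ v ∈ U, ∃ u ∈ U, v = (Y ^ m) u := by
    intro m
    induction m with
    | zero => intro v hv; exact ⟨v, hv, rfl⟩
    | succ m ih =>
      intro v hv
      obtain ⟨u, hu, hvu⟩ := ih v hv
      obtain ⟨u', hu', huu⟩ := h u hu
      exact ⟨u', hu', by rw [hvu, huu, pow_succ, Module.End.mul_apply]⟩
  intro v hv
  obtain ⟨u, _, hvu⟩ := key q v hv
  rw [hvu, hY, LinearMap.zero_apply]

omit [Fintype Z] [Fintype E] in
private theorem SC8_Bstab (σ : Representation k (Z ⋊[θ] E) V) {w : V}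
    (hw : ∀ y : E, σ (.inr y) w ∈ Submodule.span k (Set.range fun z : Z => σ (.inl z) w)) :
    ∀ g, ∀ v ∈ Submodule.span k (Set.range fun z : Z => σ (.inl z) w),
      σ g v ∈ Submodule.span k (Set.range fun z : Z => σ (.inl z) w) := by
  have h1 : ∀ z : Z, ∀ v ∈ Submodule.span k (Set.range fun z : Z => σ (.inl z) w),
      σ (.inl z) v ∈ Submodule.span k (Set.range fun z : Z => σ (.inl z) w) := by
    intro z v hv
    induction hv using Submodule.span_induction with
    | mem x hx =>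
      obtain ⟨z', rfl⟩ := hx
      refine Submodule.subset_span ⟨z * z', ?_⟩
      show σ (.inl (z * z')) w = σ (.inl z) (σ (.inl z') w)
      rw [map_mul SemidirectProduct.inl, map_mul σ, Module.End.mul_apply]
    | zero => rw [map_zero]; exact Submodule.zero_mem _
    | add x y _ _ hx hy => rw [map_add]; exact Submodule.add_mem _ hx hy
    | smul a x _ hx => rw [map_smul]; exact Submodule.smul_mem _ _ hx
  refine SC6_stab σ h1 ?_
  intro y v hv
  induction hv using Submodule.span_induction with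
  | mem x hx =>
    obtain ⟨z', rfl⟩ := hx
    show σ (.inr y) (σ (.inl z') w) ∈ _
    have h2 : (SemidirectProduct.inr y * SemidirectProduct.inl z' : Z ⋊[θ] E) =
        SemidirectProduct.inl (θ y z') * SemidirectProduct.inr y := by
      rw [SemidirectProduct.inl_aut, mul_assoc, map_inv, inv_mul_cancel, mul_one]
    rw [← Module.End.mul_apply, ← map_mul, h2, map_mul, Module.End.mul_apply]
    exact h1 _ _ (hw y)
  | zero => rw [map_zero]; exact Submodule.zero_mem _
  | add x y _ _ hx hy => rw [map_add]; exact Submodule.add_mem _ hx hy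
  | smul a x _ hx => rw [map_smul]; exact Submodule.smul_mem _ _ hx

/-- MODULE SC8. THE CORE IS UNISERIAL. `V = P ⊕ B ⊕ U₁` (stable subspaces), `B = k[Z] w`, `w ≠ 0`, `(z₀-1)^(q-1)` kills
`B` and `U₁`; all endomorphisms of `V` are scalars modulo traces. Then `U₁ = 0`. PROOF. Let `π`, `π₁` be the
projections of `V` onto `B` and `U₁` (along the two other summands); they are equivariant. `π = c + T`,
`T = Trc φ`. By `threshold` with `a = q - 1`, `U = ⊤`: `T v ∈ range (yo σ z₀)` for `v ∈ B` or `v ∈ U₁`. For `v ∈ U₁`: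
`0 = π v = c v + T v`, `c v = π₁(c v) = -π₁(T v) ∈ (z₀ - 1) U₁` (`π₁` commutes with `z₀ - 1`). If `c ≠ 0`
then `U₁ ≤ (z₀ - 1) U₁ ≤ .. ≤ (z₀ - 1)^q U₁ = 0`. If `c = 0` then `w = π w = π (T w) ∈ (z₀ - 1) B`, so
`B = k[Z] w ≤ (z₀ - 1) B ≤ .. ≤ (z₀ - 1)^q B = 0`, against `w ≠ 0`. -/
theorem core_uni {p r : ℕ} (hp : p.Prime) (hch : CharP k p)
    (hcard : Fintype.card Z = p ^ (r + 1)) {z₀ : Z} (hgen : ∀ z : Z, z ∈ Subgroup.zpowers z₀)
    (σ : Representation k (Z ⋊[θ] E) V)
    (hst : ∀ f : V →ₗ[k] V, Eqv σ σ f → ∃ (c : k) (φ : V →ₗ[k] V),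
      f = c • LinearMap.id + Trc σ σ φ)
    {P U₁ : Submodule k V} {w : V} (hP : ∀ g, ∀ v ∈ P, σ g v ∈ P)
    (hU₁ : ∀ g, ∀ v ∈ U₁, σ g v ∈ U₁)
    (hw : ∀ y : E, σ (.inr y) w ∈ Submodule.span k (Set.range fun z : Z => σ (.inl z) w))
    (hw0 : w ≠ 0) (hkw : ((yo σ (.inl z₀)) ^ (Fintype.card Z - 1)) w = 0)
    (hk : ∀ v ∈ U₁, ((yo σ (.inl z₀)) ^ (Fintype.card Z - 1)) v = 0)
    (hd : Disjoint (Submodule.span k (Set.range fun z : Z => σ (.inl z) w)) U₁)
    (hc : IsCompl P (Submodule.span k (Set.range fun z : Z => σ (.inl z) w) ⊔ U₁)) : U₁ = ⊥ := by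
  have hBst := SC8_Bstab σ hw
  have hc1 : IsCompl (Submodule.span k (Set.range fun z : Z => σ (.inl z) w)) (U₁ ⊔ P) :=
    hd.isCompl_sup_right_of_isCompl_sup_left hc.symm
  have hc2 : IsCompl U₁ (Submodule.span k (Set.range fun z : Z => σ (.inl z) w) ⊔ P) := by
    refine hd.symm.isCompl_sup_right_of_isCompl_sup_left ?_
    rw [sup_comm]
    exact hc.symm
  have hst1 : ∀ g, ∀ v ∈ U₁ ⊔ P, σ g v ∈ U₁ ⊔ P := by
    intro g v hv
    obtain ⟨a, ha, b, hb, rfl⟩ := Submodule.mem_sup.1 hv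
    rw [map_add]
    exact Submodule.add_mem_sup (hU₁ g a ha) (hP g b hb)
  have hst2 : ∀ g, ∀ v ∈ Submodule.span k (Set.range fun z : Z => σ (.inl z) w) ⊔ P,
      σ g v ∈ Submodule.span k (Set.range fun z : Z => σ (.inl z) w) ⊔ P := by
    intro g v hv
    obtain ⟨a, ha, b, hb, rfl⟩ := Submodule.mem_sup.1 hv
    rw [map_add]
    exact Submodule.add_mem_sup (hBst g a ha) (hP g b hb)
  obtain ⟨f, f1, f2, f3, f4⟩ := SC8_proj σ hBst hst1 hc1
  obtain ⟨f', g1, g2, g3, g4⟩ := SC8_proj σ hU₁ hst2 hc2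
  obtain ⟨c, φ, hf⟩ := hst f f1
  have hq : 0 < Fintype.card Z := Fintype.card_pos
  have hthr : ∀ v, ((yo σ (.inl z₀)) ^ (Fintype.card Z - 1)) v = 0 →
      ∃ u, Trc σ σ φ v = yo σ (.inl z₀) u := by
    intro v hv
    obtain ⟨u, _, hu⟩ := threshold hp hch hcard hgen σ σ φ (U := ⊤) (fun g w _ => trivial)
      (fun v => trivial) (a := Fintype.card Z - 1) (by omega) hv
    rw [show Fintype.card Z - (Fintype.card Z - 1) = 1 by omega, pow_one] at hu
    exact ⟨u, hu⟩
  have hnil := yo_pow_card hp hch hcard σ z₀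
  have hwB : w ∈ Submodule.span k (Set.range fun z : Z => σ (.inl z) w) := by
    refine Submodule.subset_span ⟨1, ?_⟩
    show σ (.inl 1) w = w
    rw [map_one SemidirectProduct.inl, map_one, Module.End.one_apply]
  by_cases hc0 : c = 0
  · exfalso
    apply hw0
    obtain ⟨u, hu⟩ := hthr w hkw
    have h1 : w = yo σ (.inl z₀) (f u) := by
      rw [← SC8_yo f1, ← hu]
      have h2 : f w = Trc σ σ φ w := by
        conv_lhs => rw [hf]
        rw [hc0, zero_smul, zero_add]
      rw [← h2, f3 w hwB, f3 w hwB]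
    refine SC8_nak (yo σ (.inl z₀)) hnil
      (U := Submodule.span k (Set.range fun z : Z => σ (.inl z) w)) ?_ w hwB
    intro v hv
    induction hv using Submodule.span_induction with
    | mem x hx =>
      obtain ⟨z, rfl⟩ := hx
      refine ⟨σ (.inl z) (f u), hBst _ _ (f2 u), ?_⟩
      show σ (.inl z) w = _
      conv_lhs => rw [h1]
      have h5 : σ (.inl z) (σ (.inl z₀) (f u)) = σ (.inl z₀) (σ (.inl z) (f u)) := by
        show (σ (.inl z) * σ (.inl z₀)) (f u) = (σ (.inl z₀) * σ (.inl z)) (f u)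
        rw [← map_mul σ, ← map_mul σ, ← map_mul SemidirectProduct.inl,
          ← map_mul SemidirectProduct.inl, mul_comm z z₀]
      rw [yo, LinearMap.sub_apply, LinearMap.sub_apply, map_sub, Module.End.one_apply,
        Module.End.one_apply, h5]
    | zero => exact ⟨0, Submodule.zero_mem _, (map_zero _).symm⟩
    | add x y _ _ hx hy =>
      obtain ⟨a, ha, hxa⟩ := hx
      obtain ⟨b, hb, hyb⟩ := hy
      exact ⟨a + b, Submodule.add_mem _ ha hb, by rw [hxa, hyb, map_add]⟩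
    | smul t x _ hx =>
      obtain ⟨a, ha, hxa⟩ := hx
      exact ⟨t • a, Submodule.smul_mem _ _ ha, by rw [hxa, map_smul]⟩
  · rw [eq_bot_iff]
    intro v hv
    rw [Submodule.mem_bot]
    refine SC8_nak (yo σ (.inl z₀)) hnil (U := U₁) ?_ v hv
    intro v hv
    obtain ⟨u, hu⟩ := hthr v (hk v hv)
    have h1 : c • v + Trc σ σ φ v = 0 := by
      have h2 : f v = c • v + Trc σ σ φ v := by
        conv_lhs => rw [hf]
        rfl
      rw [← h2]
      exact f4 v (Submodule.mem_sup_left hv)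
    have h3 : c • v = yo σ (.inl z₀) (-(f' u)) := by
      rw [map_neg, ← SC8_yo g1, ← hu, ← map_neg, ← eq_neg_of_add_eq_zero_left h1, map_smul,
        g3 v hv]
    refine ⟨c⁻¹ • (-(f' u)), Submodule.smul_mem _ _ (Submodule.neg_mem _ (g2 u)), ?_⟩
    rw [map_smul, ← h3, smul_smul, inv_mul_cancel₀ hc0, one_smul]

omit [Fintype Z] [Fintype E] in
private theorem SC9_comp {m : ℕ} (χ : Fin m → E →* kˣ) (z₁ : Z) (h : ℕ)
    (x : Fin m × Z → k) (p : Fin m × Z) :
    (((yo (tw θ χ k) (.inl z₁)) ^ h) x) p =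
      (((yo (tw θ (fun _ : Unit => χ p.1) k) (.inl z₁)) ^ h) (fun q => x (p.1, q.2))) ((), p.2) := by
  induction h generalizing x with
  | zero => rfl
  | succ h ih =>
    rw [pow_succ, Module.End.mul_apply, ih, pow_succ, Module.End.mul_apply]
    rfl

omit [Fintype E] in
private theorem SC9_prj {σ : Representation k (Z ⋊[θ] E) V} {W : Type} [AddCommGroup W]
    [Module k W] {ν : Representation k (Z ⋊[θ] E) W} [Fintype (Z ⋊[θ] E)] (hν : Prj ν)
    {D : W →ₗ[k] V} (hD : Eqv ν σ D) (hb : Function.Bijective D) : Prj σ := by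
  obtain ⟨φ, hφ⟩ := hν
  let e : W ≃ₗ[k] V := LinearEquiv.ofBijective D hb
  have he : Eqv σ ν (e.symm : V →ₗ[k] W) := by
    intro g v
    apply hb.1
    have h1 : ∀ v, D ((e.symm : V →ₗ[k] W) v) = v := fun v => e.apply_symm_apply v
    rw [h1, hD, h1]
  refine ⟨D ∘ₗ φ ∘ₗ (e.symm : V →ₗ[k] W), ?_⟩
  rw [← comp_trc hD, ← trc_comp he, hφ, LinearMap.id_comp]
  apply LinearMap.ext
  intro v
  exact e.apply_symm_apply v

/-- MODULE SC9. THE SHORT / LONG PRESENTATION. PROOF. `q = |Z|`, `h = q / 2`. `free_part` for `U = ⊤`: `m, χ, w, U₀`,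
`P = range (fd σ w)`. `U₀ ≠ ⊥`: otherwise `fd σ w` is an equivariant bijection (`fd_eqv`) and `σ` would be
relatively projective by `prj_tw` (transport `φ`). Let `n` be such that `(z₀ - 1)^(n+1) U₀ = 0` and
`(z₀ - 1)^n U₀ ≠ 0`; `n + 1 ≤ q - 1`. `split_block` (`X = zo σ c`, `Eig.ker`): `w₁ ∈ U₀`, `χ₁`, `U₁`, and by
`core_uni` (`span_zo`) `U₁ = ⊥`, so `U₀ = k[Z] w₁`. SHORT, `n + 1 ≤ h`: the family `w`: `fd σ w` is injective and
`(z₀ - 1)^h v ∈ P` as `V = P ⊕ U₀`. LONG, `n + 1 > h`: the family `w` and `w₁` (`Fin (m+1)`, `Fin.cons w₁ w`):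
surjective; if `fd x = 0` then `fd σ w x' = 0` and `fd σ w₁ x_0 = 0` (`P ∩ U₀ = 0`), so `x' = 0` and
`(z₀ - 1)^h x_0 = 0` by `annih` (`h + n + 1 ≥ q` as `n + 1 ≥ h + 1`, `2 h + 1 ≥ q`). -/
theorem exists_short_long [IsAlgClosed k] {p r : ℕ} (hp : p.Prime) (hch : CharP k p)
    (hcard : Fintype.card Z = p ^ (r + 1)) {z₀ : Z} (hgen : ∀ z : Z, z ∈ Subgroup.zpowers z₀)
    (hE : (Fintype.card E : k) ≠ 0) {c : Z → k} {om : E →* kˣ} (hc : Eig θ z₀ c om)
    [FiniteDimensional k V] (σ : Representation k (Z ⋊[θ] E) V)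
    (hst : ∀ f : V →ₗ[k] V, Eqv σ σ f → ∃ (c : k) (φ : V →ₗ[k] V),
      f = c • LinearMap.id + Trc σ σ φ) (hnt : ¬ Prj σ) :
    ∃ (m : ℕ) (χ : Fin m → E →* kˣ) (w : Fin m → V),
      (∀ a y, σ (.inr y) (w a) = ((χ a y : kˣ) : k) • w a) ∧
      SL (tw θ χ k) σ (.inl z₀) (Fintype.card Z / 2) (fd σ w) := by
  obtain ⟨m, χ, w, U₀, a1, a2, a3, a4, a5, a6, a7⟩ :=
    free_part hp hch hcard hgen hE hc σ ⊤ (fun g v _ => trivial)
  have hq : 0 < Fintype.card Z := Fintype.card_pos
  have heq := fd_eqv σ a1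
  have hU0 : ∃ v ∈ U₀, v ≠ 0 := by
    by_contra hcon
    push_neg at hcon
    apply hnt
    have h1 : U₀ = ⊥ := (Submodule.eq_bot_iff _).2 hcon
    rw [h1, sup_bot_eq] at a6
    exact SC9_prj (prj_tw (IsUnit.mk0 _ hE) χ k) heq ⟨a2, LinearMap.range_eq_top.1 a6⟩
  obtain ⟨N, hN1, hN2⟩ : ∃ n : ℕ, (∀ v ∈ U₀, ((yo σ (.inl z₀)) ^ (n + 1)) v = 0) ∧
      ∃ v ∈ U₀, ((yo σ (.inl z₀)) ^ n) v ≠ 0 := by
    classical
    have hex : ∃ n : ℕ, ∀ v ∈ U₀, ((yo σ (.inl z₀)) ^ n) v = 0 := ⟨_, a7⟩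
    have h0 : Nat.find hex ≠ 0 := by
      intro h0
      have := Nat.find_spec hex
      rw [h0] at this
      obtain ⟨v, hv, hv'⟩ := hU0
      exact hv' (this v hv)
    refine ⟨Nat.find hex - 1, ?_, ?_⟩
    · rw [Nat.sub_add_cancel (Nat.pos_of_ne_zero h0)]
      exact Nat.find_spec hex
    · have := Nat.find_min hex (m := Nat.find hex - 1) (by omega)
      push_neg at this
      exact this
  obtain ⟨w₁, χ₁, U₁, b1, b2, b3, b4, b5, b6, b7⟩ := SC6_step hE hc σ U₀ a3 hN1 hN2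
  have hw10 : w₁ ≠ 0 := by
    rintro rfl
    exact b3 (map_zero _)
  have hw1B : w₁ ∈ Submodule.span k (Set.range fun z : Z => σ (.inl z) w₁) := by
    refine Submodule.subset_span ⟨1, ?_⟩
    show σ (.inl 1) w₁ = w₁
    rw [map_one SemidirectProduct.inl, map_one, Module.End.one_apply]
  have hPst : ∀ g, ∀ v ∈ LinearMap.range (fd σ w), σ g v ∈ LinearMap.range (fd σ w) := by
    rintro g _ ⟨x, rfl⟩
    exact ⟨_, heq g x⟩
  have hcP : IsCompl (LinearMap.range (fd σ w)) U₀ := ⟨a5, codisjoint_iff.2 a6⟩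
  have hU1 : U₁ = ⊥ := core_uni hp hch hcard hgen σ hst hPst b5
    (fun y => by rw [b2]; exact Submodule.smul_mem _ _ hw1B) hw10 (a7 _ b1)
    (fun v hv => a7 _ (b4 hv)) b6 (by rw [b7]; exact hcP)
  rw [hU1, sup_bot_eq] at b7
  by_cases hsh : N + 1 ≤ Fintype.card Z / 2
  · refine ⟨m, χ, w, a1, Or.inl ⟨a2, fun v => ?_⟩⟩
    have hv : v ∈ LinearMap.range (fd σ w) ⊔ U₀ := by rw [a6]; trivial
    obtain ⟨a, ha, b, hb, rfl⟩ := Submodule.mem_sup.1 hv
    have h1 : ((yo σ (.inl z₀)) ^ (Fintype.card Z / 2)) b = 0 := by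
      rw [show Fintype.card Z / 2 = (Fintype.card Z / 2 - (N + 1)) + (N + 1) by omega, pow_add,
        Module.End.mul_apply, hN1 b hb, map_zero]
    rw [map_add, h1, add_zero]
    exact SC8_yo_pow_mem hPst _ _ a ha
  · refine ⟨m + 1, Fin.cons χ₁ χ, Fin.cons w₁ w, ?_, Or.inr ⟨?_, ?_⟩⟩
    · intro a y
      refine Fin.cases ?_ (fun i => ?_) a
      · rw [Fin.cons_zero, Fin.cons_zero]; exact b2 y
      · rw [Fin.cons_succ, Fin.cons_succ]; exact a1 i y
    · rw [← LinearMap.range_eq_top, SC6_range_cons, SC6_range, b7, sup_comm]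
      exact a6
    · intro x hx
      rw [SC6_cons] at hx
      have hdis : Disjoint (LinearMap.range (fd σ (fun _ : Unit => w₁)))
          (LinearMap.range (fd σ w)) := by
        rw [SC6_range, b7]
        exact a5.symm
      have h4 : fd σ (fun _ : Unit => w₁) (fun p => x (0, p.2)) = 0 := by
        refine Submodule.disjoint_def.1 hdis _ ⟨_, rfl⟩ ?_
        rw [eq_neg_of_add_eq_zero_left hx]
        exact Submodule.neg_mem _ ⟨_, rfl⟩
      rw [h4, zero_add] at hx
      have h6 := a2 (hx.trans (map_zero _).symm)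
      funext p
      rw [SC9_comp]
      obtain ⟨i, z⟩ := p
      refine Fin.cases ?_ (fun i => ?_) i
      · have h7 := annih hp hch hcard hgen σ w₁ b3 (h := Fintype.card Z / 2) (by omega)
          (fun _ => (Fin.cons χ₁ χ : Fin (m + 1) → E →* kˣ) 0) _ h4
        exact congrFun h7 ((), z)
      · have h8 : (fun q : Unit × Z => x ((i.succ, z).1, q.2)) = 0 := by
          funext q
          exact congrFun h6 (i, q.2)
        rw [h8, map_zero]
        rfl

end Free

end Pool.Agent.FbT
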