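import Pool.Agent.DD.Defs

/-!
# FbT: definitions (blocks N, X, L of Theorem D)

Traces, short and long complexes, the relative trace `Ta`, the exactness statement `Ex3`, the simple
modules `Vm` of Wedderburn data, the free model `fd`.
-/

set_option autoImplicit false

namespace Pool.Agent.FbT

open Pool.Agent.Sig Pool.Agent.DD

open scoped Matrix

section Rep

variable {R G : Type} [CommRing R] [Group G] {V W : Type} [AddCommGroup V] [Module R V]
  [AddCommGroup W] [Module R W]

/-- The space of the equivariant maps. -/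
def EH (σ : Representation R G V) (τ : Representation R G W) : Submodule R (V →ₗ[R] W) where
  carrier := {f | Eqv σ τ f}
  zero_mem' := fun g v => by simp
  add_mem' := fun {a b} ha hb g v => by
    rw [LinearMap.add_apply, LinearMap.add_apply, ha g v, hb g v, map_add]
  smul_mem' := fun c a ha g v => by
    rw [LinearMap.smul_apply, LinearMap.smul_apply, ha g v, map_smul]

/-- The trace `∑_g g φ g⁻¹` of a linear map. -/
noncomputable def Trc [Fintype G] (σ : Representation R G V) (τ : Representation R G W)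
    (φ : V →ₗ[R] W) : V →ₗ[R] W := ∑ g : G, (τ g) ∘ₗ φ ∘ₗ (σ g⁻¹)

/-- The identity is a trace (`V` is projective relative to `1`). -/
def Prj [Fintype G] (σ : Representation R G V) : Prop :=
  ∃ φ : V →ₗ[R] V, Trc σ σ φ = LinearMap.id

/-- The action of `y - 1`. -/
def yo (σ : Representation R G V) (y : G) : Module.End R V := σ y - 1

/-- A short or long two-term complex: `D` is injective and its cokernel is killed by
`(y - 1)^h`, or `D` is surjective and its kernel is killed by `(y - 1)^h`. -/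
def SL (ν : Representation R G W) (σ : Representation R G V) (y : G) (h : ℕ) (D : W →ₗ[R] V) :
    Prop :=
  (Function.Injective D ∧ ∀ v : V, ((yo σ y) ^ h) v ∈ LinearMap.range D) ∨
    (Function.Surjective D ∧ ∀ w : W, D w = 0 → ((yo ν y) ^ h) w = 0)

end Rep

section Fr

variable {k Z E J : Type} [CommRing k] [CommGroup Z] [CommGroup E] [Fintype Z] [Fintype J]
  {θ : E →* MulAut Z} {V : Type} [AddCommGroup V] [Module k V]

/-- The map `⨁_a k[Z] ⊗ χ_a → V`, `x ↦ ∑ x (a, z) z w_a`. -/
def fd (σ : Representation k (Z ⋊[θ] E) V) (w : J → V) : (J × Z → k) →ₗ[k] V where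
  toFun x := ∑ p : J × Z, x p • σ (.inl p.2) (w p.1)
  map_add' x y := by
    simp only [Pi.add_apply, add_smul, Finset.sum_add_distrib]
  map_smul' r x := by
    simp only [Pi.smul_apply, RingHom.id_apply, Finset.smul_sum, smul_smul, smul_eq_mul]

theorem fd_apply (σ : Representation k (Z ⋊[θ] E) V) (w : J → V) (x : J × Z → k) :
    fd σ w x = ∑ p : J × Z, x p • σ (.inl p.2) (w p.1) := rfl

/-- The action of the element `∑ c(z) z` of the group algebra of `Z`. -/
def zo (σ : Representation k (Z ⋊[θ] E) V) (c : Z → k) : Module.End k V :=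
  ∑ z : Z, c z • σ (.inl z)

end Fr

section Ta

variable {k Z E H : Type} [Field k] [CommGroup Z] [Fintype Z] [CommGroup E] [Fintype E]
  {θ : E →* MulAut Z} [Ring H] [Algebra k H]

/-- The relative trace of a linear map between `H`-modules. -/
noncomputable def Ta (S : StEq k Z E θ H) {V W : Type} [AddCommGroup V] [Module k V]
    [Module H V] [IsScalarTower k H V] [AddCommGroup W] [Module k W] [Module H W]
    [IsScalarTower k H W] (f : V →ₗ[k] W) : V →ₗ[k] W :=
  ∑ i, (Algebra.lsmul k k W (S.a i)) ∘ₗ f ∘ₗ (Algebra.lsmul k k V (S.b i))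

theorem Ta_apply (S : StEq k Z E θ H) {V W : Type} [AddCommGroup V] [Module k V]
    [Module H V] [IsScalarTower k H V] [AddCommGroup W] [Module k W] [Module H W]
    [IsScalarTower k H W] (f : V →ₗ[k] W) (v : V) :
    Ta S f v = ∑ i, S.a i • f (S.b i • v) := by
  simp [Ta, LinearMap.sum_apply]

end Ta

section Vm

variable {k H : Type} [Field k] [Ring H] [Algebra k H]

/-- The simple `H`-module of the index `i` of the Wedderburn data. -/
def Vm (D : WD k H) (i : D.I) : Type := Fin (D.n i) → k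

instance (D : WD k H) (i : D.I) : AddCommGroup (Vm D i) :=
  inferInstanceAs (AddCommGroup (Fin (D.n i) → k))

instance (D : WD k H) (i : D.I) : Module k (Vm D i) :=
  inferInstanceAs (Module k (Fin (D.n i) → k))

instance (D : WD k H) (i : D.I) : FiniteDimensional k (Vm D i) :=
  inferInstanceAs (FiniteDimensional k (Fin (D.n i) → k))

instance (D : WD k H) (i : D.I) : Module H (Vm D i) where
  smul h v := D.φ i h *ᵥ (show Fin (D.n i) → k from v)
  one_smul v := by
    show D.φ i 1 *ᵥ (show Fin (D.n i) → k from v) = v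
    rw [map_one, Matrix.one_mulVec]
  mul_smul a b v := by
    show D.φ i (a * b) *ᵥ (show Fin (D.n i) → k from v) = D.φ i a *ᵥ (D.φ i b *ᵥ _)
    rw [map_mul, Matrix.mulVec_mulVec]
  smul_zero a := Matrix.mulVec_zero _
  smul_add a v w := Matrix.mulVec_add _ _ _
  add_smul a b v := by
    show D.φ i (a + b) *ᵥ (show Fin (D.n i) → k from v) = D.φ i a *ᵥ _ + D.φ i b *ᵥ _
    rw [map_add, Matrix.add_mulVec]
  zero_smul v := by
    show D.φ i 0 *ᵥ (show Fin (D.n i) → k from v) = 0
    rw [map_zero, Matrix.zero_mulVec]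

theorem Vm.smul_def (D : WD k H) (i : D.I) (h : H) (v : Vm D i) :
    h • v = (D.φ i h *ᵥ (show Fin (D.n i) → k from v) : Fin (D.n i) → k) := rfl

instance (D : WD k H) (i : D.I) : IsScalarTower k H (Vm D i) :=
  ⟨fun c h v => by
    show D.φ i (c • h) *ᵥ (show Fin (D.n i) → k from v) = c • (D.φ i h *ᵥ _)
    rw [map_smul, Matrix.smul_mulVec]⟩

/-- The first unit vector. -/
def Vm.e0 (D : WD k H) (i : D.I) : Vm D i :=
  Pi.single (⟨0, D.pos i⟩ : Fin (D.n i)) (1 : k)

end Vm

section Ex

variable {R Z E A : Type} [CommRing R] [CommGroup Z] [Fintype Z] [CommGroup E]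
  {θ : E →* MulAut Z} [Ring A] [Algebra R A] {ρ : (Z ⋊[θ] E) →* A}

/-- The complex `Hom_A(V, W) → Hom_G(F(V), F(W))` is acyclic in the degrees `-1, 0`,
`F(V) = (F1 V → V)`. -/
structure Ex3 (Φ : Fam R ρ) (V W : Type) [AddCommGroup V] [Module R V] [Module A V]
    [IsScalarTower R A V] [AddCommGroup W] [Module R W] [Module A W] [IsScalarTower R A W] :
    Prop where
  inj : ∀ u : V →ₗ[R] Φ.F1 W, Eqv (rp ρ V) (Φ.act W) u → (∀ v, Φ.d W (u v) = 0) →
    (∀ t, u (Φ.d V t) = 0) → ∀ v, u v = 0
  mid : ∀ (α : Φ.F1 V →ₗ[R] Φ.F1 W) (β : V →ₗ[R] W), Eqv (Φ.act V) (Φ.act W) α →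
    Eqv (rp ρ V) (rp ρ W) β → (∀ t, Φ.d W (α t) = β (Φ.d V t)) →
    ∃ (g : V →ₗ[A] W) (u : V →ₗ[R] Φ.F1 W), Eqv (rp ρ V) (Φ.act W) u ∧
      (∀ v, β v = g v + Φ.d W (u v)) ∧ ∀ t, α t = Φ.map g t + u (Φ.d V t)
  unq : ∀ (g : V →ₗ[A] W) (u : V →ₗ[R] Φ.F1 W), Eqv (rp ρ V) (Φ.act W) u →
    (∀ v, g v + Φ.d W (u v) = 0) → (∀ t, Φ.map g t + u (Φ.d V t) = 0) → ∀ v, g v = 0

end Ex

end Pool.Agent.FbT
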