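import Pool.Agent.FbT.St

/-!
# FbT, part Fx: the functor `M ↦ (F1 M → M)`
-/

set_option autoImplicit false

namespace Pool.Agent.FbT

open Pool.Agent.Sig Pool.Agent.DD

variable {R Z E A : Type} [CommRing R] [CommGroup Z] [Fintype Z] [CommGroup E]
  {θ : E →* MulAut Z} [Ring A] [Algebra R A] {ρ : (Z ⋊[θ] E) →* A} (Φ : Fam R ρ)
  {M M' M'' : Type} [AddCommGroup M] [Module R M] [Module A M] [IsScalarTower R A M]
  [AddCommGroup M'] [Module R M'] [Module A M'] [IsScalarTower R A M']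
  [AddCommGroup M''] [Module R M''] [Module A M''] [IsScalarTower R A M'']

omit [Fintype Z] in
private theorem FX1_sc (a : A) (r : R) (m : M) : a • r • m = r • a • m := by
  rw [← algebraMap_smul A r m, ← algebraMap_smul A r (a • m), ← mul_smul, ← mul_smul,
    Algebra.commutes]

/-- The projection onto `F1 M`. -/
private def FX1_pi (M : Type) [AddCommGroup M] [Module R M] [Module A M] [IsScalarTower R A M] :
    (Φ.J × Z → M) →ₗ[R] Φ.F1 M where
  toFun x := ⟨fun p => Φ.f p.1 • x p, fun p => by rw [← mul_smul, Φ.ff]⟩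
  map_add' x y := by
    apply Subtype.ext
    funext p
    exact smul_add _ _ _
  map_smul' r x := by
    apply Subtype.ext
    funext p
    exact FX1_sc _ _ _

omit [Fintype Z] in
private theorem FX1_pi_act (g : Z ⋊[θ] E) (x : Φ.J × Z → M) :
    Φ.act M g (FX1_pi Φ M x) = FX1_pi Φ M (tw θ Φ.χ M g x) := by
  apply Subtype.ext
  funext p
  rw [Fam.act_apply]
  exact (FX1_sc (Φ.f p.1) _ _).symm

omit [Fintype Z] in
private theorem FX1_pi_id (x : Φ.F1 M) : FX1_pi Φ M x.1 = x := by
  apply Subtype.ext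
  funext p
  exact x.2 p

/-- MODULE FX1. `F1 M` is relatively projective. PROOF. `F1 M` is the image of the idempotent
`(π x)(a, z) = f_a x(a, z)` of `J × Z → M`, which is equivariant for `tw`; if `Trc φ = id` on `J × Z → M`
(`prj_tw`) then `π φ` restricted to `F1 M` has trace `id`. (Or directly:
`(φ x)(a, z) = |E|⁻¹ x(a, 1)` if `z = 1`, `0` otherwise, maps `F1 M` to itself; same computation as `prj_tw`.) -/
theorem prj_act [Fintype E] (hE : IsUnit (Fintype.card E : R)) : Prj (Φ.act M) := by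
  obtain ⟨φ₀, hφ₀⟩ := prj_tw (θ := θ) hE Φ.χ M
  refine ⟨FX1_pi Φ M ∘ₗ φ₀ ∘ₗ (Φ.F1 M).subtype, ?_⟩
  apply LinearMap.ext
  intro x
  have h1 := LinearMap.congr_fun hφ₀ x.1
  unfold Trc at h1 ⊢
  rw [LinearMap.sum_apply] at h1 ⊢
  have h2 : ∀ g : Z ⋊[θ] E, (Φ.act M g ∘ₗ (FX1_pi Φ M ∘ₗ φ₀ ∘ₗ (Φ.F1 M).subtype) ∘ₗ
      Φ.act M g⁻¹) x = FX1_pi Φ M ((tw θ Φ.χ M g ∘ₗ φ₀ ∘ₗ tw θ Φ.χ M g⁻¹) x.1) := by
    intro g
    exact FX1_pi_act Φ g _
  rw [Finset.sum_congr rfl fun g _ => h2 g, ← map_sum, h1]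
  exact FX1_pi_id Φ x

/-- MODULE FX1. `d` is equivariant. PROOF. `g = z₁ y` (`g = inl g.left * inr g.right`):
`ρ(g) ρ(z) v_a = ρ(z₁ θ_y(z)) ρ(y) v_a = χ_a(y) ρ(z₁ θ_y z) v_a`; reindex the sum over `z`. -/
theorem d_eqv : Eqv (Φ.act M) (rp ρ M) (Φ.d M) := by
  intro g x
  rw [rp_apply, Fam.d_apply, Fam.d_apply, Finset.smul_sum]
  let e : Φ.J × Z ≃ Φ.J × Z :=
    (Equiv.refl Φ.J).prodCongr ((θ g.right).toEquiv.trans (Equiv.mulLeft g.left))
  rw [← Equiv.sum_comp e]
  refine Finset.sum_congr rfl fun p _ => ?_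
  have h1 : (e p).1 = p.1 := rfl
  have h2 : (e p).2 = g.left * θ g.right p.2 := rfl
  have h3 : θ g.right⁻¹ (g.left⁻¹ * (g.left * θ g.right p.2)) = p.2 := by
    rw [inv_mul_cancel_left, map_inv]
    exact MulAut.inv_apply_self Z (θ g.right) p.2
  have h4 : g * SemidirectProduct.inl p.2 =
      (SemidirectProduct.inl (g.left * θ g.right p.2) * SemidirectProduct.inr g.right :
        Z ⋊[θ] E) := by
    apply SemidirectProduct.ext
    · simp
    · simp
  have h5 : ρ g * (ρ (.inl p.2) * Φ.v p.1) = ((Φ.χ p.1 g.right : Rˣ) : R) •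
      (ρ (.inl (g.left * θ g.right p.2)) * Φ.v p.1) := by
    rw [← mul_assoc, ← map_mul ρ, h4, map_mul ρ, mul_assoc, Φ.ev, mul_smul_comm]
  rw [Fam.act_apply, h1, h2, h3, ← mul_smul (ρ g), h5, FX1_sc, smul_assoc]

/-- MODULE FX2. -/
theorem map_apply' (g : M →ₗ[A] M') (x : Φ.F1 M) (p : Φ.J × Z) :
    (Φ.map g x).1 p = g (x.1 p) := by
  rfl

/-- MODULE FX2. -/
theorem map_eqv (g : M →ₗ[A] M') : Eqv (Φ.act M) (Φ.act M') (Φ.map g) := by
  intro h x
  apply Subtype.ext
  funext p
  have h1 : (Φ.map g (Φ.act M h x)).1 p = g ((Φ.act M h x).1 p) := rfl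
  rw [h1, Fam.act_apply, Fam.act_apply]
  exact g.map_smul_of_tower _ _

/-- MODULE FX2. -/
theorem d_map (g : M →ₗ[A] M') (x : Φ.F1 M) : Φ.d M' (Φ.map g x) = g (Φ.d M x) := by
  rw [Fam.d_apply, Fam.d_apply, map_sum]
  refine Finset.sum_congr rfl fun p _ => ?_
  rw [map_smul]
  rfl

/-- MODULE FX2. -/
theorem map_comp' (g : M →ₗ[A] M') (g' : M' →ₗ[A] M'') (x : Φ.F1 M) :
    Φ.map (g' ∘ₗ g) x = Φ.map g' (Φ.map g x) := by
  rfl

/-- MODULE FX2. -/
theorem map_add' (g g' : M →ₗ[A] M') (x : Φ.F1 M) :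
    Φ.map (g + g') x = Φ.map g x + Φ.map g' x := by
  rfl

/-- MODULE FX2. -/
theorem map_neg' (g : M →ₗ[A] M') (x : Φ.F1 M) : Φ.map (-g) x = -Φ.map g x := by
  rfl

/-- MODULE FX2. -/
theorem map_zero' (x : Φ.F1 M) : Φ.map (0 : M →ₗ[A] M') x = 0 := by
  rfl

/-- MODULE FX3. -/
theorem map_inj {g : M →ₗ[A] M'} (hg : Function.Injective g) : Function.Injective (Φ.map g) := by
  intro x y h
  apply Subtype.ext
  funext p
  exact hg (congrFun (congrArg Subtype.val h) p)

/-- MODULE FX3. PROOF. Choose `x p` with `g (x p) = y p` and replace `x p` by `f_a x p`. -/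
theorem map_surj {g : M →ₗ[A] M'} (hg : Function.Surjective g) :
    Function.Surjective (Φ.map g) := by
  intro y
  choose s hs using hg
  refine ⟨⟨fun p => Φ.f p.1 • s (y.1 p), fun p => by rw [← mul_smul, Φ.ff]⟩, ?_⟩
  apply Subtype.ext
  funext p
  have h1 : g (Φ.f p.1 • s (y.1 p)) = y.1 p := by
    rw [map_smul, hs]
    exact y.2 p
  exact h1

/-- MODULE FX3. PROOF. `x p = ι (x' p)`; `ι (f_a x' p) = f_a x p = x p = ι (x' p)` and `ι` is injective. -/
theorem map_exact {ι : M' →ₗ[A] M} {π : M →ₗ[A] M''} (hι : Function.Injective ι)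
    (hex : ∀ m, π m = 0 → ∃ m', ι m' = m) (x : Φ.F1 M) (hx : Φ.map π x = 0) :
    ∃ x' : Φ.F1 M', Φ.map ι x' = x := by
  have h1 : ∀ p, ∃ m', ι m' = x.1 p := fun p =>
    hex _ (congrFun (congrArg Subtype.val hx) p)
  choose x' hx' using h1
  refine ⟨⟨x', fun p => hι ?_⟩, ?_⟩
  · rw [map_smul, hx']
    exact x.2 p
  · apply Subtype.ext
    funext p
    exact hx' p

/-- MODULE FX4. `rp` of an `A`-linear map. -/
theorem lin_eqv (g : M →ₗ[A] M') : Eqv (rp (R := R) ρ M) (rp ρ M') (g.restrictScalars R) := by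
  intro x v
  rw [rp_apply, rp_apply]
  exact map_smul g _ _

/-- MODULE FX4. Equivariant lifting of a family of values through an injective equivariant map. PROOF. `w x` = the unique
preimage of `u x`; linear and equivariant by injectivity (`LinearEquiv.ofInjective` and `codRestrict`). -/
theorem lift_inj {G V N N' : Type} [Group G] [AddCommGroup V] [Module R V] [AddCommGroup N]
    [Module R N] [AddCommGroup N'] [Module R N'] {σ : Representation R G V}
    {ν : Representation R G N} {ν' : Representation R G N'} {i : N' →ₗ[R] N} (hi : Eqv ν' ν i)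
    (hinj : Function.Injective i) {u : V →ₗ[R] N} (hu : Eqv σ ν u)
    (hr : ∀ v, ∃ x, i x = u v) : ∃ w : V →ₗ[R] N', Eqv σ ν' w ∧ ∀ v, i (w v) = u v := by
  choose w hw using hr
  refine ⟨{ toFun := w
            map_add' := fun x y => hinj (by rw [map_add, hw, hw, hw, map_add])
            map_smul' := fun r x => hinj (by rw [RingHom.id_apply, map_smul, hw, hw, map_smul]) },
    fun g v => hinj ?_, hw⟩
  show i (w (σ g v)) = i (ν' g (w v))
  rw [hi, hw, hw, hu]

/-- MODULE FX4. Factoring through a surjective equivariant map. PROOF. `w (D x) = u x` is well defined. -/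
theorem desc_surj {G V N W : Type} [Group G] [AddCommGroup V] [Module R V] [AddCommGroup N]
    [Module R N] [AddCommGroup W] [Module R W] {σ : Representation R G V}
    {ν : Representation R G N} {τ : Representation R G W} {D : V →ₗ[R] W} (hD : Eqv σ τ D)
    (hs : Function.Surjective D) {u : V →ₗ[R] N} (hu : Eqv σ ν u)
    (hk : ∀ v, D v = 0 → u v = 0) : ∃ w : W →ₗ[R] N, Eqv τ ν w ∧ ∀ v, w (D v) = u v := by
  have h1 : ∀ x y, D x = D y → u x = u y := by
    intro x y h
    have h2 := hk (x - y) (by rw [map_sub, h, sub_self])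
    rwa [map_sub, sub_eq_zero] at h2
  choose s hs' using hs
  have h3 : ∀ v, u (s (D v)) = u v := fun v => h1 _ _ (hs' _)
  refine ⟨{ toFun := fun y => u (s y)
            map_add' := fun x y => by
              rw [← map_add]
              exact h1 _ _ (by rw [map_add, hs', hs', hs'])
            map_smul' := fun r x => by
              rw [RingHom.id_apply, ← map_smul]
              exact h1 _ _ (by rw [map_smul, hs', hs']) },
    fun g y => ?_, h3⟩
  show u (s (τ g y)) = ν g (u (s y))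
  rw [← hu]
  exact h1 _ _ (by rw [hD, hs', hs'])

/-- MODULE FX4. The `A`-linear version of `lift_inj`. -/
theorem lift_inj_lin {ι : M' →ₗ[A] M} (hι : Function.Injective ι) {g : M'' →ₗ[A] M}
    (hr : ∀ v, ∃ x, ι x = g v) : ∃ w : M'' →ₗ[A] M', ∀ v, ι (w v) = g v := by
  choose w hw using hr
  exact ⟨{ toFun := w
           map_add' := fun x y => hι (by rw [map_add, hw, hw, hw, map_add])
           map_smul' := fun r x => hι (by rw [RingHom.id_apply, map_smul, hw, hw, map_smul]) }, hw⟩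

/-- MODULE FX4. The `A`-linear version of `desc_surj`. -/
theorem desc_surj_lin {π : M →ₗ[A] M''} (hπ : Function.Surjective π) {g : M →ₗ[A] M'}
    (hk : ∀ v, π v = 0 → g v = 0) : ∃ w : M'' →ₗ[A] M', ∀ v, w (π v) = g v := by
  have h1 : ∀ x y, π x = π y → g x = g y := by
    intro x y h
    have h2 := hk (x - y) (by rw [map_sub, h, sub_self])
    rwa [map_sub, sub_eq_zero] at h2
  choose s hs using hπ
  exact ⟨{ toFun := fun y => g (s y)
           map_add' := fun x y => by
              rw [← map_add]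
              exact h1 _ _ (by rw [map_add, hs, hs, hs])
           map_smul' := fun r x => by
              rw [RingHom.id_apply, ← map_smul]
              exact h1 _ _ (by rw [map_smul, hs, hs]) },
    fun v => h1 _ _ (hs _)⟩

end Pool.Agent.FbT
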