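import Pool.Agent.FbT.Lf

/-!
# FbT, part Gn: generation
-/

set_option autoImplicit false

namespace Pool.Agent.FbT

open Pool.Agent.Sig Pool.Agent.DD

section Kill

variable {R Z E A : Type} [CommRing R] [CommGroup Z] [Fintype Z] [CommGroup E] [Fintype E]
  {θ : E →* MulAut Z} [Ring A] [Algebra R A] {ρ : (Z ⋊[θ] E) →* A} (Φ : Fam R ρ)

/-- The element of `F1 A` which is `f_a` at `p = (a, z)` and `0` elsewhere. -/
noncomputable def yv (p : Φ.J × Z) : Φ.F1 A :=
  ⟨open Classical in fun q => if q = p then Φ.f p.1 else 0, fun q => by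
    dsimp only
    split_ifs with h
    · rw [h, smul_eq_mul, Φ.ff]
    · rw [smul_zero]⟩

/-- MODULE GA1. PROOF. At `q`: `∑_p yv p q * x p = f_q x q = x q`. -/
theorem sum_yv (x : Φ.F1 A) : ∑ p, Φ.rm (x.1 p) (yv Φ p) = x := by
  classical
  refine Subtype.ext (funext fun q => ?_)
  have h1 : (∑ p, Φ.rm (x.1 p) (yv Φ p)).1 q = ∑ p, (Φ.rm (x.1 p) (yv Φ p)).1 q := by
    have h2 : ((Φ.F1 A).subtype (∑ p, Φ.rm (x.1 p) (yv Φ p))) q =
        ∑ p, ((Φ.F1 A).subtype (Φ.rm (x.1 p) (yv Φ p))) q := by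
      rw [map_sum, Finset.sum_apply]
    exact h2
  rw [h1, Finset.sum_eq_single q]
  · show (if q = q then Φ.f q.1 else 0) * x.1 q = x.1 q
    rw [if_pos rfl]
    exact x.2 q
  · intro p _ hp
    show (if q = p then Φ.f p.1 else 0) * x.1 p = 0
    rw [if_neg (Ne.symm hp), zero_mul]
  · intro h
    exact absurd (Finset.mem_univ q) h

/-- MODULE GA1. Right multiplication commutes with `d`. -/
theorem d_rm (b : A) (x : Φ.F1 A) : Φ.d A (Φ.rm b x) = Φ.d A x * b := by
  rw [Fam.d_apply, Fam.d_apply, Finset.sum_mul]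
  refine Finset.sum_congr rfl fun p _ => ?_
  rw [Fam.rm_apply, smul_eq_mul, smul_eq_mul, ← mul_assoc]

/-- MODULE GA1. Right multiplication commutes with the action. -/
theorem act_rm (g : Z ⋊[θ] E) (b : A) (x : Φ.F1 A) :
    Φ.act A g (Φ.rm b x) = Φ.rm b (Φ.act A g x) := by
  refine Subtype.ext (funext fun p => ?_)
  rw [Fam.act_apply, Fam.rm_apply, Fam.rm_apply, Fam.act_apply, smul_mul_assoc]

/-- The coefficients of the central element `z₁ - z₂` of `R[G]`. -/
noncomputable def zc (s : A →ₗ[R] R) (g : Z ⋊[θ] E) : R :=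
  s (ρ g⁻¹) - ∑ p : Φ.J × Z, s ((Φ.act A g⁻¹ (yv Φ p)).1 p)

/-- MODULE GA2. If `F ↦ F d` is bijective from the equivariant maps `A → M` to the equivariant maps
`F1 A → M`, then `z₁ - z₂` kills `M`. PROOF. Fix `m`. `G_p(x) = ∑_g s((g⁻¹ x)(p)) • μ(g) m` is an equivariant map
`F1 A → M` (reindex the sum), so `G_p = F_p d` with an equivariant `F_p : A → M`.
`F(a) = ∑_g s(ρ(g⁻¹) a) • μ(g) m` is equivariant. CLAIM `F(a) = ∑_p F_p(a d(y_p))`: both sides are equivariant in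
`a` (`ρ(g) (a b) = (ρ(g) a) b`), so it is enough to compare them on `d x` (`hinj`). `F(d x) = ∑_g s(d(g⁻¹ x)) μ(g) m`
(`d_eqv`), and with `x' = g⁻¹ x`: `s(d x') = s(d(∑_p rm (x' p) y_p)) = ∑_p s(d(y_p) x'(p)) = ∑_p s(x'(p) d(y_p)) =
∑_p s((rm (d y_p) x')(p))` (`sum_yv`, `d_rm`, `hs`), so `F(d x) = ∑_p G_p(rm (d y_p) x)` (`act_rm`) `= ∑_p F_p(d(x) d(y_p))`
(`d_rm`). At `a = 1` (`ρ(g⁻¹) 1 = ρ(g⁻¹)`): `∑_g s(ρ(g⁻¹)) μ(g) m = ∑_p F_p(d(y_p)) = ∑_p G_p(y_p)`. -/
theorem gen_kill {s : A →ₗ[R] R} (hs : ∀ a b, s (a * b) = s (b * a)) {M : Type}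
    [AddCommGroup M] [Module R M] (μ : Representation R (Z ⋊[θ] E) M)
    (hinj : ∀ F : A →ₗ[R] M, Eqv (rp ρ A) μ F → (∀ x, F (Φ.d A x) = 0) → ∀ a, F a = 0)
    (hsur : ∀ G : Φ.F1 A →ₗ[R] M, Eqv (Φ.act A) μ G → ∃ F : A →ₗ[R] M, Eqv (rp ρ A) μ F ∧
      ∀ x, F (Φ.d A x) = G x) (m : M) :
    ∑ g : Z ⋊[θ] E, zc Φ s g • μ g m = 0 := by
  -- the maps `G_p`
  let G : (Φ.J × Z) → (Φ.F1 A →ₗ[R] M) := fun p =>
    { toFun := fun x => ∑ g : Z ⋊[θ] E, s ((Φ.act A g⁻¹ x).1 p) • μ g m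
      map_add' := fun x x' => by
        rw [← Finset.sum_add_distrib]
        refine Finset.sum_congr rfl fun g _ => ?_
        have h1 : (Φ.act A g⁻¹ (x + x')).1 p = (Φ.act A g⁻¹ x).1 p + (Φ.act A g⁻¹ x').1 p := by
          rw [map_add]
          rfl
        rw [h1, map_add, add_smul]
      map_smul' := fun r x => by
        rw [RingHom.id_apply, Finset.smul_sum]
        refine Finset.sum_congr rfl fun g _ => ?_
        have h1 : (Φ.act A g⁻¹ (r • x)).1 p = r • (Φ.act A g⁻¹ x).1 p := by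
          rw [map_smul]
          rfl
        rw [h1, map_smul, smul_assoc] }
  have hG : ∀ p x, G p x = ∑ g : Z ⋊[θ] E, s ((Φ.act A g⁻¹ x).1 p) • μ g m := fun p x => rfl
  have hGe : ∀ p, Eqv (Φ.act A) μ (G p) := by
    intro p h x
    rw [hG, hG, map_sum, ← Equiv.sum_comp (Equiv.mulLeft h)]
    refine Finset.sum_congr rfl fun g _ => ?_
    simp only [Equiv.coe_mulLeft]
    rw [map_smul, map_mul μ, Module.End.mul_apply]
    congr 3
    rw [mul_inv_rev, map_mul, Module.End.mul_apply, ← Module.End.mul_apply (Φ.act A h⁻¹),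
      ← map_mul, inv_mul_cancel, map_one, Module.End.one_apply]
  choose F hFe hF using fun p => hsur (G p) (hGe p)
  let F₀ : A →ₗ[R] M :=
    { toFun := fun a => ∑ g : Z ⋊[θ] E, s (ρ g⁻¹ * a) • μ g m
      map_add' := fun a a' => by
        rw [← Finset.sum_add_distrib]
        refine Finset.sum_congr rfl fun g _ => ?_
        rw [mul_add, map_add, add_smul]
      map_smul' := fun r a => by
        rw [RingHom.id_apply, Finset.smul_sum]
        refine Finset.sum_congr rfl fun g _ => ?_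
        rw [mul_smul_comm, map_smul, smul_assoc] }
  have hF₀ : ∀ a, F₀ a = ∑ g : Z ⋊[θ] E, s (ρ g⁻¹ * a) • μ g m := fun a => rfl
  have hF₀e : Eqv (rp (R := R) ρ A) μ F₀ := by
    intro h a
    rw [rp_apply, smul_eq_mul, hF₀, hF₀, map_sum, ← Equiv.sum_comp (Equiv.mulLeft h)]
    refine Finset.sum_congr rfl fun g _ => ?_
    simp only [Equiv.coe_mulLeft]
    rw [map_smul, map_mul μ, Module.End.mul_apply]
    congr 2
    rw [← mul_assoc, ← map_mul, mul_inv_rev, mul_assoc, inv_mul_cancel, mul_one]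
  let D : A →ₗ[R] M := F₀ - ∑ p, F p ∘ₗ LinearMap.mulRight R (Φ.d A (yv Φ p))
  have hDa : ∀ a, D a = F₀ a - ∑ p, F p (a * Φ.d A (yv Φ p)) := by
    intro a
    show (F₀ - ∑ p, F p ∘ₗ LinearMap.mulRight R (Φ.d A (yv Φ p))) a = _
    rw [LinearMap.sub_apply, LinearMap.sum_apply]
    rfl
  have hDe : Eqv (rp (R := R) ρ A) μ D := by
    intro h a
    rw [hDa, hDa, hF₀e, map_sub, map_sum]
    congr 1
    refine Finset.sum_congr rfl fun p _ => ?_
    rw [← hFe, rp_apply, rp_apply, smul_eq_mul, smul_eq_mul, mul_assoc]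
  have hD0 : ∀ x, D (Φ.d A x) = 0 := by
    intro x
    rw [hDa, sub_eq_zero]
    have h1 : ∀ p, F p (Φ.d A x * Φ.d A (yv Φ p)) = G p (Φ.rm (Φ.d A (yv Φ p)) x) := by
      intro p
      rw [← d_rm, hF]
    rw [Finset.sum_congr rfl fun p _ => h1 p]
    simp only [hG]
    rw [hF₀, Finset.sum_comm]
    refine Finset.sum_congr rfl fun g _ => ?_
    rw [← Finset.sum_smul]
    congr 1
    have h2 : ρ g⁻¹ * Φ.d A x = Φ.d A (Φ.act A g⁻¹ x) := by
      have h3 := d_eqv Φ (M := A) g⁻¹ x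
      rw [h3]
      rfl
    rw [h2]
    have h4 := sum_yv Φ (Φ.act A g⁻¹ x)
    have h5 : Φ.d A (Φ.act A g⁻¹ x) = ∑ p, Φ.d A (yv Φ p) * (Φ.act A g⁻¹ x).1 p := by
      conv_lhs => rw [← h4]
      rw [map_sum]
      exact Finset.sum_congr rfl fun p _ => d_rm Φ _ _
    rw [h5, map_sum]
    refine Finset.sum_congr rfl fun p _ => ?_
    rw [hs, act_rm, Fam.rm_apply]
  have hD1 := hinj D hDe hD0 1
  rw [hDa, hF₀, sub_eq_zero] at hD1
  have h6 : ∀ p, F p (1 * Φ.d A (yv Φ p)) = G p (yv Φ p) := fun p => by rw [one_mul, hF]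
  rw [Finset.sum_congr rfl fun p _ => h6 p] at hD1
  simp only [hG] at hD1
  rw [Finset.sum_comm] at hD1
  have h7 : ∀ g, zc Φ s g • μ g m = s (ρ g⁻¹ * 1) • μ g m -
      ∑ p, s ((Φ.act A g⁻¹ (yv Φ p)).1 p) • μ g m := by
    intro g
    rw [← Finset.sum_smul, ← sub_smul, mul_one]
    rfl
  rw [Finset.sum_congr rfl fun g _ => h7 g, Finset.sum_sub_distrib, hD1, sub_self]

/-- MODULE GB1. The number of fixed points. PROOF. `act_apply` for `g⁻¹`: the value at `p = (a, z)` is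
`χ_a(g.right⁻¹) • y_p(a, θ_(g.right)(..))`, the point is `g z := g.left * θ g.right z`
(`(g⁻¹).right⁻¹ = g.right`, `(g⁻¹).left⁻¹ = θ g.right⁻¹ g.left`), so the value is
`χ_a(g.right)⁻¹ f_a` if `g z = z`, `0` otherwise. -/
theorem act_yv (g : Z ⋊[θ] E) (p : Φ.J × Z) : (Φ.act A g⁻¹ (yv Φ p)).1 p =
    open Classical in if g.left * θ g.right p.2 = p.2 then
      (((Φ.χ p.1 g.right)⁻¹ : Rˣ) : R) • Φ.f p.1 else 0 := by
  classical
  rw [Fam.act_apply]
  have h1 : θ g⁻¹.right⁻¹ (g⁻¹.left⁻¹ * p.2) = g.left * θ g.right p.2 := by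
    rw [SemidirectProduct.inv_right, SemidirectProduct.inv_left, inv_inv, map_mul, ← map_inv,
      inv_inv, ← MulAut.mul_apply, ← map_mul, mul_inv_cancel, map_one, MulAut.one_apply]
  rw [h1]
  show ((Φ.χ p.1 g⁻¹.right : Rˣ) : R) • (if (p.1, g.left * θ g.right p.2) = p then Φ.f p.1 else 0) = _
  have h2 : (p.1, g.left * θ g.right p.2) = p ↔ g.left * θ g.right p.2 = p.2 := by
    constructor
    · intro h
      exact congrArg Prod.snd h
    · intro h
      rw [h]
  by_cases h : g.left * θ g.right p.2 = p.2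
  · rw [if_pos (h2.2 h), if_pos h, SemidirectProduct.inv_right, map_inv]
  · rw [if_neg fun h' => h (h2.1 h'), if_neg h, smul_zero]

end Kill

section Unit

variable {k Z E : Type} [Field k] [CommGroup Z] [Fintype Z] [CommGroup E] [Fintype E]
  {θ : E →* MulAut Z}

/-- The action of `y` on `k[Z]`. -/
private noncomputable def GB2_th (k : Type) [Field k] (θ : E →* MulAut Z) (y : E) : MonoidAlgebra k Z →ₐ[k] MonoidAlgebra k Z :=
  MonoidAlgebra.lift k _ _ ((MonoidAlgebra.of k Z).comp (θ y).toMonoidHom)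

private noncomputable def GB2_in (k : Type) [Field k] (θ : E →* MulAut Z) :
    MonoidAlgebra k Z →ₐ[k] MonoidAlgebra k (Z ⋊[θ] E) :=
  MonoidAlgebra.lift k _ _ ((MonoidAlgebra.of k (Z ⋊[θ] E)).comp SemidirectProduct.inl)

private noncomputable def GB2_aug (k Z : Type) [Field k] [CommGroup Z] : MonoidAlgebra k Z →ₐ[k] k :=
  MonoidAlgebra.lift k _ _ (1 : Z →* k)

omit [Fintype Z] [Fintype E] in
private theorem GB2_comm (y : E) (a : MonoidAlgebra k Z) :
    MonoidAlgebra.of k (Z ⋊[θ] E) (.inr y) * GB2_in k θ a =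
      GB2_in k θ (GB2_th k θ y a) * MonoidAlgebra.of k (Z ⋊[θ] E) (.inr y) := by
  induction a using MonoidAlgebra.induction_on with
  | of g =>
    rw [GB2_in, GB2_th, MonoidAlgebra.lift_of, MonoidAlgebra.lift_of]
    show MonoidAlgebra.of k (Z ⋊[θ] E) (.inr y) * MonoidAlgebra.of k (Z ⋊[θ] E) (.inl g) =
      MonoidAlgebra.lift k _ _ ((MonoidAlgebra.of k (Z ⋊[θ] E)).comp SemidirectProduct.inl)
        (MonoidAlgebra.of k Z (θ y g)) * _
    rw [MonoidAlgebra.lift_of]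
    show _ = MonoidAlgebra.of k (Z ⋊[θ] E) (.inl (θ y g)) * _
    rw [← map_mul, ← map_mul, SemidirectProduct.inl_aut, map_inv, inv_mul_cancel_right]
  | add a b ha hb => rw [map_add, map_add, map_add, mul_add, add_mul, ha, hb]
  | smul r a ha => rw [map_smul, map_smul, map_smul, mul_smul_comm, smul_mul_assoc, ha]

private theorem GB2_nil {p r : ℕ} (hp : p.Prime) (hch : CharP k p)
    (hcard : Fintype.card Z = p ^ (r + 1)) : IsNilpotent (RingHom.ker (GB2_aug k Z)) := by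
  have : Fact p.Prime := ⟨hp⟩
  have hle : RingHom.ker (GB2_aug k Z) ≤ nilradical (MonoidAlgebra k Z) := by
    intro x hx
    rw [mem_nilradical]
    refine ⟨p ^ (r + 1), ?_⟩
    have hchr : CharP (MonoidAlgebra k Z) p := by
      exact charP_of_injective_algebraMap (algebraMap k (MonoidAlgebra k Z)).injective p
    have h1 : ∀ y : MonoidAlgebra k Z, y ^ p ^ (r + 1) =
        algebraMap k (MonoidAlgebra k Z) (GB2_aug k Z y ^ p ^ (r + 1)) := by
      intro y
      induction y using MonoidAlgebra.induction_on with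
      | of g =>
        rw [← map_pow, ← hcard, pow_card_eq_one, GB2_aug, MonoidAlgebra.lift_of]
        simp
      | add a b ha hb => rw [add_pow_char_pow, ha, hb, map_add, add_pow_char_pow, map_add]
      | smul c a ha => rw [smul_pow, ha, map_smul, smul_eq_mul, mul_pow, map_mul, Algebra.smul_def,
          map_pow (algebraMap k (MonoidAlgebra k Z)) c]
    rw [h1, (RingHom.mem_ker).1 hx, zero_pow (pow_pos hp.pos _).ne', map_zero]
  have hart : IsArtinianRing (MonoidAlgebra k Z) := IsArtinianRing.of_finite k _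
  obtain ⟨n, hn⟩ := IsArtinianRing.isNilpotent_nilradical (R := MonoidAlgebra k Z)
  refine ⟨n, ?_⟩
  rw [Ideal.zero_eq_bot, eq_bot_iff]
  exact (Ideal.pow_right_mono hle n).trans hn.le

omit [Fintype Z] [Fintype E] in
private theorem GB2_thI (y : E) (n : ℕ) {a : MonoidAlgebra k Z}
    (ha : a ∈ RingHom.ker (GB2_aug k Z) ^ n) : GB2_th k θ y a ∈ RingHom.ker (GB2_aug k Z) ^ n := by
  have h1 : (RingHom.ker (GB2_aug k Z)).map (GB2_th k θ y) ≤ RingHom.ker (GB2_aug k Z) := by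
    rw [Ideal.map_le_iff_le_comap]
    intro b hb
    rw [Ideal.mem_comap, RingHom.mem_ker]
    have h2 : ∀ c : MonoidAlgebra k Z, GB2_aug k Z (GB2_th k θ y c) = GB2_aug k Z c := by
      intro c
      induction c using MonoidAlgebra.induction_on with
      | of g =>
        rw [GB2_th, MonoidAlgebra.lift_of]
        show GB2_aug k Z (MonoidAlgebra.of k Z (θ y g)) = _
        rw [GB2_aug, MonoidAlgebra.lift_of, MonoidAlgebra.lift_of]
        rfl
      | add a b ha hb => rw [map_add, map_add, map_add, ha, hb]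
      | smul r a ha => rw [map_smul, map_smul, map_smul, ha]
    rw [h2]
    exact hb
  have h3 := Ideal.mem_map_of_mem (GB2_th k θ y) ha
  rw [Ideal.map_pow] at h3
  exact Ideal.pow_right_mono h1 n h3

omit [Fintype Z] [Fintype E] in
/-- products -/
private theorem GB2_mul (I : Ideal (MonoidAlgebra k Z)) (hI : ∀ (y : E) n a, a ∈ I ^ n → GB2_th k θ y a ∈ I ^ n)
    (x x' : MonoidAlgebra k (Z ⋊[θ] E)) (n : ℕ)
    (hx : x ∈ Submodule.span k {t | ∃ a ∈ I ^ 1, ∃ y : E, t = GB2_in k θ a * MonoidAlgebra.of k (Z ⋊[θ] E) (.inr y)})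
    (hx' : x' ∈ Submodule.span k {t | ∃ a ∈ I ^ n, ∃ y : E, t = GB2_in k θ a * MonoidAlgebra.of k (Z ⋊[θ] E) (.inr y)}) :
    x * x' ∈ Submodule.span k {t | ∃ a ∈ I ^ (n + 1), ∃ y : E, t = GB2_in k θ a * MonoidAlgebra.of k (Z ⋊[θ] E) (.inr y)} := by
  have h1 := Submodule.mul_mem_mul hx hx'
  rw [Submodule.span_mul_span] at h1
  refine Submodule.span_mono ?_ h1
  rintro _ ⟨_, ⟨a, ha, y, rfl⟩, _, ⟨b, hb, y', rfl⟩, rfl⟩
  refine ⟨a * GB2_th k θ y b, ?_, y * y', ?_⟩
  · rw [pow_succ', ← pow_one I]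
    simp only [pow_one]
    rw [pow_one] at ha
    exact Ideal.mul_mem_mul ha (hI y n b hb)
  · show GB2_in k θ a * MonoidAlgebra.of k (Z ⋊[θ] E) (.inr y) *
      (GB2_in k θ b * MonoidAlgebra.of k (Z ⋊[θ] E) (.inr y')) = _
    rw [mul_assoc, ← mul_assoc _ (GB2_in k θ b), GB2_comm, map_mul (GB2_in k θ), map_mul, map_mul]
    simp only [mul_assoc]

/-- MODULE GB2. An element of `k[Z ⋊ E]` whose image in `k[E]` is a nonzero scalar is a unit, `Z` any finite commutative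
`p`-group. PROOF. Let `I` be the augmentation ideal of `k[Z]`, spanned by the `z - 1`; `(z - 1)^q = z^q - 1 = 0`,
`q = |Z| = p^(r+1)`, and `k[Z]` is commutative, so `I` is a finitely generated nil ideal, `I^N = 0` for some `N`
(`Ideal.isNilpotent_of_fg...`, or `I` is contained in the nilradical of a noetherian ring).
The kernel `J` of `k[Z ⋊ E] → k[E]` (`MonoidAlgebra.mapDomainAlgHom` of `SemidirectProduct.rightHom`) is
spanned by the `(z - 1) g`; `g (z - 1) = (θ_y(z) - 1) g`, so a product of `N` elements of `J` is in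
`I^N k[Z ⋊ E] = 0`. So `x = c + j`, `j ∈ J` nilpotent, `c ∈ kˣ`, and `c + j` is a unit. -/
theorem unit_field {p r : ℕ} (hp : p.Prime) (hch : CharP k p)
    (hcard : Fintype.card Z = p ^ (r + 1))
    (x : MonoidAlgebra k (Z ⋊[θ] E)) (h1 : ∑ z : Z, x.coeff (.inl z) ≠ 0)
    (h2 : ∀ y : E, y ≠ 1 → ∑ z : Z, x.coeff (.inl z * .inr y) = 0) : IsUnit x := by
  classical
  obtain ⟨I, hI⟩ : ∃ I, I = RingHom.ker (GB2_aug k Z) := ⟨_, rfl⟩
  obtain ⟨n, hn⟩ := GB2_nil (k := k) hp hch hcard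
  rw [← hI] at hn
  obtain ⟨c, hc⟩ : ∃ c, c = ∑ z : Z, x.coeff (.inl z) := ⟨_, rfl⟩
  rw [← hc] at h1
  let sl : E → MonoidAlgebra k Z := fun y => ∑ z : Z, x.coeff (.inl z * .inr y) • MonoidAlgebra.of k Z z
  have hsl : ∀ y, GB2_aug k Z (sl y) = ∑ z : Z, x.coeff (.inl z * .inr y) := by
    intro y
    show GB2_aug k Z (∑ z : Z, x.coeff (.inl z * .inr y) • MonoidAlgebra.of k Z z) = _
    rw [map_sum]
    refine Finset.sum_congr rfl fun z _ => ?_
    rw [map_smul, GB2_aug, MonoidAlgebra.lift_of]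
    simp
  have hx : x = ∑ y : E, GB2_in k θ (sl y) * MonoidAlgebra.of k (Z ⋊[θ] E) (.inr y) := by
    have h3 : x = ∑ g : Z ⋊[θ] E, x.coeff g • MonoidAlgebra.of k (Z ⋊[θ] E) g := by
      refine MonoidAlgebra.ext (Finsupp.ext fun g => ?_)
      rw [MonoidAlgebra.coeff_sum, Finsupp.finsetSum_apply, Finset.sum_eq_single g]
      · simp [MonoidAlgebra.of_apply]
      · intro b _ hb
        simp [MonoidAlgebra.of_apply, hb]
      · intro h
        exact absurd (Finset.mem_univ g) h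
    conv_lhs => rw [h3]
    rw [← (SemidirectProduct.equivProd.symm : Z × E ≃ Z ⋊[θ] E).sum_comp, Fintype.sum_prod_type,
      Finset.sum_comm]
    refine Finset.sum_congr rfl fun y _ => ?_
    show _ = GB2_in k θ (∑ z : Z, x.coeff (.inl z * .inr y) • MonoidAlgebra.of k Z z) * _
    rw [map_sum, Finset.sum_mul]
    refine Finset.sum_congr rfl fun z _ => ?_
    have h4 : (SemidirectProduct.equivProd.symm : Z × E ≃ Z ⋊[θ] E) (z, y) = .inl z * .inr y := by
      ext <;> simp [SemidirectProduct.equivProd]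
    rw [h4, map_smul, smul_mul_assoc, GB2_in, MonoidAlgebra.lift_of]
    show _ = _ • (MonoidAlgebra.of k (Z ⋊[θ] E) (.inl z) * MonoidAlgebra.of k (Z ⋊[θ] E) (.inr y))
    rw [← map_mul]
  have hj : x - algebraMap k _ c ∈ Submodule.span k {t | ∃ a ∈ I ^ 1, ∃ y : E,
      t = GB2_in k θ a * MonoidAlgebra.of k (Z ⋊[θ] E) (.inr y)} := by
    have h3 : x - algebraMap k _ c = ∑ y : E, GB2_in k θ (sl y - if y = 1 then algebraMap k _ c else 0) *
        MonoidAlgebra.of k (Z ⋊[θ] E) (.inr y) := by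
      have h4 : ∀ y : E, GB2_in k θ (sl y - if y = 1 then algebraMap k _ c else 0) *
          MonoidAlgebra.of k (Z ⋊[θ] E) (.inr y) =
          GB2_in k θ (sl y) * MonoidAlgebra.of k (Z ⋊[θ] E) (.inr y) -
            if y = 1 then algebraMap k _ c else 0 := by
        intro y
        rw [map_sub, sub_mul]
        congr 1
        by_cases hy : y = 1
        · rw [if_pos hy, if_pos hy, hy, map_one, map_one, mul_one, AlgHom.commutes]
        · rw [if_neg hy, if_neg hy, map_zero, zero_mul]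
      rw [Finset.sum_congr rfl fun y _ => h4 y, Finset.sum_sub_distrib, ← hx]
      simp
    rw [h3]
    refine Submodule.sum_mem _ fun y _ => Submodule.subset_span ⟨_, ?_, y, rfl⟩
    rw [pow_one, hI, RingHom.mem_ker]
    show GB2_aug k Z _ = 0
    rw [map_sub, hsl]
    by_cases hy : y = 1
    · rw [if_pos hy, AlgHom.commutes, hy, hc]
      simp
    · rw [if_neg hy, h2 y hy, map_zero, sub_zero]
  have hnil : IsNilpotent (x - algebraMap k _ c) := by
    refine ⟨n, ?_⟩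
    have h3 : ∀ m : ℕ, (x - algebraMap k _ c) ^ m ∈ Submodule.span k {t | ∃ a ∈ I ^ m, ∃ y : E,
        t = GB2_in k θ a * MonoidAlgebra.of k (Z ⋊[θ] E) (.inr y)} := by
      intro m
      induction m with
      | zero =>
        refine Submodule.subset_span ⟨1, by rw [pow_zero, Ideal.one_eq_top]; exact Submodule.mem_top,
          1, ?_⟩
        rw [pow_zero, map_one, map_one, map_one, mul_one]
      | succ m ih =>
        rw [pow_succ' (x - algebraMap k _ c)]
        refine GB2_mul I ?_ _ _ m hj ih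
        intro y m a ha
        rw [hI] at ha ⊢
        exact GB2_thI y m ha
    have h4 := h3 n
    rw [hn] at h4
    have h5 : {t | ∃ a ∈ (0 : Ideal (MonoidAlgebra k Z)), ∃ y : E,
        t = GB2_in k θ a * MonoidAlgebra.of k (Z ⋊[θ] E) (.inr y)} ⊆ ({0} : Set (MonoidAlgebra k (Z ⋊[θ] E))) := by
      rintro _ ⟨a, ha, y, rfl⟩
      rw [Ideal.zero_eq_bot, Ideal.mem_bot] at ha
      rw [ha, map_zero, zero_mul]
      rfl
    have h6 := Submodule.span_mono (R := k) h5 h4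
    rw [Submodule.span_singleton_eq_bot.2 rfl, Submodule.mem_bot] at h6
    exact h6
  have h7 : x = algebraMap k _ c + (x - algebraMap k _ c) := by abel
  rw [h7]
  refine IsNilpotent.isUnit_add_left_of_commute hnil ?_ (Algebra.commutes c _).symm
  exact (IsUnit.mk0 c h1).map (algebraMap k _)

end Unit

section Pk

variable {k : Type} [Field k] {Z E : Type} [CommGroup Z] [Fintype Z] [CommGroup E] [Fintype E]
  {θ : E →* MulAut Z} {R A H : Type} [CommRing R] [Ring A] [Algebra R A] [Ring H] [Algebra k H]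
  (Q : Pkg k θ R A H)

/-- the second part: for each `p` there is exactly one `z` -/
private theorem GB3_snd (Φ : Fam R Q.ρ) (y : E) :
    ∑ z : Z, Q.res (∑ p : Φ.J × Z, Q.s ((Φ.act A (.inl z * .inr y : Z ⋊[θ] E)⁻¹ (yv Φ p)).1 p)) =
      0 := by
  classical
  have h0 : ∀ (z : Z) (p : Φ.J × Z),
      Q.res (Q.s ((Φ.act A (.inl z * .inr y : Z ⋊[θ] E)⁻¹ (yv Φ p)).1 p)) =
        if z = p.2 * (θ y p.2)⁻¹ then
          Q.res (Q.s ((((Φ.χ p.1 y)⁻¹ : Rˣ) : R) • Φ.f p.1)) else 0 := by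
    intro z p
    rw [act_yv]
    have h1 : (SemidirectProduct.inl z * SemidirectProduct.inr y : Z ⋊[θ] E).right = y := by
      simp
    have h2 : (SemidirectProduct.inl z * SemidirectProduct.inr y : Z ⋊[θ] E).left = z := by
      simp
    rw [h1, h2]
    have h3 : z * θ y p.2 = p.2 ↔ z = p.2 * (θ y p.2)⁻¹ := eq_mul_inv_iff_mul_eq.symm
    by_cases h : z = p.2 * (θ y p.2)⁻¹
    · rw [if_pos (h3.2 h), if_pos h]
    · rw [if_neg fun h' => h (h3.1 h'), if_neg h, map_zero, map_zero]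
  simp only [map_sum, h0]
  rw [Finset.sum_comm]
  have h1 : ∀ p : Φ.J × Z, (∑ z : Z, if z = p.2 * (θ y p.2)⁻¹ then
      Q.res (Q.s ((((Φ.χ p.1 y)⁻¹ : Rˣ) : R) • Φ.f p.1)) else 0) =
      Q.res (Q.s ((((Φ.χ p.1 y)⁻¹ : Rˣ) : R) • Φ.f p.1)) := by
    intro p
    rw [Finset.sum_ite_eq' Finset.univ, if_pos (Finset.mem_univ _)]
  rw [Finset.sum_congr rfl fun p _ => h1 p, Fintype.sum_prod_type]
  refine Finset.sum_eq_zero fun a _ => ?_
  show ∑ _z : Z, Q.res (Q.s ((((Φ.χ a y)⁻¹ : Rˣ) : R) • Φ.f a)) = 0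
  rw [Finset.sum_const, Finset.card_univ, ← Nat.cast_smul_eq_nsmul k, cardZ_zero Q.K, zero_smul]

private theorem GB3_split (Φ : Fam R Q.ρ) (y : E) :
    ∑ z : Z, Q.res (zc Φ Q.s (.inl z * .inr y)) =
      ∑ z : Z, Q.K.s (Q.K.ρ (.inl z * .inr y : Z ⋊[θ] E)⁻¹) := by
  have h1 : ∀ z : Z, Q.res (zc Φ Q.s (.inl z * .inr y)) =
      Q.K.s (Q.K.ρ (.inl z * .inr y : Z ⋊[θ] E)⁻¹) -
      Q.res (∑ p : Φ.J × Z, Q.s ((Φ.act A (.inl z * .inr y : Z ⋊[θ] E)⁻¹ (yv Φ p)).1 p)) := by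
    intro z
    rw [← Q.rdρ, ← Q.ss, ← map_sub]
    rfl
  rw [Finset.sum_congr rfl fun z _ => h1 z, Finset.sum_sub_distrib, GB3_snd, sub_zero]

/-- MODULE GB3. PROOF. `∑_p s((g⁻¹ y_p)(p)) = Fix(g) c(y)`, `c(y) = ∑_a χ_a(y)⁻¹ s(f_a)` (`act_yv`), with
`Fix(g) = #{z | g.left θ_y(z) = z}`. For `y = 1`: `Fix(inl z₁) = |Z|` if `z₁ = 1`, else `0`; so the sum over
`z₁` of `res` of the second part is `|Z| res(c) = 0` (`cardZ_zero`), and `∑_z res s(ρ(inl z)⁻¹) = K.s(∑ K.ρ(inl z)) ≠ 0`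
(`Q.ss`, `Q.rdρ`, `K.sN`, `z ↦ z⁻¹`). -/
theorem zc_one (Φ : Fam R Q.ρ) : ∑ z : Z, Q.res (zc Φ Q.s (.inl z)) ≠ 0 := by
  have h1 := GB3_split Q Φ 1
  simp only [map_one, mul_one] at h1
  rw [h1, ← Equiv.sum_comp (Equiv.inv Z)]
  have h2 : ∀ z : Z, Q.K.s (Q.K.ρ (.inl ((Equiv.inv Z) z) : Z ⋊[θ] E)⁻¹) =
      Q.K.s (Q.K.ρ (.inl z)) := by
    intro z
    rw [Equiv.inv_apply, ← map_inv SemidirectProduct.inl, inv_inv]
  rw [Finset.sum_congr rfl fun z _ => h2 z, ← map_sum]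
  exact Q.K.sN

/-- MODULE GB3. PROOF. `y ≠ 1`. Second part: `Fix(z₁ y) = 1` for every `z₁` (the map `z ↦ z θ_y(z)⁻¹` is a homomorphism
`Z → Z`, injective by `K.free`, so bijective), so the sum over `z₁` is `|Z| c(y) = 0` in `k`. First part: `z ↦
K.s(K.ρ (inl z * inr y)⁻¹)` is constant: every `inl z * inr y` is `inl w * inr y * inl w⁻¹` with
`w θ_y(w)⁻¹ = z`, and `K.s` is symmetric; the sum is `|Z| ..= 0`. -/
theorem zc_ne (Φ : Fam R Q.ρ) (y : E) (hy : y ≠ 1) :
    ∑ z : Z, Q.res (zc Φ Q.s (.inl z * .inr y)) = 0 := by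
  rw [GB3_split]
  have hinj : Function.Injective fun w : Z => w * (θ y w)⁻¹ := by
    intro w w' h
    have h0 : w * (θ y w)⁻¹ = w' * (θ y w')⁻¹ := h
    have h1 : θ y (w'⁻¹ * w) = w'⁻¹ * w := by
      rw [mul_inv_eq_iff_eq_mul] at h0
      conv_rhs => rw [h0, mul_assoc, inv_mul_cancel_left]
      rw [map_mul, map_inv]
    have h2 := Q.K.free y hy _ h1
    exact (inv_mul_eq_one.1 h2).symm
  have hsur : Function.Surjective fun w : Z => w * (θ y w)⁻¹ :=
    Finite.surjective_of_injective hinj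
  have h1 : ∀ z : Z, Q.K.s (Q.K.ρ (.inl z * .inr y : Z ⋊[θ] E)⁻¹) =
      Q.K.s (Q.K.ρ (.inr y : Z ⋊[θ] E)⁻¹) := by
    intro z
    obtain ⟨w, rfl⟩ := hsur z
    have h2 : (.inl (w * (θ y w)⁻¹) * .inr y : Z ⋊[θ] E)⁻¹ =
        .inl w * (.inr y)⁻¹ * (.inl w)⁻¹ := by
      rw [inv_eq_iff_eq_inv]
      ext
      · simp
      · simp
    show Q.K.s (Q.K.ρ (.inl (w * (θ y w)⁻¹) * .inr y : Z ⋊[θ] E)⁻¹) = _
    rw [h2, map_mul Q.K.ρ, map_mul Q.K.ρ, Q.K.sym, ← mul_assoc, ← map_mul Q.K.ρ, inv_mul_cancel,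
      map_one, one_mul]
  rw [Finset.sum_congr rfl fun z _ => h1 z, Finset.sum_const, Finset.card_univ,
    ← Nat.cast_smul_eq_nsmul k, cardZ_zero Q.K, zero_smul]

/-- MODULE GB4. An element of `R[G]` which is a unit modulo `m` has a left inverse. PROOF. Let `wb` be the inverse of the
reduction of `x`, `w` a lift of `wb` (`res` is onto, coefficientwise). `w x = 1 + n`, all coefficients of
`n` in `ker res`. The left ideal `R[G] (1 + n)`, as an `R`-submodule, plus `m R[G]` is everything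
(`b = b (1 + n) - b n`), so it is everything by `nak_top`; so `v (1 + n) = 1`, `(v w) x = 1`. The reduction is
`MonoidAlgebra.mapRingHom`/`mapRangeRingHom` of `res`. -/
theorem unit_lift {G : Type} [Group G] [Fintype G] {R k : Type} [CommRing R] [Field k]
    (res : R →+* k) (hr : Function.Surjective res) (hu : ∀ r, res r ≠ 0 → IsUnit r)
    (x : MonoidAlgebra R G) (xb : MonoidAlgebra k G) (hx : ∀ g, res (x.coeff g) = xb.coeff g)
    (hxb : IsUnit xb) : ∃ w : MonoidAlgebra R G, w * x = 1 := by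
  classical
  obtain ⟨u, hu'⟩ := hxb
  let rd : MonoidAlgebra R G →+* MonoidAlgebra k G := MonoidAlgebra.mapRingHom G res
  have hrd : ∀ y g, (rd y).coeff g = res (y.coeff g) := fun y g => by
    simp [rd]
  choose wc hwc using fun g : G => hr (((u⁻¹ : (MonoidAlgebra k G)ˣ) : MonoidAlgebra k G).coeff g)
  let w₀ : MonoidAlgebra R G := ∑ g, MonoidAlgebra.single g (wc g)
  have hw₀ : rd w₀ = ((u⁻¹ : (MonoidAlgebra k G)ˣ) : MonoidAlgebra k G) := by
    refine MonoidAlgebra.ext (Finsupp.ext fun g => ?_)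
    rw [hrd, ← hwc]
    congr 1
    show (∑ g, MonoidAlgebra.single g (wc g) : MonoidAlgebra R G).coeff g = wc g
    rw [MonoidAlgebra.coeff_sum, Finsupp.finsetSum_apply, Finset.sum_eq_single g]
    · simp
    · intro b _ hb
      simp [hb]
    · intro h
      exact absurd (Finset.mem_univ g) h
  have hxr : rd x = (u : MonoidAlgebra k G) := by
    rw [hu']
    refine MonoidAlgebra.ext (Finsupp.ext fun g => ?_)
    rw [hrd, hx]
  have hwx : rd (w₀ * x) = 1 := by
    rw [map_mul, hw₀, hxr, Units.inv_mul]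
  have hker : ∀ y : MonoidAlgebra R G, rd y = 0 →
      y ∈ RingHom.ker res • (⊤ : Submodule R (MonoidAlgebra R G)) := by
    intro y hy
    have h1 : y = ∑ g, y.coeff g • MonoidAlgebra.single g (1 : R) := by
      refine MonoidAlgebra.ext (Finsupp.ext fun g => ?_)
      rw [MonoidAlgebra.coeff_sum, Finsupp.finsetSum_apply, Finset.sum_eq_single g]
      · simp
      · intro b _ hb
        simp [hb]
      · intro h
        exact absurd (Finset.mem_univ g) h
    rw [h1]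
    refine Submodule.sum_mem _ fun g _ => Submodule.smul_mem_smul ?_ Submodule.mem_top
    rw [RingHom.mem_ker, ← hrd, hy]
    rfl
  let N : Submodule R (MonoidAlgebra R G) := LinearMap.range (LinearMap.mulRight R (w₀ * x))
  have hN : N = ⊤ := by
    refine nak_top res hu fun b => ⟨b * (w₀ * x), ⟨b, rfl⟩, hker _ ?_⟩
    rw [map_sub, map_mul rd b, hwx, mul_one, sub_self]
  have h1 : (1 : MonoidAlgebra R G) ∈ N := by rw [hN]; exact Submodule.mem_top
  obtain ⟨v, hv⟩ := h1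
  exact ⟨v * w₀, by rw [mul_assoc]; exact hv⟩

/-- MODULE GC. GENERATION. PROOF. `x = ∑ zc g • g ∈ R[G]` has a left inverse `w` (`zc_one`, `zc_ne`, `unit_field`,
`unit_lift`), and `x` acts on `M` as `0` (`gen_kill`), so `m = w (x m) = 0` (`Representation.asAlgebraHom`). -/
theorem gen_main (Φ : Fam R Q.ρ) {M : Type}
    [AddCommGroup M] [Module R M] (μ : Representation R (Z ⋊[θ] E) M)
    (hinj : ∀ F : A →ₗ[R] M, Eqv (rp Q.ρ A) μ F → (∀ x, F (Φ.d A x) = 0) → ∀ a, F a = 0)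
    (hsur : ∀ G : Φ.F1 A →ₗ[R] M, Eqv (Φ.act A) μ G → ∃ F : A →ₗ[R] M, Eqv (rp Q.ρ A) μ F ∧
      ∀ x, F (Φ.d A x) = G x) (m : M) : m = 0 := by
  classical
  let x : MonoidAlgebra R (Z ⋊[θ] E) := ∑ g, MonoidAlgebra.single g (zc Φ Q.s g)
  have hx : ∀ g, x.coeff g = zc Φ Q.s g := by
    intro g
    show (∑ g, MonoidAlgebra.single g (zc Φ Q.s g) : MonoidAlgebra R (Z ⋊[θ] E)).coeff g = _
    rw [MonoidAlgebra.coeff_sum, Finsupp.finsetSum_apply, Finset.sum_eq_single g]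
    · simp
    · intro b _ hb
      simp [hb]
    · intro h
      exact absurd (Finset.mem_univ g) h
  let xb : MonoidAlgebra k (Z ⋊[θ] E) := MonoidAlgebra.mapRingHom _ Q.res x
  have hxb : ∀ g, Q.res (x.coeff g) = xb.coeff g := fun g => by
    simp [xb]
  have hu : IsUnit xb := by
    refine unit_field Q.K.hp Q.K.ch Q.K.card xb ?_ ?_
    · have h1 := zc_one Q Φ
      have h2 : ∀ z : Z, xb.coeff (.inl z) = Q.res (zc Φ Q.s (.inl z)) := fun z => by
        rw [← hxb, hx]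
      rwa [Finset.sum_congr rfl fun z _ => h2 z]
    · intro y hy
      have h1 := zc_ne Q Φ y hy
      have h2 : ∀ z : Z, xb.coeff (.inl z * .inr y) = Q.res (zc Φ Q.s (.inl z * .inr y)) :=
        fun z => by rw [← hxb, hx]
      rwa [Finset.sum_congr rfl fun z _ => h2 z]
  obtain ⟨w, hw⟩ := unit_lift Q.res Q.ress Q.resu x xb hxb hu
  have h1 : μ.asAlgebraHom x m = 0 := by
    show μ.asAlgebraHom (∑ g, MonoidAlgebra.single g (zc Φ Q.s g)) m = 0
    rw [map_sum, LinearMap.sum_apply]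
    have h2 : ∀ g, μ.asAlgebraHom (MonoidAlgebra.single g (zc Φ Q.s g)) m =
        zc Φ Q.s g • μ g m := by
      intro g
      rw [Representation.asAlgebraHom_single]
      rfl
    rw [Finset.sum_congr rfl fun g _ => h2 g]
    exact gen_kill Φ Q.sym μ hinj hsur m
  have h3 : μ.asAlgebraHom (w * x) m = m := by
    rw [hw, map_one]
    rfl
  rw [← h3, map_mul, Module.End.mul_apply, h1, map_zero]

end Pk

end Pool.Agent.FbT
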