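import Pool.Agent.FbT.Fx
import Pool.Agent.FbT.Sp

/-!
# FbT, part Lf: lifting from the residue field `k` to the local ring `R`
-/

set_option autoImplicit false

namespace Pool.Agent.FbT

open Pool.Agent.Sig Pool.Agent.DD

section Nak

variable {R k : Type} [CommRing R] [Field k] (res : R →+* k)

private theorem LA1_jac {R k : Type} [CommRing R] [Field k] (res : R →+* k)
    (hu : ∀ r, res r ≠ 0 → IsUnit r) : RingHom.ker res ≤ Ideal.jacobson ⊥ := by
  intro x hx
  rw [Ideal.mem_jacobson_bot]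
  intro y
  apply hu
  rw [map_add, map_mul, (RingHom.mem_ker).1 hx, zero_mul, zero_add, map_one]
  exact one_ne_zero

/-- MODULE LA1. NAKAYAMA. PROOF. The ideal `ker res` is contained in the Jacobson radical of `R`: for `x ∈ ker res` every
`1 + a x` has `res (1 + a x) = 1 ≠ 0`, so it is a unit (`Ideal.mem_jacobson_bot`). Mathlib:
`Submodule.le_of_le_smul_of_le_jacobson_bot` / `Submodule.eq_bot_of_le_smul_of_le_jacobson_bot`. -/
theorem nak_top (hu : ∀ r, res r ≠ 0 → IsUnit r) {M : Type} [AddCommGroup M] [Module R M]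
    [Module.Finite R M] {N : Submodule R M} (h : ∀ x : M, ∃ y ∈ N, x - y ∈
      RingHom.ker res • (⊤ : Submodule R M)) : N = ⊤ := by
  have hI := LA1_jac res hu
  refine eq_top_iff.2 ?_
  refine Submodule.le_of_le_smul_of_le_jacobson_bot Module.Finite.fg_top hI ?_
  intro x _
  obtain ⟨y, hy, hxy⟩ := h x
  have h1 : x = y + (x - y) := by abel
  rw [h1]
  exact Submodule.add_mem_sup hy hxy

/-- MODULE LA1. -/
theorem nak_bot (hu : ∀ r, res r ≠ 0 → IsUnit r) {M : Type} [AddCommGroup M] [Module R M]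
    {N : Submodule R M} (hN : N.FG) (h : N ≤ RingHom.ker res • N) : N = ⊥ := by
  exact Submodule.eq_bot_of_le_smul_of_le_jacobson_bot _ N hN h (LA1_jac res hu)

private theorem LA2_proj {R M N : Type} [CommRing R] [AddCommGroup M] [Module R M]
    [AddCommGroup N] [Module R N] (b : M →ₗ[R] N) (s : N →ₗ[R] M) (hs : ∀ x, b (s x) = x) :
    ∃ q : M →ₗ[R] M, LinearMap.range q = LinearMap.ker b ∧ ∀ x, b x = 0 → q x = x := by
  refine ⟨LinearMap.id - s ∘ₗ b, ?_, ?_⟩
  · apply le_antisymm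
    · rintro _ ⟨x, rfl⟩
      rw [LinearMap.mem_ker, LinearMap.sub_apply, LinearMap.id_apply, LinearMap.comp_apply,
        map_sub, hs, sub_self]
    · intro x hx
      refine ⟨x, ?_⟩
      have hx' : b x = 0 := hx
      rw [LinearMap.sub_apply, LinearMap.id_apply, LinearMap.comp_apply, hx', map_zero, sub_zero]
  · intro x hx
    rw [LinearMap.sub_apply, LinearMap.id_apply, LinearMap.comp_apply, hx, map_zero, sub_zero]

/-- MODULE LA2. A SHORT COMPLEX OF PROJECTIVE MODULES WHICH IS EXACT MODULO `m` IS EXACT. `π i : M i → N i` is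
additive, onto, with kernel `m M i`. PROOF. `b` is onto: `nak_top` for its range (`π₃ y = b' n = b' (π₂ x) = π₃ (b x)`).
`M₃` is projective, so `b` has a section and `M₂ = K ⊕ M₃'`, `K = ker b` finite and projective, and
`m M₂ ∩ K = m K` (apply the projection to `K`). `a : M₁ → K` is onto: for `x ∈ K`, `b' (π₂ x) = π₃ (b x) = 0`, so
`π₂ x = a' (π₁ y) = π₂ (a y)`, `x - a y ∈ m M₂ ∩ K = m K`; `nak_top`. `K` is projective, so `M₁ = ker a ⊕ K'`,
`ker a` finite, and for `x ∈ ker a`: `a' (π₁ x) = 0`, `π₁ x = 0`, `x ∈ m M₁ ∩ ker a = m (ker a)`; `nak_bot`. -/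
theorem nak_exact (hu : ∀ r, res r ≠ 0 → IsUnit r) {M₁ M₂ M₃ N₁ N₂ N₃ : Type}
    [AddCommGroup M₁] [Module R M₁] [AddCommGroup M₂] [Module R M₂] [AddCommGroup M₃]
    [Module R M₃] [AddCommGroup N₁] [AddCommGroup N₂] [AddCommGroup N₃] [Module.Finite R M₁]
    [Module.Finite R M₂] [Module.Finite R M₃] [Module.Projective R M₃]
    [Module.Projective R M₂] (π₁ : M₁ →+ N₁) (π₂ : M₂ →+ N₂) (π₃ : M₃ →+ N₃)
    (hs₁ : Function.Surjective π₁) (hs₂ : Function.Surjective π₂)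
    (hk₁ : ∀ x, π₁ x = 0 → x ∈ RingHom.ker res • (⊤ : Submodule R M₁))
    (hk₂ : ∀ x, π₂ x = 0 → x ∈ RingHom.ker res • (⊤ : Submodule R M₂))
    (hk₃ : ∀ x, π₃ x = 0 → x ∈ RingHom.ker res • (⊤ : Submodule R M₃))
    (a : M₁ →ₗ[R] M₂) (b : M₂ →ₗ[R] M₃) (hba : ∀ x, b (a x) = 0)
    (a' : N₁ →+ N₂) (b' : N₂ →+ N₃) (ha : ∀ x, a' (π₁ x) = π₂ (a x))
    (hb : ∀ x, b' (π₂ x) = π₃ (b x)) (h1 : ∀ x, a' x = 0 → x = 0)
    (h2 : ∀ x, b' x = 0 → ∃ y, a' y = x) (h3 : Function.Surjective b') :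
    (∀ x, a x = 0 → x = 0) ∧ (∀ x, b x = 0 → ∃ y, a y = x) ∧ Function.Surjective b := by
  have hbs : Function.Surjective b := by
    rw [← LinearMap.range_eq_top]
    apply nak_top res hu
    intro x
    obtain ⟨n, hn⟩ := h3 (π₃ x)
    obtain ⟨m, hm⟩ := hs₂ n
    refine ⟨b m, ⟨m, rfl⟩, hk₃ _ ?_⟩
    rw [map_sub, ← hb, hm, hn, sub_self]
  obtain ⟨s, hs⟩ := Module.projective_lifting_property b LinearMap.id hbs
  have hs' : ∀ x, b (s x) = x := fun x => LinearMap.congr_fun hs x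
  obtain ⟨q, hq1, hq2⟩ := LA2_proj b s hs'
  have hfg : (LinearMap.ker b).FG := by
    rw [← hq1, LinearMap.range_eq_map]
    exact Submodule.FG.map _ Module.Finite.fg_top
  have hle : LinearMap.ker b ≤ LinearMap.range a := by
    refine Submodule.le_of_le_smul_of_le_jacobson_bot hfg (LA1_jac res hu) ?_
    intro x hx
    have hx' : b x = 0 := hx
    obtain ⟨n, hn⟩ := h2 (π₂ x) (by rw [hb, hx', map_zero])
    obtain ⟨y, hy⟩ := hs₁ n
    have h4 : x - a y ∈ RingHom.ker res • (⊤ : Submodule R M₂) := by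
      apply hk₂
      rw [map_sub, ← ha, hy, hn, sub_self]
    have h5 : x - a y ∈ RingHom.ker res • LinearMap.ker b := by
      have h6 : q (x - a y) = x - a y := hq2 _ (by rw [map_sub, hx', hba, sub_zero])
      rw [← h6, ← hq1, LinearMap.range_eq_map, ← Submodule.map_smul'']
      exact ⟨_, h4, rfl⟩
    have h7 : x = a y + (x - a y) := by abel
    rw [h7]
    exact Submodule.add_mem_sup ⟨y, rfl⟩ h5
  have h2' : ∀ x, b x = 0 → ∃ y, a y = x := fun x hx => hle hx
  refine ⟨?_, h2', hbs⟩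
  have hKp : Module.Projective R (LinearMap.ker b) := by
    refine Module.Projective.of_split (LinearMap.ker b).subtype
      (q.codRestrict (LinearMap.ker b) (fun x => by rw [← hq1]; exact ⟨x, rfl⟩)) ?_
    ext x
    exact hq2 x.1 x.2
  let aK : M₁ →ₗ[R] LinearMap.ker b := a.codRestrict (LinearMap.ker b) (fun x => hba x)
  have haK : Function.Surjective aK := by
    intro x
    obtain ⟨y, hy⟩ := h2' x.1 x.2
    exact ⟨y, Subtype.ext hy⟩
  obtain ⟨t, ht⟩ := Module.projective_lifting_property aK LinearMap.id haK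
  have ht' : ∀ x, aK (t x) = x := fun x => LinearMap.congr_fun ht x
  obtain ⟨r, hr1, hr2⟩ := LA2_proj aK t ht'
  have hker : ∀ x, aK x = 0 ↔ a x = 0 := by
    intro x
    constructor
    · intro h
      exact congrArg Subtype.val h
    · intro h
      exact Subtype.ext h
  have hfg1 : (LinearMap.ker aK).FG := by
    rw [← hr1, LinearMap.range_eq_map]
    exact Submodule.FG.map _ Module.Finite.fg_top
  have hbot : LinearMap.ker aK = ⊥ := by
    apply nak_bot res hu hfg1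
    intro x hx
    have hx' : aK x = 0 := hx
    have h4 : x ∈ RingHom.ker res • (⊤ : Submodule R M₁) := by
      apply hk₁
      apply h1
      rw [ha, (hker x).1 hx', map_zero]
    rw [← hr2 x hx', ← hr1, LinearMap.range_eq_map, ← Submodule.map_smul'']
    exact ⟨_, h4, rfl⟩
  intro x hx
  have h8 : x ∈ LinearMap.ker aK := (hker x).2 hx
  rw [hbot] at h8
  exact h8

end Nak

section Red

variable {R k G : Type} [CommRing R] [Field k] (res : R →+* k) [Group G] [Fintype G]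

/-- A reduction of a representation: `π : V → V̄` is additive, onto, compatible with the scalars and the
action, with kernel `m V`. -/
structure IsRed {V Vb : Type} [AddCommGroup V] [Module R V] [AddCommGroup Vb] [Module k Vb]
    (σ : Representation R G V) (τ : Representation k G Vb) (π : V →+ Vb) : Prop where
  surj : Function.Surjective π
  sm : ∀ (r : R) (v : V), π (r • v) = res r • π v
  act : ∀ (g : G) (v : V), π (σ g v) = τ g (π v)
  ker : ∀ v, π v = 0 → v ∈ RingHom.ker res • (⊤ : Submodule R V)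

variable {V Vb W Wb : Type} [AddCommGroup V] [Module R V] [AddCommGroup Vb] [Module k Vb]
  [AddCommGroup W] [Module R W] [AddCommGroup Wb] [Module k Wb]
  {σ : Representation R G V} {σb : Representation k G Vb} {πV : V →+ Vb}
  {τ : Representation R G W} {τb : Representation k G Wb} {πW : W →+ Wb}

/-- MODULE LB1. `π` vanishes on `m V`. PROOF. Span induction, `π (r • v) = res r • π v = 0`. -/
theorem IsRed.ker' (h : IsRed res σ σb πV) {v : V}
    (hv : v ∈ RingHom.ker res • (⊤ : Submodule R V)) : πV v = 0 := by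
  refine Submodule.smul_induction_on hv ?_ ?_
  · intro r hr n _
    rw [h.sm, (RingHom.mem_ker).1 hr, zero_smul]
  · intro x y hx hy
    rw [map_add, hx, hy, add_zero]

/-- MODULE LB1. Reduction of a linear map. PROOF. `fb (π v) = π (f v)` is well defined by `ker` and `ker'` (`f (m V) ≤ m W`),
`k`-linear because `res` is onto. -/
theorem red_lin (hr : Function.Surjective res) (hV : IsRed res σ σb πV) (hW : IsRed res τ τb πW)
    (f : V →ₗ[R] W) : ∃! fb : Vb →ₗ[k] Wb, ∀ v, fb (πV v) = πW (f v) := by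
  have hkey : ∀ v v' : V, πV v = πV v' → πW (f v) = πW (f v') := by
    intro v v' h
    have h1 : v - v' ∈ RingHom.ker res • (⊤ : Submodule R V) := by
      apply hV.ker
      rw [map_sub, h, sub_self]
    have h2 : f (v - v') ∈ RingHom.ker res • (⊤ : Submodule R W) := by
      have h3 : f (v - v') ∈ (RingHom.ker res • (⊤ : Submodule R V)).map f := ⟨_, h1, rfl⟩
      rw [Submodule.map_smul''] at h3
      exact Submodule.smul_mono le_rfl le_top h3
    have h4 := hW.ker' res h2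
    rw [map_sub, map_sub, sub_eq_zero] at h4
    exact h4
  let g : Vb → V := Function.surjInv hV.surj
  have hg : ∀ x, πV (g x) = x := Function.surjInv_eq hV.surj
  refine ⟨{ toFun := fun x => πW (f (g x)), map_add' := ?_, map_smul' := ?_ }, ?_, ?_⟩
  · intro x y
    rw [← map_add, ← map_add]
    apply hkey
    rw [map_add, hg, hg, hg]
  · intro c x
    obtain ⟨r, rfl⟩ := hr c
    rw [RingHom.id_apply, ← hW.sm, ← map_smul]
    apply hkey
    rw [hV.sm, hg, hg]
  · intro v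
    exact hkey _ _ (hg _)
  · intro fb hfb
    ext x
    show fb x = πW (f (g x))
    rw [← hfb, hg]

/-- MODULE LB1. Lifting of a linear map from a projective module. PROOF. `V` is projective over `R` and
`W → Wb` is an `R`-linear surjection for the `R`-module structure of `Wb` through `res` (`Module.compHom`);
`Module.projective_lifting_property` for `v ↦ fb (π v)`. -/
theorem lift_lin (hr : Function.Surjective res) [Module.Projective R V] (hV : IsRed res σ σb πV)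
    (hW : IsRed res τ τb πW) (fb : Vb →ₗ[k] Wb) :
    ∃ f : V →ₗ[R] W, ∀ v, πW (f v) = fb (πV v) := by
  let _ : Module R Wb := Module.compHom Wb res
  let p : W →ₗ[R] Wb := { toFun := πW, map_add' := map_add πW, map_smul' := fun r w => hW.sm r w }
  let q : V →ₗ[R] Wb :=
    { toFun := fun v => fb (πV v)
      map_add' := fun v v' => by rw [map_add, map_add]
      map_smul' := fun r v => by
        rw [hV.sm, map_smul]
        rfl }
  obtain ⟨f, hf⟩ := Module.projective_lifting_property p q hW.surj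
  exact ⟨f, fun v => LinearMap.congr_fun hf v⟩

/-- MODULE LB2. The reduction of equivariant maps. PROOF. `red_lin` gives a map `f ↦ fb`, additive by uniqueness, and
`fb` is equivariant: test on `π v` (`π` is onto). -/
theorem exists_red (hr : Function.Surjective res) (hV : IsRed res σ σb πV)
    (hW : IsRed res τ τb πW) :
    ∃ P : EH σ τ →+ EH σb τb, ∀ (f : EH σ τ) (v : V), (P f).1 (πV v) = πW (f.1 v) := by
  have hex : ∀ f : EH σ τ, ∃ g : EH σb τb, ∀ v, g.1 (πV v) = πW (f.1 v) := by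
    intro f
    obtain ⟨fb, hfb, _⟩ := red_lin res hr hV hW f.1
    refine ⟨⟨fb, ?_⟩, hfb⟩
    intro g x
    obtain ⟨v, rfl⟩ := hV.surj x
    rw [← hV.act, hfb, f.2 g v, hW.act, hfb]
  choose P hP using hex
  refine ⟨AddMonoidHom.mk' P ?_, hP⟩
  intro f g
  apply Subtype.ext
  ext x
  obtain ⟨v, rfl⟩ := hV.surj x
  rw [hP]
  show πW (f.1 v + g.1 v) = (P f).1 (πV v) + (P g).1 (πV v)
  rw [hP, hP, map_add]

private theorem LB2_trc {R G : Type} [CommRing R] [Group G] [Fintype G] {V W : Type}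
    [AddCommGroup V] [Module R V] [AddCommGroup W] [Module R W] (σ : Representation R G V)
    (τ : Representation R G W) (φ : V →ₗ[R] W) (v : V) :
    Trc σ τ φ v = ∑ g : G, τ g (φ (σ g⁻¹ v)) := by
  simp only [Trc, LinearMap.sum_apply, LinearMap.comp_apply]

/-- MODULE LB2. It is onto if `V` is relatively projective. PROOF. `Trc t = id` on `V`, `tb` its reduction, so
`Trc tb = id` on `Vb`. Lift `fb` to a linear `f₀` (`lift_lin`), `f = Trc (f₀ t)` reduces to `Trc (fb tb) = fb Trc tb = fb`. -/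
theorem red_surj (hr : Function.Surjective res) [Module.Projective R V] (hP : Prj σ)
    (hV : IsRed res σ σb πV) (hW : IsRed res τ τb πW) {fb : Vb →ₗ[k] Wb} (hf : Eqv σb τb fb) :
    ∃ f : V →ₗ[R] W, Eqv σ τ f ∧ ∀ v, πW (f v) = fb (πV v) := by
  obtain ⟨t, ht⟩ := hP
  obtain ⟨tb, htb, _⟩ := red_lin res hr hV hV t
  obtain ⟨f₀, hf₀⟩ := lift_lin res hr hV hW fb
  refine ⟨Trc σ τ (f₀ ∘ₗ t), trc_eqv σ τ _, ?_⟩
  have h1 : ∀ v, πW (Trc σ τ (f₀ ∘ₗ t) v) = Trc σb τb (fb ∘ₗ tb) (πV v) := by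
    intro v
    rw [LB2_trc, LB2_trc, map_sum]
    refine Finset.sum_congr rfl fun g _ => ?_
    rw [hW.act, LinearMap.comp_apply, LinearMap.comp_apply, hf₀, ← htb, ← hV.act]
  have h2 : Trc σb σb tb = LinearMap.id := by
    ext x
    obtain ⟨v, rfl⟩ := hV.surj x
    have h3 := LinearMap.congr_fun ht v
    rw [LB2_trc, LinearMap.id_apply] at h3
    rw [LB2_trc, LinearMap.id_apply]
    conv_rhs => rw [← h3]
    rw [map_sum]
    refine Finset.sum_congr rfl fun g _ => ?_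
    rw [hV.act, ← htb, ← hV.act]
  intro v
  rw [h1, ← comp_trc hf, h2]
  rfl

private theorem LB3_frame {R V : Type} [CommRing R] [AddCommGroup V] [Module R V]
    [Module.Finite R V] [Module.Projective R V] :
    ∃ (n : ℕ) (q : (Fin n → R) →ₗ[R] V) (j : V →ₗ[R] (Fin n → R)), ∀ v, q (j v) = v := by
  obtain ⟨n, q, hq⟩ := Module.Finite.exists_fin' R V
  obtain ⟨j, hj⟩ := Module.projective_lifting_property q LinearMap.id hq
  exact ⟨n, q, j, fun v => LinearMap.congr_fun hj v⟩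

private def LB3_one {R V W : Type} [CommRing R] [AddCommGroup V] [Module R V] [AddCommGroup W]
    [Module R W] {n : ℕ} (j : V →ₗ[R] (Fin n → R)) (i : Fin n) : W →ₗ[R] (V →ₗ[R] W) where
  toFun w := (LinearMap.proj i ∘ₗ j).smulRight w
  map_add' w w' := by
    ext v
    simp only [LinearMap.smulRight_apply, LinearMap.add_apply, smul_add]
  map_smul' r w := by
    ext v
    simp only [LinearMap.smulRight_apply, LinearMap.smul_apply, RingHom.id_apply]
    rw [smul_comm]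

private theorem LB3_one_apply {R V W : Type} [CommRing R] [AddCommGroup V] [Module R V]
    [AddCommGroup W] [Module R W] {n : ℕ} (j : V →ₗ[R] (Fin n → R)) (i : Fin n) (w : W) (v : V) :
    LB3_one j i w v = j v i • w := rfl

private def LB3_gam {R V W : Type} [CommRing R] [AddCommGroup V] [Module R V] [AddCommGroup W]
    [Module R W] {n : ℕ} (j : V →ₗ[R] (Fin n → R)) : (Fin n → W) →ₗ[R] (V →ₗ[R] W) :=
  ∑ i : Fin n, LB3_one j i ∘ₗ LinearMap.proj i

private theorem LB3_gam_apply {R V W : Type} [CommRing R] [AddCommGroup V] [Module R V]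
    [AddCommGroup W] [Module R W] {n : ℕ} (j : V →ₗ[R] (Fin n → R)) (w : Fin n → W) :
    LB3_gam j w = ∑ i : Fin n, LB3_one j i (w i) := by
  simp only [LB3_gam, LinearMap.sum_apply, LinearMap.comp_apply, LinearMap.proj_apply]

private theorem LB3_gam_eq {R V W : Type} [CommRing R] [AddCommGroup V] [Module R V]
    [AddCommGroup W] [Module R W] {n : ℕ} {q : (Fin n → R) →ₗ[R] V} {j : V →ₗ[R] (Fin n → R)}
    (hqj : ∀ v, q (j v) = v) (f : V →ₗ[R] W) :
    f = LB3_gam j (fun i => f (q (Pi.single i 1))) := by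
  ext v
  rw [LB3_gam_apply, LinearMap.sum_apply]
  simp only [LB3_one_apply, ← map_smul]
  rw [← map_sum, ← map_sum]
  conv_lhs => rw [← hqj v]
  congr 2
  funext i
  rw [Finset.sum_apply, Finset.sum_eq_single i]
  · rw [Pi.smul_apply, Pi.single_eq_same, smul_eq_mul, mul_one]
  · intro l _ hl
    rw [Pi.smul_apply, Pi.single_eq_of_ne (Ne.symm hl), smul_zero]
  · intro h
    exact absurd (Finset.mem_univ i) h

private theorem LB3_ret {R G : Type} [CommRing R] [Group G] [Fintype G] {V W : Type}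
    [AddCommGroup V] [Module R V] [AddCommGroup W] [Module R W] {σ : Representation R G V}
    {τ : Representation R G W} (hP : Prj σ) :
    ∃ ret : (V →ₗ[R] W) →ₗ[R] EH σ τ, ∀ f : EH σ τ, ret f.1 = f := by
  obtain ⟨t, ht⟩ := hP
  refine ⟨{ toFun := fun φ => ⟨Trc σ τ (φ ∘ₗ t), trc_eqv σ τ _⟩, map_add' := ?_,
            map_smul' := ?_ }, ?_⟩
  · intro φ φ'
    apply Subtype.ext
    show Trc σ τ ((φ + φ') ∘ₗ t) = Trc σ τ (φ ∘ₗ t) + Trc σ τ (φ' ∘ₗ t)
    rw [LinearMap.add_comp, trc_add]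
  · intro r φ
    apply Subtype.ext
    show Trc σ τ ((r • φ) ∘ₗ t) = r • Trc σ τ (φ ∘ₗ t)
    rw [LinearMap.smul_comp, trc_smul]
  · intro f
    apply Subtype.ext
    show Trc σ τ (f.1 ∘ₗ t) = f.1
    rw [← comp_trc (show Eqv σ τ f.1 from f.2) t, ht, LinearMap.comp_id]

/-- MODULE LB3. Its kernel is `m EH`. PROOF. If `π (f v) = 0` for all `v`, then `f v ∈ m W` for all `v`; `V` is finite and
projective, so `f ∈ m Hom_R(V, W)`: `V` is a direct summand of `R^n` (`Module.Finite.exists_fin'` and projectivity: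
`j : V → R^n`, `q j = id`), `f q` has `f q e_i ∈ m W`, so `f q ∈ m Hom(R^n, W)`, `f = (f q) j`. So `f = ∑ r_i f_i`,
`r_i ∈ m`, and `f = f Trc t = Trc (f t) = ∑ r_i Trc (f_i t)`. (Span induction in `Submodule.smul_mem..`.) -/
theorem red_ker (hr : Function.Surjective res) [Module.Finite R V] [Module.Projective R V]
    (hP : Prj σ) (hV : IsRed res σ σb πV) (hW : IsRed res τ τb πW) {f : EH σ τ}
    (hf : ∀ v, πW (f.1 v) = 0) : f ∈ RingHom.ker res • (⊤ : Submodule R (EH σ τ)) := by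
  obtain ⟨n, q, j, hqj⟩ := LB3_frame (R := R) (V := V)
  obtain ⟨ret, hret⟩ := LB3_ret (W := W) (τ := τ) hP
  have h1 : ∀ v, f.1 v ∈ RingHom.ker res • (⊤ : Submodule R W) := fun v => hW.ker _ (hf v)
  have h2 : f.1 = LB3_gam j (fun i => f.1 (q (Pi.single i 1))) := LB3_gam_eq hqj f.1
  have h3 : f.1 ∈ RingHom.ker res • (⊤ : Submodule R (V →ₗ[R] W)) := by
    rw [h2, LB3_gam_apply]
    refine Submodule.sum_mem _ fun i _ => ?_
    have h4 := h1 (q (Pi.single i 1))
    have h5 : LB3_one (W := W) j i (f.1 (q (Pi.single i 1))) ∈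
        (RingHom.ker res • (⊤ : Submodule R W)).map (LB3_one j i) := ⟨_, h4, rfl⟩
    rw [Submodule.map_smul''] at h5
    exact Submodule.smul_mono le_rfl le_top h5
  have h6 : ret f.1 ∈ (RingHom.ker res • (⊤ : Submodule R (V →ₗ[R] W))).map ret := ⟨_, h3, rfl⟩
  rw [Submodule.map_smul'', hret] at h6
  exact Submodule.smul_mono le_rfl le_top h6

/-- MODULE LB4. PROOF. `f ↦ Trc (f t)` is an `R`-linear retraction of `V →ₗ[R] W` onto `EH σ τ`
(`Trc (f t) = f` for equivariant `f`), and `V →ₗ[R] W` is finite and projective (`V`, `W` are finite and projective: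
Mathlib `Module.Finite.linearMap`, `Module.Projective..`; over the local ring `R` one can also use that they
are free). -/
theorem EH_fin [Module.Finite R V] [Module.Projective R V] [Module.Finite R W]
    [Module.Projective R W] (hP : Prj σ) : Module.Finite R (EH σ τ) := by
  obtain ⟨n, q, j, hqj⟩ := LB3_frame (R := R) (V := V)
  obtain ⟨ret, hret⟩ := LB3_ret (W := W) (τ := τ) hP
  refine Module.Finite.of_surjective (ret ∘ₗ LB3_gam j) ?_
  intro f
  refine ⟨fun i => f.1 (q (Pi.single i 1)), ?_⟩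
  rw [LinearMap.comp_apply, ← LB3_gam_eq hqj f.1, hret]

/-- MODULE LB4. -/
theorem EH_proj [Module.Finite R V] [Module.Projective R V] [Module.Finite R W]
    [Module.Projective R W] (hP : Prj σ) : Module.Projective R (EH σ τ) := by
  obtain ⟨n, q, j, hqj⟩ := LB3_frame (R := R) (V := V)
  obtain ⟨ret, hret⟩ := LB3_ret (W := W) (τ := τ) hP
  have hpi : Module.Projective R (Fin n → W) :=
    Module.Projective.of_equiv (DFinsupp.linearEquivFunOnFintype (R := R) (M := fun _ : Fin n => W))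
  let s : EH σ τ →ₗ[R] (Fin n → W) :=
    { toFun := fun f i => f.1 (q (Pi.single i 1))
      map_add' := fun f g => rfl
      map_smul' := fun r f => rfl }
  refine Module.Projective.of_split s (ret ∘ₗ LB3_gam j) ?_
  refine LinearMap.ext fun f => ?_
  rw [LinearMap.comp_apply, LinearMap.comp_apply]
  show ret (LB3_gam j (fun i => f.1 (q (Pi.single i 1)))) = f
  rw [← LB3_gam_eq hqj f.1, hret]

end Red

section Pk

variable {k : Type} [Field k] {Z E : Type} [CommGroup Z] [Fintype Z] [CommGroup E] [Fintype E]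
  {θ : E →* MulAut Z} {R A H : Type} [CommRing R] [Ring A] [Algebra R A] [Ring H] [Algebra k H]
  (Q : Pkg k θ R A H)

/-- MODULE LC1. PROOF. `res |E| = |E| ≠ 0` (`cardE_ne`), `Q.resu`. -/
theorem cardE_unit (Q : Pkg k θ R A H) : IsUnit (Fintype.card E : R) := by
  refine Q.resu _ ?_
  rw [map_natCast]
  exact cardE_ne Q.K

/-- MODULE LC1. Every character of `E` lifts to `R`. PROOF. `w = res ∘ ω : E →* kˣ` is injective (`Q.winj`), so `E` is
cyclic (`isCyclic_of_injective...`, finite subgroups of `kˣ`), generated by `y₀`; `w y₀` is a primitive `|E|`-th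
root of unity, so `χ y₀ = (w y₀)^j` (`IsPrimitiveRoot.eq_pow_of_pow_eq_one`), and `χ = w^j` on `E`. Take `ω^j`. -/
theorem lift_char (χ : E →* kˣ) : ∃ χ' : E →* Rˣ, ∀ y, Q.res ((χ' y : Rˣ) : R) =
    ((χ y : kˣ) : k) := by
  classical
  let w : E →* kˣ := (Units.map (Q.res : R →* k)).comp Q.ω
  have hwy : ∀ y, ((w y : kˣ) : k) = Q.res ((Q.ω y : Rˣ) : R) := fun y => rfl
  have hw : Function.Injective w := by
    rw [injective_iff_map_eq_one]
    intro y hy
    refine Q.winj y ?_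
    rw [← hwy, hy, Units.val_one]
  have hw' : Function.Injective ((Units.coeHom k).comp w) := fun a b hab =>
    hw (Units.ext hab)
  haveI : IsCyclic E := isCyclic_of_subgroup_isDomain _ hw'
  obtain ⟨y₀, hy₀⟩ := IsCyclic.exists_generator (α := E)
  have hpos : 0 < orderOf y₀ := orderOf_pos y₀
  have hprim : IsPrimitiveRoot (((w y₀ : kˣ)) : k) (orderOf y₀) := by
    rw [IsPrimitiveRoot.coe_units_iff, ← orderOf_injective w hw y₀]
    exact IsPrimitiveRoot.orderOf _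
  haveI : NeZero (orderOf y₀) := ⟨hpos.ne'⟩
  obtain ⟨j, -, hj⟩ := hprim.eq_pow_of_pow_eq_one (ξ := ((χ y₀ : kˣ) : k)) (by
    rw [← Units.val_pow_eq_pow_val, ← map_pow, pow_orderOf_eq_one, map_one, Units.val_one])
  have hj' : (w y₀) ^ j = χ y₀ := Units.ext (by rw [Units.val_pow_eq_pow_val, hj])
  refine ⟨Q.ω ^ j, fun y => ?_⟩
  obtain ⟨n, rfl⟩ := Subgroup.mem_zpowers_iff.1 (hy₀ y)
  have h1 : Q.res (((Q.ω ^ j) (y₀ ^ n) : Rˣ) : R) = (((w (y₀ ^ n)) ^ j : kˣ) : k) := by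
    rw [MonoidHom.pow_apply, Units.val_pow_eq_pow_val, map_pow, Units.val_pow_eq_pow_val, hwy]
  rw [h1, map_zpow, map_zpow, ← hj', ← zpow_natCast, ← zpow_natCast, ← zpow_mul, ← zpow_mul,
    mul_comm]

/-- MODULE LC1. PROOF. `v₀` any lift of `v`, `v' = |E|⁻¹ ∑_y χ'(y)⁻¹ ρ(inr y) v₀ f'`. -/
theorem lift_vec {χ : E →* kˣ} {χ' : E →* Rˣ} (hχ : ∀ y, Q.res ((χ' y : Rˣ) : R) =
      ((χ y : kˣ) : k)) {f v : H} {f' : A} (hf' : f' * f' = f') (hff : Q.rd f' = f)
    (hv : v * f = v) (hev : ∀ y, Q.K.ρ (.inr y) * v = ((χ y : kˣ) : k) • v) :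
    ∃ v' : A, v' * f' = v' ∧ (∀ y, Q.ρ (.inr y) * v' = ((χ' y : Rˣ) : R) • v') ∧
      Q.rd v' = v := by
  obtain ⟨v₀, hv₀⟩ := Q.rds v
  obtain ⟨c, hc⟩ := cardE_unit Q
  have hci : (↑c⁻¹ : R) * (Fintype.card E : R) = 1 := by rw [← hc, Units.inv_mul]
  refine ⟨(↑c⁻¹ : R) • ∑ y : E, (((χ' y)⁻¹ : Rˣ) : R) • (Q.ρ (.inr y) * (v₀ * f')), ?_, ?_, ?_⟩
  · rw [smul_mul_assoc, Finset.sum_mul]
    refine congrArg _ (Finset.sum_congr rfl fun y _ => ?_)
    rw [smul_mul_assoc, mul_assoc, mul_assoc, hf']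
  · intro y₁
    rw [mul_smul_comm, smul_comm (((χ' y₁ : Rˣ)) : R)]
    refine congrArg _ ?_
    rw [Finset.mul_sum, Finset.smul_sum, ← Equiv.sum_comp (Equiv.mulLeft y₁⁻¹)]
    refine Finset.sum_congr rfl fun y _ => ?_
    rw [Equiv.coe_mulLeft, mul_smul_comm, ← mul_assoc, ← map_mul, ← map_mul, mul_inv_cancel_left,
      smul_smul, map_mul, map_inv, mul_inv_rev, inv_inv, Units.val_mul, mul_comm]
  · rw [Q.rdl, map_sum]
    have h1 : ∀ y : E, Q.rd ((((χ' y)⁻¹ : Rˣ) : R) • (Q.ρ (.inr y) * (v₀ * f'))) = v := by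
      intro y
      rw [Q.rdl, map_mul, map_mul, Q.rdρ, hv₀, hff, hv, hev, smul_smul, ← hχ, ← map_mul,
        Units.inv_mul, map_one, one_smul]
    rw [Finset.sum_congr rfl fun y _ => h1 y, Finset.sum_const, Finset.card_univ,
      ← Nat.cast_smul_eq_nsmul k, smul_smul]
    have h2 : Q.res (↑c⁻¹ : R) * (Fintype.card E : k) = 1 := by
      rw [← map_natCast Q.res, ← map_mul, hci, map_one]
    rw [h2, one_smul]

/-- A lift of a family from `H` to `A`. -/
structure LFam (Φ₀ : Fam k Q.K.ρ) where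
  χ : Φ₀.J → E →* Rˣ
  hχ : ∀ a y, Q.res ((χ a y : Rˣ) : R) = ((Φ₀.χ a y : kˣ) : k)
  f : Φ₀.J → A
  ff : ∀ a, f a * f a = f a
  hf : ∀ a, Q.rd (f a) = Φ₀.f a
  v : Φ₀.J → A
  vf : ∀ a, v a * f a = v a
  ev : ∀ a y, Q.ρ (.inr y) * v a = ((χ a y : Rˣ) : R) • v a
  hv : ∀ a, Q.rd (v a) = Φ₀.v a

variable {Q}

/-- The lifted family. -/
def LFam.Φ {Φ₀ : Fam k Q.K.ρ} (L : LFam Q Φ₀) : Fam R Q.ρ where
  J := Φ₀.J
  fin := Φ₀.fin
  χ := L.χ
  f := L.f
  v := L.v
  ff := L.ff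
  vf := L.vf
  ev := L.ev

/-- MODULE LC2. PROOF. `lift_char`, `Q.lift`, `lift_vec`. -/
theorem exists_lfam (Φ₀ : Fam k Q.K.ρ) : Nonempty (LFam Q Φ₀) := by
  choose χ hχ using fun a => lift_char Q (Φ₀.χ a)
  choose f ff hf using fun a => Q.lift (Φ₀.f a) (Φ₀.ff a)
  choose v vf ev hv using fun a => lift_vec Q (hχ a) (ff a) (hf a) (Φ₀.vf a) (Φ₀.ev a)
  exact ⟨{ χ := χ, hχ := hχ, f := f, ff := ff, hf := hf, v := v, vf := vf, ev := ev, hv := hv }⟩

/-- The reduction `F1 A → F1 H`. -/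
def LFam.rF {Φ₀ : Fam k Q.K.ρ} (L : LFam Q Φ₀) : L.Φ.F1 A →+ Φ₀.F1 H where
  toFun x := ⟨fun p => Q.rd (x.1 p), fun p => by
    show Φ₀.f p.1 • Q.rd (x.1 p) = Q.rd (x.1 p)
    rw [← L.hf, smul_eq_mul, ← map_mul]
    exact congrArg _ (x.2 p)⟩
  map_zero' := Subtype.ext (funext fun p => map_zero Q.rd)
  map_add' x y := Subtype.ext (funext fun p => map_add Q.rd _ _)

open scoped Classical in
private noncomputable def LC3_io {Φ₀ : Fam k Q.K.ρ} (L : LFam Q Φ₀) (p : L.Φ.J × Z) :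
    A →ₗ[R] L.Φ.F1 A where
  toFun b := ⟨Pi.single p (L.f p.1 * b), fun q => by
    by_cases h : q = p
    · subst h
      rw [Pi.single_eq_same]
      show L.f q.1 • (L.f q.1 * b) = L.f q.1 * b
      rw [smul_eq_mul, ← mul_assoc, L.ff]
    · rw [Pi.single_eq_of_ne h, smul_zero]⟩
  map_add' b c := Subtype.ext (by
    show (Pi.single p (L.f p.1 * (b + c)) : L.Φ.J × Z → A) =
      Pi.single p (L.f p.1 * b) + Pi.single p (L.f p.1 * c)
    rw [mul_add, Pi.single_add])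
  map_smul' r b := Subtype.ext (by
    show (Pi.single p (L.f p.1 * (r • b)) : L.Φ.J × Z → A) =
      r • (Pi.single p (L.f p.1 * b) : L.Φ.J × Z → A)
    rw [mul_smul_comm, Pi.single_smul])

/-- MODULE LC3. PROOF. surj: lift `y p` to `a p` and take `f_a a p`. ker: if `rd (x p) = 0` for all `p` then `x p ∈ m A`,
`x p = ∑ r_i b_i` with `r_i ∈ m`, so `x p = f_a x p = ∑ r_i (f_a b_i)` and `x = ∑ r_i x_i` with
`x_i = ` the function supported at `p` with the value `f_a b_i`. act, sm: clear. -/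
theorem red_F1 {Φ₀ : Fam k Q.K.ρ} (L : LFam Q Φ₀) :
    IsRed Q.res (L.Φ.act A) (Φ₀.act H) L.rF := by
  classical
  refine ⟨fun y => ?_, fun r x => ?_, fun g x => ?_, fun x hx => ?_⟩
  · choose a ha using fun p => Q.rds (y.1 p)
    refine ⟨⟨fun p => L.f p.1 * a p, fun p => ?_⟩, ?_⟩
    · show L.f p.1 • (L.f p.1 * a p) = L.f p.1 * a p
      rw [smul_eq_mul, ← mul_assoc, L.ff]
    · refine Subtype.ext (funext fun p => ?_)
      show Q.rd (L.f p.1 * a p) = y.1 p
      rw [map_mul, L.hf, ha, ← smul_eq_mul]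
      exact y.2 p
  · exact Subtype.ext (funext fun p => Q.rdl r (x.1 p))
  · refine Subtype.ext (funext fun p => ?_)
    show Q.rd ((L.Φ.act A g x).1 p) = (Φ₀.act H g (L.rF x)).1 p
    rw [Fam.act_apply, Fam.act_apply, Q.rdl]
    exact congrArg₂ _ (L.hχ p.1 g.right) rfl
  · have hp : ∀ p, x.1 p ∈ RingHom.ker Q.res • (⊤ : Submodule R A) := fun p =>
      Q.rdk _ (congrFun (congrArg Subtype.val hx) p)
    have h1 : x = ∑ p, LC3_io L p (x.1 p) := by
      refine Subtype.ext (funext fun q => ?_)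
      rw [AddSubmonoidClass.coe_finset_sum, Finset.sum_apply, Finset.sum_eq_single q]
      · show x.1 q = (Pi.single q (L.f q.1 * x.1 q) : L.Φ.J × Z → A) q
        rw [Pi.single_eq_same]
        exact (x.2 q).symm
      · intro p _ hpq
        show (Pi.single p (L.f p.1 * x.1 p) : L.Φ.J × Z → A) q = 0
        rw [Pi.single_eq_of_ne hpq.symm]
      · intro h
        exact absurd (Finset.mem_univ _) h
    rw [h1]
    refine Submodule.sum_mem _ fun p _ => ?_
    have h2 : LC3_io L p (x.1 p) ∈ (RingHom.ker Q.res • (⊤ : Submodule R A)).map (LC3_io L p) :=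
      Submodule.mem_map_of_mem (hp p)
    rw [Submodule.map_smul''] at h2
    exact Submodule.smul_mono le_rfl le_top h2

/-- MODULE LC3. -/
theorem red_A : IsRed Q.res (rp Q.ρ A) (rp Q.K.ρ H) (Q.rd : A →+ H) := by
  refine ⟨Q.rds, Q.rdl, fun g v => ?_, Q.rdk⟩
  show Q.rd (Q.ρ g • v) = Q.K.ρ g • Q.rd v
  rw [smul_eq_mul, smul_eq_mul, map_mul, Q.rdρ]

/-- MODULE LC3. PROOF. `rd (∑ ρ(z) v_a x(a, z))`. -/
theorem red_d {Φ₀ : Fam k Q.K.ρ} (L : LFam Q Φ₀) (x : L.Φ.F1 A) :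
    Q.rd (L.Φ.d A x) = Φ₀.d H (L.rF x) := by
  rw [Fam.d_apply, Fam.d_apply, map_sum]
  refine Finset.sum_congr rfl fun p _ => ?_
  show Q.rd ((Q.ρ (.inl p.2) * L.v p.1) • x.1 p) = (Q.K.ρ (.inl p.2) * Φ₀.v p.1) • Q.rd (x.1 p)
  rw [smul_eq_mul, smul_eq_mul, map_mul, map_mul, Q.rdρ, L.hv]

private def LC4_pr (Φ : Fam R Q.ρ) : (Φ.J × Z → A) →ₗ[R] Φ.F1 A where
  toFun x := ⟨fun p => Φ.f p.1 * x p, fun p => by
    rw [smul_eq_mul, ← mul_assoc, Φ.ff]⟩
  map_add' x y := Subtype.ext (funext fun p => mul_add _ _ _)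
  map_smul' r x := Subtype.ext (funext fun p => mul_smul_comm _ _ _)

/-- MODULE LC4. `F1 A` is finite and projective over `R`. PROOF. It is the image of the idempotent
`x ↦ (f_a x(a, z))` of the finite free module `J × Z → A`. -/
theorem F1_fin (Φ : Fam R Q.ρ) : Module.Finite R (Φ.F1 A) ∧ Module.Projective R (Φ.F1 A) := by
  haveI := Q.fin
  haveI := Q.free
  have h1 : LC4_pr Φ ∘ₗ (Φ.F1 A).subtype = LinearMap.id :=
    LinearMap.ext fun x => Subtype.ext (funext fun p => x.2 p)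
  exact ⟨Module.Finite.of_surjective (LC4_pr Φ) (fun x => ⟨x.1, DFunLike.congr_fun h1 x⟩),
    Module.Projective.of_split _ _ h1⟩

/-- MODULE LC4. PROOF. `Q.trk`: `Trc κ = id`. -/
theorem prj_A : Prj (rp (R := R) Q.ρ A) := by
  refine ⟨Q.κ, LinearMap.ext fun a => ?_⟩
  rw [Trc, LinearMap.sum_apply]
  exact Q.trk a

private theorem LD_smul_prod {R M N : Type} [CommRing R] [AddCommGroup M] [Module R M]
    [AddCommGroup N] [Module R N] {I : Ideal R} {x : M × N}
    (h1 : x.1 ∈ I • (⊤ : Submodule R M)) (h2 : x.2 ∈ I • (⊤ : Submodule R N)) :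
    x ∈ I • (⊤ : Submodule R (M × N)) := by
  have e1 : Submodule.map (LinearMap.inl R M N) (I • (⊤ : Submodule R M)) ≤
      I • (⊤ : Submodule R (M × N)) := by
    rw [Submodule.map_smul'']
    exact Submodule.smul_mono le_rfl le_top
  have e2 : Submodule.map (LinearMap.inr R M N) (I • (⊤ : Submodule R N)) ≤
      I • (⊤ : Submodule R (M × N)) := by
    rw [Submodule.map_smul'']
    exact Submodule.smul_mono le_rfl le_top
  have h3 : x = LinearMap.inl R M N x.1 + LinearMap.inr R M N x.2 := by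
    simp
  rw [h3]
  exact add_mem (e1 ⟨x.1, h1, rfl⟩) (e2 ⟨x.2, h2, rfl⟩)

private theorem LD_nak {R k : Type} [CommRing R] [Field k] (res : R →+* k)
    (hu : ∀ r, res r ≠ 0 → IsUnit r) {A B C D F A' B' C' D' F' : Type}
    [AddCommGroup A] [Module R A] [AddCommGroup B] [Module R B] [AddCommGroup C] [Module R C]
    [AddCommGroup D] [Module R D] [AddCommGroup F] [Module R F]
    [AddCommGroup A'] [AddCommGroup B'] [AddCommGroup C'] [AddCommGroup D'] [AddCommGroup F']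
    [Module.Finite R A] [Module.Finite R B] [Module.Finite R C] [Module.Finite R D]
    [Module.Finite R F] [Module.Projective R C] [Module.Projective R D] [Module.Projective R F]
    (πA : A →+ A') (πB : B →+ B') (πC : C →+ C') (πD : D →+ D') (πF : F →+ F')
    (sA : Function.Surjective πA) (sB : Function.Surjective πB) (sC : Function.Surjective πC)
    (sD : Function.Surjective πD)
    (kA : ∀ x, πA x = 0 → x ∈ RingHom.ker res • (⊤ : Submodule R A))
    (kB : ∀ x, πB x = 0 → x ∈ RingHom.ker res • (⊤ : Submodule R B))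
    (kC : ∀ x, πC x = 0 → x ∈ RingHom.ker res • (⊤ : Submodule R C))
    (kD : ∀ x, πD x = 0 → x ∈ RingHom.ker res • (⊤ : Submodule R D))
    (kF : ∀ x, πF x = 0 → x ∈ RingHom.ker res • (⊤ : Submodule R F))
    (a : A × B →ₗ[R] C × D) (b : C × D →ₗ[R] F) (hba : ∀ x, b (a x) = 0)
    (a' : A' × B' →+ C' × D') (b' : C' × D' →+ F')
    (ha : ∀ x y, a' (πA x, πB y) = (πC (a (x, y)).1, πD (a (x, y)).2))
    (hb : ∀ x y, b' (πC x, πD y) = πF (b (x, y)))
    (h1 : ∀ x y, a' (x, y) = 0 → x = 0 ∧ y = 0)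
    (h2 : ∀ x y, b' (x, y) = 0 → ∃ u v, a' (u, v) = (x, y))
    (h3 : ∀ f, ∃ x y, b' (x, y) = f) :
    (∀ x, a x = 0 → x = 0) ∧ (∀ x, b x = 0 → ∃ y, a y = x) ∧ Function.Surjective b := by
  refine nak_exact res hu (πA.prodMap πB) (πC.prodMap πD) πF ?_ ?_ ?_ ?_ kF a b hba a' b' ?_ ?_ ?_
    ?_ ?_
  · rintro ⟨x, y⟩
    obtain ⟨u, rfl⟩ := sA x
    obtain ⟨v, rfl⟩ := sB y
    exact ⟨(u, v), rfl⟩
  · rintro ⟨x, y⟩
    obtain ⟨u, rfl⟩ := sC x
    obtain ⟨v, rfl⟩ := sD y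
    exact ⟨(u, v), rfl⟩
  · rintro ⟨x, y⟩ hx
    exact LD_smul_prod (kA _ (congrArg Prod.fst hx)) (kB _ (congrArg Prod.snd hx))
  · rintro ⟨x, y⟩ hx
    exact LD_smul_prod (kC _ (congrArg Prod.fst hx)) (kD _ (congrArg Prod.snd hx))
  · rintro ⟨x, y⟩
    exact ha x y
  · rintro ⟨x, y⟩
    exact hb x y
  · rintro ⟨x, y⟩ hx
    obtain ⟨e1, e2⟩ := h1 x y hx
    rw [e1, e2]
    rfl
  · rintro ⟨x, y⟩ hx
    obtain ⟨u, v, h⟩ := h2 x y hx
    exact ⟨(u, v), h⟩
  · intro f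
    obtain ⟨x, y, h⟩ := h3 f
    exact ⟨(x, y), h⟩

section LDabs

variable {R k G : Type} [CommRing R] [Field k] [Group G] [Fintype G] {A H : Type}
  [AddCommGroup A] [Module R A] [AddCommGroup H]
  {X0 X1 Y0 Y1 : Type} [AddCommGroup X0] [Module R X0] [AddCommGroup X1] [Module R X1]
  [AddCommGroup Y0] [Module k Y0] [AddCommGroup Y1] [Module k Y1]
  {σ0 : Representation R G X0} {σ1 : Representation R G X1}
  {τ0 : Representation k G Y0} {τ1 : Representation k G Y1}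

/-- the map `a` -/
private def LD_a {d : X1 →ₗ[R] X0} (hd : Eqv σ1 σ0 d) (m0 : A →ₗ[R] EH σ0 σ0)
    (m1 : A →ₗ[R] EH σ1 σ1) : A × EH σ0 σ1 →ₗ[R] EH σ1 σ1 × EH σ0 σ0 where
  toFun x := (⟨(m1 x.1).1 + x.2.1 ∘ₗ d, fun g t => by
      show (m1 x.1).1 (σ1 g t) + x.2.1 (d (σ1 g t)) = σ1 g ((m1 x.1).1 t + x.2.1 (d t))
      rw [map_add, hd g t, x.2.2 g, (m1 x.1).2 g]⟩,
    ⟨(m0 x.1).1 + d ∘ₗ x.2.1, fun g a => by
      show (m0 x.1).1 (σ0 g a) + d (x.2.1 (σ0 g a)) = σ0 g ((m0 x.1).1 a + d (x.2.1 a))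
      rw [map_add, x.2.2 g, hd g, (m0 x.1).2 g]⟩)
  map_add' x y := by
    refine Prod.ext (Subtype.ext (LinearMap.ext fun t => ?_))
      (Subtype.ext (LinearMap.ext fun a => ?_))
    · show (m1 (x.1 + y.1)).1 t + (x.2.1 (d t) + y.2.1 (d t)) =
        ((m1 x.1).1 t + x.2.1 (d t)) + ((m1 y.1).1 t + y.2.1 (d t))
      rw [map_add]
      show ((m1 x.1).1 t + (m1 y.1).1 t) + (x.2.1 (d t) + y.2.1 (d t)) = _
      abel
    · show (m0 (x.1 + y.1)).1 a + d (x.2.1 a + y.2.1 a) =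
        ((m0 x.1).1 a + d (x.2.1 a)) + ((m0 y.1).1 a + d (y.2.1 a))
      rw [map_add, map_add]
      show ((m0 x.1).1 a + (m0 y.1).1 a) + _ = _
      abel
  map_smul' r x := by
    refine Prod.ext (Subtype.ext (LinearMap.ext fun t => ?_))
      (Subtype.ext (LinearMap.ext fun a => ?_))
    · show (m1 (r • x.1)).1 t + r • x.2.1 (d t) = r • ((m1 x.1).1 t + x.2.1 (d t))
      rw [map_smul, smul_add]
      rfl
    · show (m0 (r • x.1)).1 a + d (r • x.2.1 a) = r • ((m0 x.1).1 a + d (x.2.1 a))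
      rw [map_smul, map_smul, smul_add]
      rfl

/-- the map `b` -/
private def LD_b {d : X1 →ₗ[R] X0} (hd : Eqv σ1 σ0 d) :
    EH σ1 σ1 × EH σ0 σ0 →ₗ[R] EH σ1 σ0 where
  toFun x := ⟨d ∘ₗ x.1.1 - x.2.1 ∘ₗ d, fun g t => by
      show d (x.1.1 (σ1 g t)) - x.2.1 (d (σ1 g t)) = σ0 g (d (x.1.1 t) - x.2.1 (d t))
      rw [map_sub, x.1.2 g, hd g, hd g, x.2.2 g]⟩
  map_add' x y := by
    refine Subtype.ext (LinearMap.ext fun t => ?_)
    show d (x.1.1 t + y.1.1 t) - (x.2.1 (d t) + y.2.1 (d t)) =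
      (d (x.1.1 t) - x.2.1 (d t)) + (d (y.1.1 t) - y.2.1 (d t))
    rw [map_add]
    abel
  map_smul' r x := by
    refine Subtype.ext (LinearMap.ext fun t => ?_)
    show d (r • x.1.1 t) - r • x.2.1 (d t) = r • (d (x.1.1 t) - x.2.1 (d t))
    rw [map_smul, smul_sub]

private theorem LD_abs (res : R →+* k) (hr : Function.Surjective res)
    (hu : ∀ r, res r ≠ 0 → IsUnit r) [Module.Finite R A] [Module.Finite R X0]
    [Module.Projective R X0] [Module.Finite R X1] [Module.Projective R X1] (p0 : Prj σ0)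
    (p1 : Prj σ1) {π0 : X0 →+ Y0} {π1 : X1 →+ Y1} (h0 : IsRed res σ0 τ0 π0)
    (h1 : IsRed res σ1 τ1 π1) {d : X1 →ₗ[R] X0} (hd : Eqv σ1 σ0 d) {e : Y1 →ₗ[k] Y0}
    (he : Eqv τ1 τ0 e) (hde : ∀ x, π0 (d x) = e (π1 x)) (rd : A →+ H)
    (rds : Function.Surjective rd)
    (rdk : ∀ x, rd x = 0 → x ∈ RingHom.ker res • (⊤ : Submodule R A))
    (m0 : A →ₗ[R] EH σ0 σ0) (m1 : A →ₗ[R] EH σ1 σ1)
    (hm : ∀ a x, d ((m1 a).1 x) = (m0 a).1 (d x)) (n0 : H →+ EH τ0 τ0) (n1 : H →+ EH τ1 τ1)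
    (hm0 : ∀ a x, π0 ((m0 a).1 x) = (n0 (rd a)).1 (π0 x))
    (hm1 : ∀ a x, π1 ((m1 a).1 x) = (n1 (rd a)).1 (π1 x))
    (k1 : ∀ (b : H) (u : Y0 →ₗ[k] Y1), Eqv τ0 τ1 u → (∀ x, (n1 b).1 x + u (e x) = 0) →
      (∀ y, (n0 b).1 y + e (u y) = 0) → b = 0 ∧ u = 0)
    (k2 : ∀ (α : Y1 →ₗ[k] Y1) (β : Y0 →ₗ[k] Y0), Eqv τ1 τ1 α → Eqv τ0 τ0 β →
      (∀ x, e (α x) = β (e x)) → ∃ (b : H) (u : Y0 →ₗ[k] Y1), Eqv τ0 τ1 u ∧
        (∀ x, α x = (n1 b).1 x + u (e x)) ∧ ∀ y, β y = (n0 b).1 y + e (u y))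
    (k3 : ∀ f : Y1 →ₗ[k] Y0, Eqv τ1 τ0 f → ∃ (α : Y1 →ₗ[k] Y1) (β : Y0 →ₗ[k] Y0),
      Eqv τ1 τ1 α ∧ Eqv τ0 τ0 β ∧ ∀ x, f x = e (α x) + β (e x)) :
    (∀ (b : A) (u : X0 →ₗ[R] X1), Eqv σ0 σ1 u → (∀ x, (m1 b).1 x + u (d x) = 0) →
      (∀ y, (m0 b).1 y + d (u y) = 0) → b = 0 ∧ u = 0) ∧
    (∀ (α : X1 →ₗ[R] X1) (β : X0 →ₗ[R] X0), Eqv σ1 σ1 α → Eqv σ0 σ0 β →
      (∀ x, d (α x) = β (d x)) → ∃ (b : A) (u : X0 →ₗ[R] X1), Eqv σ0 σ1 u ∧
        (∀ x, α x = (m1 b).1 x + u (d x)) ∧ ∀ y, β y = (m0 b).1 y + d (u y)) ∧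
    (∀ f : X1 →ₗ[R] X0, Eqv σ1 σ0 f → ∃ (α : X1 →ₗ[R] X1) (β : X0 →ₗ[R] X0),
      Eqv σ1 σ1 α ∧ Eqv σ0 σ0 β ∧ ∀ x, f x = d (α x) + β (d x)) := by
  classical
  obtain ⟨P01, h01⟩ := exists_red res hr h0 h1
  obtain ⟨P11, h11⟩ := exists_red res hr h1 h1
  obtain ⟨P00, h00⟩ := exists_red res hr h0 h0
  obtain ⟨P10, h10⟩ := exists_red res hr h1 h0
  have i01 : Module.Finite R (EH σ0 σ1) := EH_fin p0
  have i11 : Module.Finite R (EH σ1 σ1) := EH_fin p1
  have i00 : Module.Finite R (EH σ0 σ0) := EH_fin p0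
  have i10 : Module.Finite R (EH σ1 σ0) := EH_fin p1
  have j11 : Module.Projective R (EH σ1 σ1) := EH_proj p1
  have j00 : Module.Projective R (EH σ0 σ0) := EH_proj p0
  have j10 : Module.Projective R (EH σ1 σ0) := EH_proj p1
  have s01 : Function.Surjective P01 := by
    intro fb
    obtain ⟨f, hf, hf'⟩ := red_surj res hr p0 h0 h1 fb.2
    refine ⟨⟨f, hf⟩, Subtype.ext (LinearMap.ext fun v => ?_)⟩
    obtain ⟨w, rfl⟩ := h0.surj v
    rw [h01]
    exact hf' w
  have s11 : Function.Surjective P11 := by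
    intro fb
    obtain ⟨f, hf, hf'⟩ := red_surj res hr p1 h1 h1 fb.2
    refine ⟨⟨f, hf⟩, Subtype.ext (LinearMap.ext fun v => ?_)⟩
    obtain ⟨w, rfl⟩ := h1.surj v
    rw [h11]
    exact hf' w
  have s00 : Function.Surjective P00 := by
    intro fb
    obtain ⟨f, hf, hf'⟩ := red_surj res hr p0 h0 h0 fb.2
    refine ⟨⟨f, hf⟩, Subtype.ext (LinearMap.ext fun v => ?_)⟩
    obtain ⟨w, rfl⟩ := h0.surj v
    rw [h00]
    exact hf' w
  have key := LD_nak res hu rd P01 P11 P00 P10 rds s01 s11 s00 rdk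
    (fun f hf => red_ker res hr p0 h0 h1 fun v => by rw [← h01, hf]; rfl)
    (fun f hf => red_ker res hr p1 h1 h1 fun v => by rw [← h11, hf]; rfl)
    (fun f hf => red_ker res hr p0 h0 h0 fun v => by rw [← h00, hf]; rfl)
    (fun f hf => red_ker res hr p1 h1 h0 fun v => by rw [← h10, hf]; rfl)
    (LD_a hd m0 m1) (LD_b hd)
    (by
      intro x
      refine Subtype.ext (LinearMap.ext fun t => ?_)
      show d ((m1 x.1).1 t + x.2.1 (d t)) - ((m0 x.1).1 (d t) + d (x.2.1 (d t))) = 0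
      rw [map_add, hm, sub_self])
    { toFun := fun x => (⟨(n1 x.1).1 + x.2.1 ∘ₗ e, fun g t => by
          show (n1 x.1).1 (τ1 g t) + x.2.1 (e (τ1 g t)) = τ1 g ((n1 x.1).1 t + x.2.1 (e t))
          rw [map_add, he g t, x.2.2 g, (n1 x.1).2 g]⟩,
        ⟨(n0 x.1).1 + e ∘ₗ x.2.1, fun g a => by
          show (n0 x.1).1 (τ0 g a) + e (x.2.1 (τ0 g a)) = τ0 g ((n0 x.1).1 a + e (x.2.1 a))
          rw [map_add, x.2.2 g, he g, (n0 x.1).2 g]⟩)
      map_zero' := by
        refine Prod.ext (Subtype.ext (LinearMap.ext fun t => ?_))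
          (Subtype.ext (LinearMap.ext fun a => ?_))
        · show (n1 0).1 t + 0 = 0
          rw [map_zero, add_zero]
          rfl
        · show (n0 0).1 a + e 0 = 0
          rw [map_zero, map_zero, add_zero]
          rfl
      map_add' := by
        intro x y
        refine Prod.ext (Subtype.ext (LinearMap.ext fun t => ?_))
          (Subtype.ext (LinearMap.ext fun a => ?_))
        · show (n1 (x.1 + y.1)).1 t + (x.2.1 (e t) + y.2.1 (e t)) =
            ((n1 x.1).1 t + x.2.1 (e t)) + ((n1 y.1).1 t + y.2.1 (e t))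
          rw [map_add]
          show ((n1 x.1).1 t + (n1 y.1).1 t) + (x.2.1 (e t) + y.2.1 (e t)) = _
          abel
        · show (n0 (x.1 + y.1)).1 a + e (x.2.1 a + y.2.1 a) =
            ((n0 x.1).1 a + e (x.2.1 a)) + ((n0 y.1).1 a + e (y.2.1 a))
          rw [map_add, map_add]
          show ((n0 x.1).1 a + (n0 y.1).1 a) + _ = _
          abel }
    { toFun := fun x => ⟨e ∘ₗ x.1.1 - x.2.1 ∘ₗ e, fun g t => by
          show e (x.1.1 (τ1 g t)) - x.2.1 (e (τ1 g t)) = τ0 g (e (x.1.1 t) - x.2.1 (e t))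
          rw [map_sub, x.1.2 g, he g, he g, x.2.2 g]⟩
      map_zero' := by
        refine Subtype.ext (LinearMap.ext fun t => ?_)
        show e 0 - 0 = 0
        rw [map_zero, sub_zero]
      map_add' := by
        intro x y
        refine Subtype.ext (LinearMap.ext fun t => ?_)
        show e (x.1.1 t + y.1.1 t) - (x.2.1 (e t) + y.2.1 (e t)) =
          (e (x.1.1 t) - x.2.1 (e t)) + (e (y.1.1 t) - y.2.1 (e t))
        rw [map_add]
        abel }
    (by
      intro x y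
      refine Prod.ext (Subtype.ext (LinearMap.ext fun t => ?_))
        (Subtype.ext (LinearMap.ext fun a => ?_))
      · obtain ⟨t, rfl⟩ := h1.surj t
        rw [h11]
        show (n1 (rd x)).1 (π1 t) + (P01 y).1 (e (π1 t)) = π1 ((m1 x).1 t + y.1 (d t))
        rw [map_add, hm1, ← hde, h01]
      · obtain ⟨a, rfl⟩ := h0.surj a
        rw [h00]
        show (n0 (rd x)).1 (π0 a) + e ((P01 y).1 (π0 a)) = π0 ((m0 x).1 a + d (y.1 a))
        rw [map_add, hm0, hde, h01])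
    (by
      intro x y
      refine Subtype.ext (LinearMap.ext fun t => ?_)
      obtain ⟨t, rfl⟩ := h1.surj t
      rw [h10]
      show e ((P11 x).1 (π1 t)) - (P00 y).1 (e (π1 t)) = π0 (d (x.1 t) - y.1 (d t))
      rw [map_sub, h11, ← hde, ← hde, h00])
    (by
      rintro b u hx
      obtain ⟨e1, e2⟩ := k1 b u.1 u.2
        (fun t => DFunLike.congr_fun (congrArg Subtype.val (congrArg Prod.fst hx)) t)
        (fun a => DFunLike.congr_fun (congrArg Subtype.val (congrArg Prod.snd hx)) a)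
      exact ⟨e1, Subtype.ext e2⟩)
    (by
      rintro α β hx
      obtain ⟨b, u, hu', e1, e2⟩ := k2 α.1 β.1 α.2 β.2 (fun t =>
        sub_eq_zero.1 (DFunLike.congr_fun (congrArg Subtype.val hx) t))
      refine ⟨b, ⟨u, hu'⟩, Prod.ext (Subtype.ext (LinearMap.ext fun t => ?_))
        (Subtype.ext (LinearMap.ext fun a => ?_))⟩
      · exact (e1 t).symm
      · exact (e2 a).symm)
    (by
      intro f
      obtain ⟨α, β, hα, hβ, h⟩ := k3 f.1 f.2
      refine ⟨⟨α, hα⟩, -⟨β, hβ⟩, Subtype.ext (LinearMap.ext fun t => ?_)⟩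
      show e (α t) - (-β) (e t) = f.1 t
      rw [h, LinearMap.neg_apply, sub_neg_eq_add])
  obtain ⟨q1, q2, q3⟩ := key
  refine ⟨?_, ?_, ?_⟩
  · intro b u hu' e1 e2
    have h2 := q1 (b, ⟨u, hu'⟩) (Prod.ext (Subtype.ext (LinearMap.ext e1))
      (Subtype.ext (LinearMap.ext e2)))
    exact ⟨congrArg Prod.fst h2, congrArg Subtype.val (congrArg Prod.snd h2)⟩
  · intro α β hα hβ hc
    obtain ⟨⟨b, u⟩, h⟩ := q2 (⟨α, hα⟩, ⟨β, hβ⟩) (Subtype.ext (LinearMap.ext fun x =>
      sub_eq_zero.2 (hc x)))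
    refine ⟨b, u.1, u.2, fun x => ?_, fun y => ?_⟩
    · exact (DFunLike.congr_fun (congrArg Subtype.val (congrArg Prod.fst h)) x).symm
    · exact (DFunLike.congr_fun (congrArg Subtype.val (congrArg Prod.snd h)) y).symm
  · intro f hf
    obtain ⟨⟨α, β⟩, h⟩ := q3 ⟨f, hf⟩
    refine ⟨α.1, -β.1, α.2, fun g v => ?_, fun x => ?_⟩
    · show -(β.1 (σ0 g v)) = σ0 g (-(β.1 v))
      rw [β.2 g, map_neg]
    · have := (DFunLike.congr_fun (congrArg Subtype.val h) x).symm
      refine this.trans ?_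
      show d (α.1 x) - β.1 (d x) = _
      rw [LinearMap.neg_apply, sub_eq_add_neg]

end LDabs

/-- the right multiplication on `F1 A` -/
private def LD_m1 {R Z E A : Type} [CommRing R] [CommGroup Z] [Fintype Z] [CommGroup E]
    {θ : E →* MulAut Z} [Ring A] [Algebra R A] {ρ : (Z ⋊[θ] E) →* A} (Φ : Fam R ρ) :
    A →ₗ[R] EH (Φ.act A) (Φ.act A) where
  toFun b := ⟨Φ.rm b, map_eqv Φ (LinearMap.toSpanSingleton A A b)⟩
  map_add' x y := Subtype.ext (LinearMap.ext fun t => Subtype.ext (funext fun p =>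
    mul_add (t.1 p) x y))
  map_smul' r x := Subtype.ext (LinearMap.ext fun t => Subtype.ext (funext fun p =>
    mul_smul_comm r (t.1 p) x))

/-- the right multiplication on `A` -/
private def LD_m0 {R G A : Type} [CommRing R] [Group G]
    [Ring A] [Algebra R A] (ρ : G →* A) :
    A →ₗ[R] EH (rp (R := R) ρ A) (rp ρ A) where
  toFun b := ⟨LinearMap.mulRight R b, fun g a => mul_assoc (ρ g) a b⟩
  map_add' x y := Subtype.ext (LinearMap.ext fun t => mul_add t x y)
  map_smul' r x := Subtype.ext (LinearMap.ext fun t => mul_smul_comm r t x)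

/-- MODULE LD. LIFTING. PROOF. `nak_exact` for `M₁ = A × EH(A, F1 A)`, `M₂ = EH(F1 A, F1 A) × EH(A, A)`,
`M₃ = EH(F1 A, A)`, `a (b, u) = (rm b + u d, mulRight b + d u)`, `b (α, β) = d α - β d`, and the same over `k` for
`H`, `Φ₀`; the reductions are those of `exists_red`, onto by `red_surj`, with kernels `m M_i` by `red_ker` (for products:
`m (M × M') = m M × m M'`) (`prj_act`, `prj_A`, `cardE_unit`, `F1_fin`, `EH_fin`, `EH_proj`). Over `k` the exactness is
`hk : Ex3 Φ₀ H H` and `hs`: an `H`-linear map `g : H → H` is the right multiplication by `g 1`; injectivity of `a'`: if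
`(g, u)` goes to `0` then `g = 0` (`unq`) and then `u = 0` (`inj`). The conclusion is `Ex0` (sur, mid: surjectivity and exactness;
inj, uni: injectivity of `a`). -/
theorem lift_ex {Φ₀ : Fam k Q.K.ρ} (L : LFam Q Φ₀) (hk : Ex3 Φ₀ H H)
    (hs : ∀ f : Φ₀.F1 H →ₗ[k] H, Eqv (Φ₀.act H) (rp Q.K.ρ H) f →
      ∃ (α : Φ₀.F1 H →ₗ[k] Φ₀.F1 H) (β : H →ₗ[k] H), Eqv (Φ₀.act H) (Φ₀.act H) α ∧
        Eqv (rp (R := k) Q.K.ρ H) (rp Q.K.ρ H) β ∧ ∀ t, f t = Φ₀.d H (α t) + β (Φ₀.d H t)) :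
    Ex0 L.Φ := by
  obtain ⟨fF, gF⟩ := F1_fin (Q := Q) L.Φ
  have fA := Q.fin
  have gA' := Q.free
  have gA : Module.Projective R A := inferInstance
  obtain ⟨k1, k2, k3⟩ := LD_abs Q.res Q.ress Q.resu (σ0 := rp Q.ρ A) (σ1 := L.Φ.act A)
    (τ0 := rp Q.K.ρ H) (τ1 := Φ₀.act H) prj_A (prj_act L.Φ (cardE_unit Q)) (red_A (Q := Q))
    (red_F1 L) (d := L.Φ.d A) (d_eqv L.Φ) (e := Φ₀.d H) (d_eqv Φ₀) (red_d L) (Q.rd : A →+ H)
    Q.rds Q.rdk (LD_m0 Q.ρ) (LD_m1 L.Φ)
    (fun a x => d_map L.Φ (LinearMap.toSpanSingleton A A a) x)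
    (LD_m0 Q.K.ρ).toAddMonoidHom (LD_m1 Φ₀).toAddMonoidHom
    (fun a x => map_mul Q.rd x a)
    (fun a x => Subtype.ext (funext fun p => map_mul Q.rd (x.1 p) a))
    (by
      intro b u hu' h1 h2
      have h3 : b = 0 := by
        have := hk.unq (LinearMap.toSpanSingleton H H b) u hu' h2 h1 1
        rwa [LinearMap.toSpanSingleton_apply, one_smul] at this
      subst h3
      refine ⟨rfl, LinearMap.ext fun v => ?_⟩
      refine hk.inj u hu' (fun v => ?_) (fun t => ?_) v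
      · have h4 : v * 0 + Φ₀.d H (u v) = 0 := h2 v
        rwa [mul_zero, zero_add] at h4
      · have h4 : Φ₀.rm (0 : H) t + u (Φ₀.d H t) = 0 := h1 t
        have h5 : Φ₀.rm (0 : H) t = 0 := Subtype.ext (funext fun p => mul_zero _)
        rwa [h5, zero_add] at h4)
    (by
      intro α β hα hβ h1
      obtain ⟨g, u, hu', h2, h3⟩ := hk.mid α β hα hβ h1
      have hg : ∀ a, g a = a * g 1 := fun a => by
        rw [← smul_eq_mul, ← map_smul, smul_eq_mul, mul_one]
      refine ⟨g 1, u, hu', fun t => ?_, fun a => ?_⟩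
      · rw [h3]
        congr 1
        exact Subtype.ext (funext fun p => hg (t.1 p))
      · rw [h2]
        congr 1
        exact hg a)
    hs
  refine ⟨?_, ?_, ?_, ?_⟩
  · intro f hf
    obtain ⟨α, β, hα, hβ, h⟩ := k3 f hf
    exact ⟨α, β, hα, hβ, LinearMap.ext h⟩
  · intro u hu' h1 h2
    refine (k1 0 u hu' (fun x => ?_) (fun y => ?_)).2
    · show L.Φ.rm 0 x + u (L.Φ.d A x) = 0
      have h5 : L.Φ.rm (0 : A) x = 0 := Subtype.ext (funext fun p => mul_zero _)
      rw [h5, zero_add]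
      exact DFunLike.congr_fun h1 x
    · show y * 0 + L.Φ.d A (u y) = 0
      rw [mul_zero, zero_add]
      exact DFunLike.congr_fun h2 y
  · intro α β hα hβ hc
    obtain ⟨b, u, hu', h1, h2⟩ := k2 α β hα hβ (fun x => DFunLike.congr_fun hc x)
    exact ⟨b, u, hu', LinearMap.ext h1, LinearMap.ext h2⟩
  · intro b u hu' h1 h2
    exact (k1 b u hu' (fun x => DFunLike.congr_fun h1 x) (fun y => DFunLike.congr_fun h2 y)).1

end Pk

end Pool.Agent.FbT
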