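import Pool.Agent.FbT.Defs

/-!
# FbT, part Tr: traces, relative projectivity, the threshold lemma

All spaces are arbitrary; `k` is a field.
-/

set_option autoImplicit false

namespace Pool.Agent.FbT

open Pool.Agent.Sig Pool.Agent.DD

section Basic

variable {R G : Type} [CommRing R] [Group G] [Fintype G] {V W V' W' : Type}
  [AddCommGroup V] [Module R V] [AddCommGroup W] [Module R W]
  [AddCommGroup V'] [Module R V'] [AddCommGroup W'] [Module R W']

private theorem TA1_apply (σ : Representation R G V) (τ : Representation R G W) (φ : V →ₗ[R] W)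
    (v : V) : Trc σ τ φ v = ∑ g : G, τ g (φ (σ g⁻¹ v)) := by
  rw [Trc, LinearMap.sum_apply]
  rfl

/-- MODULE TA1. A trace is equivariant. PROOF. `τ h (Trc φ v) = ∑_g τ (h g) φ (σ g⁻¹ v)`; substitute
`g ↦ h⁻¹ g` (`Equiv.sum_comp (Equiv.mulLeft h)`): `= ∑_g τ g φ (σ (g⁻¹ h) v) = Trc φ (σ h v)`. -/
theorem trc_eqv (σ : Representation R G V) (τ : Representation R G W) (φ : V →ₗ[R] W) :
    Eqv σ τ (Trc σ τ φ) := by
  intro h v
  rw [TA1_apply, TA1_apply, map_sum]
  refine (Equiv.sum_comp (Equiv.mulLeft h) _).symm.trans (Finset.sum_congr rfl fun g _ => ?_)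
  rw [Equiv.coe_mulLeft, map_mul, Module.End.mul_apply, mul_inv_rev, ← Module.End.mul_apply (σ (g⁻¹ * h⁻¹)),
    ← map_mul, inv_mul_cancel_right]

/-- MODULE TA1. PROOF. `f σ'(g⁻¹) = σ(g⁻¹) f`. -/
theorem trc_comp {σ : Representation R G V} {τ : Representation R G W}
    {σ' : Representation R G V'} {f : V' →ₗ[R] V} (hf : Eqv σ' σ f) (φ : V →ₗ[R] W) :
    Trc σ τ φ ∘ₗ f = Trc σ' τ (φ ∘ₗ f) := by
  ext v
  rw [LinearMap.comp_apply, TA1_apply, TA1_apply]
  refine Finset.sum_congr rfl fun g _ => ?_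
  rw [LinearMap.comp_apply, hf]

/-- MODULE TA1. PROOF. `f τ(g) = τ'(g) f`. -/
theorem comp_trc {σ : Representation R G V} {τ : Representation R G W}
    {τ' : Representation R G W'} {f : W →ₗ[R] W'} (hf : Eqv τ τ' f) (φ : V →ₗ[R] W) :
    f ∘ₗ Trc σ τ φ = Trc σ τ' (f ∘ₗ φ) := by
  ext v
  rw [LinearMap.comp_apply, TA1_apply, TA1_apply, map_sum]
  refine Finset.sum_congr rfl fun g _ => ?_
  rw [LinearMap.comp_apply, hf]

/-- MODULE TA1. If `V` or `W` is relatively projective, every equivariant map is a trace. PROOF.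
`f = f id = f Trc φ = Trc (f φ)`. -/
theorem eqv_trc_left {σ : Representation R G V} {τ : Representation R G W} {f : V →ₗ[R] W}
    (hf : Eqv σ τ f) (hV : Prj σ) : ∃ φ : V →ₗ[R] W, Trc σ τ φ = f := by
  obtain ⟨φ, hφ⟩ := hV
  exact ⟨f ∘ₗ φ, by rw [← comp_trc hf, hφ, LinearMap.comp_id]⟩

/-- MODULE TA1. See `eqv_trc_left`. -/
theorem eqv_trc_right {σ : Representation R G V} {τ : Representation R G W} {f : V →ₗ[R] W}
    (hf : Eqv σ τ f) (hW : Prj τ) : ∃ φ : V →ₗ[R] W, Trc σ τ φ = f := by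
  obtain ⟨φ, hφ⟩ := hW
  exact ⟨φ ∘ₗ f, by rw [← trc_comp hf, hφ, LinearMap.id_comp]⟩

/-- MODULE TA1. PROOF. `Trc` is additive and homogeneous (sums of compositions). -/
theorem trc_add (σ : Representation R G V) (τ : Representation R G W) (φ φ' : V →ₗ[R] W) :
    Trc σ τ (φ + φ') = Trc σ τ φ + Trc σ τ φ' := by
  ext v
  rw [LinearMap.add_apply, TA1_apply, TA1_apply, TA1_apply, ← Finset.sum_add_distrib]
  refine Finset.sum_congr rfl fun g _ => ?_
  rw [LinearMap.add_apply, map_add]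

/-- MODULE TA1. -/
theorem trc_smul (σ : Representation R G V) (τ : Representation R G W) (c : R) (φ : V →ₗ[R] W) :
    Trc σ τ (c • φ) = c • Trc σ τ φ := by
  ext v
  rw [LinearMap.smul_apply, TA1_apply, TA1_apply, Finset.smul_sum]
  refine Finset.sum_congr rfl fun g _ => ?_
  rw [LinearMap.smul_apply, map_smul]

end Basic

section Fld

variable {k G : Type} [Field k] [Group G] [Fintype G] {V W N V' : Type}
  [AddCommGroup V] [Module k V] [AddCommGroup W] [Module k W]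
  [AddCommGroup N] [Module k N] [AddCommGroup V'] [Module k V']

/-- MODULE TA2. An injective equivariant map from a relatively projective `N` splits. PROOF. Let
`r₀ D = id` be a linear left inverse (`LinearMap.exists_leftInverse_of_injective`), `Trc φ = id_N`;
`r = Trc (φ r₀)` is equivariant (`trc_eqv`) and `r D = Trc (φ r₀ D) = Trc φ = id` (`trc_comp`). -/
theorem prj_retract {ν : Representation k G N} {σ : Representation k G V} (hN : Prj ν)
    {D : N →ₗ[k] V} (hD : Eqv ν σ D) (hi : Function.Injective D) :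
    ∃ r : V →ₗ[k] N, Eqv σ ν r ∧ ∀ x, r (D x) = x := by
  obtain ⟨r₀, hr⟩ := LinearMap.exists_leftInverse_of_injective D (LinearMap.ker_eq_bot.2 hi)
  obtain ⟨φ, hφ⟩ := hN
  refine ⟨Trc σ ν (φ ∘ₗ r₀), trc_eqv _ _ _, fun x => ?_⟩
  rw [← LinearMap.comp_apply, trc_comp hD, LinearMap.comp_assoc, hr, LinearMap.comp_id, hφ,
    LinearMap.id_apply]

/-- MODULE TA2. A relatively projective `N` is injective relative to equivariant maps. PROOF.
Let `r₀ i = id` be a linear left inverse of `i`; `ũ = Trc (φ u r₀)`,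
`ũ i = Trc (φ u r₀ i) = Trc (φ u) = Trc φ u = u`. -/
theorem prj_extend {ν : Representation k G N} {σ : Representation k G V}
    {σ' : Representation k G V'} (hN : Prj ν) {i : V' →ₗ[k] V} (hi : Eqv σ' σ i)
    (hinj : Function.Injective i) {u : V' →ₗ[k] N} (hu : Eqv σ' ν u) :
    ∃ w : V →ₗ[k] N, Eqv σ ν w ∧ ∀ x, w (i x) = u x := by
  obtain ⟨r₀, hr⟩ := LinearMap.exists_leftInverse_of_injective i (LinearMap.ker_eq_bot.2 hinj)
  obtain ⟨φ, hφ⟩ := hN
  refine ⟨Trc σ ν (φ ∘ₗ u ∘ₗ r₀), trc_eqv _ _ _, fun x => ?_⟩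
  rw [← LinearMap.comp_apply, trc_comp hi, LinearMap.comp_assoc, LinearMap.comp_assoc, hr,
    LinearMap.comp_id, ← trc_comp hu, hφ, LinearMap.id_comp]

/-- MODULE TA2. A relatively projective `N` is projective relative to equivariant maps. PROOF. Let
`D s₀ = id` be a linear right inverse; `w = Trc (s₀ f φ)`, `D w = Trc (D s₀ f φ) = f Trc φ = f`. -/
theorem prj_lift {ν : Representation k G N} {σ : Representation k G V}
    {τ : Representation k G W} (hN : Prj ν) {D : V →ₗ[k] W} (hD : Eqv σ τ D)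
    (hs : Function.Surjective D) {f : N →ₗ[k] W} (hf : Eqv ν τ f) :
    ∃ w : N →ₗ[k] V, Eqv ν σ w ∧ ∀ x, D (w x) = f x := by
  obtain ⟨s₀, hr⟩ := LinearMap.exists_rightInverse_of_surjective D (LinearMap.range_eq_top.2 hs)
  obtain ⟨φ, hφ⟩ := hN
  refine ⟨Trc ν σ (s₀ ∘ₗ f ∘ₗ φ), trc_eqv _ _ _, fun x => ?_⟩
  rw [← LinearMap.comp_apply, comp_trc hD, ← LinearMap.comp_assoc, hr, LinearMap.id_comp,
    ← comp_trc hf, hφ, LinearMap.comp_id]

/-- MODULE TA2. A trace lifts along surjections. PROOF. `w = Trc (s₀ φ)`. -/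
theorem trc_lift {σ : Representation k G V} {τ : Representation k G W}
    {σ' : Representation k G V'} {D : V →ₗ[k] W} (hD : Eqv σ τ D) (hs : Function.Surjective D)
    (φ : V' →ₗ[k] W) : ∃ w : V' →ₗ[k] V, Eqv σ' σ w ∧ ∀ x, D (w x) = Trc σ' τ φ x := by
  obtain ⟨s₀, hr⟩ := LinearMap.exists_rightInverse_of_surjective D (LinearMap.range_eq_top.2 hs)
  refine ⟨Trc σ' σ (s₀ ∘ₗ φ), trc_eqv _ _ _, fun x => ?_⟩
  rw [← LinearMap.comp_apply, comp_trc hD, ← LinearMap.comp_assoc, hr, LinearMap.id_comp]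

/-- MODULE TA2. A trace extends along injections. PROOF. `w = Trc (φ r₀)`, `r₀ i = id` linear. -/
theorem trc_extend {σ : Representation k G V} {τ : Representation k G W}
    {σ' : Representation k G V'} {i : V' →ₗ[k] V} (hi : Eqv σ' σ i)
    (hinj : Function.Injective i) (φ : V' →ₗ[k] W) :
    ∃ w : V →ₗ[k] W, Eqv σ τ w ∧ ∀ x, w (i x) = Trc σ' τ φ x := by
  obtain ⟨r₀, hr⟩ := LinearMap.exists_leftInverse_of_injective i (LinearMap.ker_eq_bot.2 hinj)
  refine ⟨Trc σ τ (φ ∘ₗ r₀), trc_eqv _ _ _, fun x => ?_⟩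
  rw [← LinearMap.comp_apply, trc_comp hi, LinearMap.comp_assoc, hr, LinearMap.comp_id]

private theorem TA5_cyc {ν : Representation k G N} [FiniteDimensional k N] (ψ t : N →ₗ[k] N) :
    LinearMap.trace k N (ψ ∘ₗ Trc ν ν t) = LinearMap.trace k N (Trc ν ν ψ ∘ₗ t) := by
  have h1 : ψ ∘ₗ Trc ν ν t = ∑ g : G, ψ ∘ₗ (ν g ∘ₗ t ∘ₗ ν g⁻¹) := by
    ext v
    rw [LinearMap.comp_apply, TA1_apply, map_sum, LinearMap.sum_apply]
    rfl
  have h2 : Trc ν ν ψ ∘ₗ t = ∑ g : G, (ν g ∘ₗ ψ ∘ₗ ν g⁻¹) ∘ₗ t := by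
    ext v
    rw [LinearMap.comp_apply, TA1_apply, LinearMap.sum_apply]
    rfl
  rw [h1, h2, map_sum, map_sum]
  refine (Equiv.sum_comp (Equiv.inv G) _).symm.trans (Finset.sum_congr rfl fun g _ => ?_)
  rw [Equiv.inv_apply, inv_inv]
  have h3 : ψ ∘ₗ (ν g⁻¹ ∘ₗ t ∘ₗ ν g) = (ψ ∘ₗ (ν g⁻¹ ∘ₗ t)) ∘ₗ ν g := rfl
  have h4 : (ν g ∘ₗ ψ ∘ₗ ν g⁻¹) ∘ₗ t = ν g ∘ₗ (ψ ∘ₗ (ν g⁻¹ ∘ₗ t)) := rfl
  rw [h3, h4, LinearMap.trace_comp_comm']

/-- MODULE TA5. The trace of a composition with a relatively projective space. PROOF. `Trc t = id` on `N`: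
`tr(u φ) = tr(u φ Trc t) = ∑_g tr(u φ ν(g) t ν(g⁻¹)) = ∑_g tr(ν(g⁻¹) u φ ν(g) t) =
∑_g tr(u σ(g⁻¹) φ ν(g) t) = tr(u Trc(φ) t)` (`LinearMap.trace_mul_comm`/`trace_comp_comm'`, `g ↦ g⁻¹`). -/
theorem tr_pair {ν : Representation k G N} {σ : Representation k G V} [FiniteDimensional k N]
    [FiniteDimensional k V] {u : V →ₗ[k] N} (hu : Eqv σ ν u) {t : N →ₗ[k] N}
    (ht : Trc ν ν t = LinearMap.id) (φ : N →ₗ[k] V) :
    LinearMap.trace k N (u ∘ₗ φ) = LinearMap.trace k N (u ∘ₗ Trc ν σ φ ∘ₗ t) := by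
  have h1 : u ∘ₗ φ = (u ∘ₗ φ) ∘ₗ Trc ν ν t := by rw [ht, LinearMap.comp_id]
  rw [h1, TA5_cyc, ← comp_trc hu, LinearMap.comp_assoc]

/-- MODULE TA5. The same with the trace on the other side. PROOF.
`tr(Trc(φ) u t) = ∑_g tr(ν(g) φ σ(g⁻¹) u t) = ∑_g tr(φ u ν(g⁻¹) t ν(g)) = tr(φ u Trc t) = tr(φ u)`. -/
theorem tr_pair' {ν : Representation k G N} {σ : Representation k G V} [FiniteDimensional k N]
    [FiniteDimensional k V] {u : N →ₗ[k] V} (hu : Eqv ν σ u) {t : N →ₗ[k] N}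
    (ht : Trc ν ν t = LinearMap.id) (φ : V →ₗ[k] N) :
    LinearMap.trace k N (φ ∘ₗ u) = LinearMap.trace k N (Trc σ ν φ ∘ₗ u ∘ₗ t) := by
  have h1 : φ ∘ₗ u = (φ ∘ₗ u) ∘ₗ Trc ν ν t := by rw [ht, LinearMap.comp_id]
  rw [h1, TA5_cyc, ← trc_comp hu, LinearMap.comp_assoc]

/-- MODULE TA5. The trace pairing is nondegenerate. PROOF. If `u v ≠ 0`, take a linear form `f` with `f (u v) = 1` and
`φ = f(·) v` (`LinearMap.smulRight`): `tr(u φ) = f(u v) = 1`. -/
theorem tr_nondeg [FiniteDimensional k N] [FiniteDimensional k V] {u : V →ₗ[k] N}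
    (h : ∀ φ : N →ₗ[k] V, LinearMap.trace k N (u ∘ₗ φ) = 0) : u = 0 := by
  ext v
  rw [LinearMap.zero_apply]
  refine (Module.forall_dual_apply_eq_zero_iff k _).1 fun f => ?_
  have h1 := h (f.smulRight v)
  have h2 : u ∘ₗ f.smulRight v = f.smulRight (u v) := by
    ext w
    rw [LinearMap.comp_apply, LinearMap.smulRight_apply, LinearMap.smulRight_apply, map_smul]
  rwa [h2, LinearMap.trace_smulRight] at h1

/-- MODULE TP1. The two trace pairings of `EH(V, N)` and `EH(N, V)` agree. PROOF. `Trc t = id_N`, `Trc t' = id_V`: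
`tr_N(u f t) = tr_N(u Trc(t') f t) = tr_N(Trc(u t' f) t)` (`comp_trc`, `trc_comp`)
`= tr_N(u t' f)` (as in `tr_pair'` for the map `u t' f` and `id`) `= tr_V(f u t')`. -/
theorem tr_swap {ν : Representation k G N} {σ : Representation k G V} [FiniteDimensional k N]
    [FiniteDimensional k V] {u : V →ₗ[k] N} (hu : Eqv σ ν u) {f : N →ₗ[k] V} (hf : Eqv ν σ f)
    {t : N →ₗ[k] N} (ht : Trc ν ν t = LinearMap.id) {t' : V →ₗ[k] V}
    (ht' : Trc σ σ t' = LinearMap.id) :
    LinearMap.trace k N (u ∘ₗ f ∘ₗ t) = LinearMap.trace k V (f ∘ₗ u ∘ₗ t') := by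
  have h1 : u ∘ₗ f ∘ₗ t = Trc ν ν (u ∘ₗ t' ∘ₗ f) ∘ₗ t := by
    rw [← comp_trc hu, ← trc_comp hf, ht', LinearMap.id_comp, LinearMap.comp_assoc]
  rw [h1, ← TA5_cyc, ht, LinearMap.comp_id, LinearMap.trace_comp_comm' (t' ∘ₗ f) u,
    LinearMap.comp_assoc, LinearMap.trace_comp_comm' (f ∘ₗ u) t', LinearMap.comp_assoc]

private noncomputable def TP1_psi (ν : Representation k G N) (σ : Representation k G V)
    (t : N →ₗ[k] N) : EH σ ν →ₗ[k] Module.Dual k (EH ν σ) :=
  LinearMap.mk₂ k (fun u f => LinearMap.trace k N (u.1 ∘ₗ f.1 ∘ₗ t))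
    (fun u u' f => by rw [← map_add]; rfl)
    (fun c u f => by rw [← map_smul]; rfl)
    (fun u f f' => by
      rw [← map_add]
      congr 1
      ext v
      simp)
    (fun c u f => by
      rw [← map_smul]
      congr 1
      ext v
      simp)

/-- MODULE TP1. Every linear form on `EH(N, V)` is a trace form. PROOF. The map
`EH(V, N) → Dual (EH(N, V))`, `u ↦ (f ↦ tr(u f t))` is injective: if `tr(u f t) = 0` for all equivariant `f` then
`tr(u φ) = tr(u Trc(φ) t) = 0` for all `φ` (`tr_pair`), `u = 0` (`tr_nondeg`). By symmetry (`tr_swap`)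
`EH(N, V) → Dual (EH(V, N))` is injective, so both spaces have the same finite dimension and the first
map is bijective. -/
theorem tr_perfect {ν : Representation k G N} {σ : Representation k G V} [FiniteDimensional k N]
    [FiniteDimensional k V] {t : N →ₗ[k] N} (ht : Trc ν ν t = LinearMap.id) {t' : V →ₗ[k] V}
    (ht' : Trc σ σ t' = LinearMap.id) (l : EH ν σ →ₗ[k] k) :
    ∃ u : V →ₗ[k] N, Eqv σ ν u ∧ ∀ f : EH ν σ, l f = LinearMap.trace k N (u ∘ₗ f.1 ∘ₗ t) := by
  have h1 : Function.Injective (TP1_psi ν σ t) := by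
    refine (injective_iff_map_eq_zero _).2 fun u hu => ?_
    refine Subtype.ext (tr_nondeg fun φ => ?_)
    rw [tr_pair u.2 ht]
    exact LinearMap.congr_fun hu ⟨Trc ν σ φ, trc_eqv _ _ _⟩
  have h2 : Function.Injective (TP1_psi σ ν t') := by
    refine (injective_iff_map_eq_zero _).2 fun u hu => ?_
    refine Subtype.ext (tr_nondeg fun φ => ?_)
    rw [tr_pair u.2 ht']
    exact LinearMap.congr_fun hu ⟨Trc σ ν φ, trc_eqv _ _ _⟩
  have h3 : Module.finrank k (EH σ ν) = Module.finrank k (Module.Dual k (EH ν σ)) := by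
    refine le_antisymm (LinearMap.finrank_le_finrank_of_injective h1) ?_
    rw [Subspace.dual_finrank_eq]
    refine (LinearMap.finrank_le_finrank_of_injective h2).trans ?_
    rw [Subspace.dual_finrank_eq]
  obtain ⟨u, hu⟩ := (LinearMap.injective_iff_surjective_of_finrank_eq_finrank h3).1 h1 l
  exact ⟨u.1, u.2, fun f => by rw [← hu]; rfl⟩

/-- MODULE TP2. DUALITY: for a two-term complex `d : N → V` of relatively projective representations, if there are no
maps of degree `-1` then every map of degree `1` is null homotopic. PROOF. The maps `d α + β d` form a subspace `I` of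
`EH(N, V)`. If `I` is not everything there is a linear form `l ≠ 0` with `l(I) = 0`; `l f = tr(u f t)` by `tr_perfect`, `u`
equivariant, `u ≠ 0`. `tr(u d α t) = 0` for all equivariant `α : N → N`, in particular for `α = Trc φ`, so
`tr(u d φ) = 0` for all `φ` (`tr_pair` for `u d : N → N`), `u d = 0` (`tr_nondeg`).
`tr_N(u β d t) = tr_V(β d u t')` (`tr_swap` with `f = β d`), for `β = Trc φ` it is `tr_V(φ d u)` (`tr_pair'`), so
`d u = 0` (`tr_nondeg`, `tr(φ w) = tr(w φ)`). So `u = 0` by hypothesis, a contradiction. -/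
theorem sur_of_inj {ν : Representation k G N} {σ : Representation k G V} [FiniteDimensional k N]
    [FiniteDimensional k V] (hN : Prj ν) (hV : Prj σ) {d : N →ₗ[k] V} (hd : Eqv ν σ d)
    (hinj : ∀ u : V →ₗ[k] N, Eqv σ ν u → (∀ v, d (u v) = 0) → (∀ x, u (d x) = 0) → u = 0)
    {f : N →ₗ[k] V} (hf : Eqv ν σ f) : ∃ (α : N →ₗ[k] N) (β : V →ₗ[k] V), Eqv ν ν α ∧
      Eqv σ σ β ∧ ∀ x, f x = d (α x) + β (d x) := by
  obtain ⟨t, ht⟩ := hN
  obtain ⟨t', ht'⟩ := hV
  let I : Submodule k (EH ν σ) :=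
    { carrier := {f | ∃ (α : N →ₗ[k] N) (β : V →ₗ[k] V), Eqv ν ν α ∧ Eqv σ σ β ∧
        ∀ x, f.1 x = d (α x) + β (d x)}
      zero_mem' := ⟨0, 0, fun g v => by simp, fun g v => by simp, fun x => by simp⟩
      add_mem' := by
        rintro f f' ⟨α, β, hα, hβ, h⟩ ⟨α', β', hα', hβ', h'⟩
        refine ⟨α + α', β + β', (EH ν ν).add_mem hα hα', (EH σ σ).add_mem hβ hβ', fun x => ?_⟩
        show f.1 x + f'.1 x = _
        rw [h, h', LinearMap.add_apply, LinearMap.add_apply, map_add]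
        abel
      smul_mem' := by
        rintro c f ⟨α, β, hα, hβ, h⟩
        refine ⟨c • α, c • β, (EH ν ν).smul_mem c hα, (EH σ σ).smul_mem c hβ, fun x => ?_⟩
        show c • f.1 x = _
        rw [h, LinearMap.smul_apply, LinearMap.smul_apply, map_smul, smul_add] }
  by_contra hc
  have hfI : (⟨f, hf⟩ : EH ν σ) ∉ I := hc
  obtain ⟨l, hl, hI⟩ := Submodule.exists_le_ker_of_notMem hfI
  obtain ⟨u, hu, hlu⟩ := tr_perfect ht ht' l
  have h1 : u ∘ₗ d = 0 := by
    refine tr_nondeg fun φ => ?_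
    have hud : Eqv ν ν (u ∘ₗ d) := fun g v => by
      rw [LinearMap.comp_apply, LinearMap.comp_apply, hd, hu]
    rw [tr_pair hud ht φ, LinearMap.comp_assoc]
    have hm : (⟨d ∘ₗ Trc ν ν φ, fun g v => by
        rw [LinearMap.comp_apply, LinearMap.comp_apply, trc_eqv, hd]⟩ : EH ν σ) ∈ I :=
      ⟨Trc ν ν φ, 0, trc_eqv _ _ _, fun g v => by simp, fun x => by simp⟩
    have := hI hm
    rw [LinearMap.mem_ker, hlu] at this
    exact this
  have h2 : d ∘ₗ u = 0 := by
    refine tr_nondeg fun φ => ?_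
    have hdu : Eqv σ σ (d ∘ₗ u) := fun g v => by
      rw [LinearMap.comp_apply, LinearMap.comp_apply, hu, hd]
    rw [LinearMap.trace_comp_comm' φ (d ∘ₗ u), tr_pair' hdu ht' φ]
    have hbd : Eqv ν σ (Trc σ σ φ ∘ₗ d) := fun g v => by
      rw [LinearMap.comp_apply, LinearMap.comp_apply, hd, trc_eqv]
    have h3 := tr_swap hu hbd ht ht'
    have h4 : Trc σ σ φ ∘ₗ (d ∘ₗ u) ∘ₗ t' = (Trc σ σ φ ∘ₗ d) ∘ₗ u ∘ₗ t' := rfl
    rw [h4, ← h3]
    have hm : (⟨Trc σ σ φ ∘ₗ d, hbd⟩ : EH ν σ) ∈ I :=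
      ⟨0, Trc σ σ φ, fun g v => by simp, trc_eqv _ _ _, fun x => by simp⟩
    have := hI hm
    rw [LinearMap.mem_ker, hlu] at this
    exact this
  have h3 : u = 0 := hinj u hu (fun v => LinearMap.congr_fun h2 v)
    (fun x => LinearMap.congr_fun h1 x)
  apply hl
  rw [hlu, h3, LinearMap.zero_comp, map_zero]

end Fld

section Thr

variable {k Z E : Type} [Field k] [CommGroup Z] [Fintype Z] [CommGroup E] [Fintype E]
  {θ : E →* MulAut Z} {V W : Type} [AddCommGroup V] [Module k V] [AddCommGroup W] [Module k W]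

private theorem TA3_choose {A : Type} [Ring A] {p m : ℕ} [Fact p.Prime] [CharP A p] :
    ∀ i < p ^ m, (((p ^ m - 1).choose i : ℕ) : A) = (-1) ^ i
  | 0, _ => by simp
  | i + 1, hi => by
    have h1 := TA3_choose (A := A) (p := p) (m := m) i (by omega)
    have hq : p ^ m = (p ^ m - 1) + 1 := by omega
    have h2 : (p ^ m).choose (i + 1) = (p ^ m - 1).choose i + (p ^ m - 1).choose (i + 1) := by
      conv_lhs => rw [hq]
      exact Nat.choose_succ_succ _ _
    have h3 : (((p ^ m).choose (i + 1) : ℕ) : A) = 0 :=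
      (CharP.cast_eq_zero_iff A p _).2
        ((Fact.out : p.Prime).dvd_choose_pow (Nat.succ_ne_zero i) hi.ne)
    rw [h2, Nat.cast_add, h1] at h3
    rw [pow_succ, mul_neg_one]
    exact eq_neg_of_add_eq_zero_right h3

private theorem TA3_sub {A : Type} [Ring A] {p m : ℕ} [Fact p.Prime] [CharP A p] {x y : A}
    (h : Commute x y) : (x - y) ^ (p ^ m - 1) =
      ∑ i ∈ Finset.range (p ^ m), x ^ i * y ^ (p ^ m - 1 - i) := by
  have hq0 : 0 < p ^ m := pow_pos (Fact.out : p.Prime).pos m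
  have hone : ((-1 : A)) ^ (p ^ m - 1) = 1 := by
    rw [← TA3_choose (A := A) (p := p) (m := m) (p ^ m - 1) (by omega), Nat.choose_self,
      Nat.cast_one]
  rw [sub_eq_add_neg, (h.neg_right).add_pow, Nat.sub_add_cancel hq0]
  refine Finset.sum_congr rfl fun i hi => ?_
  have hi' := Finset.mem_range.1 hi
  rw [TA3_choose i hi', neg_pow y, mul_assoc, mul_assoc]
  congr 1
  rw [(Commute.pow_right (Commute.neg_one_right _) _).eq, ← mul_assoc, ← pow_add,
    Nat.sub_add_cancel (by omega), hone, one_mul]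

/-- MODULE TA3. The polynomial identity behind the threshold lemma, for commuting elements `a, b` of
a ring of characteristic `p`, `q = p^m`, `b^q = 1`, `b'` the inverse of `b`:
`∑_{i<q} a^i b'^i = b ∑_{i<q} (a - 1)^i (b - 1)^(q-1-i)`. PROOF. With `c = a b'`:
`∑ c^i = (c - 1)^(q-1)` (in `F_p[X]`: `(X - 1) ∑_{i<q} X^i = X^q - 1 = (X - 1)^q`, cancel `X - 1`; it
holds for every element of every ring of characteristic `p`, evaluate the polynomial identity).
`c - 1 = (a - b) b'`, so `(c - 1)^(q-1) = (a - b)^(q-1) b'^(q-1) = (a - b)^(q-1) b` as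
`b'^(q-1) = b`. And `(a - b)^(q-1) = ((a-1) - (b-1))^(q-1) = ∑_{i<q} (a-1)^i (b-1)^(q-1-i)`:
again an identity of `F_p[X, Y]`, `(X - Y)^(q-1) = ∑ X^i Y^(q-1-i)`, because both sides times
`X - Y` are `X^q - Y^q` (`Commute.geom_sum₂`/`Commute.mul_geom_sum₂`, `sub_pow_char_pow`); work in
`MvPolynomial` or `Polynomial (Polynomial (ZMod p))` (a domain) and evaluate. -/
theorem thr_id {A : Type} [Ring A] {p m : ℕ} [Fact p.Prime] [CharP A p] {a b b' : A}
    (hab : a * b = b * a) (hbb : b * b' = 1) (hbb' : b' * b = 1) (hq : b ^ p ^ m = 1) :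
    ∑ i ∈ Finset.range (p ^ m), a ^ i * b' ^ i =
      b * ∑ i ∈ Finset.range (p ^ m), (a - 1) ^ i * (b - 1) ^ (p ^ m - 1 - i) := by
  have hq0 : 0 < p ^ m := pow_pos (Fact.out : p.Prime).pos m
  have hab' : Commute a b' := by
    have h1 : b' * (a * b) * b' = b' * (b * a) * b' := by rw [hab]
    have h2 : b' * (a * b) * b' = b' * a := by rw [← mul_assoc, mul_assoc, hbb, mul_one]
    have h3 : b' * (b * a) * b' = a * b' := by rw [← mul_assoc, hbb', one_mul]
    rw [h2, h3] at h1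
    exact h1.symm
  have hbc : Commute b b' := by
    show b * b' = b' * b
    rw [hbb, hbb']
  have h1 : ∑ i ∈ Finset.range (p ^ m), a ^ i * b' ^ i = (a * b' - 1) ^ (p ^ m - 1) := by
    rw [TA3_sub (Commute.one_right (a * b'))]
    refine Finset.sum_congr rfl fun i _ => ?_
    rw [one_pow, mul_one, hab'.mul_pow]
  have h2 : a * b' - 1 = (a - b) * b' := by rw [sub_mul, hbb]
  have h3 : Commute (a - b) b' := hab'.sub_left hbc
  have h4 : b' ^ p ^ m = 1 := by
    have h5 : b ^ p ^ m * b' ^ p ^ m = 1 := by rw [← hbc.mul_pow, hbb, one_pow]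
    rwa [hq, one_mul] at h5
  have h5 : b' ^ (p ^ m - 1) = b := by
    have h6 : b * (b' * b' ^ (p ^ m - 1)) = b := by
      rw [← pow_succ', Nat.sub_add_cancel hq0, h4, mul_one]
    rwa [← mul_assoc, hbb, one_mul] at h6
  have h6 : a - b = (a - 1) - (b - 1) := by abel
  have h7 : Commute (a - 1) (b - 1) :=
    ((show Commute a b from hab).sub_right (Commute.one_right a)).sub_left (Commute.one_left _)
  have h8 : Commute (a - b) b := (show Commute a b from hab).sub_left (Commute.refl b)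
  rw [h1, h2, h3.mul_pow, h5, (h8.pow_left _).eq, h6, TA3_sub h7]

private def TA4_left (T : Module.End k W) : Module.End k (V →ₗ[k] W) where
  toFun ψ := T ∘ₗ ψ
  map_add' _ _ := LinearMap.comp_add _ _ _
  map_smul' _ _ := LinearMap.comp_smul _ _ _

private def TA4_right (S : Module.End k V) : Module.End k (V →ₗ[k] W) where
  toFun ψ := ψ ∘ₗ S
  map_add' _ _ := LinearMap.add_comp _ _ _
  map_smul' _ _ := LinearMap.smul_comp _ _ _

private theorem TA4_left_pow (T : Module.End k W) (L : Module.End k (V →ₗ[k] W))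
    (hL : ∀ ψ, L ψ = T ∘ₗ ψ) (i : ℕ) (ψ : V →ₗ[k] W) : (L ^ i) ψ = (T ^ i) ∘ₗ ψ := by
  induction i generalizing ψ with
  | zero => rfl
  | succ i ih =>
    rw [pow_succ, Module.End.mul_apply, ih, hL, pow_succ]
    rfl

private theorem TA4_right_pow (S : Module.End k V) (L : Module.End k (V →ₗ[k] W))
    (hL : ∀ ψ, L ψ = ψ ∘ₗ S) (i : ℕ) (ψ : V →ₗ[k] W) : (L ^ i) ψ = ψ ∘ₗ (S ^ i) := by
  induction i generalizing ψ with
  | zero => rfl
  | succ i ih =>
    rw [pow_succ, Module.End.mul_apply, ih, hL, pow_succ']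
    rfl

/-- MODULE TA4. THE THRESHOLD LEMMA: a trace maps the kernel of `(z₀ - 1)^a` into the image of
`(z₀ - 1)^(q - a)`, `q = |Z|`; if `φ` has its values in a stable subspace `U`, into `(z₀ - 1)^(q - a) U`. PROOF.
Put `φ' = ∑_{y ∈ E} τ(y) φ σ(y⁻¹)`; every `g ∈ Z ⋊ E` is
`inl z * inr y` in exactly one way (reindex the sum over `Z ⋊ E` by `Z × E`), so
`Trc φ = ∑_z τ(z) φ' σ(z⁻¹) = ∑_{i<q} τ(z₀)^i φ' σ(z₀⁻¹)^i` (`i ↦ z₀^i` is a bijection
`range q → Z`). In the ring `Module.End k (V →ₗ W)` take `a = ` left composition with `τ(z₀)`,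
`b = ` right composition with `σ(z₀)`, `b' = ` right composition with `σ(z₀⁻¹)`; `b^q = 1`; this
ring has characteristic `p` if `V →ₗ W` is not zero (if `Subsingleton (V →ₗ W)` then `Trc φ = 0`; it
may be easier to apply `thr_id` in the polynomial ring and evaluate, or to work directly). By
`thr_id`: `Trc φ = ∑_i (τ(z₀) - 1)^i φ' (σ(z₀) - 1)^(q-1-i) σ(z₀)`. Apply to `v`: the term
`i` vanishes if `q - 1 - i ≥ a` (`σ(z₀)` commutes with `σ(z₀) - 1`), otherwise `i ≥ q - a` and the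
term is `(τ(z₀) - 1)^(q-a)` of an element of `U` (`φ'` has its values in `U`, `U` is stable). -/
theorem threshold {p r : ℕ} (hp : p.Prime) (hch : CharP k p) (hcard : Fintype.card Z = p ^ (r + 1))
    {z₀ : Z} (hgen : ∀ z : Z, z ∈ Subgroup.zpowers z₀) (σ : Representation k (Z ⋊[θ] E) V)
    (τ : Representation k (Z ⋊[θ] E) W) (φ : V →ₗ[k] W) {U : Submodule k W}
    (hU : ∀ g, ∀ w ∈ U, τ g w ∈ U) (hφ : ∀ v, φ v ∈ U) {a : ℕ} (ha : a ≤ Fintype.card Z) {v : V}
    (hv : ((yo σ (.inl z₀)) ^ a) v = 0) :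
    ∃ w ∈ U, Trc σ τ φ v = ((yo τ (.inl z₀)) ^ (Fintype.card Z - a)) w := by
  classical
  have : Fact p.Prime := ⟨hp⟩
  set q := Fintype.card Z with hqdef
  have hord : orderOf z₀ = q := by
    rw [orderOf_eq_card_of_forall_mem_zpowers hgen, Nat.card_eq_fintype_card]
  have hz : z₀ ^ q = 1 := by rw [← hord]; exact pow_orderOf_eq_one z₀
  set T := τ (.inl z₀) with hT
  set S := σ (.inl z₀) with hS
  have hSinv : σ (.inl z₀) * σ (.inl z₀⁻¹) = 1 := by
    rw [← map_mul, ← map_mul, mul_inv_cancel, map_one, map_one]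
  have hSinv' : σ (.inl z₀⁻¹) * σ (.inl z₀) = 1 := by
    rw [← map_mul, ← map_mul, inv_mul_cancel, map_one, map_one]
  have hSq : S ^ q = 1 := by
    rw [hS, ← map_pow, ← map_pow, hz, map_one, map_one]
  -- the trace over `E`
  let φ' : V →ₗ[k] W := ∑ y : E, τ (.inr y) ∘ₗ φ ∘ₗ σ (.inr y⁻¹)
  have hφ'a : ∀ x, φ' x = ∑ y : E, τ (.inr y) (φ (σ (.inr y⁻¹) x)) := fun x => by
    show (∑ y : E, τ (.inr y) ∘ₗ φ ∘ₗ σ (.inr y⁻¹)) x = _
    rw [LinearMap.sum_apply]
    rfl
  have hφ' : ∀ x, φ' x ∈ U := fun x => by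
    rw [hφ'a]
    exact Submodule.sum_mem _ fun y _ => hU _ _ (hφ _)
  -- the trace as a sum over `Z`
  have h1 : ∀ x, Trc σ τ φ x = ∑ z : Z, τ (.inl z) (φ' (σ (.inl z⁻¹) x)) := by
    intro x
    rw [TA1_apply, ← Equiv.sum_comp (SemidirectProduct.equivProd (φ := θ)).symm,
      Fintype.sum_prod_type]
    refine Finset.sum_congr rfl fun z _ => ?_
    rw [hφ'a, map_sum]
    refine Finset.sum_congr rfl fun y _ => ?_
    have h2 : (SemidirectProduct.equivProd (φ := θ)).symm (z, y) =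
        SemidirectProduct.inl z * SemidirectProduct.inr y :=
      SemidirectProduct.mk_eq_inl_mul_inr (φ := θ) y z
    rw [h2, mul_inv_rev, map_mul, map_mul, Module.End.mul_apply, Module.End.mul_apply, ← map_inv,
      ← map_inv]
  have h2 : ∀ x, Trc σ τ φ x = ∑ i ∈ Finset.range q,
      (T ^ i) (φ' (((σ (.inl z₀⁻¹)) ^ i) x)) := by
    intro x
    have himg : Finset.image (fun i => z₀ ^ i) (Finset.range q) = (Finset.univ : Finset Z) := by
      rw [hqdef, ← Nat.card_eq_fintype_card]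
      exact IsCyclic.image_range_card hgen
    rw [h1, ← himg, Finset.sum_image]
    · refine Finset.sum_congr rfl fun i _ => ?_
      rw [hT, map_pow, map_pow, ← inv_pow, map_pow, map_pow]
    · intro i hi j hj hij
      refine pow_injOn_Iio_orderOf ?_ ?_ hij
      · rw [hord]; exact Finset.mem_range.1 (Finset.mem_coe.1 hi)
      · rw [hord]; exact Finset.mem_range.1 (Finset.mem_coe.1 hj)
  -- the identity of the threshold lemma
  have h3 : Trc σ τ φ v = ∑ i ∈ Finset.range q,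
      ((T - 1) ^ i) (φ' (((S - 1) ^ (q - 1 - i)) (S v))) := by
    rcases subsingleton_or_nontrivial (V →ₗ[k] W) with hs | hn
    · have h0 : ∀ (g : V →ₗ[k] W), ∀ x, g x = 0 := fun g x => by
        rw [Subsingleton.elim g 0, LinearMap.zero_apply]
      rw [h0, Finset.sum_eq_zero]
      intro i _
      rw [h0, map_zero]
    · have : CharP (Module.End k (V →ₗ[k] W)) p :=
        charP_of_injective_algebraMap (FaithfulSMul.algebraMap_injective k _) p
      let A1 : Module.End k (V →ₗ[k] W) := TA4_left T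
      let B1 : Module.End k (V →ₗ[k] W) := TA4_right S
      let B2 : Module.End k (V →ₗ[k] W) := TA4_right (σ (.inl z₀⁻¹))
      have hA1 : ∀ i ψ, (A1 ^ i) ψ = (T ^ i) ∘ₗ ψ := fun i ψ => TA4_left_pow T A1 (fun _ => rfl) i ψ
      have hA1' : ∀ i ψ, ((A1 - 1) ^ i) ψ = ((T - 1) ^ i) ∘ₗ ψ := fun i ψ =>
        TA4_left_pow (T - 1) (A1 - 1) (fun ψ => by
          rw [LinearMap.sub_apply, LinearMap.sub_comp]; rfl) i ψ
      have hB1 : ∀ i ψ, (B1 ^ i) ψ = ψ ∘ₗ (S ^ i) := fun i ψ =>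
        TA4_right_pow S B1 (fun _ => rfl) i ψ
      have hB2 : ∀ i ψ, (B2 ^ i) ψ = ψ ∘ₗ ((σ (.inl z₀⁻¹)) ^ i) := fun i ψ =>
        TA4_right_pow _ B2 (fun _ => rfl) i ψ
      have hB1' : ∀ i ψ, ((B1 - 1) ^ i) ψ = ψ ∘ₗ ((S - 1) ^ i) := fun i ψ =>
        TA4_right_pow (S - 1) (B1 - 1) (fun ψ => by
          rw [LinearMap.sub_apply, LinearMap.comp_sub]; rfl) i ψ
      have hid := thr_id (A := Module.End k (V →ₗ[k] W)) (p := p) (m := r + 1) (a := A1) (b := B1)
        (b' := B2) rfl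
        (LinearMap.ext fun ψ => by
          show (ψ ∘ₗ σ (.inl z₀⁻¹)) ∘ₗ S = ψ
          have : σ (.inl z₀⁻¹) ∘ₗ S = LinearMap.id := hSinv'
          rw [LinearMap.comp_assoc, this, LinearMap.comp_id])
        (LinearMap.ext fun ψ => by
          show (ψ ∘ₗ S) ∘ₗ σ (.inl z₀⁻¹) = ψ
          have : S ∘ₗ σ (.inl z₀⁻¹) = LinearMap.id := hSinv
          rw [LinearMap.comp_assoc, this, LinearMap.comp_id])
        (LinearMap.ext fun ψ => by
          rw [← hcard, hB1, hSq]; rfl)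
      rw [← hcard] at hid
      have h4 := LinearMap.congr_fun (LinearMap.congr_fun hid φ') v
      rw [h2]
      have h5 : ((∑ i ∈ Finset.range q, A1 ^ i * B2 ^ i) φ') v = ∑ i ∈ Finset.range q,
          (T ^ i) (φ' (((σ (.inl z₀⁻¹)) ^ i) v)) := by
        rw [LinearMap.sum_apply, LinearMap.sum_apply]
        refine Finset.sum_congr rfl fun i _ => ?_
        rw [Module.End.mul_apply, hA1, hB2]
        rfl
      have h6 : ((B1 * ∑ i ∈ Finset.range q, (A1 - 1) ^ i * (B1 - 1) ^ (q - 1 - i)) φ') v =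
          ∑ i ∈ Finset.range q, ((T - 1) ^ i) (φ' (((S - 1) ^ (q - 1 - i)) (S v))) := by
        rw [Module.End.mul_apply]
        show ((∑ i ∈ Finset.range q, (A1 - 1) ^ i * (B1 - 1) ^ (q - 1 - i)) φ') (S v) = _
        rw [LinearMap.sum_apply, LinearMap.sum_apply]
        refine Finset.sum_congr rfl fun i _ => ?_
        rw [Module.End.mul_apply, hA1', hB1']
        rfl
      rw [← h5, h4, h6]
  -- the conclusion
  have hcomm : ∀ (j : ℕ) (x : V), ((S - 1 : Module.End k V) ^ j) (S x) =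
      S (((S - 1 : Module.End k V) ^ j) x) := fun j x => by
    have : Commute ((S - 1) ^ j) S := ((Commute.refl S).sub_left (Commute.one_left S)).pow_left j
    rw [← Module.End.mul_apply, this.eq, Module.End.mul_apply]
  have hTU : ∀ j : ℕ, ∀ w ∈ U, ((T - 1 : Module.End k W) ^ j) w ∈ U := by
    intro j
    induction j with
    | zero => intro w hw; simpa using hw
    | succ j ih =>
      intro w hw
      rw [pow_succ', Module.End.mul_apply, LinearMap.sub_apply, Module.End.one_apply]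
      exact U.sub_mem (hU _ _ (ih w hw)) (ih w hw)
  refine ⟨∑ i ∈ Finset.range q, if q - a ≤ i then
    ((T - 1) ^ (i - (q - a))) (φ' (((S - 1) ^ (q - 1 - i)) (S v))) else 0, ?_, ?_⟩
  · refine Submodule.sum_mem _ fun i _ => ?_
    split_ifs
    · exact hTU _ _ (hφ' _)
    · exact U.zero_mem
  · rw [h3, map_sum]
    refine Finset.sum_congr rfl fun i hi => ?_
    have hi' := Finset.mem_range.1 hi
    show _ = ((T - 1) ^ (q - a)) _
    split_ifs with hia
    · rw [← Module.End.mul_apply ((T - 1) ^ (q - a)), ← pow_add, Nat.add_sub_cancel' hia]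
    · have h7 : ((S - 1) ^ (q - 1 - i)) v = 0 := by
        have h8 : q - 1 - i = (q - 1 - i - a) + a := by omega
        have h9 : ((S - 1) ^ a) v = 0 := hv
        rw [h8, pow_add, Module.End.mul_apply, h9, map_zero]
      rw [hcomm, h7, map_zero, map_zero, map_zero, map_zero]

end Thr

end Pool.Agent.FbT
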